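import Mathlib

set_option autoImplicit false

namespace Pool.Agent.Lib.MP_cdd51b_co

open Finset

/-- A latin cube of order `n`. -/
structure Cube (n : ℕ) where
  L : Fin n → Fin n → Fin n → Fin n
  h1 : ∀ j k : Fin n, Function.Injective (fun i => L i j k)
  h2 : ∀ i k : Fin n, Function.Injective (fun j => L i j k)
  h3 : ∀ i j : Fin n, Function.Injective (fun k => L i j k)

abbrev Cell (n : ℕ) := Fin n × Fin n × Fin n
abbrev Vx (n : ℕ) := Fin 4 × Fin n

variable {n : ℕ}

namespace Cube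

variable (Q : Cube n)

/-- The four coordinates of a cell: three positions and the symbol. -/
def co (e : Cell n) (i : Fin 4) : Fin n :=
  match i with
  | 0 => e.1
  | 1 => e.2.1
  | 2 => e.2.2
  | 3 => Q.L e.1 e.2.1 e.2.2

@[simp] lemma co0 (e : Cell n) : Q.co e 0 = e.1 := rfl
@[simp] lemma co1 (e : Cell n) : Q.co e 1 = e.2.1 := rfl
@[simp] lemma co2 (e : Cell n) : Q.co e 2 = e.2.2 := rfl
@[simp] lemma co3 (e : Cell n) : Q.co e 3 = Q.L e.1 e.2.1 e.2.2 := rfl

/-- The unique first coordinate completing `y, z, w`. -/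
noncomputable def sx (y z w : Fin n) : Fin n :=
  (Equiv.ofBijective (fun x => Q.L x y z) (Finite.injective_iff_bijective.1 (Q.h1 y z))).symm w

@[simp] lemma L_sx (y z w : Fin n) : Q.L (Q.sx y z w) y z = w :=
  (Equiv.ofBijective (fun x => Q.L x y z)
    (Finite.injective_iff_bijective.1 (Q.h1 y z))).apply_symm_apply w

@[simp] lemma sx_L (x y z : Fin n) : Q.sx y z (Q.L x y z) = x :=
  Q.h1 y z (by simp)

lemma sx_eq_iff {x y z w : Fin n} : Q.sx y z w = x ↔ Q.L x y z = w := by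
  constructor
  · rintro rfl; simp
  · rintro rfl; simp

lemma sx_inj_w (y z : Fin n) : Function.Injective (fun w => Q.sx y z w) := by
  intro a b h
  have h1 := Q.L_sx y z a
  have h2 := Q.L_sx y z b
  simp only at h
  rw [h] at h1; rw [← h1, h2]

lemma sx_inj_z (y w : Fin n) : Function.Injective (fun z => Q.sx y z w) := by
  intro a b h
  have h1 := Q.L_sx y a w
  have h2 := Q.L_sx y b w
  simp only at h
  rw [h] at h1
  exact Q.h3 _ _ (h1.trans h2.symm)

/-- The vertex set of a cell. -/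
def verts (e : Cell n) : Finset (Vx n) := univ.image (fun i => (i, Q.co e i))

lemma mem_verts {e : Cell n} {u : Vx n} : u ∈ Q.verts e ↔ Q.co e u.1 = u.2 := by
  obtain ⟨i, a⟩ := u
  simp only [verts, mem_image, mem_univ, true_and, Prod.mk.injEq]
  constructor
  · rintro ⟨j, rfl, h⟩; exact h
  · intro h; exact ⟨i, rfl, h⟩

lemma card_verts_le (e : Cell n) : (Q.verts e).card ≤ 4 :=
  card_image_le.trans (by simp)

/-- A matching: a partial transversal. -/
def IsM (M : Finset (Cell n)) : Prop :=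
  ∀ e ∈ M, ∀ f ∈ M, e ≠ f → ∀ i, Q.co e i ≠ Q.co f i

/-- The vertex `u` is covered by `M`. -/
def Cov (M : Finset (Cell n)) (u : Vx n) : Prop := ∃ e ∈ M, Q.co e u.1 = u.2

variable {Q}

lemma IsM.mono {M N : Finset (Cell n)} (h : Q.IsM M) (hs : N ⊆ M) : Q.IsM N :=
  fun e he f hf => h e (hs he) f (hs hf)

lemma IsM.eq_of {M : Finset (Cell n)} (h : Q.IsM M) {e f : Cell n} (he : e ∈ M) (hf : f ∈ M)
    {i : Fin 4} (hi : Q.co e i = Q.co f i) : e = f := by
  by_contra hne
  exact h e he f hf hne i hi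

lemma Cov.mono {M N : Finset (Cell n)} {u : Vx n} (h : Q.Cov N u) (hs : N ⊆ M) : Q.Cov M u := by
  obtain ⟨e, he, h⟩ := h
  exact ⟨e, hs he, h⟩

lemma cov_union {M N : Finset (Cell n)} {u : Vx n} :
    Q.Cov (M ∪ N) u ↔ Q.Cov M u ∨ Q.Cov N u := by
  simp only [Cov, mem_union]
  constructor
  · rintro ⟨e, he | he, h⟩
    · exact Or.inl ⟨e, he, h⟩
    · exact Or.inr ⟨e, he, h⟩
  · rintro (⟨e, he, h⟩ | ⟨e, he, h⟩)
    · exact ⟨e, Or.inl he, h⟩
    · exact ⟨e, Or.inr he, h⟩

lemma cov_insert {M : Finset (Cell n)} {e : Cell n} {u : Vx n} :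
    Q.Cov (insert e M) u ↔ Q.co e u.1 = u.2 ∨ Q.Cov M u := by
  simp [Cov]

lemma IsM.insert {M : Finset (Cell n)} (h : Q.IsM M) {e : Cell n}
    (he : ∀ i, ¬ Q.Cov M (i, Q.co e i)) : Q.IsM (insert e M) ∧ e ∉ M := by
  refine ⟨?_, fun hm => he 0 ⟨e, hm, rfl⟩⟩
  intro a ha b hb hab i
  rcases mem_insert.1 ha with ha' | ha'
  · rcases mem_insert.1 hb with hb' | hb'
    · exact absurd (ha'.trans hb'.symm) hab
    · subst ha'; exact fun hh => he i ⟨b, hb', hh.symm⟩
  · rcases mem_insert.1 hb with hb' | hb'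
    · subst hb'; exact fun hh => he i ⟨a, ha', hh⟩
    · exact h a ha' b hb' hab i

open Classical in
/-- The number of covered vertices of one part equals the size of a matching. -/
lemma IsM.card_cov {M : Finset (Cell n)} (h : Q.IsM M) (i : Fin 4) :
    (univ.filter (fun a => Q.Cov M (i, a))).card = M.card := by
  have : univ.filter (fun a => Q.Cov M (i, a)) = M.image (fun e => Q.co e i) := by
    ext a; simp [Cov]
  rw [this, card_image_of_injOn]
  intro e he f hf hef
  exact h.eq_of he hf hef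

variable (Q)

/-- An exchange: using the free vertices `In` and the edges `E` of any matching one can change
the size by `d` and make `Out` free. -/
def Exch (In : Finset (Vx n)) (E : Finset (Cell n)) (Out : Finset (Vx n)) (d : ℤ) : Prop :=
  (∀ u ∈ Out, u ∈ In ∨ Q.Cov E u) ∧
  ∀ M, Q.IsM M → E ⊆ M → (∀ u ∈ In, ¬ Q.Cov M u) →
    ∃ M', Q.IsM M' ∧ (M'.card : ℤ) = M.card + d ∧ M \ E ⊆ M' ∧ (∀ u ∈ Out, ¬ Q.Cov M' u) ∧
      (∀ u, Q.Cov M' u → Q.Cov M u ∨ u ∈ In)

variable {Q}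

lemma Exch.refl (In : Finset (Vx n)) : Q.Exch In ∅ In 0 :=
  ⟨fun _ h => Or.inl h, fun M hM _ hI => ⟨M, hM, by simp, by simp, hI, fun _ h => Or.inl h⟩⟩

lemma Exch.weaken {In In' Out Out' : Finset (Vx n)} {E : Finset (Cell n)} {d : ℤ}
    (h : Q.Exch In E Out d) (hI : In ⊆ In') (hO : Out' ⊆ Out) : Q.Exch In' E Out' d := by
  refine ⟨fun u hu => (h.1 u (hO hu)).imp_left (fun h => hI h), fun M hM hE hF => ?_⟩
  obtain ⟨M', h1, h2, h3, h4, h5⟩ := h.2 M hM hE (fun u hu => hF u (hI hu))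
  exact ⟨M', h1, h2, h3, fun u hu => h4 u (hO hu), fun u hu => (h5 u hu).imp_right (fun h => hI h)⟩

lemma Exch.seq {In Mid Out : Finset (Vx n)} {E1 E2 : Finset (Cell n)} {d1 d2 : ℤ}
    (h1 : Q.Exch In E1 Mid d1) (h2 : Q.Exch Mid E2 Out d2) (hd : Disjoint E1 E2) :
    Q.Exch In (E1 ∪ E2) Out (d1 + d2) := by
  refine ⟨fun u hu => ?_, fun M hM hE hF => ?_⟩
  · rcases h2.1 u hu with h | h
    · rcases h1.1 u h with h | h
      · exact Or.inl h
      · exact Or.inr (cov_union.2 (Or.inl h))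
    · exact Or.inr (cov_union.2 (Or.inr h))
  · obtain ⟨M1, a1, a2, a3, a4, a5⟩ := h1.2 M hM (subset_union_left.trans hE) hF
    have hE2 : E2 ⊆ M1 := fun e he =>
      a3 (mem_sdiff.2 ⟨hE (mem_union_right _ he), fun h => disjoint_left.1 hd h he⟩)
    obtain ⟨M2, b1, b2, b3, b4, b5⟩ := h2.2 M1 a1 hE2 a4
    refine ⟨M2, b1, by rw [b2, a2]; ring, fun e he => ?_, b4, fun u hu => ?_⟩
    · rw [mem_sdiff, mem_union, not_or] at he
      exact b3 (mem_sdiff.2 ⟨a3 (mem_sdiff.2 ⟨he.1, he.2.1⟩), he.2.2⟩)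
    · rcases b5 u hu with h | h
      · exact a5 u h
      · rcases h1.1 u h with h | h
        · exact Or.inr h
        · exact Or.inl (h.mono (subset_union_left.trans hE))

lemma Exch.par {In1 In2 Out1 Out2 : Finset (Vx n)} {E1 E2 : Finset (Cell n)} {d1 d2 : ℤ}
    (h1 : Q.Exch In1 E1 Out1 d1) (h2 : Q.Exch In2 E2 Out2 d2) (hI : Disjoint In1 In2)
    (hd : Disjoint E1 E2) : Q.Exch (In1 ∪ In2) (E1 ∪ E2) (Out1 ∪ Out2) (d1 + d2) := by
  refine ⟨fun u hu => ?_, fun M hM hE hF => ?_⟩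
  · rcases mem_union.1 hu with hu | hu
    · rcases h1.1 u hu with h | h
      · exact Or.inl (mem_union_left _ h)
      · exact Or.inr (cov_union.2 (Or.inl h))
    · rcases h2.1 u hu with h | h
      · exact Or.inl (mem_union_right _ h)
      · exact Or.inr (cov_union.2 (Or.inr h))
  · obtain ⟨M1, a1, a2, a3, a4, a5⟩ :=
      h1.2 M hM (subset_union_left.trans hE) (fun u hu => hF u (mem_union_left _ hu))
    have hE2 : E2 ⊆ M1 := fun e he =>
      a3 (mem_sdiff.2 ⟨hE (mem_union_right _ he), fun h => disjoint_left.1 hd h he⟩)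
    have hF2 : ∀ u ∈ In2, ¬ Q.Cov M1 u := fun u hu hc => by
      rcases a5 u hc with h | h
      · exact hF u (mem_union_right _ hu) h
      · exact disjoint_left.1 hI h hu
    obtain ⟨M2, b1, b2, b3, b4, b5⟩ := h2.2 M1 a1 hE2 hF2
    refine ⟨M2, b1, by rw [b2, a2]; ring, fun e he => ?_, fun u hu hc => ?_, fun u hu => ?_⟩
    · rw [mem_sdiff, mem_union, not_or] at he
      exact b3 (mem_sdiff.2 ⟨a3 (mem_sdiff.2 ⟨he.1, he.2.1⟩), he.2.2⟩)
    · rcases mem_union.1 hu with hu | hu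
      · rcases b5 u hc with h | h
        · exact a4 u hu h
        · rcases h1.1 u hu with h' | h'
          · exact disjoint_left.1 hI h' h
          · exact hF u (mem_union_right _ h) (h'.mono (subset_union_left.trans hE))
      · exact b4 u hu hc
    · rcases b5 u hu with h | h
      · exact (a5 u h).imp_right (fun h => mem_union_left _ h)
      · exact Or.inr (mem_union_right _ h)

lemma Exch.remove (e : Cell n) : Q.Exch ∅ {e} (Q.verts e) (-1) := by
  refine ⟨fun u hu => Or.inr ⟨e, mem_singleton_self e, Q.mem_verts.1 hu⟩, fun M hM hE _ => ?_⟩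
  have he : e ∈ M := hE (mem_singleton_self e)
  refine ⟨M.erase e, hM.mono (erase_subset _ _), ?_, ?_, ?_, ?_⟩
  · have := card_erase_add_one he
    omega
  · intro f hf
    rw [mem_sdiff, mem_singleton] at hf
    exact mem_erase.2 ⟨hf.2, hf.1⟩
  · rintro u hu ⟨f, hf, hfu⟩
    rw [mem_erase] at hf
    exact hf.1 (hM.eq_of hf.2 he (hfu.trans (Q.mem_verts.1 hu).symm))
  · exact fun u hu => Or.inl (hu.mono (erase_subset _ _))

lemma Exch.add (e : Cell n) : Q.Exch (Q.verts e) ∅ ∅ 1 := by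
  refine ⟨by simp, fun M hM _ hF => ?_⟩
  obtain ⟨h1, h2⟩ := hM.insert (e := e) (fun i => hF _ (Q.mem_verts.2 rfl))
  refine ⟨insert e M, h1, by rw [card_insert_of_notMem h2]; push_cast; ring, ?_, by simp, ?_⟩
  · intro f hf; exact mem_insert_of_mem (mem_sdiff.1 hf).1
  · intro u hu
    rcases cov_insert.1 hu with h | h
    · exact Or.inr (Q.mem_verts.2 h)
    · exact Or.inl h

lemma Exch.step {In Mid In2 Out2 Out : Finset (Vx n)} {E1 E2 : Finset (Cell n)} {d1 d2 : ℤ}
    (h1 : Q.Exch In E1 Mid d1) (h2 : Q.Exch In2 E2 Out2 d2) (hI : In2 ⊆ Mid)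
    (hd : Disjoint E1 E2) (hO : Out ⊆ Out2 ∪ (Mid \ In2)) :
    Q.Exch In (E1 ∪ E2) Out (d1 + d2) := by
  have h3 := h2.par (Exch.refl (Mid \ In2)) disjoint_sdiff (disjoint_empty_right _)
  rw [union_empty, add_zero] at h3
  exact h1.seq (h3.weaken (union_subset hI sdiff_subset) hO) hd

/-- Remove the edge `e` and add the edge `f`. -/
lemma Exch.swap {In Mid Out : Finset (Vx n)} {E : Finset (Cell n)} {d : ℤ}
    (h : Q.Exch In E Mid d) {e f : Cell n} (he : e ∉ E) (hf : Q.verts f ⊆ Q.verts e ∪ Mid)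
    (hO : Out ⊆ (Q.verts e ∪ Mid) \ Q.verts f) : Q.Exch In (insert e E) Out d := by
  have h1 := h.step (Exch.remove e) (empty_subset _) (disjoint_singleton_right.2 he)
    (Out := Q.verts e ∪ Mid) (by simp)
  have h2 := h1.step (Exch.add f) hf (disjoint_empty_right _) (Out := Out) (by simpa using hO)
  have e1 : E ∪ {e} ∪ ∅ = insert e E := by ext; simp
  have e2 : d + -1 + 1 = d := by ring
  rwa [e1, e2] at h2

lemma Exch.out_disj {In1 In2 Out1 Out2 : Finset (Vx n)} {E1 E2 : Finset (Cell n)} {d1 d2 : ℤ}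
    (h1 : Q.Exch In1 E1 Out1 d1) (h2 : Q.Exch In2 E2 Out2 d2) (hI : Disjoint In1 In2)
    (hd : Disjoint E1 E2) {M : Finset (Cell n)} (hM : Q.IsM M) (hE1 : E1 ⊆ M) (hE2 : E2 ⊆ M)
    (hF1 : ∀ u ∈ In1, ¬ Q.Cov M u) (hF2 : ∀ u ∈ In2, ¬ Q.Cov M u) : Disjoint Out1 Out2 := by
  rw [disjoint_left]
  intro u a b
  rcases h1.1 u a with a | a <;> rcases h2.1 u b with b | b
  · exact disjoint_left.1 hI a b
  · exact hF1 u a (b.mono hE2)
  · exact hF2 u b (a.mono hE1)
  · obtain ⟨e, he, a⟩ := a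
    obtain ⟨f, hf, b⟩ := b
    have := hM.eq_of (hE1 he) (hE2 hf) (a.trans b.symm)
    subst this
    exact disjoint_left.1 hd he hf

end Cube

/-- The part-`i` projection of a vertex set. -/
def pr (i : Fin 4) (D : Finset (Vx n)) : Finset (Fin n) := univ.filter (fun a => (i, a) ∈ D)

@[simp] lemma mem_pr {i : Fin 4} {D : Finset (Vx n)} {a : Fin n} : a ∈ pr i D ↔ (i, a) ∈ D := by
  simp [pr]

lemma card_pr_le (i : Fin 4) (D : Finset (Vx n)) : (pr i D).card ≤ D.card :=
  card_le_card_of_injOn (fun a => (i, a)) (fun a ha => by simpa using ha)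
    (fun a _ b _ h => by simpa using h)

/-- Pairs whose image under a map injective in the second argument lies in `A`. -/
lemma card_pairs_le (φ : Fin n → Fin n → Fin n) (h : ∀ y, Function.Injective (φ y))
    (A : Finset (Fin n)) :
    (univ.filter (fun p : Fin n × Fin n => φ p.1 p.2 ∈ A)).card ≤ n * A.card := by
  have : (univ.filter (fun p : Fin n × Fin n => φ p.1 p.2 ∈ A)).card
      ≤ ((univ : Finset (Fin n)) ×ˢ A).card := by
    apply card_le_card_of_injOn (fun p => (p.1, φ p.1 p.2))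
    · intro p hp; simpa using hp
    · intro p _ p' _ hh
      simp only [Prod.mk.injEq] at hh
      obtain ⟨h1, h2⟩ := hh
      rw [← h1] at h2
      exact Prod.ext h1 (h _ h2)
  simpa using this

lemma card_pairs_le' (φ : Fin n → Fin n → Fin n) (h : ∀ z, Function.Injective (fun y => φ y z))
    (A : Finset (Fin n)) :
    (univ.filter (fun p : Fin n × Fin n => φ p.1 p.2 ∈ A)).card ≤ n * A.card := by
  have : (univ.filter (fun p : Fin n × Fin n => φ p.1 p.2 ∈ A)).card
      ≤ ((univ : Finset (Fin n)) ×ˢ A).card := by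
    apply card_le_card_of_injOn (fun p => (p.2, φ p.1 p.2))
    · intro p hp; simpa using hp
    · intro p _ p' _ hh
      simp only [Prod.mk.injEq] at hh
      obtain ⟨h1, h2⟩ := hh
      rw [← h1] at h2
      exact Prod.ext (h _ h2) h1
  simpa using this

end Pool.Agent.Lib.MP_cdd51b_co
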