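import Mathlib

set_option autoImplicit false

namespace Pool.Agent.Lib.MP_cdd51b_co

open Finset

section Box

variable {ι V : Type*} [Fintype ι] [DecidableEq ι] [DecidableEq V]

open Classical in
/-- The points of the box `S` outside the target `T`. -/
noncomputable def bad (T : (ι → V) → Prop) (S : ι → Finset V) : Finset (ι → V) :=
  (Fintype.piFinset S).filter (fun ω => ¬ T ω)

/-- At most an `a`-fraction of the box `S` misses the target `T`. -/
def Bd (T : (ι → V) → Prop) (S : ι → Finset V) (a : ℝ) : Prop :=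
  ((bad T S).card : ℝ) ≤ a * (Fintype.piFinset S).card

variable {T : (ι → V) → Prop}

lemma mem_bad {S : ι → Finset V} {ω : ι → V} : ω ∈ bad T S ↔ (∀ x, ω x ∈ S x) ∧ ¬ T ω := by
  classical
  simp [bad]

lemma Bd.mono {S : ι → Finset V} {a b : ℝ} (h : Bd T S a) (hab : a ≤ b) : Bd T S b :=
  h.trans (mul_le_mul_of_nonneg_right hab (Nat.cast_nonneg _))

lemma Bd.one {S : ι → Finset V} {a : ℝ} (ha : 1 ≤ a) : Bd T S a := by
  classical
  have : (bad T S).card ≤ (Fintype.piFinset S).card := card_le_card (filter_subset _ _)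
  have h2 : ((bad T S).card : ℝ) ≤ (Fintype.piFinset S).card := by exact_mod_cast this
  unfold Bd
  nlinarith [Nat.cast_nonneg (α := ℝ) (Fintype.piFinset S).card]

lemma Bd.of_holds {S : ι → Finset V} {a : ℝ} (ha : 0 ≤ a)
    (h : ∀ ω : ι → V, (∀ x, ω x ∈ S x) → T ω) : Bd T S a := by
  have : bad T S = ∅ := by
    rw [eq_empty_iff_forall_notMem]
    intro ω hω
    rw [mem_bad] at hω
    exact hω.2 (h ω hω.1)
  unfold Bd
  rw [this]
  simp only [card_empty, Nat.cast_zero]
  positivity

lemma card_box_update (S : ι → Finset V) (x : ι) (P : Finset V) :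
    (Fintype.piFinset (Function.update S x P)).card
      = P.card * ∏ y ∈ univ.erase x, (S y).card := by
  rw [Fintype.card_piFinset, ← mul_prod_erase univ _ (mem_univ x)]
  congr 1
  · simp
  · apply prod_congr rfl
    intro y hy
    rw [Function.update_of_ne (mem_erase.1 hy).1]

lemma card_box (S : ι → Finset V) (x : ι) :
    (Fintype.piFinset S).card = (S x).card * ∏ y ∈ univ.erase x, (S y).card := by
  rw [← card_box_update, Function.update_eq_self]

lemma mem_update_iff {S : ι → Finset V} {x : ι} {P : Finset V} {ω : ι → V} :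
    (∀ y, ω y ∈ Function.update S x P y) ↔ ω x ∈ P ∧ ∀ y, y ≠ x → ω y ∈ S y := by
  constructor
  · intro h
    refine ⟨by simpa using h x, fun y hy => ?_⟩
    have := h y
    rwa [Function.update_of_ne hy] at this
  · rintro ⟨h1, h2⟩ y
    by_cases hy : y = x
    · subst hy; simpa using h1
    · rw [Function.update_of_ne hy]; exact h2 y hy

lemma card_bad_split (S : ι → Finset V) (x : ι) (P : Finset V) :
    (bad T S).card ≤ (∑ v ∈ P, (bad T (Function.update S x {v})).card)
      + (bad T (Function.update S x (S x \ P))).card := by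
  classical
  have : bad T S ⊆ (P.biUnion (fun v => bad T (Function.update S x {v})))
      ∪ bad T (Function.update S x (S x \ P)) := by
    intro ω hω
    rw [mem_bad] at hω
    by_cases h : ω x ∈ P
    · refine mem_union_left _ (mem_biUnion.2 ⟨ω x, h, mem_bad.2 ⟨?_, hω.2⟩⟩)
      exact mem_update_iff.2 ⟨mem_singleton_self _, fun y _ => hω.1 y⟩
    · refine mem_union_right _ (mem_bad.2 ⟨?_, hω.2⟩)
      exact mem_update_iff.2 ⟨mem_sdiff.2 ⟨hω.1 x, h⟩, fun y _ => hω.1 y⟩
  exact (card_le_card this).trans ((card_union_le _ _).trans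
    (Nat.add_le_add_right card_biUnion_le _))

/-- Law of total probability for revealing one coordinate. -/
lemma Bd.split {S : ι → Finset V} {x : ι} {P : Finset V} (hP : P ⊆ S x) {a b c : ℝ}
    (h1 : ∀ v ∈ P, Bd T (Function.update S x {v}) a)
    (h2 : Bd T (Function.update S x (S x \ P)) b)
    (hc : (P.card : ℝ) * a + ((S x).card - P.card) * b ≤ (S x).card * c) : Bd T S c := by
  have h0 := card_bad_split (T := T) S x P
  set R : ℝ := ((∏ y ∈ univ.erase x, (S y).card : ℕ) : ℝ) with hR
  have hR0 : 0 ≤ R := Nat.cast_nonneg _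
  have e1 : (∑ v ∈ P, ((bad T (Function.update S x {v})).card : ℝ)) ≤ P.card * (a * R) := by
    rw [← nsmul_eq_mul, ← sum_const]
    apply sum_le_sum
    intro v hv
    have := h1 v hv
    unfold Bd at this
    rw [card_box_update] at this
    simpa [hR] using this
  have e2 : ((bad T (Function.update S x (S x \ P))).card : ℝ)
      ≤ b * (((S x).card - P.card) * R) := by
    unfold Bd at h2
    rw [card_box_update, card_sdiff_of_subset hP, Nat.cast_mul,
      Nat.cast_sub (card_le_card hP)] at h2
    exact h2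
  unfold Bd
  rw [card_box S x, Nat.cast_mul, ← hR]
  have h0' : ((bad T S).card : ℝ) ≤ (∑ v ∈ P, ((bad T (Function.update S x {v})).card : ℝ))
      + (bad T (Function.update S x (S x \ P))).card := by exact_mod_cast h0
  have := mul_le_mul_of_nonneg_right hc hR0
  nlinarith

/-- Chernoff-type loop in continuation form. -/
lemma Bd.loop {σ : Type*} (Sof : σ → ι → Finset V) (P : ℕ → ℕ → σ → Prop) (a μ : ℝ)
    (ha : 0 ≤ a) (hμ : 0 ≤ μ) (h0 : ∀ N s, P N 0 s → Bd T (Sof s) a)
    (hstep : ∀ N j s, P (N + 1) (j + 1) s → ∀ A : ℝ, 0 ≤ A →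
      (∀ s', P N j s' → Bd T (Sof s') (a + A)) →
      (∀ s', P N (j + 1) s' → Bd T (Sof s') (a + 2 * A)) →
      (∀ s', P N (j + 2) s' → Bd T (Sof s') (a + 4 * A)) →
      Bd T (Sof s) (a + 2 * A * μ)) :
    ∀ N j s, P N j s → Bd T (Sof s) (a + 2 ^ j * μ ^ N) := by
  intro N
  induction N with
  | zero =>
    intro j s _
    apply Bd.one
    have : (1 : ℝ) ≤ 2 ^ j := one_le_pow₀ (by norm_num)
    simp only [pow_zero, mul_one]
    linarith
  | succ N ih =>
    intro j s hs
    cases j with
    | zero => exact (h0 _ s hs).mono (by simp only [le_add_iff_nonneg_right]; positivity)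
    | succ j =>
      have := hstep N j s hs (2 ^ j * μ ^ N) (by positivity) (fun s' h => ih j s' h)
        (fun s' h => (ih (j + 1) s' h).mono (le_of_eq (by ring)))
        (fun s' h => (ih (j + 2) s' h).mono (le_of_eq (by ring)))
      exact this.mono (le_of_eq (by ring))

end Box

end Pool.Agent.Lib.MP_cdd51b_co
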