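import Mathlib

set_option autoImplicit false

namespace Pool.Agent.Lib.MP_cdd51b_co

open Finset

variable {V : Type*} [DecidableEq V]

/-- Number of edges from `A` to `B`. -/
def ee (N : V → Finset V) (A B : Finset V) : ℕ := ∑ a ∈ A, (N a ∩ B).card

lemma ee_eq (N : V → Finset V) (A B : Finset V) :
    ee N A B = ∑ a ∈ A, ∑ b ∈ B, if b ∈ N a then 1 else 0 := by
  unfold ee
  refine sum_congr rfl (fun a _ => ?_)
  rw [← card_filter, inter_comm, ← filter_mem_eq_inter]

lemma ee_comm {N : V → Finset V} (hs : ∀ a b, b ∈ N a → a ∈ N b) (A B : Finset V) :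
    ee N A B = ee N B A := by
  rw [ee_eq, ee_eq, sum_comm]
  refine sum_congr rfl (fun b _ => sum_congr rfl (fun a _ => ?_))
  exact if_congr ⟨hs a b, hs b a⟩ rfl rfl

lemma ee_union_left (N : V → Finset V) {A A' : Finset V} (h : Disjoint A A') (B : Finset V) :
    ee N (A ∪ A') B = ee N A B + ee N A' B := sum_union h

lemma ee_union_right (N : V → Finset V) (A : Finset V) {B B' : Finset V} (h : Disjoint B B') :
    ee N A (B ∪ B') = ee N A B + ee N A B' := by
  simp only [ee_eq, sum_union h, sum_add_distrib]

lemma ee_mono_right (N : V → Finset V) (A : Finset V) {B B' : Finset V} (h : B ⊆ B') :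
    ee N A B ≤ ee N A B' :=
  sum_le_sum (fun _ _ => card_le_card (inter_subset_inter subset_rfl h))

lemma ee_mono_left (N : V → Finset V) {A A' : Finset V} (h : A ⊆ A') (B : Finset V) :
    ee N A B ≤ ee N A' B := sum_le_sum_of_subset h

lemma ee_union_right_le (N : V → Finset V) (A B B' : Finset V) :
    ee N A (B ∪ B') ≤ ee N A B + ee N A B' := by
  unfold ee
  rw [← sum_add_distrib]
  exact sum_le_sum (fun a _ => by rw [inter_union_distrib_left]; exact card_union_le _ _)

lemma ee_le (N : V → Finset V) (A B : Finset V) (c : ℕ) (h : ∀ a ∈ A, (N a ∩ B).card ≤ c) :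
    ee N A B ≤ A.card * c := sum_le_card_nsmul _ _ _ h

/-- Every regular graph has a dense expanding piece. -/
lemma exists_cluster [Fintype V] [Nonempty V] (N : V → Finset V) (hs : ∀ a b, b ∈ N a → a ∈ N b)
    (d k lam : ℕ) (hk : 0 < k) (hlam : 0 < lam) (hd : ∀ a, (N a).card = d)
    (hl : Real.log (Fintype.card V) ≤ lam) :
    ∃ C : Finset V, C.Nonempty ∧ k * d * C.card ≤ k * ee N C C + d * C.card ∧
      ∀ A ⊆ C, 2 * A.card ≤ C.card → d * A.card ≤ 3 * k * lam * ee N A (C \ A) := by
  set η : ℝ := d / (k * lam) with hη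
  have hkR : (0 : ℝ) < k := by exact_mod_cast hk
  have hlR : (0 : ℝ) < lam := by exact_mod_cast hlam
  have hη0 : 0 ≤ η := by positivity
  obtain ⟨C, hC, hmax⟩ := exists_max_image (univ.filter (fun C : Finset V => C.Nonempty))
    (fun C => (ee N C C : ℝ) / C.card - η * Real.log C.card)
    ⟨univ, mem_filter.2 ⟨mem_univ _, univ_nonempty⟩⟩
  have hC1 := (mem_filter.1 hC).2
  have hC0 : (0 : ℝ) < C.card := by exact_mod_cast hC1.card_pos
  have key : ∀ A : Finset V, A.Nonempty → (ee N A A : ℝ)
      ≤ A.card * ((ee N C C : ℝ) / C.card - η * (Real.log C.card - Real.log A.card)) := by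
    intro A hA
    have h0 : (0 : ℝ) < A.card := by exact_mod_cast hA.card_pos
    have := hmax A (mem_filter.2 ⟨mem_univ _, hA⟩)
    rw [mul_comm, ← div_le_iff₀ h0]
    linarith
  refine ⟨C, hC1, ?_, fun A hA h2 => ?_⟩
  · have h1 := key univ univ_nonempty
    have h2 : ee N univ univ = Fintype.card V * d := by simp [ee, hd]
    have h0 : (0 : ℝ) < Fintype.card V := by exact_mod_cast Fintype.card_pos
    rw [h2, card_univ] at h1
    push_cast at h1
    have h3 := le_of_mul_le_mul_left h1 h0
    have h4 : 0 ≤ Real.log C.card := Real.log_nonneg (by exact_mod_cast hC1.card_pos)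
    have h5 : η * Real.log (Fintype.card V) ≤ η * lam := mul_le_mul_of_nonneg_left hl hη0
    have h6 : η * lam = d / k := by rw [hη]; field_simp
    have h7 : (d : ℝ) - d / k ≤ (ee N C C : ℝ) / C.card := by nlinarith
    rw [le_div_iff₀ hC0] at h7
    have h8 : (k : ℝ) * ((d - d / k) * C.card) = k * d * C.card - d * C.card := by field_simp
    have h9 := mul_le_mul_of_nonneg_left h7 hkR.le
    have : (k : ℝ) * d * C.card ≤ k * ee N C C + d * C.card := by linarith
    exact_mod_cast this
  · rcases A.eq_empty_or_nonempty with rfl | hA1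
    · simp
    have hA0 : (0 : ℝ) < A.card := by exact_mod_cast hA1.card_pos
    have hB : (C \ A).card + A.card = C.card := card_sdiff_add_card_eq_card hA
    have hB1 : (C \ A).Nonempty := card_pos.1 (by have := hA1.card_pos; omega)
    have a1 := key A hA1
    have a2 := key _ hB1
    have a3 : Real.log (C \ A).card ≤ Real.log C.card :=
      Real.log_le_log (by exact_mod_cast hB1.card_pos) (by exact_mod_cast (by omega))
    have a4 : Real.log 2 + Real.log A.card ≤ Real.log C.card := by
      rw [← Real.log_mul (by norm_num) hA0.ne']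
      exact Real.log_le_log (by positivity) (by exact_mod_cast h2)
    have a5 : ee N C C = ee N A A + ee N (C \ A) (C \ A) + 2 * ee N A (C \ A) := by
      have e : C = A ∪ C \ A := (union_sdiff_of_subset hA).symm
      have dj : Disjoint A (C \ A) := disjoint_sdiff
      conv_lhs => rw [e]
      rw [ee_union_left N dj, ee_union_right N _ dj, ee_union_right N _ dj, ee_comm hs (C \ A) A]
      ring
    have a6 := Real.log_two_gt_d9
    set D : ℝ := (ee N C C : ℝ) / C.card with hD
    have a7 : (ee N C C : ℝ) = D * (((C \ A).card : ℝ) + A.card) := by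
      rw [← Nat.cast_add, hB, hD]; field_simp
    have a8 : (ee N C C : ℝ) = ee N A A + ee N (C \ A) (C \ A) + 2 * ee N A (C \ A) := by
      exact_mod_cast a5
    have b1 : (ee N A A : ℝ) ≤ A.card * (D - η * (2 / 3)) := by
      refine a1.trans (mul_le_mul_of_nonneg_left ?_ hA0.le)
      have : η * (2 / 3) ≤ η * (Real.log C.card - Real.log A.card) :=
        mul_le_mul_of_nonneg_left (by linarith) hη0
      linarith
    have b2 : (ee N (C \ A) (C \ A) : ℝ) ≤ (C \ A).card * D := by
      refine a2.trans (mul_le_mul_of_nonneg_left ?_ (Nat.cast_nonneg _))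
      have : 0 ≤ η * (Real.log C.card - Real.log (C \ A).card) := mul_nonneg hη0 (by linarith)
      linarith
    have b3 : η * A.card ≤ 3 * ee N A (C \ A) := by nlinarith
    have b4 : (d : ℝ) = η * (k * lam) := by rw [hη]; field_simp
    have : (d : ℝ) * A.card ≤ 3 * k * lam * ee N A (C \ A) := by
      rw [b4]
      have := mul_le_mul_of_nonneg_left b3 (mul_pos hkR hlR).le
      linarith
    exact_mod_cast this

end Pool.Agent.Lib.MP_cdd51b_co
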