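import Pool.Agent.Lib.MP_cdd51b_co.PM

set_option autoImplicit false

namespace Pool.Agent.Lib.MP_cdd51b_co

open Finset

variable {n : ℕ}

/-- The vertices of the whole pairs of side `s` with first coordinate in `N`. -/
def VS (π : Bool → Equiv.Perm (Fin n)) (s : Bool) (N : Finset (Fin n)) : Finset (Vx n) :=
  N.biUnion (fun a => vs (s, a, π s a))

/-- The vertices of all whole pairs of a family. -/
def VW (π : Bool → Equiv.Perm (Fin n)) (J : Bool → Finset (Fin n)) : Finset (Vx n) :=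
  VS π false (J false) ∪ VS π true (J true)

variable {π : Bool → Equiv.Perm (Fin n)}

lemma mem_VS {s : Bool} {N : Finset (Fin n)} {u : Vx n} :
    u ∈ VS π s N ↔ (u.1 = p0 s ∧ u.2 ∈ N) ∨ (u.1 = p1 s ∧ (π s).symm u.2 ∈ N) := by
  obtain ⟨j, b⟩ := u
  simp only [VS, mem_biUnion, mem_vs, Prod.mk.injEq]
  constructor
  · rintro ⟨a, ha, ⟨h1, rfl⟩ | ⟨h1, rfl⟩⟩
    · exact Or.inl ⟨h1, ha⟩
    · exact Or.inr ⟨h1, by simpa using ha⟩
  · rintro (⟨h1, h2⟩ | ⟨h1, h2⟩)
    · exact ⟨b, h2, Or.inl ⟨h1, rfl⟩⟩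
    · exact ⟨_, h2, Or.inr ⟨h1, by simp⟩⟩

lemma mem_VW {J : Bool → Finset (Fin n)} {u : Vx n} : u ∈ VW π J ↔ ∃ s, u ∈ VS π s (J s) := by
  simp [VW]

lemma card_pr0_VS (s t : Bool) (N : Finset (Fin n)) :
    (pr (p0 t) (VS π s N)).card = if t = s then N.card else 0 := by
  split_ifs with h
  · subst h; congr 1; ext a; simp [mem_VS, p0_ne_p1]
  · rw [card_eq_zero]; ext a
    have : p0 t ≠ p0 s := fun e => h (p0_inj e)
    simp [mem_VS, p0_ne_p1, this]

lemma card_pr1_VS (s t : Bool) (N : Finset (Fin n)) :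
    (pr (p1 t) (VS π s N)).card = if t = s then N.card else 0 := by
  split_ifs with h
  · subst h
    rw [← card_image_of_injective N (π t).injective]
    congr 1; ext a
    simp only [mem_pr, mem_VS, (p0_ne_p1 t t).symm, false_and, true_and, false_or, mem_image]
    constructor
    · intro h; exact ⟨_, h, by simp⟩
    · rintro ⟨b, hb, rfl⟩; simpa using hb
  · rw [card_eq_zero]; ext a
    have : p1 t ≠ p1 s := fun e => h (p1_inj e)
    simp [mem_VS, (p0_ne_p1 s t).symm, this]

lemma VS_mono (s : Bool) {N N' : Finset (Fin n)} (h : N ⊆ N') : VS π s N ⊆ VS π s N' :=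
  biUnion_subset_biUnion_of_subset_left _ h

lemma VW_mono {J J' : Bool → Finset (Fin n)} (h : ∀ s, J s ⊆ J' s) : VW π J ⊆ VW π J' :=
  union_subset_union (VS_mono _ (h _)) (VS_mono _ (h _))

lemma disj_VS {s t : Bool} {N N' : Finset (Fin n)} (h : s = t → Disjoint N N') :
    Disjoint (VS π s N) (VS π t N') := by
  rw [disjoint_left]
  intro u a b
  rcases mem_VS.1 a with ⟨a1, a2⟩ | ⟨a1, a2⟩ <;> rcases mem_VS.1 b with ⟨b1, b2⟩ | ⟨b1, b2⟩
  · exact disjoint_left.1 (h (p0_inj (a1.symm.trans b1))) a2 b2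
  · exact p0_ne_p1 _ _ (a1.symm.trans b1)
  · exact p0_ne_p1 _ _ (b1.symm.trans a1)
  · have e := p1_inj (a1.symm.trans b1)
    subst e
    exact disjoint_left.1 (h rfl) a2 b2

lemma sdiff_split {α : Type*} [DecidableEq α] {T T1 S E : Finset α} (h1 : T ⊆ S ∪ T1)
    (h2 : T1 ⊆ T) (h3 : S ⊆ T) (h4 : Disjoint S T1) (h5 : E ⊆ T1) : T \ E = S ∪ T1 \ E := by
  ext u
  have e1 := mem_of_subset (a := u) h1
  have e2 := mem_of_subset (a := u) h2
  have e3 := mem_of_subset (a := u) h3
  have e4 : u ∈ S → u ∉ T1 := fun h => disjoint_left.1 h4 h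
  have e5 := mem_of_subset (a := u) h5
  simp only [mem_union, mem_sdiff] at e1 ⊢
  tauto

namespace Cube

variable {Q : Cube n}

/-- One merging move. -/
lemma dyn_move {s : Bool} {Av : Finset (Fin n)} {D : Finset (Vx n)} {z z' w w' a : Fin n}
    (hz : z ≠ z') (hw : w ≠ w') (h1 : (p0 (!s), z) ∈ D) (h2 : (p0 (!s), z') ∈ D)
    (h3 : (p1 (!s), w) ∈ D) (h4 : (p1 (!s), w') ∈ D) (ha : a ∈ Av)
    (hb : (π s).symm (Q.nb (!s, z, w) a) ∈ Av)
    (hc : (π s).symm (Q.nb (!s, z', w') ((π s).symm (Q.nb (!s, z, w) a))) ∈ Av) :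
    ∃ N ⊆ Av, ∃ S ⊆ D ∪ VS π s N, Q.PM S ∧ N.card ≤ 3 ∧ N.card < 2 * (pr (p0 (!s)) S).card := by
  have one : ∀ z w a : Fin n, (p0 (!s), z) ∈ D → (p1 (!s), w) ∈ D → a ∈ Av →
      (π s).symm (Q.nb (!s, z, w) a) = a → ∃ N ⊆ Av, ∃ S ⊆ D ∪ VS π s N, Q.PM S ∧ N.card ≤ 3 ∧
        N.card < 2 * (pr (p0 (!s)) S).card := by
    intro z w a h1 h3 ha e
    have hadj : Q.Adj (!s, z, w) (s, a, π s a) := ⟨by simp, by
      rw [Equiv.symm_apply_eq] at e; exact e⟩
    refine ⟨{a}, by simpa using ha, _, union_subset_union ?_ ?_, hadj.pm, by simp, ?_⟩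
    · intro u hu
      rcases mem_vs.1 hu with rfl | rfl
      · exact h1
      · exact h3
    · simp [VS]
    · have : 1 ≤ (pr (p0 (!s)) (vs (!s, z, w) ∪ vs (s, a, π s a))).card :=
        card_pos.2 ⟨z, by simp [mem_vs]⟩
      rw [card_singleton]; omega
  set b := (π s).symm (Q.nb (!s, z, w) a) with hbd
  set c := (π s).symm (Q.nb (!s, z', w') b) with hcd
  by_cases e1 : b = a
  · exact one z w a h1 h3 ha e1
  by_cases e2 : c = b
  · exact one z' w' b h2 h4 hb e2
  have a1 : Q.Adj (!s, z, w) (s, a, π s b) := ⟨by simp, by simp [hbd]⟩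
  have a2 : Q.Adj (!s, z', w') (s, b, π s c) := ⟨by simp, by simp [hcd]⟩
  have ns : ¬ (!s) = s := by cases s <;> simp
  refine ⟨{a, b, c}, ?_, _, ?_, a1.pm.union a2.pm ?_, card_le_three, ?_⟩
  · intro x hx
    simp only [mem_insert, mem_singleton] at hx
    rcases hx with rfl | rfl | rfl <;> assumption
  · intro u hu
    simp only [mem_union, mem_vs] at hu
    rw [mem_union, mem_VS]
    rcases hu with ((rfl | rfl) | (rfl | rfl)) | ((rfl | rfl) | (rfl | rfl)) <;> simp [*]
  · exact disjoint_union_left.2 ⟨disjoint_union_right.2 ⟨disj_vs (fun _ => ⟨hz, hw⟩),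
      disj_vs (fun e => absurd e ns)⟩, disjoint_union_right.2
        ⟨disj_vs (fun e => absurd e.symm ns), disj_vs (fun _ => ⟨fun e => e1 e.symm,
          fun e => e2 ((π s).injective e).symm⟩)⟩⟩
  · have c1 : ({z, z'} : Finset (Fin n)) ⊆ pr (p0 (!s)) (vs (!s, z, w) ∪ vs (s, a, π s b) ∪
        (vs (!s, z', w') ∪ vs (s, b, π s c))) := by
      intro x hx
      simp only [mem_insert, mem_singleton] at hx
      rcases hx with rfl | rfl <;> simp [mem_vs]
    have c2 := card_le_card c1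
    rw [card_pair hz] at c2
    have := card_le_three (a := a) (b := b) (c := c)
    omega

/-- The merging phase: all but one vertex per part is covered together with whole pairs. -/
lemma dyn (R : Bool → Finset (Fin n)) (t0 : ℕ)
    (hres : ∀ s (g g' : GV n), t0 ≤ (univ.filter (fun a => a ∈ R s ∧
      (π s).symm (Q.nb g a) ∈ R s ∧ (π s).symm (Q.nb g' ((π s).symm (Q.nb g a))) ∈ R s)).card) :
    ∀ (t : ℕ) (Av : Bool → Finset (Fin n)) (D : Finset (Vx n)),
      (pr 0 D).card + (pr 2 D).card ≤ t → (∀ s, (pr (p0 s) D).card = (pr (p1 s) D).card) →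
      (∀ s, 3 * ((R s \ Av s).card + 3 * t) < t0) → Disjoint D (VW π Av) →
      ∃ (Av' : Bool → Finset (Fin n)) (D' : Finset (Vx n)),
        (∀ s, Av' s ⊆ Av s ∧ (Av s).card ≤ (Av' s).card + 3 * t) ∧ D' ⊆ D ∪ VW π Av ∧
        (∀ s, (pr (p0 s) D').card ≤ 1) ∧ Q.PM ((D ∪ VW π Av) \ (D' ∪ VW π Av')) := by
  classical
  intro t
  induction t with
  | zero =>
    intro Av D h1 _ _ _
    refine ⟨Av, D, fun s => ⟨subset_rfl, le_rfl⟩, subset_union_left, fun s => ?_,
      by simpa using PM.empty⟩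
    cases s
    · show (pr 0 D).card ≤ 1
      omega
    · show (pr 2 D).card ≤ 1
      omega
  | succ t ih =>
    intro Av D h1 h2 h3 h4
    by_cases hc : ∀ s, (pr (p0 s) D).card ≤ 1
    · exact ⟨Av, D, fun s => ⟨subset_rfl, Nat.le_add_right _ _⟩, subset_union_left, hc,
        by simpa using PM.empty⟩
    push Not at hc
    obtain ⟨s', hs'⟩ := hc
    obtain ⟨s, rfl⟩ : ∃ s, s' = !s := ⟨!s', by simp⟩
    obtain ⟨z, hz, z', hz', hzz⟩ := one_lt_card.1 hs'
    obtain ⟨w, hw, w', hw', hww⟩ := one_lt_card.1 (h2 _ ▸ hs')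
    have : ∃ a ∈ Av s, (π s).symm (Q.nb (!s, z, w) a) ∈ Av s ∧
        (π s).symm (Q.nb (!s, z', w') ((π s).symm (Q.nb (!s, z, w) a))) ∈ Av s := by
      by_contra hcon
      push Not at hcon
      have a1 := hres s (!s, z, w) (!s, z', w')
      set f := (Q.nb (!s, z, w)).trans (π s).symm
      set f' := (Q.nb (!s, z', w')).trans (π s).symm
      set X := R s \ Av s
      have a2 : univ.filter (fun a => a ∈ R s ∧ f a ∈ R s ∧ f' (f a) ∈ R s)
          ⊆ X ∪ (X.image f.symm ∪ X.image (fun a => f.symm (f'.symm a))) := by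
        intro a ha
        obtain ⟨b1, b2, b3⟩ := (mem_filter.1 ha).2
        by_cases c1 : a ∈ Av s
        · by_cases c2 : f a ∈ Av s
          · exact mem_union_right _ (mem_union_right _ (mem_image.2
              ⟨f' (f a), mem_sdiff.2 ⟨b3, hcon a c1 c2⟩, by simp⟩))
          · exact mem_union_right _ (mem_union_left _ (mem_image.2
              ⟨f a, mem_sdiff.2 ⟨b2, c2⟩, by simp⟩))
        · exact mem_union_left _ (mem_sdiff.2 ⟨b1, c1⟩)
      have a3 := (card_le_card a2).trans ((card_union_le _ _).trans (Nat.add_le_add_left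
        ((card_union_le _ _).trans (Nat.add_le_add card_image_le card_image_le)) _))
      have a4 := a1.trans a3
      have : 3 * (X.card + 3 * (t + 1)) < t0 := h3 s
      omega
    obtain ⟨a, a1, a2, a3⟩ := this
    obtain ⟨N, n1, S, s1, s2, n2, n3⟩ := dyn_move (π := π) hzz hww (mem_pr.1 hz) (mem_pr.1 hz')
      (mem_pr.1 hw) (mem_pr.1 hw') a1 a2 a3
    set Av1 := Function.update Av s (Av s \ N) with hAv1
    have v1 : ∀ t, Av1 t ⊆ Av t ∧ (Av t).card ≤ (Av1 t).card + 3 := by
      intro t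
      by_cases e : t = s
      · subst e
        rw [hAv1, Function.update_self]
        have := card_sdiff_add_card_eq_card n1
        exact ⟨sdiff_subset, by omega⟩
      · rw [hAv1, Function.update_of_ne e]; exact ⟨subset_rfl, by omega⟩
    have v2 : VS π s N ⊆ VW π Av := fun u hu => mem_VW.2 ⟨s, VS_mono s n1 hu⟩
    have v3 : Disjoint (VS π s N) (VW π Av1) := by
      rw [disjoint_right]
      intro u hu
      obtain ⟨t, ht⟩ := mem_VW.1 hu
      refine disjoint_left.1 (disj_VS (fun e => ?_)) ht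
      subst e
      rw [hAv1, Function.update_self]
      exact sdiff_disjoint
    have v4 : VW π Av ⊆ VS π s N ∪ VW π Av1 := by
      intro u hu
      obtain ⟨t, ht⟩ := mem_VW.1 hu
      by_cases e : t = s
      · subst e
        by_cases hN : u ∈ VS π t N
        · exact mem_union_left _ hN
        · refine mem_union_right _ (mem_VW.2 ⟨t, ?_⟩)
          rw [hAv1, Function.update_self]
          simp only [mem_VS, mem_sdiff] at ht hN ⊢
          tauto
      · refine mem_union_right _ (mem_VW.2 ⟨t, ?_⟩)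
        rwa [hAv1, Function.update_of_ne e]
    have v5 : VW π Av1 ⊆ VW π Av := VW_mono (fun t => (v1 t).1)
    have v6 : Disjoint (D ∪ VS π s N) (VW π Av1) := disjoint_union_left.2 ⟨h4.mono_right v5, v3⟩
    have k : ∀ j, (pr j ((D ∪ VS π s N) \ S)).card + (pr (p0 (!s)) S).card
        = (pr j D).card + (pr j (VS π s N)).card := by
      intro j
      rw [s2.card_pr _ j, card_pr_sdiff j s1, card_pr_union j (h4.mono_right v2)]
    obtain ⟨Av', D', d1, d2, d3, d4⟩ := ih Av1 ((D ∪ VS π s N) \ S) (by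
        have k0 := k (p0 false)
        have k2 := k (p0 true)
        rw [card_pr0_VS] at k0 k2
        change (pr 0 _).card + _ = (pr 0 _).card + _ at k0
        change (pr 2 _).card + _ = (pr 2 _).card + _ at k2
        cases s <;> simp at k0 k2 n3 ⊢ <;> omega)
      (fun t => by
        have k0 := k (p0 t)
        have k1 := k (p1 t)
        rw [card_pr0_VS] at k0
        rw [card_pr1_VS] at k1
        have := h2 t
        omega)
      (fun t => by
        have c1 : R t \ Av1 t ⊆ (R t \ Av t) ∪ (Av t \ Av1 t) := by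
          intro x; simp only [mem_union, mem_sdiff]; tauto
        have c2 := (card_le_card c1).trans (card_union_le _ _)
        have c3 := card_sdiff_add_card_eq_card (v1 t).1
        have := (v1 t).2
        have := h3 t
        omega)
      (v6.mono_left sdiff_subset)
    have v7 : (D ∪ VS π s N) \ S ∪ VW π Av1 ⊆ D ∪ VW π Av :=
      union_subset (sdiff_subset.trans (union_subset_union subset_rfl v2))
        (v5.trans subset_union_right)
    have v8 : Disjoint S ((D ∪ VS π s N) \ S ∪ VW π Av1) :=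
      disjoint_union_right.2 ⟨disjoint_sdiff, v6.mono_left s1⟩
    refine ⟨Av', D', fun t => ⟨(d1 t).1.trans (v1 t).1, ?_⟩, d2.trans v7, d3, ?_⟩
    · have := (d1 t).2
      have := (v1 t).2
      omega
    · have v9 : D' ∪ VW π Av' ⊆ (D ∪ VS π s N) \ S ∪ VW π Av1 :=
        union_subset d2 ((VW_mono (fun t => (d1 t).1)).trans subset_union_right)
      rw [sdiff_split (T1 := (D ∪ VS π s N) \ S ∪ VW π Av1) (S := S) ?_ v7
        (s1.trans (union_subset_union subset_rfl v2)) v8 v9]
      · exact s2.union d4 (v8.mono_right sdiff_subset)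
      · rw [← union_assoc, union_sdiff_of_subset s1, union_assoc]
        exact union_subset_union subset_rfl v4

end Cube

end Pool.Agent.Lib.MP_cdd51b_co
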