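import Mathlib

set_option autoImplicit false

namespace Pool.Agent.Lib.MP_cdd51b_co

open Finset

variable {V : Type*} [Fintype V]

lemma hoeffding_one [Nonempty V] (g : V → ℝ) {c : ℝ} (hc : 0 < c) (l : ℝ)
    (h : ∀ v v', |g v - g v'| ≤ c) :
    ∑ v, Real.exp (l * (g v - (∑ v', g v') / Fintype.card V))
      ≤ Fintype.card V * Real.exp (l ^ 2 * c ^ 2 / 2) := by
  have hN : (0 : ℝ) < Fintype.card V := by exact_mod_cast Fintype.card_pos
  set m := (∑ v', g v') / Fintype.card V with hm
  have h1 : ∀ v, |(g v - m) / c| ≤ 1 := by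
    intro v
    rw [abs_div, abs_of_pos hc, div_le_one hc]
    have e : g v - m = (∑ v', (g v - g v')) / Fintype.card V := by
      rw [sum_sub_distrib, hm]; simp only [sum_const, card_univ, nsmul_eq_mul]; field_simp
    rw [e, abs_div, abs_of_pos hN, div_le_iff₀ hN]
    refine (abs_sum_le_sum_abs _ _).trans ((sum_le_sum (fun v' _ => h v v')).trans ?_)
    simp [mul_comm]
  have h2 : ∀ v, Real.exp (l * (g v - m))
      ≤ Real.cosh (l * c) + (g v - m) / c * Real.sinh (l * c) := by
    intro v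
    have := Real.exp_mul_le_cosh_add_mul_sinh (h1 v) (l * c)
    rwa [show (g v - m) / c * (l * c) = l * (g v - m) by field_simp] at this
  refine (sum_le_sum (fun v _ => h2 v)).trans ?_
  rw [sum_add_distrib, ← sum_mul, ← sum_div, sum_sub_distrib]
  have e : ∑ v, g v - ∑ _v : V, m = 0 := by
    simp only [sum_const, card_univ, nsmul_eq_mul, hm]; field_simp; ring
  rw [e]
  simp only [sum_const, card_univ, nsmul_eq_mul, zero_div, zero_mul, add_zero]
  have := Real.cosh_le_exp_half_sq (l * c)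
  rw [mul_pow] at this
  exact mul_le_mul_of_nonneg_left this hN.le

lemma sum_cons {n : ℕ} (F : (Fin (n + 1) → V) → ℝ) :
    ∑ ω, F ω = ∑ v : V, ∑ ω : Fin n → V, F (Fin.cons v ω) := by
  rw [← Fintype.sum_prod_type']
  exact (Fintype.sum_equiv (Fin.consEquiv (fun _ => V)) _ _ (fun _ => rfl)).symm

lemma mcd_mgf [Nonempty V] [DecidableEq V] {c : ℝ} (hc : 0 < c) (l : ℝ) (n : ℕ) :
    ∀ f : (Fin n → V) → ℝ, (∀ ω x v, |f ω - f (Function.update ω x v)| ≤ c) →
    ∑ ω, Real.exp (l * (f ω - (∑ ω', f ω') / (Fintype.card V : ℝ) ^ n))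
      ≤ (Fintype.card V : ℝ) ^ n * Real.exp (n * (l ^ 2 * c ^ 2 / 2)) := by
  have hN : (0 : ℝ) < Fintype.card V := by exact_mod_cast Fintype.card_pos
  induction n with
  | zero => intro f _; simp
  | succ n ih =>
    intro f hf
    set N : ℝ := (Fintype.card V : ℝ) with hNdef
    set g : V → ℝ := fun v => (∑ ω : Fin n → V, f (Fin.cons v ω)) / N ^ n with hg
    have hNn : 0 < N ^ n := pow_pos hN n
    have hg1 : ∀ v v', |g v - g v'| ≤ c := by
      intro v v'
      simp only [hg]
      rw [← sub_div, ← sum_sub_distrib, abs_div, abs_of_pos hNn, div_le_iff₀ hNn]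
      refine (abs_sum_le_sum_abs _ _).trans ((sum_le_sum (g := fun _ => c) (fun ω _ => ?_)).trans ?_)
      · have := hf (Fin.cons v ω) 0 v'
        rwa [Fin.update_cons_zero] at this
      · simp [hNdef, mul_comm]
    have hm : (∑ ω', f ω') / N ^ (n + 1) = (∑ v, g v) / N := by
      rw [sum_cons f, hg]
      simp only
      rw [← sum_div, div_div, pow_succ]
    rw [hm, sum_cons]
    have h1 : ∀ v, ∑ ω : Fin n → V, Real.exp (l * (f (Fin.cons v ω) - (∑ v, g v) / N))
        ≤ Real.exp (l * (g v - (∑ v, g v) / N)) * (N ^ n * Real.exp (n * (l ^ 2 * c ^ 2 / 2))) := by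
      intro v
      have := ih (fun ω => f (Fin.cons v ω)) (fun ω x v' => by
        have := hf (Fin.cons v ω) x.succ v'
        rwa [← Fin.cons_update] at this)
      refine le_trans (le_of_eq ?_) (mul_le_mul_of_nonneg_left this (Real.exp_pos _).le)
      rw [mul_sum]
      apply sum_congr rfl
      intro ω _
      rw [← Real.exp_add]
      congr 1
      simp only [hg]
      ring
    refine (sum_le_sum (fun v _ => h1 v)).trans ?_
    rw [← sum_mul]
    refine (mul_le_mul_of_nonneg_right (hoeffding_one g hc l hg1) (by positivity)).trans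
      (le_of_eq ?_)
    push_cast
    rw [add_mul, Real.exp_add, one_mul]
    ring

/-- McDiarmid's bounded differences inequality, upper tail, in counting form. -/
lemma mcd [Nonempty V] [DecidableEq V] {c : ℝ} (hc : 0 < c) {n : ℕ} (hn : 0 < n)
    (f : (Fin n → V) → ℝ) (hf : ∀ ω x v, |f ω - f (Function.update ω x v)| ≤ c) (m d : ℝ)
    (hd : 0 ≤ d) (hm : ∑ ω', f ω' ≤ m * (Fintype.card V : ℝ) ^ n) (A : Finset (Fin n → V))
    (hA : ∀ ω ∈ A, m + d ≤ f ω) :
    (A.card : ℝ) ≤ Real.exp (-(d ^ 2 / (2 * n * c ^ 2))) * (Fintype.card V : ℝ) ^ n := by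
  have hN : (0 : ℝ) < Fintype.card V := by exact_mod_cast Fintype.card_pos
  have hnR : (0 : ℝ) < n := by exact_mod_cast hn
  have hNn : 0 < (Fintype.card V : ℝ) ^ n := pow_pos hN n
  set l := d / (n * c ^ 2) with hl
  have hl0 : 0 ≤ l := by positivity
  have h1 := mcd_mgf hc l n f hf
  have hm' : (∑ ω', f ω') / (Fintype.card V : ℝ) ^ n ≤ m := by rwa [div_le_iff₀ hNn]
  have h2 : (A.card : ℝ) * Real.exp (l * d)
      ≤ ∑ ω, Real.exp (l * (f ω - (∑ ω', f ω') / (Fintype.card V : ℝ) ^ n)) := by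
    rw [← nsmul_eq_mul, ← sum_const]
    refine (sum_le_sum (fun ω hω => ?_)).trans
      (sum_le_sum_of_subset_of_nonneg (subset_univ A) (fun _ _ _ => (Real.exp_pos _).le))
    apply Real.exp_le_exp.2
    apply mul_le_mul_of_nonneg_left _ hl0
    linarith [hA ω hω]
  have h3 : Real.exp (n * (l ^ 2 * c ^ 2 / 2))
      = Real.exp (-(d ^ 2 / (2 * n * c ^ 2))) * Real.exp (l * d) := by
    rw [← Real.exp_add]
    congr 1
    rw [hl]
    field_simp
    ring
  rw [h3] at h1
  have h4 := h2.trans h1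
  have h5 := Real.exp_pos (l * d)
  nlinarith [le_of_mul_le_mul_right (a := Real.exp (l * d)) (b := (A.card : ℝ))
    (c := (Fintype.card V : ℝ) ^ n * Real.exp (-(d ^ 2 / (2 * n * c ^ 2)))) (by linarith) h5]

end Pool.Agent.Lib.MP_cdd51b_co
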