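import Pool.Agent.Lib.MP_cdd51b_co.Link
import Pool.Agent.Lib.MP_cdd51b_co.McD

set_option autoImplicit false

namespace Pool.Agent.Lib.MP_cdd51b_co

open Finset

variable {n : ℕ}

/-- The density of the core. -/
noncomputable def qq (n : ℕ) : ℝ := (1 - 3 / (64 * (n : ℝ))) ^ n / 64

lemma card_val : (Fintype.card (Val n) : ℝ) = 64 * (n * n) := by simp

lemma pow_le_pow_add {a b d : ℝ} (ha0 : 0 ≤ a) (ha : a ≤ 1) (hb0 : 0 ≤ b) (hb : b ≤ 1)
    (hd : 0 ≤ d) (h : a ≤ b + d) (k : ℕ) : a ^ k ≤ b ^ k + k * d := by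
  induction k with
  | zero => simp
  | succ k ih =>
    have h1 : b ^ k ≤ 1 := pow_le_one₀ hb0 hb
    have h2 : 0 ≤ b ^ k := pow_nonneg hb0 k
    have h3 : a * a ^ k ≤ a * (b ^ k + k * d) := mul_le_mul_of_nonneg_left ih ha0
    have h4 : a * b ^ k ≤ (b + d) * b ^ k := mul_le_mul_of_nonneg_right h h2
    have h5 : a * (k * d) ≤ k * d := by
      have : 0 ≤ (k : ℝ) * d := by positivity
      nlinarith
    rw [pow_succ', pow_succ']
    push_cast
    nlinarith

lemma theta_bounds (hn : 0 < n) :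
    0 ≤ 1 - 3 / (64 * (n : ℝ)) ∧ 1 - 3 / (64 * (n : ℝ)) ≤ 1 := by
  have hnR : (1 : ℝ) ≤ n := by exact_mod_cast hn
  constructor
  · rw [sub_nonneg, div_le_one (by positivity)]; linarith
  · have : 0 ≤ 3 / (64 * (n : ℝ)) := by positivity
    linarith

lemma qq_bounds (hn : 0 < n) : 0 ≤ qq n ∧ qq n ≤ 1 / 2 := by
  obtain ⟨h1, h2⟩ := theta_bounds hn
  have := pow_le_one₀ (n := n) h1 h2
  have := pow_nonneg h1 n
  unfold qq
  constructor <;> linarith

namespace Cube

variable (Q : Cube n)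

open Classical in
lemma card_single (e : Cell n) :
    (64 * (n * n) - 3 * n) ^ (n - 1) ≤ (univ.filter (fun ω => Q.InK ω e)).card := by
  have h1 : Fintype.piFinset (Function.update
      (fun x => univ.filter (fun v : Val n => ¬ Q.Tch x v e)) e.1 {(0, e.2)})
      ⊆ univ.filter (fun ω => Q.InK ω e) := by
    intro ω hω
    rw [Fintype.mem_piFinset, mem_update_iff] at hω
    exact mem_filter.2 ⟨mem_univ _, mem_singleton.1 hω.1,
      fun x hx => (mem_filter.1 (hω.2 x hx)).2⟩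
  refine le_trans ?_ (card_le_card h1)
  rw [card_box_update, card_singleton, one_mul]
  have h2 : (univ.erase e.1).card = n - 1 := by rw [card_erase_of_mem (mem_univ _)]; simp
  rw [← h2]
  apply pow_card_le_prod
  intro x _
  have a1 := Q.card_tch_le x e
  have a2 := card_filter_add_card_filter_not (s := (univ : Finset (Val n)))
    (fun v => Q.Tch x v e)
  simp only [card_univ, Fintype.card_prod, Fintype.card_fin] at a2
  omega

lemma sum_card_K (hn : 0 < n) :
    qq n * n * (Fintype.card (Val n) : ℝ) ^ n ≤ ∑ ω, ((Q.K ω).card : ℝ) := by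
  classical
  have hnR : (1 : ℝ) ≤ n := by exact_mod_cast hn
  have h1 : ∑ ω, (Q.K ω).card = ∑ e : Cell n, (univ.filter (fun ω => Q.InK ω e)).card := by
    simp only [K, card_filter]
    exact sum_comm
  have h2 : n * (n * n) * (64 * (n * n) - 3 * n) ^ (n - 1) ≤ ∑ ω, (Q.K ω).card := by
    rw [h1]
    have := card_nsmul_le_sum (univ : Finset (Cell n)) _ _ (fun e _ => Q.card_single e)
    simpa using this
  have h3 : 3 * n ≤ 64 * (n * n) := by nlinarith
  have h4 : (n : ℝ) * (n * n) * (64 * (n * n) - 3 * n) ^ (n - 1) ≤ ∑ ω, ((Q.K ω).card : ℝ) := by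
    have := (Nat.cast_le (α := ℝ)).2 h2
    push_cast [Nat.cast_sub h3] at this
    exact this
  refine le_trans ?_ h4
  obtain ⟨t1, t2⟩ := theta_bounds hn
  rw [card_val]
  have e1 : (64 * ((n : ℝ) * n) - 3 * n) = 64 * (n * n) * (1 - 3 / (64 * (n : ℝ))) := by
    field_simp
  rw [e1, mul_pow (64 * ((n : ℝ) * n)), qq]
  obtain ⟨k, rfl⟩ : ∃ k, n = k + 1 := ⟨n - 1, by omega⟩
  simp only [Nat.add_sub_cancel]
  set θ := 1 - 3 / (64 * ((k + 1 : ℕ) : ℝ))
  set m := ((k + 1 : ℕ) : ℝ)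
  have : θ ^ (k + 1) ≤ θ ^ k := pow_le_pow_of_le_one t1 t2 (by omega)
  have h5 : 0 ≤ m * (m * m) * (64 * (m * m)) ^ k := by positivity
  calc θ ^ (k + 1) / 64 * m * (64 * (m * m)) ^ (k + 1)
      = m * (m * m) * (64 * (m * m)) ^ k * θ ^ (k + 1) := by ring
    _ ≤ m * (m * m) * (64 * (m * m)) ^ k * θ ^ k := mul_le_mul_of_nonneg_left this h5
    _ = _ := by ring

open Classical in
lemma card_notch (x : Fin n) (e f : Cell n) (h : ∀ i, Q.co e i ≠ Q.co f i) :
    (univ.filter (fun v : Val n => ¬ Q.Tch x v e ∧ ¬ Q.Tch x v f)).card + 6 * n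
      ≤ 64 * (n * n) + 12 := by
  set A1 : Finset (Fin n) := {Q.co e 1, Q.co f 1}
  set A2 : Finset (Fin n) := {Q.co e 2, Q.co f 2}
  set A3 : Finset (Fin n) := {Q.co e 3, Q.co f 3}
  have c1 : A1.card = 2 := card_pair (h 1)
  have c2 : A2.card = 2 := card_pair (h 2)
  have c3 : A3.card = 2 := card_pair (h 3)
  set X1 := univ.filter (fun p : Fin n × Fin n => p.1 ∈ A1)
  set X2 := univ.filter (fun p : Fin n × Fin n => p.2 ∈ A2)
  set X3 := univ.filter (fun p : Fin n × Fin n => Q.L x p.1 p.2 ∈ A3)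
  have low : ∀ (φ : Fin n × Fin n → Fin n) (A : Finset (Fin n)), A.card = 2 →
      (univ.filter (fun p => φ p ∈ Aᶜ)).card ≤ n * Aᶜ.card →
      2 * n ≤ (univ.filter (fun p => φ p ∈ A)).card := by
    intro φ A hA a1
    have a2 : univ ⊆ univ.filter (fun p => φ p ∈ A) ∪ univ.filter (fun p => φ p ∈ Aᶜ) := by
      intro p _
      simp only [mem_union, mem_filter, mem_univ, true_and, mem_compl]
      exact _root_.em _
    have a2' := (card_le_card a2).trans (card_union_le _ _)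
    have a3 := card_add_card_compl A
    simp only [card_univ, Fintype.card_prod, Fintype.card_fin] at a2' a3
    have a4 : n * A.card + n * Aᶜ.card = n * n := by rw [← mul_add, a3]
    rw [hA] at a4
    omega
  have l1 : 2 * n ≤ X1.card := low (fun p => p.1) A1 c1
    (card_pairs_le' (fun y _ : Fin n => y) (fun _ => Function.injective_id) _)
  have l2 : 2 * n ≤ X2.card := low (fun p => p.2) A2 c2
    (card_pairs_le (fun _ z : Fin n => z) (fun _ => Function.injective_id) _)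
  have l3 : 2 * n ≤ X3.card := low (fun p => Q.L x p.1 p.2) A3 c3
    (card_pairs_le (fun y z : Fin n => Q.L x y z) (fun y => Q.h3 x y) _)
  have i12 : (X1 ∩ X2).card ≤ 4 := by
    rw [← filter_and]
    have := card_pairs_two (fun p : Fin n × Fin n => p.1) (fun p => p.2)
      (fun p p' a b => Prod.ext a b) A1 A2
    rwa [c1, c2] at this
  have i13 : (X1 ∩ X3).card ≤ 4 := by
    rw [← filter_and]
    have := card_pairs_two (fun p : Fin n × Fin n => p.1) (fun p => Q.L x p.1 p.2)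
      (fun p p' a b => by rw [← a] at b; exact Prod.ext a (Q.h3 _ _ b)) A1 A3
    rwa [c1, c3] at this
  have i23 : (X2 ∩ X3).card ≤ 4 := by
    rw [← filter_and]
    have := card_pairs_two (fun p : Fin n × Fin n => p.2) (fun p => Q.L x p.1 p.2)
      (fun p p' a b => by rw [← a] at b; exact Prod.ext (Q.h2 _ _ b) a) A2 A3
    rwa [c2, c3] at this
  have u1 := card_union_add_card_inter X1 X2
  have u2 := card_union_add_card_inter (X1 ∪ X2) X3
  have u3 : ((X1 ∪ X2) ∩ X3).card ≤ (X1 ∩ X3).card + (X2 ∩ X3).card := by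
    rw [union_inter_distrib_right]; exact card_union_le _ _
  have u4 : ((X1 ∪ X2 ∪ X3).image (fun p => ((0 : Fin 64), p))).card = (X1 ∪ X2 ∪ X3).card :=
    card_image_of_injective _ (fun p p' h => (Prod.ext_iff.1 h).2)
  have u5 : Disjoint (univ.filter (fun v : Val n => ¬ Q.Tch x v e ∧ ¬ Q.Tch x v f))
      ((X1 ∪ X2 ∪ X3).image (fun p => ((0 : Fin 64), p))) := by
    rw [disjoint_left]
    intro v hv hv'
    obtain ⟨p, hp, rfl⟩ := mem_image.1 hv'
    obtain ⟨_, n1, n2⟩ := mem_filter.1 hv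
    simp only [mem_union, X1, X2, X3, A1, A2, A3, mem_filter, mem_univ, true_and, mem_insert,
      mem_singleton] at hp
    rcases hp with ((hp | hp) | (hp | hp)) | (hp | hp)
    · exact n1 ⟨rfl, 1, by decide, hp⟩
    · exact n2 ⟨rfl, 1, by decide, hp⟩
    · exact n1 ⟨rfl, 2, by decide, hp⟩
    · exact n2 ⟨rfl, 2, by decide, hp⟩
    · exact n1 ⟨rfl, 3, by decide, hp⟩
    · exact n2 ⟨rfl, 3, by decide, hp⟩
  have u6 := card_le_univ ((univ.filter (fun v : Val n => ¬ Q.Tch x v e ∧ ¬ Q.Tch x v f)) ∪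
      ((X1 ∪ X2 ∪ X3).image (fun p => ((0 : Fin 64), p))))
  rw [card_union_of_disjoint u5, u4] at u6
  simp only [Fintype.card_prod, Fintype.card_fin] at u6
  omega

open Classical in
lemma card_pair_le (e f : Cell n) (h : ∀ i, Q.co e i ≠ Q.co f i) :
    (univ.filter (fun ω => Q.InK ω e ∧ Q.InK ω f)).card
      ≤ (64 * (n * n) + 12 - 6 * n) ^ (n - 2) := by
  have hef : e.1 ≠ f.1 := h 0
  set S0 : Fin n → Finset (Val n) :=
    fun x => univ.filter (fun v : Val n => ¬ Q.Tch x v e ∧ ¬ Q.Tch x v f)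
  have h1 : univ.filter (fun ω => Q.InK ω e ∧ Q.InK ω f) ⊆ Fintype.piFinset (Function.update
      (Function.update S0 f.1 {(0, f.2)}) e.1 {(0, e.2)}) := by
    intro ω hω
    obtain ⟨_, a, b⟩ := mem_filter.1 hω
    rw [Fintype.mem_piFinset, mem_update_iff]
    refine ⟨mem_singleton.2 a.1, fun y hy => ?_⟩
    by_cases hyf : y = f.1
    · subst hyf; simpa using b.1
    · rw [Function.update_of_ne hyf]
      exact mem_filter.2 ⟨mem_univ _, a.2 y hy, b.2 y hyf⟩
  refine (card_le_card h1).trans ?_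
  rw [card_box_update, card_singleton, one_mul,
    ← mul_prod_erase _ _ (mem_erase.2 ⟨hef.symm, mem_univ f.1⟩)]
  have h2 : ((univ.erase e.1).erase f.1).card = n - 2 := by
    rw [card_erase_of_mem (mem_erase.2 ⟨hef.symm, mem_univ f.1⟩), card_erase_of_mem (mem_univ _)]
    simp only [card_univ, Fintype.card_fin]
    omega
  rw [← h2, Function.update_self, card_singleton, one_mul]
  apply prod_le_pow_card
  intro x hx
  rw [Function.update_of_ne (mem_erase.1 hx).1]
  have := Q.card_notch x e f h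
  simp only [S0]
  omega

open Classical in
lemma card_cov_two {j : Fin 4} (hj : j = 0 ∨ j = 3) {a b : Fin n} (hab : a ≠ b) :
    (univ.filter (fun ω => Q.Cov (Q.K ω) (j, a) ∧ Q.Cov (Q.K ω) (j, b))).card
      ≤ n * n * (n * n * (64 * (n * n) + 12 - 6 * n) ^ (n - 2)) := by
  have fib : ∀ c : Fin n, (univ.filter (fun e : Cell n => Q.co e j = c)).card ≤ n * n := by
    intro c
    have : (univ.filter (fun e : Cell n => Q.co e j = c)).card
        ≤ (univ : Finset (Fin n × Fin n)).card := by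
      apply card_le_card_of_injOn (fun e => e.2) (fun _ _ => mem_univ _)
      intro e he e' he' hh
      have a1 := (mem_filter.1 he).2
      have a2 := (mem_filter.1 he').2
      simp only at hh
      refine Prod.ext ?_ hh
      rcases hj with rfl | rfl
      · exact a1.trans a2.symm
      · simp only [co3] at a1 a2
        rw [← hh] at a2
        exact Q.h1 _ _ (a1.trans a2.symm)
    simpa using this
  have h1 : univ.filter (fun ω => Q.Cov (Q.K ω) (j, a) ∧ Q.Cov (Q.K ω) (j, b)) ⊆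
      (univ.filter (fun e : Cell n => Q.co e j = a)).biUnion (fun e =>
        (univ.filter (fun f : Cell n => Q.co f j = b)).biUnion (fun f =>
          univ.filter (fun ω => (∀ i, Q.co e i ≠ Q.co f i) ∧ (Q.InK ω e ∧ Q.InK ω f)))) := by
    intro ω hω
    obtain ⟨_, ⟨e, he, ha⟩, ⟨f, hf, hb⟩⟩ := mem_filter.1 hω
    simp only [mem_biUnion, mem_filter, mem_univ, true_and]
    refine ⟨e, ha, f, hb, Q.K_isM ω e he f hf (fun h => hab ?_), Q.mem_K.1 he, Q.mem_K.1 hf⟩
    subst h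
    exact ha.symm.trans hb
  refine (card_le_card h1).trans ((card_biUnion_le_card_mul _ _ _ (fun e _ => ?_)).trans
    (Nat.mul_le_mul_right _ (fib a)))
  refine (card_biUnion_le_card_mul _ _ _ (fun f _ => ?_)).trans (Nat.mul_le_mul_right _ (fib b))
  by_cases h : ∀ i, Q.co e i ≠ Q.co f i
  · exact (card_le_card (fun ω hω => mem_filter.2 ⟨mem_univ _, (mem_filter.1 hω).2.2⟩)).trans
      (Q.card_pair_le e f h)
  · rw [filter_eq_empty_iff.2 (fun ω _ hh => h hh.1)]
    simp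

open Classical in
/-- The number of `x` with both `φ x` and `ψ x` covered by `M` in part `j`. -/
noncomputable def Nb (M : Finset (Cell n)) (j : Fin 4) (φ ψ : Fin n → Fin n) : ℕ :=
  (univ.filter (fun x => Q.Cov M (j, φ x) ∧ Q.Cov M (j, ψ x))).card

lemma sum_Nb (hn : 2 ≤ n) {j : Fin 4} (hj : j = 0 ∨ j = 3) (φ ψ : Fin n → Fin n)
    (h : ∀ x, φ x ≠ ψ x) :
    ∑ ω, (Q.Nb (Q.K ω) j φ ψ : ℝ) ≤ (qq n ^ 2 * n + 1) * (Fintype.card (Val n) : ℝ) ^ n := by
  classical
  have hnR : (2 : ℝ) ≤ n := by exact_mod_cast hn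
  have h1 : ∑ ω, Q.Nb (Q.K ω) j φ ψ = ∑ x : Fin n,
      (univ.filter (fun ω => Q.Cov (Q.K ω) (j, φ x) ∧ Q.Cov (Q.K ω) (j, ψ x))).card := by
    simp only [Nb, card_filter]
    exact sum_comm
  have h2 : ∑ ω, Q.Nb (Q.K ω) j φ ψ
      ≤ n * (n * n * (n * n * (64 * (n * n) + 12 - 6 * n) ^ (n - 2))) := by
    rw [h1]
    have := sum_le_card_nsmul (univ : Finset (Fin n)) _ _ (fun x _ => Q.card_cov_two hj (h x))
    simpa using this
  have h3 : 6 * n ≤ 64 * (n * n) + 12 := by nlinarith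
  have h4 : ∑ ω, (Q.Nb (Q.K ω) j φ ψ : ℝ)
      ≤ n * (n * n * (n * n * (64 * (n * n) + 12 - 6 * n) ^ (n - 2))) := by
    have := (Nat.cast_le (α := ℝ)).2 h2
    push_cast [Nat.cast_sub h3] at this
    exact this
  refine h4.trans ?_
  obtain ⟨t1, t2⟩ := theta_bounds (n := n) (by omega)
  rw [card_val, qq]
  obtain ⟨k, rfl⟩ : ∃ k, n = k + 2 := ⟨n - 2, by omega⟩
  simp only [Nat.add_sub_cancel]
  set θ := 1 - 3 / (64 * ((k + 2 : ℕ) : ℝ)) with hθ
  set m := ((k + 2 : ℕ) : ℝ) with hm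
  have hm0 : 0 < m := by linarith
  set α := 1 - (6 * m - 12) / (64 * (m * m)) with hα
  have e1 : 64 * (m * m) + 12 - 6 * m = 64 * (m * m) * α := by rw [hα]; field_simp; ring
  have a0 : 0 ≤ α := by
    rw [hα, sub_nonneg, div_le_one (by positivity)]; nlinarith
  have a1 : α ≤ 1 := by
    have : 0 ≤ (6 * m - 12) / (64 * (m * m)) := div_nonneg (by linarith) (by positivity)
    linarith
  have a2 : α ≤ θ ^ 2 + 12 / (64 * (m * m)) := by
    have : θ ^ 2 + 12 / (64 * (m * m)) - α = 9 / (64 * m) ^ 2 := by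
      rw [hα, hθ]; field_simp; ring
    have : 0 ≤ 9 / (64 * m) ^ 2 := by positivity
    linarith
  have a3 := pow_le_pow_add a0 a1 (pow_nonneg t1 2) (pow_le_one₀ t1 t2) (by positivity) a2 (k + 2)
  rw [← hm] at a3
  have a4 : α ^ k ≤ α ^ (k + 2) + 2 * (1 - α) := by
    have b1 : α ^ k ≤ 1 := pow_le_one₀ a0 a1
    have b2 : 0 ≤ α ^ k := pow_nonneg a0 k
    have b3 : α ^ (k + 2) = α ^ k * α ^ 2 := pow_add _ _ _
    have b4 : 1 - α ^ 2 ≤ 2 * (1 - α) := by nlinarith
    have b5 : 0 ≤ 1 - α ^ 2 := by nlinarith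
    nlinarith
  have a5 : m * (1 - α) ≤ 1 := by
    have : m * (1 - α) = (6 * m - 12) / (64 * m) := by rw [hα]; field_simp; ring
    rw [this, div_le_one (by positivity)]; linarith
  have a6 : m * (m * (12 / (64 * (m * m)))) ≤ 1 := by
    have : m * (m * (12 / (64 * (m * m)))) = 12 / 64 := by field_simp
    rw [this]; norm_num
  have a7 : m * α ^ k ≤ m * (θ ^ 2) ^ (k + 2) + 3 := by nlinarith
  rw [e1, mul_pow]
  have h5 : 0 ≤ (m * m) * (m * m) * (64 * (m * m)) ^ k := by positivity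
  calc m * (m * m * (m * m * ((64 * (m * m)) ^ k * α ^ k)))
      = (m * m) * (m * m) * (64 * (m * m)) ^ k * (m * α ^ k) := by ring
    _ ≤ (m * m) * (m * m) * (64 * (m * m)) ^ k * (m * (θ ^ 2) ^ (k + 2) + 4096) :=
        mul_le_mul_of_nonneg_left (by linarith) h5
    _ = ((θ ^ (k + 2) / 64) ^ 2 * m + 1) * (64 * (m * m)) ^ (k + 2) := by
        rw [← pow_mul, mul_comm 2 (k + 2), pow_mul, pow_add (64 * (m * m))]
        ring

lemma card_K_sdiff (ω : Fin n → Val n) (x : Fin n) (v : Val n) :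
    (Q.K ω \ Q.K (Function.update ω x v)).card ≤ 4 := by
  classical
  have h1 : Q.K ω \ Q.K (Function.update ω x v) ⊆ (univ : Finset (Fin 4)).biUnion
      (fun i => (Q.K ω).filter (fun e => Q.co e i = Q.co (x, v.2) i)) := by
    intro e he
    rw [mem_sdiff, Q.mem_K, Q.mem_K] at he
    simp only [mem_biUnion, mem_univ, true_and, mem_filter, Q.mem_K]
    by_cases hx : e.1 = x
    · exact ⟨0, he.1, hx⟩
    · by_contra hcon
      push Not at hcon
      refine he.2 ⟨by rw [Function.update_of_ne hx]; exact he.1.1, fun y hy => ?_⟩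
      by_cases hyx : y = x
      · subst hyx
        rw [Function.update_self]
        rintro ⟨_, i, _, hi⟩
        exact hcon i he.1 hi.symm
      · rw [Function.update_of_ne hyx]; exact he.1.2 y hy
  refine (card_le_card h1).trans ((card_biUnion_le_card_mul _ _ 1 (fun i _ => ?_)).trans (by simp))
  rw [card_le_one]
  intro a ha b hb
  rw [mem_filter] at ha hb
  exact (Q.K_isM ω).eq_of ha.1 hb.1 (ha.2.trans hb.2.symm)

lemma card_K_sdiff' (ω : Fin n → Val n) (x : Fin n) (v : Val n) :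
    (Q.K (Function.update ω x v) \ Q.K ω).card ≤ 4 := by
  have := Q.card_K_sdiff (Function.update ω x v) x (ω x)
  rwa [Function.update_idem, Function.update_eq_self] at this

lemma Nb_le (M M' : Finset (Cell n)) (j : Fin 4) {φ ψ : Fin n → Fin n}
    (hφ : Function.Injective φ) (hψ : Function.Injective ψ) :
    Q.Nb M j φ ψ ≤ Q.Nb M' j φ ψ + 2 * (M \ M').card := by
  classical
  have h0 : ∀ χ : Fin n → Fin n, Function.Injective χ →
      (univ.filter (fun x => Q.Cov (M \ M') (j, χ x))).card ≤ (M \ M').card := by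
    intro χ hχ
    refine le_trans ?_ (card_image_le (f := fun e => Q.co e j))
    apply card_le_card_of_injOn χ
    · intro x hx
      obtain ⟨e, he, h⟩ := (mem_filter.1 hx).2
      exact mem_image.2 ⟨e, he, h⟩
    · exact hχ.injOn
  have h1 : univ.filter (fun x => Q.Cov M (j, φ x) ∧ Q.Cov M (j, ψ x)) ⊆
      univ.filter (fun x => Q.Cov M' (j, φ x) ∧ Q.Cov M' (j, ψ x)) ∪
      (univ.filter (fun x => Q.Cov (M \ M') (j, φ x)) ∪
        univ.filter (fun x => Q.Cov (M \ M') (j, ψ x))) := by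
    intro x hx
    obtain ⟨_, ⟨e, he, ha⟩, ⟨f, hf, hb⟩⟩ := mem_filter.1 hx
    simp only [mem_union, mem_filter, mem_univ, true_and]
    by_cases h1 : e ∈ M'
    · by_cases h2 : f ∈ M'
      · exact Or.inl ⟨⟨e, h1, ha⟩, ⟨f, h2, hb⟩⟩
      · exact Or.inr (Or.inr ⟨f, mem_sdiff.2 ⟨hf, h2⟩, hb⟩)
    · exact Or.inr (Or.inl ⟨e, mem_sdiff.2 ⟨he, h1⟩, ha⟩)
  have h2 := (card_le_card h1).trans ((card_union_le _ _).trans
    (Nat.add_le_add_left (card_union_le _ _) _))
  have h3 := h0 φ hφ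
  have h4 := h0 ψ hψ
  unfold Nb
  omega

/-- The pseudorandomness properties of the core. -/
def Typ (M : Finset (Cell n)) (d : ℝ) : Prop :=
  qq n * n - d ≤ M.card ∧ ∀ y z z', z ≠ z' →
    (Q.Nb M 3 (fun x => Q.L x y z) (fun x => Q.L x y z') : ℝ) ≤ qq n ^ 2 * n + 1 + d ∧
    (Q.Nb M 0 (fun w => Q.sx y z w) (fun w => Q.sx y z' w) : ℝ) ≤ qq n ^ 2 * n + 1 + d

open Classical in
lemma card_not_typ (hn : 2 ≤ n) {d : ℝ} (hd : 0 ≤ d) :
    ((univ.filter (fun ω => ¬ Q.Typ (Q.K ω) d)).card : ℝ)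
      ≤ (1 + 2 * n ^ 3) * Real.exp (-(d ^ 2 / (128 * n))) * (Fintype.card (Val n) : ℝ) ^ n := by
  have hn0 : 0 < n := by omega
  haveI : Nonempty (Val n) := ⟨(0, ⟨0, hn0⟩, ⟨0, hn0⟩)⟩
  set P := Real.exp (-(d ^ 2 / (128 * n))) * (Fintype.card (Val n) : ℝ) ^ n with hP
  have hP0 : 0 ≤ P := by positivity
  have e128 : (2 * n * 8 ^ 2 : ℝ) = 128 * n := by ring
  set A0 := univ.filter (fun ω => ((Q.K ω).card : ℝ) < qq n * n - d)
  have h0 : (A0.card : ℝ) ≤ P := by
    have := mcd (c := 8) (by norm_num) hn0 (fun ω => -((Q.K ω).card : ℝ)) (fun ω x v => by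
      have a1 := Q.card_K_sdiff ω x v
      have a2 := Q.card_K_sdiff' ω x v
      have a3 := le_card_sdiff (Q.K (Function.update ω x v)) (Q.K ω)
      have a4 := le_card_sdiff (Q.K ω) (Q.K (Function.update ω x v))
      have b1 : (Q.K ω).card ≤ (Q.K (Function.update ω x v)).card + 4 := by omega
      have b2 : (Q.K (Function.update ω x v)).card ≤ (Q.K ω).card + 4 := by omega
      have b1' : ((Q.K ω).card : ℝ) ≤ (Q.K (Function.update ω x v)).card + 4 := by
        exact_mod_cast b1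
      have b2' : ((Q.K (Function.update ω x v)).card : ℝ) ≤ (Q.K ω).card + 4 := by
        exact_mod_cast b2
      rw [abs_le]; constructor <;> linarith) (-(qq n * n)) d hd
      (by rw [sum_neg_distrib]; have := Q.sum_card_K hn0; linarith) A0
      (fun ω hω => by have := (mem_filter.1 hω).2; linarith)
    rwa [e128] at this
  have h1 : ∀ {j : Fin 4} (_ : j = 0 ∨ j = 3) (φ ψ : Fin n → Fin n), Function.Injective φ →
      Function.Injective ψ → (∀ x, φ x ≠ ψ x) →
      ((univ.filter (fun ω => qq n ^ 2 * n + 1 + d < (Q.Nb (Q.K ω) j φ ψ : ℝ))).card : ℝ) ≤ P := by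
    intro j hj φ ψ hφ hψ hne
    have := mcd (c := 8) (by norm_num) hn0 (fun ω => (Q.Nb (Q.K ω) j φ ψ : ℝ)) (fun ω x v => by
      have a1 := Q.card_K_sdiff ω x v
      have a2 := Q.card_K_sdiff' ω x v
      have a3 := Q.Nb_le (Q.K (Function.update ω x v)) (Q.K ω) j hφ hψ
      have a4 := Q.Nb_le (Q.K ω) (Q.K (Function.update ω x v)) j hφ hψ
      have b1 : Q.Nb (Q.K ω) j φ ψ ≤ Q.Nb (Q.K (Function.update ω x v)) j φ ψ + 8 := by omega
      have b2 : Q.Nb (Q.K (Function.update ω x v)) j φ ψ ≤ Q.Nb (Q.K ω) j φ ψ + 8 := by omega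
      have b1' := (Nat.cast_le (α := ℝ)).2 b1
      have b2' := (Nat.cast_le (α := ℝ)).2 b2
      push_cast at b1' b2'
      rw [abs_le]; constructor <;> linarith) _ d hd (Q.sum_Nb hn hj φ ψ hne)
      (univ.filter (fun ω => qq n ^ 2 * n + 1 + d < (Q.Nb (Q.K ω) j φ ψ : ℝ)))
      (fun ω hω => (mem_filter.1 hω).2.le)
    rwa [e128] at this
  set I := univ.filter (fun c : Cell n => c.2.1 ≠ c.2.2)
  set A1 := fun c : Cell n => univ.filter (fun ω => qq n ^ 2 * n + 1 + d <
    (Q.Nb (Q.K ω) 3 (fun x => Q.L x c.1 c.2.1) (fun x => Q.L x c.1 c.2.2) : ℝ))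
  set A2 := fun c : Cell n => univ.filter (fun ω => qq n ^ 2 * n + 1 + d <
    (Q.Nb (Q.K ω) 0 (fun w => Q.sx c.1 c.2.1 w) (fun w => Q.sx c.1 c.2.2 w) : ℝ))
  have h2 : univ.filter (fun ω => ¬ Q.Typ (Q.K ω) d) ⊆ A0 ∪ (I.biUnion A1 ∪ I.biUnion A2) := by
    intro ω hω
    have := (mem_filter.1 hω).2
    simp only [Typ, not_and_or, not_forall, not_le] at this
    simp only [mem_union, mem_biUnion, A0, A1, A2, I, mem_filter, mem_univ, true_and]
    rcases this with h | ⟨y, z, z', hz, h | h⟩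
    · exact Or.inl h
    · exact Or.inr (Or.inl ⟨(y, z, z'), hz, h⟩)
    · exact Or.inr (Or.inr ⟨(y, z, z'), hz, h⟩)
  have h3 := (card_le_card h2).trans ((card_union_le _ _).trans
    (Nat.add_le_add_left ((card_union_le _ _).trans
      (Nat.add_le_add card_biUnion_le card_biUnion_le)) _))
  have h3' := (Nat.cast_le (α := ℝ)).2 h3
  push_cast at h3'
  have hI : (I.card : ℝ) ≤ n ^ 3 := by
    have : I.card ≤ n ^ 3 := (card_le_univ _).trans (by simp [pow_succ, mul_assoc])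
    exact_mod_cast this
  have s1 : ∑ c ∈ I, ((A1 c).card : ℝ) ≤ I.card * P := by
    rw [← nsmul_eq_mul]
    refine sum_le_card_nsmul _ _ _ (fun c hc => h1 (Or.inr rfl) _ _ (Q.h1 _ _) (Q.h1 _ _)
      (fun x h => (mem_filter.1 hc).2 (Q.h3 _ _ h)))
  have s2 : ∑ c ∈ I, ((A2 c).card : ℝ) ≤ I.card * P := by
    rw [← nsmul_eq_mul]
    refine sum_le_card_nsmul _ _ _ (fun c hc => h1 (Or.inl rfl) _ _ (Q.sx_inj_w _ _)
      (Q.sx_inj_w _ _) (fun x h => (mem_filter.1 hc).2 (Q.sx_inj_z _ _ h)))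
  have s3 := mul_le_mul_of_nonneg_right hI hP0
  rw [mul_assoc, ← hP]
  nlinarith

end Cube

end Pool.Agent.Lib.MP_cdd51b_co
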