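import Pool.Agent.Lib.MP_cdd51b_co.Walk

set_option autoImplicit false

namespace Pool.Agent.Lib.MP_cdd51b_co

open Finset

/-- Root data: the removed edges and the three starting states. -/
structure Rt (n : ℕ) where
  E0 : Finset (Cell n)
  st : Fin 3 → St n

abbrev Tr (n : ℕ) := Rt n × (Fin 3 → St n)

/-- The per-trial factor in the Chernoff bounds. -/
noncomputable def mu : ℝ := 1 - 1 / (2 * 135 ^ 3)

lemma mu_nonneg : 0 ≤ mu := by unfold mu; norm_num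

variable {n : ℕ}

namespace Cube

variable (Q : Cube n) (B : Finset (Fin n)) (t : ℕ) (U J : Finset (Vx n))

def RV (W : Wd n) (ρ : Rt n) : Prop :=
  Q.Exch U ρ.E0 (J ∪ ((ρ.st 0).out ∪ ((ρ.st 1).out ∪ (ρ.st 2).out))) (-1) ∧
    (∀ i, Disjoint J (ρ.st i).out) ∧ (∀ i j, i ≠ j → Disjoint (ρ.st i).out (ρ.st j).out) ∧
    ρ.E0.card ≤ 3 ∧ ∀ e ∈ ρ.E0, Q.Good B W 3 e

def Fam (W : Wd n) (D0 : Finset (Vx n)) (F : Finset (Tr n)) (l : ℕ) : Prop :=
  (∀ c ∈ F, Q.RV B U J W c.1 ∧ ∀ i : Fin 3, Q.WV B t W i (c.1.st i) (c.2 i) l) ∧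
  (∀ c ∈ F, ∀ i, ∀ x ∈ Q.keys (c.2 i), ((0 : Fin 4), x) ∉ D0) ∧
  (∀ c ∈ F, ∀ c' ∈ F, ∀ i i', (c ≠ c' ∨ i ≠ i') →
    Disjoint (Q.keys (c.2 i)) (Q.keys (c'.2 i')))

noncomputable def allKeys (F : Finset (Tr n)) : Finset (Fin n) :=
  F.biUnion (fun c => univ.biUnion (fun i => Q.keys (c.2 i)))

variable {Q B t U J}

lemma RV.mono {W W' : Wd n} {ρ : Rt n} (h : Q.RV B U J W ρ) (hr : W.Ref W') :
    Q.RV B U J W' ρ :=
  ⟨h.1, h.2.1, h.2.2.1, h.2.2.2.1, fun e he => (h.2.2.2.2 e he).mono hr⟩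

lemma Fam.mono {W W' : Wd n} {D0 : Finset (Vx n)} {F F' : Finset (Tr n)} {l : ℕ}
    (h : Q.Fam B t U J W D0 F l) (hr : W.Ref W') (hF : F' ⊆ F) : Q.Fam B t U J W' D0 F' l :=
  ⟨fun c hc => ⟨(h.1 c (hF hc)).1.mono hr, fun i => ((h.1 c (hF hc)).2 i).mono hr⟩,
    fun c hc => h.2.1 c (hF hc), fun c hc c' hc' => h.2.2 c (hF hc) c' (hF hc')⟩

lemma Fam.empty (W : Wd n) (D0 : Finset (Vx n)) (l : ℕ) : Q.Fam B t U J W D0 ∅ l :=
  ⟨by simp, by simp, by simp⟩

lemma Fam.card_allKeys {W : Wd n} {D0 : Finset (Vx n)} {F : Finset (Tr n)} {l : ℕ}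
    (h : Q.Fam B t U J W D0 F l) : (Q.allKeys F).card ≤ F.card * (3 * t) := by
  refine card_biUnion_le_card_mul _ _ _ (fun c hc => ?_)
  refine (card_biUnion_le_card_mul _ _ t (fun i _ => ?_)).trans (by simp)
  rw [card_keys, ((h.1 c hc).2 i).2.2.1]

open Classical in
lemma Fam.insert {W : Wd n} {D0 : Finset (Vx n)} {F : Finset (Tr n)} {l : ℕ}
    (h : Q.Fam B t U J W D0 F l) (ht : 0 < t) {c : Tr n} (h1 : Q.RV B U J W c.1)
    (h2 : ∀ i : Fin 3, Q.WV B t W i (c.1.st i) (c.2 i) l)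
    (h3 : ∀ i, Disjoint (Q.keys (c.2 i)) (pr 0 D0 ∪ Q.allKeys F))
    (h4 : ∀ i i', i ≠ i' → Disjoint (Q.keys (c.2 i)) (Q.keys (c.2 i'))) :
    c ∉ F ∧ Q.Fam B t U J W D0 (insert c F) l := by
  have hk : ∀ c' ∈ F, ∀ i i', Disjoint (Q.keys (c.2 i)) (Q.keys (c'.2 i')) := by
    intro c' hc' i i'
    refine (h3 i).mono_right (fun x hx => mem_union_right _ ?_)
    exact mem_biUnion.2 ⟨c', hc', mem_biUnion.2 ⟨i', mem_univ _, hx⟩⟩
  refine ⟨fun hc => ?_, fun d hd => ?_, fun d hd i x hx => ?_, fun d hd d' hd' i i' hne => ?_⟩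
  · have := hk c hc 0 0
    rw [disjoint_self, bot_eq_empty, ← card_eq_zero, card_keys, (h2 0).2.2.1] at this
    omega
  · rcases mem_insert.1 hd with rfl | hd
    · exact ⟨h1, h2⟩
    · exact h.1 d hd
  · rcases mem_insert.1 hd with rfl | hd
    · exact fun h0 => disjoint_left.1 (h3 i) hx (mem_union_left _ (mem_pr.2 h0))
    · exact h.2.1 d hd i x hx
  · rcases mem_insert.1 hd with hd1 | hd1
    · rcases mem_insert.1 hd' with hd2 | hd2
      · subst hd1; subst hd2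
        exact h4 i i' (hne.resolve_left (fun h => h rfl))
      · subst hd1; exact hk d' hd2 i i'
    · rcases mem_insert.1 hd' with hd2 | hd2
      · subst hd2; exact (hk d hd1 i' i).symm
      · exact h.2.2 d hd1 d' hd2 i i' hne

lemma Fam.rich {W : Wd n} {D0 : Finset (Vx n)} {F : Finset (Tr n)} {l : ℕ}
    (h : Q.Fam B t U J W D0 F l) (hD : D0 ⊆ W.D) (hb : W.D.card < D0.card + F.card * t) :
    ∃ c ∈ F, ∀ i, ∃ o ∈ (c.2 i).O, ((0 : Fin 4), Q.sx (c.2 i).y o (c.2 i).w) ∉ W.D := by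
  classical
  by_contra hcon
  push Not at hcon
  choose! f hf using hcon
  have e1 : (F.biUnion (fun c => Q.keys (c.2 (f c)))).card = F.card * t := by
    rw [card_biUnion (fun c hc c' hc' hne => h.2.2 c hc c' hc' _ _ (Or.inl hne)),
      sum_congr rfl (g := fun _ => t) (fun c hc => by rw [card_keys, ((h.1 c hc).2 _).2.2.1])]
    simp
  have e2 : F.biUnion (fun c => Q.keys (c.2 (f c))) ⊆ pr 0 (W.D \ D0) := by
    intro x hx
    obtain ⟨c, hc, hx⟩ := mem_biUnion.1 hx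
    rw [mem_pr, mem_sdiff]
    refine ⟨?_, h.2.1 c hc _ x hx⟩
    obtain ⟨o, ho, rfl⟩ := mem_image.1 hx
    exact hf c hc o ho
  have e3 := (card_le_card e2).trans (card_pr_le _ _)
  have e4 := card_sdiff_add_card_eq_card hD
  omega

variable {T : (Fin n → Val n) → Prop}

/-- One trial: a step of each of the three walks. -/
lemma tri (hn : 0 < n) {W : Wd n} (hI : Q.WInv B W) {s0 s : Fin 3 → St n} {l : ℕ}
    (hV : ∀ i : Fin 3, Q.WV B t W i (s0 i) (s i) l) {o : Fin 3 → Fin n} (ho : ∀ i, o i ∈ (s i).O)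
    (hx : ∀ i, ((0 : Fin 4), Q.sx (s i).y (o i) (s i).w) ∉ W.D)
    (hd : ∀ i i', i ≠ i' → Disjoint (Q.keys (s i)) (Q.keys (s i'))) (A : Finset (Fin n))
    (h : 2 * (3 * (W.D.card + 8) + t * (A.card + 2 * t)) ≤ n) {a b : ℝ} (hab : a ≤ b)
    (hs : ∀ (W' : Wd n) (s' : Fin 3 → St n), W.Ref W' → Q.WInv B W' →
      W'.D.card ≤ W.D.card + 16 → (∀ i : Fin 3, Q.WV B t W' i (s0 i) (s' i) (l + 1)) →
      (∀ i, Disjoint (Q.keys (s' i)) A) →
      (∀ i i', i ≠ i' → Disjoint (Q.keys (s' i)) (Q.keys (s' i'))) → Bd T W'.S a)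
    (hf : ∀ W' : Wd n, W.Ref W' → Q.WInv B W' → W'.D.card ≤ W.D.card + 16 → Bd T W'.S b) :
    Bd T W.S (b - (b - a) / 135 ^ 3) := by
  have hne : ∀ i i', i ≠ i' → Q.sx (s i).y (o i) (s i).w ≠ Q.sx (s i').y (o i') (s i').w := by
    intro i i' hi he
    exact disjoint_left.1 (hd i i' hi) (mem_image_of_mem _ (ho i))
      (he ▸ mem_image_of_mem (fun o => Q.sx (s i').y o (s i').w) (ho i'))
  refine (step2 hn hI (hV 0) (ho 0) (hx 0) A (by nlinarith) (a := b - (b - a) / 135 ^ 2) (b := b)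
    (by linarith) (fun W1 s1 r1 i1 c1 x1 v1 k1 => ?_)
    (fun W' a1 a2 a3 => hf W' a1 a2 (by omega))).mono (le_of_eq (by ring))
  have hk1 : (Q.keys s1).card = t := by rw [card_keys, v1.2.2.1]
  have hA1 : (A ∪ Q.keys s1).card ≤ A.card + t := hk1 ▸ card_union_le _ _
  refine (step2 hn i1 ((hV 1).mono r1) (ho 1)
    (fun h => (x1 _ h).elim (hx 1) (hne 1 0 (by decide))) (A ∪ Q.keys s1) (by nlinarith)
    (a := b - (b - a) / 135) (b := b)
    (by linarith) (fun W2 s2 r2 i2 c2 x2 v2 k2 => ?_)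
    (fun W' a1 a2 a3 => hf W' (r1.trans a1) a2 (by omega))).mono (le_of_eq (by ring))
  have hk2 : (Q.keys s2).card = t := by rw [card_keys, v2.2.2.1]
  have hA2 : (A ∪ Q.keys s1 ∪ Q.keys s2).card ≤ A.card + 2 * t := by
    have := card_union_le (A ∪ Q.keys s1) (Q.keys s2)
    omega
  refine step2 hn i2 ((hV 2).mono (r1.trans r2)) (ho 2)
    (fun h => (x2 _ h).elim (fun h => (x1 _ h).elim (hx 2) (hne 2 0 (by decide)))
      (hne 2 1 (by decide))) (A ∪ Q.keys s1 ∪ Q.keys s2) (by nlinarith)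
    hab (fun W3 s3 r3 i3 c3 x3 v3 k3 => ?_)
    (fun W' a1 a2 a3 => hf W' ((r1.trans r2).trans a1) a2 (by omega))
  rw [disjoint_union_right] at k2
  rw [disjoint_union_right, disjoint_union_right] at k3
  refine hs W3 ![s1, s2, s3] ((r1.trans r2).trans r3) i3 (by omega) (fun i => ?_) (fun i => ?_)
    (fun i i' hi => ?_)
  · fin_cases i
    · exact v1.mono (r2.trans r3)
    · exact v2.mono r3
    · exact v3
  · fin_cases i
    · exact k1
    · exact k2.1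
    · exact k3.1.1
  · fin_cases i <;> fin_cases i'
    · exact absurd rfl hi
    · exact k2.2.symm
    · exact k3.1.2.symm
    · exact k2.2
    · exact absurd rfl hi
    · exact k3.2.symm
    · exact k3.1.2
    · exact k3.2
    · exact absurd rfl hi

/-- One round: grow a family of children. -/
lemma round (hn : 0 < n) (ht : 0 < t) {W : Wd n} (hI : Q.WInv B W) {D0 : Finset (Vx n)}
    {F : Finset (Tr n)} {l : ℕ} (hF : Q.Fam B t U J W D0 F l) (hD0 : D0 ⊆ W.D) (N0 j0 : ℕ)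
    (hbud : W.D.card + 16 * N0 < D0.card + F.card * t)
    (hsz : 2 * (3 * (W.D.card + 16 * N0 + 8) + t * (W.D.card + j0 * (3 * t) + 2 * t)) ≤ n)
    {a : ℝ} (ha : 0 ≤ a)
    (hc : ∀ (W' : Wd n) (F' : Finset (Tr n)), Q.WInv B W' → Q.Fam B t U J W' W.D F' (l + 1) →
      W.D ⊆ W'.D → W'.D.card ≤ W.D.card + 16 * N0 → F'.card = j0 →
      (∀ c' ∈ F', ∃ c ∈ F, c'.1 = c.1) → Bd T W'.S a) :
    Bd T W.S (a + 2 ^ j0 * mu ^ N0) := by
  classical
  refine Bd.loop (T := T) (fun s : Wd n × Finset (Tr n) => s.1.S)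
    (fun N j s => W.Ref s.1 ∧ Q.WInv B s.1 ∧ s.1.D.card + 16 * N ≤ W.D.card + 16 * N0 ∧
      Q.Fam B t U J s.1 W.D s.2 (l + 1) ∧ s.2.card + j = j0 ∧ ∀ c' ∈ s.2, ∃ c ∈ F, c'.1 = c.1)
    a mu ha mu_nonneg ?_ ?_ N0 j0 (W, ∅)
    ⟨Wd.Ref.refl _, hI, le_rfl, Fam.empty _ _ _, by simp, by simp⟩
  · rintro N ⟨W', F'⟩ ⟨h1, h2, h3, h4, h5, h6⟩
    exact hc W' F' h2 h4 h1.2.1 (by simp only at h3; omega) h5 h6
  · rintro N j ⟨W', F'⟩ ⟨h1, h2, h3, h4, h5, h6⟩ A hA g1 g2 _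
    simp only at h1 h2 h3 h4 h5 h6 g1 g2 ⊢
    have hF' := hF.mono h1 subset_rfl
    obtain ⟨c, hc, hrich⟩ := hF'.rich (hD0.trans h1.2.1) (by omega)
    choose o ho hx using hrich
    have hAc : (pr 0 W.D ∪ Q.allKeys F').card ≤ W.D.card + j0 * (3 * t) := by
      have a1 := card_union_le (pr 0 W.D) (Q.allKeys F')
      have a2 := card_pr_le 0 W.D
      have a3 := h4.card_allKeys
      have a4 : F'.card * (3 * t) ≤ j0 * (3 * t) := Nat.mul_le_mul_right _ (by omega)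
      omega
    refine (tri hn h2 (hF'.1 c hc).2 ho hx (fun i i' hi => hF.2.2 c hc c hc i i' (Or.inr hi))
      (pr 0 W.D ∪ Q.allKeys F') ?_ (a := a + A) (b := a + 2 * A) (by linarith)
      (fun W2 s' r2 i2 c2 v2 k2 k3 => ?_) (fun W2 r2 i2 c2 => ?_)).mono
      (le_of_eq (by unfold mu; ring))
    · have a1 : t * ((pr 0 W.D ∪ Q.allKeys F').card + 2 * t)
          ≤ t * (W.D.card + j0 * (3 * t) + 2 * t) := Nat.mul_le_mul_left _ (by omega)
      omega
    · obtain ⟨n1, n2⟩ := (h4.mono r2 subset_rfl).insert ht (c := (c.1, s'))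
        ((hF'.1 c hc).1.mono r2) v2 k2 k3
      refine g1 (W2, insert (c.1, s') F') ⟨h1.trans r2, i2, by simp only; omega, n2, ?_, ?_⟩
      · simp only; rw [card_insert_of_notMem n1]; omega
      · intro c' hc'
        rcases mem_insert.1 hc' with rfl | hc'
        · exact ⟨c, hc, rfl⟩
        · exact h6 c' hc'
    · exact g2 (W2, F') ⟨h1.trans r2, i2, by simp only; omega, h4.mono r2 subset_rfl, h5, h6⟩

lemma halve {α β : Type*} [DecidableEq β] (f : α → β) (F : Finset α) (m k : ℕ)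
    (h1 : F.card = 2 * m) (h2 : (F.image f).card ≤ 2 ^ (k + 1)) :
    ∃ F' ⊆ F, F'.card = m ∧ (F'.image f).card ≤ 2 ^ k := by
  classical
  obtain ⟨R, hR1, hR2⟩ := exists_subset_card_eq (s := F.image f)
    (n := min (2 ^ k) (F.image f).card) (min_le_right _ _)
  have e1 := card_sdiff_add_card_eq_card hR1
  have e2 := card_filter_add_card_filter_not (s := F) (fun c => f c ∈ R)
  by_cases hc : m ≤ (F.filter (fun c => f c ∈ R)).card
  · obtain ⟨F', a1, a2⟩ := exists_subset_card_eq hc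
    refine ⟨F', a1.trans (filter_subset _ _), a2, ?_⟩
    have : F'.image f ⊆ R := by
      intro b hb
      obtain ⟨c, hc, rfl⟩ := mem_image.1 hb
      exact (mem_filter.1 (a1 hc)).2
    have := card_le_card this
    omega
  · obtain ⟨F', a1, a2⟩ := exists_subset_card_eq (s := F.filter (fun c => ¬ f c ∈ R)) (n := m)
      (by omega)
    refine ⟨F', a1.trans (filter_subset _ _), a2, ?_⟩
    have : F'.image f ⊆ F.image f \ R := by
      intro b hb
      obtain ⟨c, hc, rfl⟩ := mem_image.1 hb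
      have := mem_filter.1 (a1 hc)
      exact mem_sdiff.2 ⟨mem_image_of_mem _ this.1, this.2⟩
    have := card_le_card this
    rw [pow_succ] at h2
    omega

open Classical in
/-- All rounds: reduce to a single root. -/
lemma rounds (hn : 0 < n) (ht : 0 < t) (N0 m Dmax lmax : ℕ) (hbud : 32 * N0 < m * t)
    (hsz : 2 * (3 * (Dmax + 8) + t * (Dmax + 2 * m * (3 * t) + 2 * t)) ≤ n)
    {a ε : ℝ} (ha : 0 ≤ a) (hε : 2 ^ (2 * m) * mu ^ N0 ≤ ε)
    (hc : ∀ (W : Wd n) (D0 : Finset (Vx n)) (F : Finset (Tr n)) (ρ : Rt n), Q.WInv B W →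
      Q.Fam B t U J W D0 F lmax → D0 ⊆ W.D → W.D.card ≤ D0.card + 16 * N0 → F.card = m →
      (∀ c ∈ F, c.1 = ρ) → W.D.card ≤ Dmax → Bd T W.S a) (k : ℕ) :
    ∀ (W : Wd n) (D0 : Finset (Vx n)) (F : Finset (Tr n)) (l : ℕ), Q.WInv B W →
      Q.Fam B t U J W D0 F l → D0 ⊆ W.D → W.D.card ≤ D0.card + 16 * N0 → F.card = m →
      (F.image Prod.fst).card ≤ 2 ^ k → W.D.card + 16 * N0 * k ≤ Dmax → l + k = lmax →
      Bd T W.S (a + k * ε) := by
  have hε0 : 0 ≤ ε := le_trans (by have := mu_nonneg; positivity) hε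
  induction k with
  | zero =>
    intro W D0 F l h1 h2 h3 h4 h5 h6 h7 h8
    simp only [Nat.cast_zero, zero_mul, add_zero] at *
    subst h8
    have hm : 0 < m := by
      rcases Nat.eq_zero_or_pos m with h | h
      · rw [h] at hbud; omega
      · exact h
    obtain ⟨c0, hc0⟩ : F.Nonempty := card_pos.1 (by omega)
    refine hc W D0 F c0.1 h1 h2 h3 h4 h5 (fun c hcF => ?_) (by simpa using h7)
    exact card_le_one.1 (by simpa using h6) _ (mem_image_of_mem _ hcF) _ (mem_image_of_mem _ hc0)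
  | succ k ih =>
    intro W D0 F l h1 h2 h3 h4 h5 h6 h7 h8
    have h7' : W.D.card + 16 * N0 + 16 * N0 * k ≤ Dmax := by rw [mul_add] at h7; omega
    refine (round hn ht h1 h2 h3 N0 (2 * m) (by rw [h5]; omega) ?_ (a := a + k * ε)
      (by positivity) (fun W' F' g1 g2 g3 g4 g5 g6 => ?_)).mono (by push_cast; linarith)
    · have a1 : t * (W.D.card + 2 * m * (3 * t) + 2 * t)
          ≤ t * (Dmax + 2 * m * (3 * t) + 2 * t) := Nat.mul_le_mul_left _ (by omega)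
      omega
    · have : F'.image Prod.fst ⊆ F.image Prod.fst := by
        intro b hb
        obtain ⟨c', hc', rfl⟩ := mem_image.1 hb
        obtain ⟨c, hc, e⟩ := g6 c' hc'
        exact e ▸ mem_image_of_mem _ hc
      obtain ⟨F'', b1, b2, b3⟩ := halve Prod.fst F' m k g5 ((card_le_card this).trans h6)
      exact ih W' W.D F'' (l + 1) g1 (g2.mono (Wd.Ref.refl _) b1) g3 g4 b2 b3 (by omega) (by omega)

end Cube

end Pool.Agent.Lib.MP_cdd51b_co
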