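import Pool.Agent.Lib.MP_cdd51b_co.Wool

set_option autoImplicit false

namespace Pool.Agent.Lib.MP_cdd51b_co

open Finset

variable {n : ℕ}

/-- The vertex set with prescribed parts. -/
def mkU (f : Fin 4 → Finset (Fin n)) : Finset (Vx n) :=
  univ.biUnion (fun j => (f j).image (fun a => (j, a)))

lemma mem_mkU {f : Fin 4 → Finset (Fin n)} {u : Vx n} : u ∈ mkU f ↔ u.2 ∈ f u.1 := by
  obtain ⟨j, a⟩ := u
  simp only [mkU, mem_biUnion, mem_univ, true_and, mem_image, Prod.mk.injEq]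
  constructor
  · rintro ⟨i, b, hb, rfl, rfl⟩; exact hb
  · intro h; exact ⟨j, a, h, rfl, rfl⟩

lemma card_mkU {f : Fin 4 → Finset (Fin n)} {c : ℕ} (h : ∀ j, (f j).card ≤ c) :
    (mkU f).card ≤ 4 * c :=
  (card_biUnion_le_card_mul _ _ c (fun j _ => card_image_le.trans (h j))).trans (by simp)

lemma card_le_of_pr {D : Finset (Vx n)} {c : ℕ} (h : ∀ j, (pr j D).card ≤ c) : D.card ≤ 4 * c :=
  (card_le_card (fun u hu => mem_mkU.2 (mem_pr.2 hu))).trans (card_mkU h)

lemma exists_tok (t : ℕ) (f : Fin 4 → Finset (Fin n)) (h : ∀ j, (f j).card = 3 * t + 5) :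
    ∃ τ : Tok n t, τ.In (mkU f) := by
  have two : ∀ j, ∃ a ∈ f j, ∃ b ∈ f j, a ≠ b := fun j => one_lt_card.1 (by rw [h]; omega)
  obtain ⟨xa, h1, xb, h2, hx⟩ := two 0
  obtain ⟨ya, h3, yb, h4, hy⟩ := two 1
  obtain ⟨za, h5, zb, h6, hz⟩ := two 2
  obtain ⟨wa, h7, wb, h8, hw⟩ := two 3
  have c0 : ((f 2).erase za).card + 1 = 3 * t + 5 := by rw [card_erase_add_one h5, h]
  have c1 := card_erase_add_one (mem_erase.2 ⟨hz.symm, h6⟩)
  set R := ((f 2).erase za).erase zb
  obtain ⟨Z0, a0, b0⟩ := exists_subset_card_eq (s := R) (n := t + 1) (by omega)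
  have c2 := card_sdiff_add_card_eq_card a0
  obtain ⟨Z1, a1, b1⟩ := exists_subset_card_eq (s := R \ Z0) (n := t + 1) (by omega)
  have c3 := card_sdiff_add_card_eq_card a1
  obtain ⟨Z2, a2, b2⟩ := exists_subset_card_eq (s := (R \ Z0) \ Z1) (n := t + 1) (by omega)
  set Z : Fin 3 → Finset (Fin n) := ![Z0, Z1, Z2]
  have zc : ∀ i, (Z i).card = t + 1 := by
    intro i; fin_cases i
    · exact b0
    · exact b1
    · exact b2
  have zR : ∀ i, Z i ⊆ R := by
    intro i; fin_cases i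
    · exact a0
    · exact a1.trans sdiff_subset
    · exact a2.trans (sdiff_subset.trans sdiff_subset)
  have d01 : Disjoint Z0 Z1 := disjoint_of_subset_right a1 disjoint_sdiff
  have d02 : Disjoint Z0 Z2 := disjoint_of_subset_right (a2.trans sdiff_subset) disjoint_sdiff
  have d12 : Disjoint Z1 Z2 := disjoint_of_subset_right a2 disjoint_sdiff
  have zd : ∀ i j, i ≠ j → Disjoint (Z i) (Z j) := by
    intro i j hij
    fin_cases i <;> fin_cases j
    · exact absurd rfl hij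
    · exact d01
    · exact d02
    · exact d01.symm
    · exact absurd rfl hij
    · exact d12
    · exact d02.symm
    · exact d12.symm
    · exact absurd rfl hij
  have zn : ∀ i, (Z i).Nonempty := fun i => card_pos.1 (by rw [zc]; omega)
  choose d hd using zn
  have zi : ∀ i, insert (d i) ((Z i).erase (d i)) = Z i := fun i => insert_erase (hd i)
  refine ⟨⟨xa, xb, ya, yb, wa, wb, za, zb, d, fun i => (Z i).erase (d i), hx, hy, hw, hz,
    fun i => ?_, fun i => notMem_erase _ _, fun i j hij => ?_, fun i => ?_, fun i => ?_⟩,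
    ?_, mem_mkU.2 h3, mem_mkU.2 h4, mem_mkU.2 h7, mem_mkU.2 h8, fun i o ho => ?_⟩
  · have := card_erase_add_one (hd i)
    have := zc i
    omega
  · rw [zi, zi]; exact zd i j hij
  · rw [zi]; exact fun h => (mem_erase.1 (mem_erase.1 (zR i h)).2).1 rfl
  · rw [zi]; exact fun h => (mem_erase.1 (zR i h)).1 rfl
  · intro u hu
    simp only [Tok.J, mem_insert, mem_singleton] at hu
    rcases hu with rfl | rfl | rfl | rfl
    · exact mem_mkU.2 h1
    · exact mem_mkU.2 h2
    · exact mem_mkU.2 h5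
    · exact mem_mkU.2 h6
  · simp only at ho
    rw [zi] at ho
    exact mem_mkU.2 (mem_of_mem_erase (mem_of_mem_erase (zR i ho)))

namespace Cube

variable {Q : Cube n}

lemma iterate (K : Finset (Cell n)) (Rem : Finset (Vx n)) (b s bs C : ℕ)
    (hb : ∀ j, (pr j Rem).card ≤ b) (hbs : bs ≤ n)
    (hT : ∀ B : Finset (Fin n), B.card = bs → ∀ f : Fin 4 → Finset (Fin n),
      (∀ j, (f j).card = C) →
      ∃ E, E ⊆ K ∧ (∀ e ∈ E, e.1 ∉ B) ∧ E.card ≤ s ∧ Q.Exch (mkU f) E ∅ 1) (j : ℕ) :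
    ∀ M, Q.IsM M → (∀ u ∈ Rem, ¬ Q.Cov M u) → (K \ M).card + j * s ≤ bs →
      n ≤ M.card + b + C + j →
      ∃ M', Q.IsM M' ∧ (∀ u ∈ Rem, ¬ Q.Cov M' u) ∧ n ≤ M'.card + b + C := by
  classical
  induction j with
  | zero => intro M h1 h2 _ h4; exact ⟨M, h1, h2, h4⟩
  | succ j ih =>
    intro M h1 h2 h3 h4
    by_cases hc : n ≤ M.card + b + C
    · exact ⟨M, h1, h2, hc⟩
    have hF : ∀ i : Fin 4, ∃ F ⊆ univ.filter (fun a => ¬ Q.Cov M (i, a) ∧ (i, a) ∉ Rem),
        F.card = C := by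
      intro i
      apply exists_subset_card_eq
      have a1 : univ ⊆ univ.filter (fun a => ¬ Q.Cov M (i, a) ∧ (i, a) ∉ Rem) ∪
          (univ.filter (fun a => Q.Cov M (i, a)) ∪ pr i Rem) := by
        intro a _
        simp only [mem_union, mem_filter, mem_univ, true_and, mem_pr]
        tauto
      have a2 := (card_le_card a1).trans ((card_union_le _ _).trans
        (Nat.add_le_add_left (card_union_le _ _) _))
      rw [h1.card_cov] at a2
      simp only [card_univ, Fintype.card_fin] at a2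
      have := hb i
      omega
    choose f hf1 hf2 using hF
    rw [add_mul, one_mul] at h3
    obtain ⟨B, b1, _, b3⟩ := exists_subsuperset_card_eq (s := (K \ M).image (fun e => e.1))
      (t := univ) (n := bs) (subset_univ _) (card_image_le.trans (by omega)) (by simpa using hbs)
    obtain ⟨E, e1, e2, e3, e4⟩ := hT B b3 f hf2
    have hEM : E ⊆ M := by
      intro e he
      by_contra hne
      exact e2 e he (b1 (mem_image_of_mem _ (mem_sdiff.2 ⟨e1 he, hne⟩)))
    have hU : ∀ u ∈ mkU f, ¬ Q.Cov M u ∧ u ∉ Rem :=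
      fun u hu => (mem_filter.1 (hf1 _ (mem_mkU.1 hu))).2
    obtain ⟨M', c1, c2, c3, _, c5⟩ := e4.2 M h1 hEM (fun u hu => (hU u hu).1)
    refine ih M' c1 (fun u hu h => (c5 u h).elim (h2 u hu) (fun h => (hU u h).2 hu)) ?_ (by omega)
    have : K \ M' ⊆ (K \ M) ∪ E := by
      intro e he
      rw [mem_sdiff] at he
      rw [mem_union, mem_sdiff]
      by_contra hcon
      push Not at hcon
      exact he.2 (c3 (mem_sdiff.2 ⟨hcon.1 he.1, hcon.2⟩))
    have := (card_le_card this).trans (card_union_le _ _)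
    omega

end Cube

lemma two_pow_mul_le (j N : ℕ) {x f : ℝ} (hx : x ≤ 1) (h : j + f ≤ x * N) :
    2 ^ j * (1 - x) ^ N ≤ Real.exp (-f) := by
  have h1 : (2 : ℝ) ^ j ≤ Real.exp j := by
    rw [← mul_one (j : ℝ), Real.exp_nat_mul]
    exact pow_le_pow_left₀ (by norm_num) (by have := Real.add_one_le_exp 1; linarith) _
  have h2 : (1 - x) ^ N ≤ Real.exp (N * (-x)) := by
    rw [Real.exp_nat_mul]
    exact pow_le_pow_left₀ (by linarith) (by have := Real.add_one_le_exp (-x); linarith) _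
  refine (mul_le_mul h1 h2 (pow_nonneg (by linarith) _) (Real.exp_pos _).le).trans ?_
  rw [← Real.exp_add]
  exact Real.exp_le_exp.2 (by linarith)

lemma link_exp (hn : 0 < n) (p a N j f : ℕ) (hp : n ≤ p) (ha : a ≤ n)
    (h : 896 * p * (j + f) ≤ 3 * a * N) :
    2 ^ j * (1 - 3 * (a : ℝ) / (896 * n)) ^ N ≤ Real.exp (-(f : ℝ)) := by
  have hnR : (0 : ℝ) < n := by exact_mod_cast hn
  have haR : (a : ℝ) ≤ n := by exact_mod_cast ha
  apply two_pow_mul_le
  · rw [div_le_one (by positivity)]; linarith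
  · rw [div_mul_eq_mul_div, le_div_iff₀ (by positivity)]
    have : (j + f) * (896 * n) ≤ 3 * a * N := by
      refine le_trans ?_ h
      rw [mul_comm]
      exact Nat.mul_le_mul_right _ (Nat.mul_le_mul_left _ hp)
    exact_mod_cast this

/-- The constant number of tokens per part. -/
def CC : ℕ := 3 * 2 ^ 30 + 5

namespace Cube

lemma aug_params (Q : Cube n) {u : ℕ} (hu : 2 ^ 70 ≤ u) (hu2 : u ^ 201 ≤ 2 ^ u)
    (h1 : u ^ 200 ≤ n) (h2 : n ≤ 2 * u ^ 200) (B : Finset (Fin n)) (hB : B.card = u ^ 172)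
    (f : Fin 4 → Finset (Fin n)) (hf : ∀ j, (f j).card = CC) :
    Bd (Q.Tgt B (mkU f) (3 + 3 * (u + 1))) (fun _ => univ)
      ((u + 4) * Real.exp (-((u ^ 175 : ℕ) : ℝ))) := by
  have u1 : 1 ≤ u := by omega
  have p : ∀ a b, a ≤ b → u ^ a ≤ u ^ b := fun a b h => Nat.pow_le_pow_right u1 h
  have q : ∀ a b, b = a + 1 → 2 ^ 70 * u ^ a ≤ u ^ b := fun a b h => by
    rw [h, pow_succ' u]; exact Nat.mul_le_mul_right _ hu
  have hn : 0 < n := lt_of_lt_of_le (Nat.pow_pos u1) h1
  obtain ⟨τ, hτ⟩ := exists_tok (2 ^ 30) f hf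
  have hU : (mkU f).card ≤ 4 * CC := card_mkU (fun j => (hf j).le)
  have p0 : 1 ≤ u ^ 198 := Nat.pow_pos u1
  unfold CC at hU
  refine augment_bd hn (by norm_num) τ hτ (2 ^ 24 * u ^ 198) (u ^ 198) u (2 ^ 30 * u ^ 199)
    (u ^ 198) (u ^ 196) (u ^ 199) (u ^ 195) (u ^ 189) (u ^ 195) (u ^ 188) (u ^ 188) _
    (by linarith) (by linarith [p 195 198 (by norm_num), p 188 198 (by norm_num)])
    ((p 198 201 (by norm_num)).trans hu2)
    (by rw [hB]; linarith [p 172 199 (by norm_num), p 198 199 (by norm_num), p 1 199 (by norm_num)])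
    (by linarith [q 199 200 rfl, Nat.zero_le (u ^ 199), q 198 199 rfl, Nat.zero_le (u ^ 198), p 0 199 (by norm_num)])
    (by linarith [q 199 200 rfl, Nat.zero_le (u ^ 199), p 198 199 (by norm_num), p 195 199 (by norm_num),
            p 188 199 (by norm_num), p 0 199 (by norm_num)])
    (by linarith [q 199 200 rfl, Nat.zero_le (u ^ 199), p 198 199 (by norm_num)])
    (by linarith [q 195 196 rfl, Nat.zero_le (u ^ 195)])
    (by linarith [q 188 189 rfl, Nat.zero_le (u ^ 188)])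
    ?_ ?_ ?_ ?_
  · unfold mu
    apply two_pow_mul_le _ _ (by norm_num)
    have : ((u ^ 175 : ℕ) : ℝ) ≤ ((u ^ 198 : ℕ) : ℝ) := by exact_mod_cast p 175 198 (by norm_num)
    have h0 : (0 : ℝ) ≤ ((u ^ 198 : ℕ) : ℝ) := Nat.cast_nonneg _
    rw [Nat.cast_mul, Nat.cast_mul]
    push_cast at *
    linarith
  · exact link_exp hn _ _ _ _ _ h2 ((p 199 200 (by norm_num)).trans h1)
      (by linarith [q 396 397 rfl, Nat.zero_le (u ^ 396), p 375 396 (by norm_num)])
  · exact link_exp hn _ _ _ _ _ h2 ((p 195 200 (by norm_num)).trans h1)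
      (by linarith [q 389 390 rfl, Nat.zero_le (u ^ 389), p 375 389 (by norm_num)])
  · exact link_exp hn _ _ _ _ _ h2 ((p 188 200 (by norm_num)).trans h1)
      (by linarith [q 375 376 rfl, Nat.zero_le (u ^ 375), p 200 375 (by norm_num)])

end Cube

end Pool.Agent.Lib.MP_cdd51b_co
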