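import Pool.Agent.Lib.MP_cdd51b_co.Root

set_option autoImplicit false

namespace Pool.Agent.Lib.MP_cdd51b_co

open Finset

variable {n t : ℕ}

lemma card_pairs_two {α : Type*} [Fintype α] (φ ψ : α → Fin n)
    (h : ∀ p p', φ p = φ p' → ψ p = ψ p' → p = p') (A B : Finset (Fin n)) :
    (univ.filter (fun p : α => φ p ∈ A ∧ ψ p ∈ B)).card ≤ A.card * B.card := by
  rw [← card_product]
  apply card_le_card_of_injOn (fun p => (φ p, ψ p))
  · intro p hp; simpa using hp
  · intro p _ p' _ hh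
    simp only [Prod.mk.injEq] at hh
    exact h p p' hh.1 hh.2

namespace Cube

variable {Q : Cube n} {B : Finset (Fin n)} {U J : Finset (Vx n)}

lemma exists_G' (Q : Cube n) (x : Fin n) (D : Finset (Vx n)) (T1 T2 : Finset (Fin n))
    (π : Fin n → Fin n) (hπ : Function.Injective π)
    (h : 2 * (3 * D.card + T2.card + 1) ≤ n) :
    ∃ G : Finset (Fin n × Fin n), n * T1.card ≤ 2 * G.card ∧ ∀ p ∈ G,
      ((1 : Fin 4), p.1) ∉ D ∧ ((2 : Fin 4), p.2) ∉ D ∧ Q.L x p.1 p.2 ∈ T1 ∧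
        ((3 : Fin 4), π p.1) ∉ D ∧ π p.1 ∉ T2 ∧ π p.1 ≠ Q.L x p.1 p.2 := by
  classical
  set X0 := univ.filter (fun p : Fin n × Fin n => Q.L x p.1 p.2 ∈ T1)
  set X1 := univ.filter (fun p : Fin n × Fin n => p.1 ∈ pr 1 D ∧ Q.L x p.1 p.2 ∈ T1)
  set X2 := univ.filter (fun p : Fin n × Fin n => p.2 ∈ pr 2 D ∧ Q.L x p.1 p.2 ∈ T1)
  set X3 := univ.filter (fun p : Fin n × Fin n => π p.1 ∈ pr 3 D ∪ T2 ∧ Q.L x p.1 p.2 ∈ T1)
  set X4 := univ.filter (fun p : Fin n × Fin n => π p.1 = Q.L x p.1 p.2 ∧ Q.L x p.1 p.2 ∈ T1)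
  have i1 : ∀ p p' : Fin n × Fin n, p.1 = p'.1 → Q.L x p.1 p.2 = Q.L x p'.1 p'.2 → p = p' := by
    intro p p' a b
    rw [← a] at b
    exact Prod.ext a (Q.h3 _ _ b)
  have i2 : ∀ p p' : Fin n × Fin n, p.2 = p'.2 → Q.L x p.1 p.2 = Q.L x p'.1 p'.2 → p = p' := by
    intro p p' a b
    rw [← a] at b
    exact Prod.ext (Q.h2 _ _ b) a
  have h0 : n * T1.card ≤ X0.card := by
    have a1 := card_pairs_le (fun y z : Fin n => Q.L x y z) (fun y => Q.h3 x y) T1ᶜ
    have a2 : univ ⊆ X0 ∪ univ.filter (fun p : Fin n × Fin n => Q.L x p.1 p.2 ∈ T1ᶜ) := by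
      intro p _
      simp only [mem_union, X0, mem_filter, mem_univ, true_and, mem_compl]
      exact em _
    have a2' := (card_le_card a2).trans (card_union_le _ _)
    have a3 := card_add_card_compl T1
    simp only [card_univ, Fintype.card_prod, Fintype.card_fin] at a2' a3
    have a4 : n * T1.card + n * T1ᶜ.card = n * n := by rw [← mul_add, a3]
    omega
  have h1 : X1.card ≤ D.card * T1.card := (card_pairs_two _ _ i1 _ _).trans
    (Nat.mul_le_mul_right _ (card_pr_le _ _))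
  have h2 : X2.card ≤ D.card * T1.card := (card_pairs_two _ _ i2 _ _).trans
    (Nat.mul_le_mul_right _ (card_pr_le _ _))
  have h3 : X3.card ≤ (D.card + T2.card) * T1.card :=
    (card_pairs_two (fun p : Fin n × Fin n => π p.1) _ (fun p p' a b => i1 p p' (hπ a) b) _ _).trans
    (Nat.mul_le_mul_right _ ((card_union_le _ _).trans (Nat.add_le_add_right (card_pr_le _ _) _)))
  have h4 : X4.card ≤ T1.card := by
    apply card_le_card_of_injOn (fun p => Q.L x p.1 p.2)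
    · intro p hp
      exact (mem_filter.1 hp).2.2
    · intro p hp p' hp' hh
      have a := (mem_filter.1 hp).2.1
      have b := (mem_filter.1 hp').2.1
      simp only at hh
      exact i1 p p' (hπ (a.trans (hh.trans b.symm))) hh
  refine ⟨X0 \ (X1 ∪ X2 ∪ X3 ∪ X4), ?_, fun p hp => ?_⟩
  · have e1 := le_card_sdiff (X1 ∪ X2 ∪ X3 ∪ X4) X0
    have e2 : (X1 ∪ X2 ∪ X3 ∪ X4).card ≤ X1.card + X2.card + X3.card + X4.card := by
      have a2 := card_union_le (X1 ∪ X2 ∪ X3) X4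
      have a3 := card_union_le (X1 ∪ X2) X3
      have a4 := card_union_le X1 X2
      omega
    have e3 := Nat.mul_le_mul_right T1.card h
    have e4 : 2 * (3 * D.card + T2.card + 1) * T1.card
        = 2 * (D.card * T1.card + D.card * T1.card + (D.card + T2.card) * T1.card + T1.card) := by
      ring
    omega
  · simp only [mem_sdiff, mem_univ, true_and, mem_union, not_or, X0, X1, X2, X3, X4, mem_filter,
      mem_pr, not_and] at hp
    obtain ⟨a0, ⟨⟨a1, a2⟩, a3⟩, a4⟩ := hp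
    exact ⟨fun h => a1 h a0, fun h => a2 h a0, a0, fun h => a3 (Or.inl h) a0,
      fun h => a3 (Or.inr h) a0, fun h => a4 h a0⟩

variable {T : (Fin n → Val n) → Prop}

/-- A link stage: end a walk at a symbol in `Tin` and record the partner symbol. -/
lemma link (hn : 0 < n) {W : Wd n} (hI : Q.WInv B W) {D0 : Finset (Vx n)}
    {F : Finset (Tr n)} {l : ℕ} (hF : Q.Fam B t U J W D0 F l) (hD0 : D0 ⊆ W.D) {ρ : Rt n}
    (hρ : ∀ c ∈ F, c.1 = ρ) (i : Fin 3) (Tin : Finset (Fin n)) (π : Fin n → Fin n)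
    (hπ : Function.Injective π) (N0 j0 a0 : ℕ)
    (hbud : W.D.card + 8 * N0 < D0.card + F.card * t)
    (hT : a0 + 9 * N0 ≤ (Tin \ pr 3 W.D).card)
    (hsz : 2 * (3 * (W.D.card + 8 * N0) + N0 + 1) ≤ n) {a : ℝ} (ha : 0 ≤ a)
    (hc : ∀ (W' : Wd n) (Tout : Finset (Fin n)), W.Ref W' → Q.WInv B W' →
      W'.D.card ≤ W.D.card + 8 * N0 → j0 ≤ Tout.card →
      (∀ w ∈ Tout, ((3 : Fin 4), w) ∉ W'.D ∧
        ∃ s, Q.WV B t W' i (ρ.st i) s (l + 1) ∧ s.w ∈ Tin ∧ π s.y = w) → Bd T W'.S a) :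
    Bd T W.S (a + 2 ^ j0 * (1 - 3 * (a0 : ℝ) / (896 * n)) ^ N0) := by
  classical
  have hnR : (0 : ℝ) < n := by exact_mod_cast hn
  have ha0 : (a0 : ℝ) ≤ n := by
    have : a0 ≤ n := by
      have := (card_le_univ (Tin \ pr 3 W.D)).trans (le_of_eq (Fintype.card_fin n))
      omega
    exact_mod_cast this
  have hμ : 0 ≤ 1 - 3 * (a0 : ℝ) / (896 * n) := by
    rw [sub_nonneg, div_le_one (by positivity)]; linarith
  refine Bd.loop (T := T) (fun s : Wd n × Finset (Fin n) => s.1.S)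
    (fun N j s => W.Ref s.1 ∧ Q.WInv B s.1 ∧ s.1.D.card + 8 * N ≤ W.D.card + 8 * N0 ∧
      j0 ≤ s.2.card + j ∧ s.2.card + N ≤ N0 ∧ ∀ w ∈ s.2, ((3 : Fin 4), w) ∉ s.1.D ∧
        ∃ s', Q.WV B t s.1 i (ρ.st i) s' (l + 1) ∧ s'.w ∈ Tin ∧ π s'.y = w)
    a _ ha hμ ?_ ?_ N0 j0 (W, ∅)
    ⟨Wd.Ref.refl _, hI, le_rfl, by simp, by simp, by simp⟩
  · rintro N ⟨W', To⟩ ⟨h1, h2, h3, h4, _, h6⟩
    exact hc W' To h1 h2 (by simp only at h3; omega) h4 h6
  · rintro N j ⟨W', To⟩ ⟨h1, h2, h3, h4, h5, h6⟩ A hA g1 g2 g3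
    simp only at h1 h2 h3 h4 h5 h6 g1 g2 g3 ⊢
    have hF' := hF.mono h1 subset_rfl
    obtain ⟨c, hc, hrich⟩ := hF'.rich (hD0.trans h1.2.1) (by omega)
    obtain ⟨o, ho, hx⟩ := hrich i
    have hV := (hF'.1 c hc).2 i
    rw [hρ c hc] at hV
    set s := c.2 i
    set x := Q.sx s.y o s.w with hxdef
    obtain ⟨G, hG1, hG2⟩ := Q.exists_G' x W'.D ((Tin \ pr 3 W'.D) \ To) To π hπ (by omega)
    have hT1 : a0 ≤ ((Tin \ pr 3 W'.D) \ To).card := by
      have a1 := le_card_sdiff To (Tin \ pr 3 W'.D)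
      have a2 : Tin \ pr 3 W.D ⊆ (Tin \ pr 3 W'.D) ∪ pr 3 (W'.D \ W.D) := by
        intro w hw
        simp only [mem_sdiff, mem_pr, mem_union] at hw ⊢
        by_cases h : ((3 : Fin 4), w) ∈ W'.D
        · exact Or.inr ⟨h, hw.2⟩
        · exact Or.inl ⟨hw.1, h⟩
      have a3 := (card_le_card a2).trans (card_union_le _ _)
      have a4 := card_pr_le 3 (W'.D \ W.D)
      have a5 := card_sdiff_add_card_eq_card h1.2.1
      omega
    have hG1' : (n : ℝ) * a0 ≤ 2 * G.card := by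
      exact_mod_cast (Nat.mul_le_mul_left n hT1).trans hG1
    have hcl : ∀ p ∈ G, ∀ j, j ≠ 0 → (j, Q.co (x, p) j) ∉ W'.D := by
      intro p hp j hj
      obtain ⟨b1, b2, b3, _⟩ := hG2 p hp
      fin_cases j
      · exact absurd rfl hj
      · exact b1
      · exact b2
      · exact fun h => (mem_sdiff.1 (mem_sdiff.1 b3).1).2 (mem_pr.2 h)
    have hkeep : ∀ p ∈ G, ∀ w ∈ To, ((3 : Fin 4), w) ∉ W'.D ∪ Q.verts (x, p) := by
      intro p hp w hw h
      rw [mem_union, Q.mem_verts] at h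
      rcases h with h | h
      · exact (h6 w hw).1 h
      · have b3 := (hG2 p hp).2.2.1
        have : Q.L x p.1 p.2 = w := h
        rw [this] at b3
        exact (mem_sdiff.1 b3).2 hw
    have hmono : ∀ W2, W'.Ref W2 → ∀ w ∈ To,
        ∃ s', Q.WV B t W2 i (ρ.st i) s' (l + 1) ∧ s'.w ∈ Tin ∧ π s'.y = w := by
      intro W2 r w hw
      obtain ⟨s', b1, b2⟩ := (h6 w hw).2
      exact ⟨s', b1.mono r, b2⟩
    refine (wquery hn h2 i hx G hcl (a := a + A) (b := a + 2 * A) (c := a + 4 * A)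
      (q := a0 / (128 * n)) (by linarith) (by linarith) (by positivity) ?_
      (fun p hp W2 r2 i2 d2 gd => ?_) (fun W2 r2 i2 d2 => ?_)
      (fun p hp f W2 r2 i2 d2 => ?_)).mono (le_of_eq (by field_simp; ring))
    · have : (a0 : ℝ) / (128 * n) * (64 * (n * n)) = n * a0 / 2 := by field_simp; ring
      rw [this]; linarith
    · obtain ⟨b1, b2, b3, b4, b5, b6⟩ := hG2 p hp
      have c2 : W2.D.card ≤ W'.D.card + 4 := by
        rw [d2]; exact (card_union_le _ _).trans (Nat.add_le_add_left (Q.card_verts_le _) _)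
      refine g1 (W2, insert (π p.1) To) ⟨h1.trans r2, i2, by simp only; omega, ?_, ?_, ?_⟩
      · simp only; rw [card_insert_of_notMem b5]; omega
      · simp only; rw [card_insert_of_notMem b5]; omega
      · intro w hw
        simp only at hw ⊢
        rcases mem_insert.1 hw with rfl | hw
        · refine ⟨?_, Q.next s o p, hV.next ho hx (hcl p hp) r2
            (by rw [d2]; exact subset_union_right) gd, (mem_sdiff.1 (mem_sdiff.1 b3).1).1, rfl⟩
          rw [d2, mem_union, Q.mem_verts]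
          exact fun h => h.elim b4 (fun h => b6 h.symm)
        · exact ⟨by rw [d2]; exact hkeep p hp w hw, hmono W2 r2 w hw⟩
    · have c2 : W2.D.card ≤ W'.D.card + 1 := by rw [d2]; exact card_insert_le _ _
      refine g2 (W2, To) ⟨h1.trans r2, i2, by simp only; omega, h4, by simp only; omega,
        fun w hw => ⟨?_, hmono W2 r2 w hw⟩⟩
      simp only
      rw [d2, mem_insert]
      exact fun h => h.elim (fun h => absurd (Prod.ext_iff.1 h).1 (by simp)) (h6 w hw).1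
    · have c2 : W2.D.card ≤ W'.D.card + 8 := by
        rw [d2]
        have a1 := card_union_le (W'.D ∪ Q.verts (x, p)) (Q.verts f)
        have a2 := card_union_le W'.D (Q.verts (x, p))
        have a3 := Q.card_verts_le (x, p)
        have a4 := Q.card_verts_le f
        omega
      have e1 := pred_card_le_card_erase (s := To) (a := Q.co f 3)
      have e2 := card_erase_le (s := To) (a := Q.co f 3)
      refine g3 (W2, To.erase (Q.co f 3)) ⟨h1.trans r2, i2, by simp only; omega,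
        by simp only; omega, by simp only; omega, fun w hw => ?_⟩
      simp only at hw ⊢
      rw [mem_erase] at hw
      refine ⟨?_, hmono W2 r2 w hw.2⟩
      rw [d2, mem_union, Q.mem_verts]
      exact fun h => h.elim (hkeep p hp w hw.2) (fun h => hw.1 h.symm)

/-- The target event: an augmenting exchange using core cells with keys outside `B`. -/
def Tgt (Q : Cube n) (B : Finset (Fin n)) (U : Finset (Vx n)) (s : ℕ) (ω : Fin n → Val n) : Prop :=
  ∃ E, E ⊆ Q.K ω ∧ (∀ e ∈ E, e.1 ∉ B) ∧ E.card ≤ s ∧ Q.Exch U E ∅ 1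

lemma assemble (τ : Tok n t) {W : Wd n} {ρ : Rt n} (hR : Q.RV B U τ.J W ρ) {s1 s2 s3 : St n}
    {l : ℕ} (h1 : Q.WV B t W (0 : Fin 3) (ρ.st 0) s1 l) (h2 : Q.WV B t W (1 : Fin 3) (ρ.st 1) s2 l)
    (h3 : Q.WV B t W (2 : Fin 3) (ρ.st 2) s3 l) (e1 : Q.L τ.xa s1.y τ.za = s2.w)
    (e2 : Q.L τ.xb s2.y τ.zb = s3.w) (ω : Fin n → Val n) (hω : ∀ x, ω x ∈ W.S x) :
    Q.Tgt B U (3 + 3 * l) ω := by
  obtain ⟨r1, r2, r3, r4, r5⟩ := hR
  have hdis : ∀ {E E' : Finset (Cell n)} {i j : ℕ}, (∀ e ∈ E, Q.Good B W i e) →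
      (∀ e ∈ E', Q.Good B W j e) → i ≠ j → Disjoint E E' := by
    intro E E' i j a b hij
    rw [disjoint_left]
    intro e he he'
    exact hij ((a e he).2.2.1.symm.trans (b e he').2.2.1)
  have g1 := h1.2.2.2.2.2
  have g2 := h2.2.2.2.2.2
  have g3 := h3.2.2.2.2.2
  have d12 : Disjoint s1.E s2.E := hdis g1 g2 (by decide)
  have d13 : Disjoint s1.E s3.E := hdis g1 g3 (by decide)
  have d23 : Disjoint s2.E s3.E := hdis g2 g3 (by decide)
  have hgood : ∀ e ∈ ρ.E0 ∪ (s1.E ∪ (s2.E ∪ s3.E)), ∃ i, Q.Good B W i e := by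
    intro e he
    simp only [mem_union] at he
    rcases he with h | h | h | h
    · exact ⟨_, r5 e h⟩
    · exact ⟨_, g1 e h⟩
    · exact ⟨_, g2 e h⟩
    · exact ⟨_, g3 e h⟩
  refine ⟨ρ.E0 ∪ (s1.E ∪ (s2.E ∪ s3.E)), fun e he => ?_, fun e he => ?_, ?_, ?_⟩
  · obtain ⟨i, hi⟩ := hgood e he
    exact Q.mem_K.2 (hi.1 ω hω)
  · obtain ⟨i, hi⟩ := hgood e he
    exact hi.2.2.2
  · have a1 := card_union_le ρ.E0 (s1.E ∪ (s2.E ∪ s3.E))
    have a2 := card_union_le s1.E (s2.E ∪ s3.E)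
    have a3 := card_union_le s2.E s3.E
    have := h1.2.2.2.2.1
    have := h2.2.2.2.2.1
    have := h3.2.2.2.2.1
    omega
  · have p23 := h2.1.par h3.1 (r3 1 2 (by decide)) d23
    have p123 := h1.1.par p23 (disjoint_union_right.2 ⟨r3 0 1 (by decide), r3 0 2 (by decide)⟩)
      (disjoint_union_right.2 ⟨d12, d13⟩)
    have pJ := (Exch.refl τ.J).par p123
      (disjoint_union_right.2 ⟨r2 0, disjoint_union_right.2 ⟨r2 1, r2 2⟩⟩) (disjoint_empty_left _)
    rw [empty_union] at pJ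
    have key : Q.Exch (τ.J ∪ ((ρ.st 0).out ∪ ((ρ.st 1).out ∪ (ρ.st 2).out)))
        (s1.E ∪ (s2.E ∪ s3.E)) ∅ 2 := by
      refine ⟨by simp, fun M hM hE hF => ?_⟩
      have f : ∀ i, ∀ u ∈ (ρ.st i).out, ¬ Q.Cov M u := by
        intro i u hu
        apply hF
        simp only [mem_union]
        fin_cases i
        · exact Or.inr (Or.inl hu)
        · exact Or.inr (Or.inr (Or.inl hu))
        · exact Or.inr (Or.inr (Or.inr hu))
      have E1 : s1.E ⊆ M := subset_union_left.trans hE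
      have E2 : s2.E ⊆ M := (subset_union_left.trans subset_union_right).trans hE
      have E3 : s3.E ⊆ M := (subset_union_right.trans subset_union_right).trans hE
      have o12 := h1.1.out_disj h2.1 (r3 0 1 (by decide)) d12 hM E1 E2 (f 0) (f 1)
      have o23 := h2.1.out_disj h3.1 (r3 1 2 (by decide)) d23 hM E2 E3 (f 1) (f 2)
      have y12 : s1.y ≠ s2.y := fun h => disjoint_left.1 o12 (St.mem_out.2 (Or.inl rfl))
        (St.mem_out.2 (Or.inl (by rw [h])))
      have w23 : s2.w ≠ s3.w := fun h => disjoint_left.1 o23 (St.mem_out.2 (Or.inr (Or.inl rfl)))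
        (St.mem_out.2 (Or.inr (Or.inl (by rw [h]))))
      have q1 := pJ.step (Exch.add (τ.xa, s1.y, τ.za)) (Out := Q.verts (τ.xb, s2.y, τ.zb)) (by
        intro u hu
        obtain ⟨j, a⟩ := u
        rw [Q.mem_verts] at hu
        simp only at hu
        subst hu
        simp only [mem_union]
        fin_cases j
        · exact Or.inl (by simp [Tok.J])
        · exact Or.inr (Or.inl (St.mem_out.2 (Or.inl rfl)))
        · exact Or.inl (by simp [Tok.J])
        · exact Or.inr (Or.inr (Or.inl (St.mem_out.2 (Or.inr (Or.inl (Prod.ext rfl e1)))))))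
        (disjoint_empty_right _) (by
        intro u hu
        obtain ⟨j, a⟩ := u
        rw [Q.mem_verts] at hu
        simp only at hu
        subst hu
        simp only [mem_union, mem_sdiff, Q.mem_verts]
        right
        fin_cases j
        · exact ⟨Or.inl (by simp [Tok.J]), τ.hx⟩
        · exact ⟨Or.inr (Or.inr (Or.inl (St.mem_out.2 (Or.inl rfl)))), y12⟩
        · exact ⟨Or.inl (by simp [Tok.J]), τ.hz⟩
        · refine ⟨Or.inr (Or.inr (Or.inr (St.mem_out.2 (Or.inr (Or.inl (Prod.ext rfl e2)))))), ?_⟩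
          show Q.L τ.xa s1.y τ.za ≠ Q.L τ.xb s2.y τ.zb
          rw [e1, e2]; exact w23)
      have q2 := q1.seq (Exch.add (τ.xb, s2.y, τ.zb)) (disjoint_empty_right _)
      rw [union_empty, union_empty] at q2
      obtain ⟨M', b1, b2, b3⟩ := q2.2 M hM hE hF
      exact ⟨M', b1, by rw [b2]; ring, b3⟩
    have := r1.seq key (disjoint_union_right.2 ⟨hdis r5 g1 (by decide),
      disjoint_union_right.2 ⟨hdis r5 g2 (by decide), hdis r5 g3 (by decide)⟩⟩)
    simpa using this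

/-- The failure probability of an augmentation for fixed damage `B` and tokens `U`. -/
theorem augment_bd (hn : 0 < n) (ht : 0 < t) (τ : Tok n t) (hU : τ.In U)
    (N0 m k Dmax NA jA aA NB jB aB NC aC : ℕ) (ε : ℝ)
    (h1 : 32 * N0 < m * t) (h2 : 16 * N0 + 8 * (NA + NB + NC) < m * t) (h3 : m ≤ 2 ^ k)
    (h4 : U.card + B.card + 16 * N0 * (k + 1) ≤ Dmax)
    (h5 : 2 * (4 * (Dmax + 8) + t * (Dmax + 2 * m * (3 * t) + 2 * t)) ≤ n)
    (h6 : 2 * (3 * (Dmax + 8 * (NA + NB + NC)) + (NA + NB + NC) + 1) ≤ n)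
    (h7 : aA + 9 * NA + Dmax ≤ n) (h8 : aB + 9 * NB ≤ jA) (h9 : aC + 9 * NC ≤ jB)
    (e0 : 2 ^ (2 * m) * mu ^ N0 ≤ ε)
    (eA : 2 ^ jA * (1 - 3 * (aA : ℝ) / (896 * n)) ^ NA ≤ ε)
    (eB : 2 ^ jB * (1 - 3 * (aB : ℝ) / (896 * n)) ^ NB ≤ ε)
    (eC : 2 ^ 1 * (1 - 3 * (aC : ℝ) / (896 * n)) ^ NC ≤ ε) :
    Bd (Q.Tgt B U (3 + 3 * (k + 1))) (fun _ => univ) ((k + 4) * ε) := by
  classical
  have hε0 : 0 ≤ ε := le_trans (by have := mu_nonneg; positivity) e0
  set W0 : Wd n := ⟨fun _ => univ, U ∪ B.image (fun x => ((0 : Fin 4), x)), fun _ => 0⟩ with hW0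
  have i0 : Q.WInv B W0 := ⟨⟨fun _ _ _ _ => mem_univ _, fun _ => Or.inr (fun _ _ => mem_univ _)⟩,
    fun x hx => mem_union_right _ (mem_image_of_mem _ hx)⟩
  have c0 : W0.D.card ≤ U.card + B.card :=
    (card_union_le _ _).trans (Nat.add_le_add_left card_image_le _)
  have h4' : U.card + B.card + 16 * N0 + 16 * N0 * k ≤ Dmax := by rw [mul_add] at h4; omega
  have hm2 : (2 : ℝ) ^ m * mu ^ N0 ≤ ε := by
    refine le_trans ?_ e0
    have := mu_nonneg
    gcongr
    · norm_num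
    · omega
  refine (rootStage (T := Q.Tgt B U (3 + 3 * (k + 1))) hn ht τ hU i0 subset_union_left N0 m ?_
    (a := 3 * ε + k * ε) (by positivity)
    (fun W1 F1 i1 f1 d1 c1 m1 => ?_)).mono (by linarith)
  · have a1 : t * (W0.D.card + m * (3 * t) + 2 * t) ≤ t * (Dmax + 2 * m * (3 * t) + 2 * t) :=
      Nat.mul_le_mul_left _ (by nlinarith)
    omega
  refine rounds hn ht N0 m Dmax k h1 (by omega) (a := 3 * ε) (by positivity) e0
    (fun W D0 F ρ iW fW dW cW mW rW bW => ?_) k W1 W0.D F1 0 i1 f1 d1 c1 m1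
    (card_image_le.trans (m1 ▸ h3)) (by omega) (by simp)
  have hm : 0 < m := by
    rcases Nat.eq_zero_or_pos m with h | h
    · rw [h] at h1; omega
    · exact h
  obtain ⟨c0, hc0⟩ : F.Nonempty := card_pos.1 (by omega)
  have hR : Q.RV B U τ.J W ρ := rW c0 hc0 ▸ (fW.1 c0 hc0).1
  refine (link hn iW fW dW rW 0 univ (fun y => Q.L τ.xa y τ.za) (Q.h2 _ _) NA jA aA
    (by rw [mW]; omega) ?_ (by omega) (a := 2 * ε) (by positivity)
    (fun WA TA rA iA cA jA' tA => ?_)).mono (by linarith)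
  · have a1 := card_sdiff_add_card_eq_card (subset_univ (pr 3 W.D))
    have a2 := card_pr_le 3 W.D
    simp only [card_univ, Fintype.card_fin] at a1
    omega
  have hsd : ∀ (T0 : Finset (Fin n)) (D : Finset (Vx n)), (∀ w ∈ T0, ((3 : Fin 4), w) ∉ D) →
      T0 \ pr 3 D = T0 := by
    intro T0 D h
    rw [Finset.sdiff_eq_self_iff_disjoint, disjoint_left]
    exact fun w hw hw' => h w hw (mem_pr.1 hw')
  refine (link hn iA (fW.mono rA subset_rfl) (dW.trans rA.2.1) rW 1 TA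
    (fun y => Q.L τ.xb y τ.zb) (Q.h2 _ _) NB jB aB
    (by rw [mW]; omega) (by rw [hsd _ _ (fun w hw => (tA w hw).1)]; omega) (by omega)
    (a := ε) hε0 (fun WB TB rB iB cB jB' tB => ?_)).mono (by linarith)
  refine (link hn iB (fW.mono (rA.trans rB) subset_rfl) (dW.trans (rA.trans rB).2.1) rW 2 TB
    id Function.injective_id NC 1 aC
    (by rw [mW]; omega) (by rw [hsd _ _ (fun w hw => (tB w hw).1)]; omega) (by omega)
    (a := 0) le_rfl (fun WC TC rC iC cC jC' tC => ?_)).mono (by linarith)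
  obtain ⟨w, hw⟩ : TC.Nonempty := card_pos.1 jC'
  obtain ⟨_, s3, v3, w3, _⟩ := tC w hw
  obtain ⟨_, s2, v2, w2, y2⟩ := tB _ w3
  obtain ⟨_, s1, v1, _, y1⟩ := tA _ w2
  exact Bd.of_holds le_rfl (assemble τ (hR.mono ((rA.trans rB).trans rC))
    (v1.mono (rB.trans rC)) (v2.mono rC) v3 y1 y2)

end Cube

end Pool.Agent.Lib.MP_cdd51b_co
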