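import Pool.Agent.Lib.MP_cdd51b_co.Iter

set_option autoImplicit false

namespace Pool.Agent.Lib.MP_cdd51b_co

open Finset

variable {n : ℕ}

namespace Cube

lemma exists_good (Q : Cube n) {u : ℕ} (hu : 2 ^ 70 ≤ u) (hu2 : u ^ 201 ≤ 2 ^ u)
    (h1 : u ^ 200 ≤ n) (h2 : n ≤ 2 * u ^ 200) :
    ∃ ω, Q.Typ (Q.K ω) ((u ^ 101 : ℕ) : ℝ) ∧ ∀ B : Finset (Fin n), B.card = u ^ 172 →
      ∀ f : Fin 4 → Finset (Fin n), (∀ j, (f j).card = CC) →
        Q.Tgt B (mkU f) (3 + 3 * (u + 1)) ω := by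
  classical
  have u1 : 1 ≤ u := by omega
  have p : ∀ a b, a ≤ b → u ^ a ≤ u ^ b := fun a b h => Nat.pow_le_pow_right u1 h
  have q : ∀ a b, b = a + 1 → 2 ^ 70 * u ^ a ≤ u ^ b := fun a b h => by
    rw [h, pow_succ' u]; exact Nat.mul_le_mul_right _ hu
  have hn2 : 2 ≤ n := by linarith [p 1 200 (by norm_num)]
  have hnR : (0 : ℝ) < n := by exact_mod_cast (by omega : 0 < n)
  have huR : (2 : ℝ) ^ 70 ≤ u := by exact_mod_cast hu
  have hne : (n : ℝ) ≤ Real.exp u := by
    have a1 : n ≤ 2 ^ u := by linarith [q 200 201 rfl, Nat.zero_le (u ^ 200)]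
    have a2 : (n : ℝ) ≤ 2 ^ u := by exact_mod_cast a1
    refine a2.trans ?_
    rw [← mul_one (u : ℝ), Real.exp_nat_mul]
    exact pow_le_pow_left₀ (by norm_num) (by have := Real.add_one_le_exp 1; linarith) _
  have hpow : ∀ k : ℕ, (n : ℝ) ^ k ≤ Real.exp (k * u) := fun k => by
    rw [Real.exp_nat_mul]; exact pow_le_pow_left₀ hnR.le hne k
  have hthird : ∀ x : ℝ, x ≤ -2 → Real.exp x ≤ 1 / 3 := by
    intro x hx
    have a1 := Real.add_one_le_exp (-x)
    have a2 : Real.exp x * Real.exp (-x) = 1 := by rw [← Real.exp_add]; simp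
    have a3 := Real.exp_pos x
    nlinarith
  set P : ℝ := (Fintype.card (Val n) : ℝ) ^ n with hP
  have hP0 : 0 < P := by rw [hP, card_val]; positivity
  have hPc : ((univ : Finset (Fin n → Val n)).card : ℝ) = P := by simp [hP]
  set I := (powersetCard (u ^ 172) (univ : Finset (Fin n))) ×ˢ
    Fintype.piFinset (fun _ : Fin 4 => powersetCard CC (univ : Finset (Fin n))) with hI
  set Bad1 := univ.filter (fun ω => ¬ Q.Typ (Q.K ω) ((u ^ 101 : ℕ) : ℝ))
  set Bad2 := I.biUnion (fun c => bad (Q.Tgt c.1 (mkU c.2) (3 + 3 * (u + 1))) (fun _ => univ))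
  have b1 : (Bad1.card : ℝ) ≤ 1 / 3 * P := by
    refine (Q.card_not_typ hn2 (Nat.cast_nonneg _)).trans (mul_le_mul_of_nonneg_right ?_ hP0.le)
    have a1 : 1 + 2 * (n : ℝ) ^ 3 ≤ Real.exp (3 * u + 2) := by
      have c1 := hpow 3
      have c2 := Real.add_one_le_exp 2
      have c3 : (1 : ℝ) ≤ n ^ 3 := one_le_pow₀ (by exact_mod_cast (by omega : 1 ≤ n))
      rw [Real.exp_add]
      push_cast at c1
      nlinarith
    refine (mul_le_mul_of_nonneg_right a1 (Real.exp_pos _).le).trans ?_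
    rw [← Real.exp_add]
    apply hthird
    have a2 : (3 * u + 4 : ℝ) ≤ ((u ^ 101 : ℕ) : ℝ) ^ 2 / (128 * n) := by
      rw [le_div_iff₀ (by positivity)]
      have : (3 * u + 4) * (128 * n) ≤ (u ^ 101) ^ 2 := by
        have := Nat.mul_le_mul_left ((3 * u + 4) * 128) h2
        linarith [q 201 202 rfl, p 200 201 (by norm_num), Nat.zero_le (u ^ 201)]
      exact_mod_cast this
    linarith
  have b2 : (Bad2.card : ℝ) ≤ 1 / 3 * P := by
    have a1 : (Bad2.card : ℝ) ≤ I.card * ((u + 4) * Real.exp (-((u ^ 175 : ℕ) : ℝ)) * P) := by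
      have c1 := (Nat.cast_le (α := ℝ)).2 (card_biUnion_le (s := I)
        (t := fun c => bad (Q.Tgt c.1 (mkU c.2) (3 + 3 * (u + 1))) (fun _ => univ)))
      push_cast at c1
      refine c1.trans ?_
      rw [← nsmul_eq_mul]
      refine sum_le_card_nsmul _ _ _ (fun c hc => ?_)
      obtain ⟨c1, c2⟩ := mem_product.1 hc
      have := Q.aug_params hu hu2 h1 h2 c.1 (mem_powersetCard.1 c1).2 c.2
        (fun j => (mem_powersetCard.1 (Fintype.mem_piFinset.1 c2 j)).2)
      unfold Bd at this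
      rwa [Fintype.piFinset_univ, hPc] at this
    have a2 : (I.card : ℝ) ≤ (n : ℝ) ^ (u ^ 172 + CC * 4) := by
      have : I.card ≤ n ^ (u ^ 172 + CC * 4) := by
        rw [hI, card_product, Fintype.card_piFinset, card_powersetCard, card_powersetCard,
          prod_const, pow_add, pow_mul]
        simp only [card_univ, Fintype.card_fin]
        exact Nat.mul_le_mul (Nat.choose_le_pow _ _) (Nat.pow_le_pow_left (Nat.choose_le_pow _ _) _)
      exact_mod_cast this
    refine a1.trans ?_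
    rw [← mul_assoc]
    apply mul_le_mul_of_nonneg_right _ hP0.le
    have a3 : (u + 4 : ℝ) ≤ Real.exp (u + 3) := by have := Real.add_one_le_exp (u + 3); linarith
    calc (I.card : ℝ) * ((u + 4) * Real.exp (-((u ^ 175 : ℕ) : ℝ)))
        ≤ Real.exp (((u ^ 172 + CC * 4 : ℕ) : ℝ) * u) *
          (Real.exp (u + 3) * Real.exp (-((u ^ 175 : ℕ) : ℝ))) := by
          have := a2.trans (hpow _)
          gcongr
      _ ≤ 1 / 3 := by
          rw [← Real.exp_add, ← Real.exp_add]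
          apply hthird
          have : (u ^ 172 + CC * 4) * u + u + 5 ≤ u ^ 175 := by
            unfold CC
            linarith [q 174 175 rfl, p 173 174 (by norm_num), p 1 174 (by norm_num)]
          have := (Nat.cast_le (α := ℝ)).2 this
          rw [Nat.cast_add, Nat.cast_add, Nat.cast_mul] at this
          push_cast at this ⊢
          linarith
  have : (Bad1 ∪ Bad2).card < (univ : Finset (Fin n → Val n)).card := by
    have c1 := (Nat.cast_le (α := ℝ)).2 (card_union_le Bad1 Bad2)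
    push_cast at c1
    have : ((Bad1 ∪ Bad2).card : ℝ) < (univ : Finset (Fin n → Val n)).card := by
      rw [hPc]; linarith
    exact_mod_cast this
  obtain ⟨ω, _, hω⟩ := exists_mem_notMem_of_card_lt_card this
  rw [mem_union, not_or] at hω
  refine ⟨ω, by_contra (fun h => hω.1 (mem_filter.2 ⟨mem_univ _, h⟩)), fun B hB f hf => ?_⟩
  by_contra h
  exact hω.2 (mem_biUnion.2 ⟨(B, f), mem_product.2 ⟨mem_powersetCard.2 ⟨subset_univ _, hB⟩,
    Fintype.mem_piFinset.2 (fun j => mem_powersetCard.2 ⟨subset_univ _, hf j⟩)⟩,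
    mem_bad.2 ⟨fun _ => mem_univ _, h⟩⟩)

/-- Robust near-transversal theorem. -/
theorem near_robust (Q : Cube n) {u : ℕ} (hu : 2 ^ 70 ≤ u) (hu2 : u ^ 201 ≤ 2 ^ u)
    (h1 : u ^ 200 ≤ n) (h2 : n ≤ 2 * u ^ 200) (Rem : Finset (Vx n)) (b : ℕ)
    (hb : ∀ j, (pr j Rem).card ≤ b) (hbu : b ≤ u ^ 170) :
    ∃ M, Q.IsM M ∧ (∀ v ∈ Rem, ¬ Q.Cov M v) ∧ n ≤ M.card + b + CC := by
  classical
  have u1 : 1 ≤ u := by omega
  have p : ∀ a b, a ≤ b → u ^ a ≤ u ^ b := fun a b h => Nat.pow_le_pow_right u1 h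
  have q : ∀ a b, b = a + 1 → 2 ^ 70 * u ^ a ≤ u ^ b := fun a b h => by
    rw [h, pow_succ' u]; exact Nat.mul_le_mul_right _ hu
  have hn : 0 < n := lt_of_lt_of_le (Nat.pow_pos u1) h1
  obtain ⟨ω, hT, hA⟩ := Q.exists_good hu hu2 h1 h2
  set K := Q.K ω
  have hK : Q.IsM K := Q.K_isM ω
  set K' := K.filter (fun e => ∀ v ∈ Rem, Q.co e v.1 ≠ v.2)
  have hKK : (K \ K').card ≤ 4 * b := by
    have : K \ K' ⊆ Rem.biUnion (fun v => K.filter (fun e => Q.co e v.1 = v.2)) := by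
      intro e he
      rw [mem_sdiff] at he
      by_contra hcon
      simp only [mem_biUnion, mem_filter, not_exists, not_and] at hcon
      exact he.2 (mem_filter.2 ⟨he.1, fun v hv h => hcon v hv he.1 h⟩)
    refine (card_le_card this).trans ((card_biUnion_le_card_mul _ _ 1 (fun v _ => ?_)).trans
      (by simpa using card_le_of_pr hb))
    rw [card_le_one]
    intro a ha b hb
    rw [mem_filter] at ha hb
    exact hK.eq_of ha.1 hb.1 (ha.2.trans hb.2.symm)
  have hK' : K' ⊆ K := filter_subset _ _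
  obtain ⟨M, m1, m2, m3, m4⟩ := wool hK hK' Rem
    (fun v hv ⟨e, he, h⟩ => (mem_filter.1 he).2 v hv h) b (u ^ 100) (3 * u ^ 30) (u ^ 170)
    (u ^ 170) (7 * u ^ 170) hb (fun y Z hZ A hA => expand hn hK (Nat.cast_nonneg _) hT y Z
      (by rw [hZ]; exact Nat.pow_pos u1) _ (by
        rw [hZ]
        have : 16 * (n * (u ^ 100 * n + (u ^ 100) ^ 2 * (1 + 2 * u ^ 101)))
            ≤ (u ^ 170 * u ^ 100) ^ 2 := by
          have : n * (u ^ 100 * n + (u ^ 100) ^ 2 * (1 + 2 * u ^ 101))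
              ≤ 2 * u ^ 200 * (u ^ 100 * (2 * u ^ 200) + (u ^ 100) ^ 2 * (1 + 2 * u ^ 101)) := by
            gcongr
          linarith [q 539 540 rfl, p 500 539 (by norm_num), p 400 539 (by norm_num),
            p 501 539 (by norm_num), Nat.zero_le (u ^ 539)]
        exact_mod_cast this) A hA)
    (by linarith [p 30 170 (by norm_num), Nat.zero_le (u ^ 170)])
    (by linarith [p 130 170 (by norm_num), Nat.zero_le (u ^ 170)]) (by omega)
    (by linarith [Nat.pow_pos (n := 200) u1])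
  refine iterate K Rem b (3 + 3 * (u + 1)) (u ^ 172) CC hb ((p 172 200 (by norm_num)).trans h1)
    (fun B hB f hf => hA B hB f hf) (7 * u ^ 170) M m1 m3 ?_ (by omega)
  have : (K \ M).card ≤ (K \ K').card := card_le_card (sdiff_subset_sdiff subset_rfl m2)
  linarith [q 171 172 rfl, p 170 171 (by norm_num), Nat.zero_le (u ^ 171)]

end Cube

lemma exists_u0 : ∃ u0 : ℕ, ∀ u, u0 ≤ u → 2 ^ 70 ≤ u ∧ u ^ 201 ≤ 2 ^ u := by
  have h := tendsto_pow_const_div_const_pow_of_one_lt 201 (r := 2) (by norm_num)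
  obtain ⟨u0, hu0⟩ := Filter.eventually_atTop.1 (h.eventually (gt_mem_nhds one_pos))
  refine ⟨max u0 (2 ^ 70), fun u hu => ⟨le_of_max_le_right hu, ?_⟩⟩
  have := hu0 u (le_of_max_le_left hu)
  rw [div_lt_one (by positivity)] at this
  exact_mod_cast this.le

lemma exp_half_le : Real.exp (1 / 2) ≤ 2 := by
  have c1 := Real.add_one_le_exp (-(1 / 2))
  have c2 : Real.exp (1 / 2) * Real.exp (-(1 / 2)) = 1 := by rw [← Real.exp_add]; simp
  have c3 := Real.exp_pos (1 / 2)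
  nlinarith

lemma exists_u (u0 : ℕ) (hn : (u0 + 400) ^ 200 ≤ n) :
    ∃ u, u0 ≤ u ∧ u ^ 200 ≤ n ∧ n ≤ 2 * u ^ 200 := by
  classical
  have hex : ∃ u : ℕ, n < (u + 1) ^ 200 :=
    ⟨n, lt_of_lt_of_le (Nat.lt_succ_self n) (Nat.le_self_pow (by norm_num) _)⟩
  obtain ⟨u, hu⟩ : ∃ u, u = Nat.find hex := ⟨_, rfl⟩
  have h1 : n < (u + 1) ^ 200 := by rw [hu]; exact Nat.find_spec hex
  have h2 : u0 + 400 ≤ u := by
    by_contra h
    have : (u + 1) ^ 200 ≤ (u0 + 400) ^ 200 := Nat.pow_le_pow_left (by omega) _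
    omega
  have h3 : u ^ 200 ≤ n := by
    have := Nat.find_min hex (m := u - 1) (by omega)
    rw [Nat.sub_add_cancel (by omega)] at this
    omega
  refine ⟨u, by omega, h3, ?_⟩
  have huR : (400 : ℝ) ≤ u := by exact_mod_cast (by omega : 400 ≤ u)
  have h4 : ((u : ℝ) + 1) ^ 200 ≤ 2 * u ^ 200 := by
    have a1 : (u : ℝ) + 1 ≤ u * Real.exp (1 / u) := by
      have := Real.add_one_le_exp (1 / (u : ℝ))
      have e : (u : ℝ) + 1 = u * (1 / u + 1) := by field_simp; ring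
      rw [e]
      exact mul_le_mul_of_nonneg_left this (by linarith)
    have a2 : Real.exp (1 / (u : ℝ)) ^ 200 ≤ 2 := by
      rw [← Real.exp_nat_mul]
      have b1 : ((200 : ℕ) : ℝ) * (1 / u) ≤ 1 / 2 := by
        rw [mul_one_div, div_le_iff₀ (by linarith)]; push_cast; linarith
      exact (Real.exp_le_exp.2 b1).trans exp_half_le
    have a3 := (pow_le_pow_left₀ (by linarith) a1 200).trans
      (le_of_eq (mul_pow (u : ℝ) (Real.exp (1 / (u : ℝ))) 200))
    have a4 := mul_le_mul_of_nonneg_left a2 (pow_nonneg (Nat.cast_nonneg (α := ℝ) u) 200)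
    exact a3.trans (a4.trans (le_of_eq (mul_comm _ _)))
  have h5 : (((u + 1) ^ 200 : ℕ) : ℝ) ≤ ((2 * u ^ 200 : ℕ) : ℝ) := by
    rw [Nat.cast_pow, Nat.cast_mul, Nat.cast_pow, Nat.cast_add, Nat.cast_one, Nat.cast_two]
    exact h4
  exact h1.le.trans (Nat.cast_le.1 h5)

/-- Every latin cube has a partial transversal missing at most a constant number of cells. -/
theorem near_transversal : ∃ C : ℕ, ∀ (n : ℕ) (Q : Cube n), ∃ M, Q.IsM M ∧ n ≤ M.card + C := by
  obtain ⟨u0, h0⟩ := exists_u0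
  refine ⟨(u0 + 400) ^ 200 + CC, fun n Q => ?_⟩
  by_cases hn : (u0 + 400) ^ 200 ≤ n
  · obtain ⟨u, a1, a2, a3⟩ := exists_u u0 hn
    obtain ⟨M, m1, _, m3⟩ := Q.near_robust (h0 u a1).1 (h0 u a1).2 a2 a3 ∅ 0
      (fun j => by simp [pr]) (Nat.zero_le _)
    exact ⟨M, m1, by omega⟩
  · exact ⟨∅, fun e he => absurd he (notMem_empty _), by omega⟩

end Pool.Agent.Lib.MP_cdd51b_co
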