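import Pool.Agent.Lib.MP_cdd51b_co.Clus

set_option autoImplicit false

namespace Pool.Agent.Lib.MP_cdd51b_co

open Finset

/-- A graph without a nearly balanced sparse cut has a giant expanding piece. -/
lemma exists_giant {V : Type*} [DecidableEq V] [Fintype V] (N : V → Finset V)
    (hs : ∀ a b, b ∈ N a → a ∈ N b) {d H : ℕ} (hd : 0 < d) (hV : 0 < Fintype.card V)
    (h : ∀ A : Finset V, Fintype.card V ≤ 3 * A.card → 2 * A.card ≤ Fintype.card V →
      d * Fintype.card V ≤ H * ee N A Aᶜ) :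
    ∃ C : Finset V, 3 * Cᶜ.card ≤ Fintype.card V ∧ H * ee N Cᶜ C ≤ d * Cᶜ.card ∧
      ∀ A ⊆ C, 2 * A.card ≤ C.card → d * A.card ≤ H * ee N A (C \ A) := by
  obtain ⟨B, hB, hmax⟩ := exists_max_image (univ.filter fun B : Finset V =>
    H * ee N B Bᶜ ≤ d * B.card ∧ 3 * B.card ≤ 2 * Fintype.card V) card
    ⟨∅, mem_filter.2 ⟨mem_univ _, by simp [ee], by simp⟩⟩
  obtain ⟨b1, b2⟩ := (mem_filter.1 hB).2
  have hc := card_compl B
  have hl := card_le_univ B
  have small : 3 * B.card ≤ Fintype.card V := by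
    by_contra c
    have k : d * Fintype.card V ≤ d * B.card := by
      by_cases c' : 2 * B.card ≤ Fintype.card V
      · exact (h B (by omega) c').trans b1
      · have := h Bᶜ (by omega) (by omega)
        rw [compl_compl, ee_comm hs] at this
        exact this.trans b1
    have := Nat.le_of_mul_le_mul_left k hd
    omega
  refine ⟨Bᶜ, by rwa [compl_compl], by rwa [compl_compl], fun A hA l => ?_⟩
  rcases A.eq_empty_or_nonempty with rfl | ne
  · simp
  by_contra c
  have dj : Disjoint B A := disjoint_compl_right.mono_right hA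
  have cu := card_union_of_disjoint dj
  have e : (B ∪ A)ᶜ = Bᶜ \ A := by ext; simp
  have := hmax (B ∪ A) (mem_filter.2 ⟨mem_univ _, ?_, by omega⟩)
  · have := ne.card_pos
    omega
  · rw [e, ee_union_left _ dj, cu, mul_add, mul_add]
    have := Nat.mul_le_mul_left H (ee_mono_right N B (sdiff_subset : Bᶜ \ A ⊆ Bᶜ))
    omega

variable {r Δ k : ℕ}

lemma card_avoid (hr : 0 < r) (F : Fin r → Finset (Fin r)) :
    ((Fintype.piFinset fun p : Fin r × Fin Δ => (F p.1)ᶜ).card : ℝ) ≤
      (r : ℝ) ^ (r * Δ) * Real.exp (-(Δ * (∑ x, (F x).card : ℕ) / r)) := by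
  have hR : (0 : ℝ) < r := by exact_mod_cast hr
  rw [Fintype.card_piFinset]
  push_cast
  refine (prod_le_prod (g := fun p : Fin r × Fin Δ => r * Real.exp (-((F p.1).card / r)))
    (fun _ _ => Nat.cast_nonneg _) fun p _ => ?_).trans (le_of_eq ?_)
  · have a := Real.add_one_le_exp (-(((F p.1).card : ℝ) / r))
    have b : ((F p.1)ᶜ.card : ℝ) = r * (-(((F p.1).card : ℝ) / r) + 1) := by
      rw [card_compl, Fintype.card_fin,
        Nat.cast_sub ((card_le_univ _).trans (Fintype.card_fin r).le)]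
      field_simp
      ring
    rw [b]
    exact mul_le_mul_of_nonneg_left a hR.le
  · rw [prod_mul_distrib, prod_const, ← Real.exp_sum, Fintype.sum_prod_type]
    simp only [card_univ, Fintype.card_prod, Fintype.card_fin, sum_const, nsmul_eq_mul, mul_neg,
      sum_neg_distrib, mul_sum, sum_div, mul_div_assoc]

lemma exp_le_pow (hr : 0 < r) (hΔ : 4 * (4 * r : ℝ) ^ (k + 2) ≤ Real.exp (Δ / 40)) {s t e : ℕ}
    (hs : 0 < s) (ht : t ≤ s + k) (he : r * s ≤ 40 * e) :
    Real.exp (-(Δ * e / r)) ≤ (1 / (4 * r)) ^ s * (1 / (4 * r)) ^ t / 4 := by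
  have hR : (1 : ℝ) ≤ r := by exact_mod_cast hr
  have heR : (r : ℝ) * s ≤ 40 * e := by exact_mod_cast he
  set x : ℝ := 1 / (4 * r) with hx
  have x0 : 0 ≤ x := by positivity
  have x1 : x ≤ 1 := by rw [hx, div_le_one (by positivity)]; linarith
  have a1 : Real.exp (-(Δ / 40)) ≤ x ^ (k + 2) * (1 / 4) := by
    rw [Real.exp_neg, hx, one_div, inv_pow, one_div, ← mul_inv, mul_comm]
    exact inv_anti₀ (by positivity) hΔ
  have a2 : Real.exp (-(Δ * e / r)) ≤ Real.exp (-(Δ / 40)) ^ s := by
    rw [← Real.exp_nat_mul, Real.exp_le_exp, mul_neg, neg_le_neg_iff, le_div_iff₀ (by positivity)]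
    nlinarith [mul_le_mul_of_nonneg_left heR (Nat.cast_nonneg Δ)]
  refine a2.trans ((pow_le_pow_left₀ (Real.exp_pos _).le a1 s).trans ?_)
  rw [mul_pow, ← pow_mul, ← pow_add]
  exact (mul_le_mul (pow_le_pow_of_le_one x0 x1 (by nlinarith)) (pow_le_of_le_one
    (by norm_num) (by norm_num) hs.ne') (by positivity) (by positivity)).trans_eq (mul_one_div _ _)

lemma deg_in (F T : Finset (Fin r)) (hF : 11 * r ≤ 20 * F.card) (hk : 20 * k ≤ r)
    (hT : r ≤ 2 * T.card + k) : r ≤ 40 * (T ∩ F).card := by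
  have a := card_union_add_card_inter T F
  have b := (card_le_univ (T ∪ F)).trans (Fintype.card_fin r).le
  omega

/-- A few random choices at each vertex give robust perfect matchings. -/
lemma exists_robust (E : Fin r → Fin r → Prop) [DecidableRel E] (hr : 0 < r) (h0 : 0 < Δ)
    (hx : ∀ x, 11 * r ≤ 20 * (univ.filter fun y => E x y).card)
    (hy : ∀ y, 11 * r ≤ 20 * (univ.filter fun x => E x y).card) (hk : 20 * k ≤ r)
    (hΔ : 4 * (4 * r : ℝ) ^ (k + 2) ≤ Real.exp (Δ / 40)) :
    ∃ ω : Fin r × Fin Δ → Fin r, ∀ J J' : Finset (Fin r), J.card = J'.card → r ≤ J.card + k →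
      ∃ g : Fin r → Fin Δ, (∀ x ∈ J, E x (ω (x, g x))) ∧ Set.InjOn (fun x => ω (x, g x)) J ∧
        J.image (fun x => ω (x, g x)) = J' := by
  have hR : (0 : ℝ) < r := by exact_mod_cast hr
  set P : Finset (Finset (Fin r) × Finset (Fin r)) := univ.filter fun p =>
    p.1.Nonempty ∧ p.2.Nonempty ∧ r ≤ p.1.card + p.2.card + k with hP
  set F : Finset (Fin r) × Finset (Fin r) → Fin r → Finset (Fin r) := fun p x =>
    if x ∈ p.1 then p.2 ∩ univ.filter fun y => E x y else ∅ with hF
  set x : ℝ := 1 / (4 * r) with hxd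
  have x0 : 0 ≤ x := by positivity
  have one : ∀ p ∈ P, Real.exp (-(Δ * (∑ x, (F p x).card : ℕ) / r)) ≤
      (x ^ p.1.card * x ^ p.2ᶜ.card + x ^ p.1ᶜ.card * x ^ p.2.card) / 4 := by
    rintro ⟨S, T⟩ hp
    obtain ⟨p1, p2, p3⟩ : S.Nonempty ∧ T.Nonempty ∧ r ≤ S.card + T.card + k := (mem_filter.1 hp).2
    have e : ∑ x, (F (S, T) x).card = ∑ x ∈ S, (T ∩ univ.filter fun y => E x y).card := by
      simp only [hF, apply_ite card, card_empty]
      rw [← sum_filter, filter_mem_eq_inter, univ_inter]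
    have c1 := card_compl S
    have c2 := card_compl T
    rw [Fintype.card_fin] at c1 c2
    rw [e, add_div]
    rcases le_total S.card T.card with c | c
    · refine (exp_le_pow hr hΔ p1.card_pos (t := Tᶜ.card) (by omega) ?_).trans
        (le_add_of_nonneg_right (by positivity))
      rw [mul_sum, mul_comm]
      exact card_nsmul_le_sum _ _ _ fun a _ => deg_in _ T (hx a) hk (by omega)
    · refine (exp_le_pow hr hΔ p2.card_pos (t := Sᶜ.card) (by omega) ?_).trans
        (le_add_of_nonneg_of_le (by positivity) (by rw [mul_comm]))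
      have e' : ∑ x ∈ S, (T ∩ univ.filter fun y => E x y).card =
          ∑ y ∈ T, (S ∩ univ.filter fun x => E x y).card := by
        simp only [inter_filter, inter_univ, card_filter]
        exact sum_comm
      rw [e', mul_sum, mul_comm]
      exact card_nsmul_le_sum _ _ _ fun a _ => deg_in _ S (hy a) hk (by omega)
  have s1 : ∑ S : Finset (Fin r), x ^ S.card = (x + 1) ^ r := by
    simpa using Fintype.sum_pow_mul_eq_add_pow (Fin r) x 1
  have s2 : ∑ S : Finset (Fin r), x ^ Sᶜ.card = (x + 1) ^ r := by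
    simpa [card_compl, add_comm] using Fintype.sum_pow_mul_eq_add_pow (Fin r) 1 x
  have s3 : (x + 1) ^ r ≤ 4 / 3 := by
    refine (pow_le_pow_left₀ (by positivity) (Real.add_one_le_exp x) r).trans ?_
    rw [← Real.exp_nat_mul, show (r : ℝ) * x = 1 / 4 by rw [hxd]; field_simp]
    exact (Real.exp_bound_div_one_sub_of_interval (by norm_num) (by norm_num)).trans (by norm_num)
  have tot : ∑ p ∈ P, Real.exp (-(Δ * (∑ x, (F p x).card : ℕ) / r)) < 1 := by
    refine ((sum_le_sum one).trans (sum_le_sum_of_subset_of_nonneg (subset_univ P)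
      fun _ _ _ => by positivity)).trans_lt ?_
    rw [← sum_div, sum_add_distrib, Fintype.sum_prod_type, Fintype.sum_prod_type]
    simp only [← mul_sum, ← sum_mul, s1, s2]
    have : 0 ≤ (x + 1) ^ r := by positivity
    nlinarith
  obtain ⟨ω, -, hω⟩ := exists_mem_notMem_of_card_lt_card (t := univ)
    (s := P.biUnion fun p => Fintype.piFinset fun c : Fin r × Fin Δ => (F p c.1)ᶜ) (by
      have c1 := (Nat.cast_le (α := ℝ)).2 (card_biUnion_le (s := P)
        (t := fun p => Fintype.piFinset fun c : Fin r × Fin Δ => (F p c.1)ᶜ))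
      rw [Nat.cast_sum] at c1
      have c2 := c1.trans (sum_le_sum fun p _ => card_avoid hr (F p))
      rw [← mul_sum] at c2
      have c3 := c2.trans_lt (mul_lt_of_lt_one_right (by positivity) tot)
      simp only [card_univ, Fintype.card_pi, Fintype.card_fin, prod_const, Fintype.card_prod]
      exact_mod_cast c3)
  refine ⟨ω, fun J J' hJ hl => ?_⟩
  set t : J → Finset (Fin r) := fun a => J'.filter fun y => E a y ∧ ∃ i, ω (a, i) = y with ht
  obtain ⟨f, f1, f2⟩ := (all_card_le_biUnion_card_iff_existsInjective' t).1 fun S => by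
    by_contra c
    have c1 : (S.image Subtype.val).card = S.card :=
      card_image_of_injective _ Subtype.val_injective
    have c2 := card_sdiff_add_card_eq_card
      (biUnion_subset.2 fun a _ => filter_subset _ _ : S.biUnion t ⊆ J')
    have c3 : S.card ≤ J.card := (card_le_univ S).trans (Fintype.card_coe J).le
    refine hω (mem_biUnion.2 ⟨(S.image Subtype.val, J' \ S.biUnion t), mem_filter.2 ⟨mem_univ _,
      card_pos.1 (by simp only; omega), card_pos.1 (by simp only; omega), by simp only; omega⟩,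
      Fintype.mem_piFinset.2 fun c => mem_compl.2 fun m => ?_⟩)
    simp only [hF] at m
    split_ifs at m with m'
    · obtain ⟨a, ha, e⟩ := mem_image.1 m'
      obtain ⟨m1, m2⟩ := mem_inter.1 m
      exact (mem_sdiff.1 m1).2 (mem_biUnion.2 ⟨a, ha, mem_filter.2
        ⟨(mem_sdiff.1 m1).1, e ▸ (mem_filter.1 m2).2, c.2, by rw [e]⟩⟩)
    · exact notMem_empty _ m
  have : Nonempty (Fin Δ) := ⟨⟨0, h0⟩⟩
  choose! g hg using fun a (ha : a ∈ J) => (mem_filter.1 (f2 ⟨a, ha⟩)).2.2
  have inj : Set.InjOn (fun x => ω (x, g x)) J := fun a ha b hb e =>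
    congrArg Subtype.val (f1 ((hg a ha).symm.trans (Eq.trans e (hg b hb))))
  refine ⟨g, fun a ha => (hg a ha).symm ▸ (mem_filter.1 (f2 ⟨a, ha⟩)).2.1, inj,
    eq_of_subset_of_card_le (image_subset_iff.2 fun a ha => ?_) ?_⟩
  · exact (hg a ha).symm ▸ (mem_filter.1 (f2 ⟨a, ha⟩)).1
  · rw [card_image_of_injOn inj, hJ]

end Pool.Agent.Lib.MP_cdd51b_co
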