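import Pool.Agent.Lib.MP_cdd51b_co.NsResv
import Pool.Agent.Lib.MP_cdd51b_co.NsGraph

set_option autoImplicit false

namespace Pool.Agent.Lib.MP_cdd51b_co

open Finset

variable {n : ℕ}

/-- The pair on side `c.1` that contains `a` in the place `c.2` and `b` in the other place. -/
def pairOf (c : Bool × Bool) (a b : Fin n) : GV n := if c.2 then (c.1, b, a) else (c.1, a, b)

lemma pairOf_inj (c : Bool × Bool) {a b a' b' : Fin n} (h : pairOf c a b = pairOf c a' b') :
    a = a' ∧ b = b' := by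
  obtain ⟨s, o⟩ := c
  cases o <;> simp [pairOf] at h <;> tauto

namespace Cube

lemma ee_side (Q : Cube n) {A : Finset (GV n)} (B : Finset (GV n)) {s : Bool} {k : ℕ}
    (hA : ∀ g ∈ A, g.1 = s) (hk : ∀ g, (Q.N g ∩ A).card ≤ k) :
    ee Q.N A B ≤ (B.filter fun g => g.1 = !s).card * k := by
  rw [ee_comm N_symm, ee, ← sum_filter_add_sum_filter_not B fun g => g.1 = !s,
    sum_eq_zero (s := B.filter fun g => ¬ g.1 = !s), add_zero]
  · exact sum_le_card_nsmul _ _ _ fun g _ => hk g
  · refine fun g hg => card_eq_zero.2 (eq_empty_of_forall_notMem fun g' h => ?_)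
    have a := (mem_N.1 (mem_inter.1 h).1).symm.1
    exact (mem_filter.1 hg).2 (by rw [a, hA g' (mem_inter.1 h).2])

lemma ee_split (Q : Cube n) (A C : Finset (GV n)) :
    A.card * n = ee Q.N A C + ee Q.N A Cᶜ := by
  rw [← ee_union_right _ _ disjoint_compl_right, union_compl]
  simp [ee, card_N]

/-- Most coordinates lie in many pairs of a large set of pairs with a sparse boundary. -/
lemma exists_good_set (Q : Cube n) (hn : 0 < n) (C : Finset (GV n))
    (c1 : 3 * Cᶜ.card ≤ 2 * (n * n)) (c0 : 10000 * ee Q.N Cᶜ C ≤ n * Cᶜ.card) :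
    ∃ I : Finset (Fin n), 4 * n ≤ 5 * I.card ∧ ∀ c, ∀ a ∈ I,
      3 * n ≤ 5 * (I.filter fun b => pairOf c a b ∈ C).card := by
  have c2 := Nat.mul_le_mul_left n c1
  have side : ∀ s : Bool, 30000 * (Cᶜ.filter fun g => g.1 = !s).card ≤ 10001 * (n * n) := by
    intro s
    have a1 := Q.ee_split (Cᶜ.filter fun g => g.1 = !s) C
    have a2 := ee_mono_left Q.N (filter_subset (fun g : GV n => g.1 = !s) Cᶜ) C
    have a3 := Q.ee_side (A := Cᶜ.filter fun g => g.1 = !s) Cᶜ (fun g hg => (mem_filter.1 hg).2)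
      fun g => (card_le_card inter_subset_left).trans (card_N g).le
    have a4 := card_filter_add_card_filter_not (s := Cᶜ) fun g => g.1 = !s
    rw [filter_congr (q := fun g => g.1 = !!s) (p := fun g : GV n => ¬ g.1 = !s)
      fun g _ => by cases g.1 <;> cases s <;> simp] at a4
    have a5 := congrArg (· * n) a4
    exact Nat.le_of_mul_le_mul_right (by linarith) hn
  set P : Bool × Bool → Fin n → Finset (GV n) := fun c a =>
    (univ.filter fun b => pairOf c a b ∉ C).image (pairOf c a) with hP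
  have hPc : ∀ c a, (P c a).card = (univ.filter fun b => pairOf c a b ∉ C).card := fun c a =>
    card_image_of_injective _ fun b b' e => (pairOf_inj c e).2
  set B : Bool × Bool → Finset (Fin n) := fun c => univ.filter fun a =>
    n * n < 100 * ee Q.N (P c a) C with hB
  have hb : ∀ c, 150 * (B c).card ≤ n := fun c => by
    have a1 : ∑ a ∈ B c, ee Q.N (P c a) C ≤ ee Q.N Cᶜ C := by
      unfold ee
      rw [← sum_biUnion fun a _ a' _ h => disjoint_left.2 fun g hg hg' => by
        obtain ⟨b, -, rfl⟩ := mem_image.1 hg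
        obtain ⟨b', -, e⟩ := mem_image.1 hg'
        exact h (pairOf_inj c e).1.symm]
      refine sum_le_sum_of_subset (biUnion_subset.2 fun a _ g hg => ?_)
      obtain ⟨b, hb, rfl⟩ := mem_image.1 hg
      exact mem_compl.2 (mem_filter.1 hb).2
    have a2 : (B c).card * (n * n) ≤ ∑ a ∈ B c, 100 * ee Q.N (P c a) C :=
      card_nsmul_le_sum _ _ _ fun a ha => (mem_filter.1 ha).2.le
    rw [← mul_sum] at a2
    exact Nat.le_of_mul_le_mul_right (by linarith) (Nat.mul_pos hn hn)
  have h1 : 150 * (univ.biUnion B).card ≤ 4 * n := by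
    refine (Nat.mul_le_mul_left 150 card_biUnion_le).trans ?_
    rw [mul_sum]
    simpa using sum_le_card_nsmul univ _ n fun c _ => hb c
  have h2 := card_compl (univ.biUnion B)
  rw [Fintype.card_fin] at h2
  refine ⟨(univ.biUnion B)ᶜ, by omega, fun c a ha => ?_⟩
  have a0 : ¬ n * n < 100 * ee Q.N (P c a) C := fun k =>
    mem_compl.1 ha (mem_biUnion.2 ⟨c, mem_univ _, mem_filter.2 ⟨mem_univ _, k⟩⟩)
  have a1 : 30000 * (P c a).card ≤ 10301 * n := by
    have b1 := Q.ee_split (P c a) C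
    have b2 := Q.ee_side (A := P c a) Cᶜ (s := c.1) (k := 1) (fun g hg => by
      obtain ⟨b, -, rfl⟩ := mem_image.1 hg
      unfold pairOf
      split_ifs <;> rfl) fun g => card_le_one.2 fun x hx y hy => by
        obtain ⟨b, -, rfl⟩ := mem_image.1 (mem_inter.1 hx).2
        obtain ⟨b', -, rfl⟩ := mem_image.1 (mem_inter.1 hy).2
        have e := (mem_N.1 (mem_inter.1 hx).1).2
        have e' := (mem_N.1 (mem_inter.1 hy).1).2
        unfold pairOf at e e' ⊢
        split_ifs at e e' ⊢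
        · rw [show b = b' from (Q.nb g).injective (e.trans e'.symm)]
        · rw [show b = b' from e.symm.trans e']
    have b3 := side c.1
    exact Nat.le_of_mul_le_mul_right (by linarith) hn
  rw [hPc] at a1
  have a2 := card_filter_add_card_filter_not (s := (univ.biUnion B)ᶜ) fun b => pairOf c a b ∈ C
  have a3 := card_le_card (filter_subset_filter (fun b => pairOf c a b ∉ C)
    (subset_univ (univ.biUnion B)ᶜ))
  omega

/-- In a giant expanding set any two opposite pairs have a short robust absorber. -/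
lemma conn_giant (Q : Cube n) {u : ℕ} (hu : 2 ^ 70 ≤ u) (hu2 : u ^ 201 ≤ 2 ^ u)
    (h1 : u ^ 200 ≤ n) (h2 : n ≤ 2 * u ^ 200) {C : Finset (GV n)}
    (c1 : 3 * Cᶜ.card ≤ 2 * (n * n)) (c0 : 10000 * ee Q.N Cᶜ C ≤ n * Cᶜ.card)
    (c3 : ∀ A ⊆ C, 2 * A.card ≤ C.card → n * A.card ≤ 4 * u ^ 10 * ee Q.N A (C \ A)) :
    ∀ q ∈ C, ∀ q' ∈ C, q.1 ≠ q'.1 → ∀ U : Finset (Vx n), U.card ≤ u ^ 171 →
      ∃ G : Finset (Vx n), G.card ≤ 600 * u ^ 11 ∧ Disjoint G (U ∪ vs q ∪ vs q') ∧
        Q.PM G ∧ Q.PM (G ∪ vs q ∪ vs q') := by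
  have u1 : 1 ≤ u := by omega
  have p : ∀ a b, a ≤ b → u ^ a ≤ u ^ b := fun a b h => Nat.pow_le_pow_right u1 h
  have q : ∀ a b, b = a + 1 → 2 ^ 70 * u ^ a ≤ u ^ b := fun a b h => by
    rw [h, pow_succ' u]; exact Nat.mul_le_mul_right _ hu
  have hn : 0 < n := lt_of_lt_of_le (Nat.pow_pos u1) h1
  have hn2 : n ≤ 2 ^ u := by linarith [q 200 201 rfl, Nat.zero_le (u ^ 200)]
  have hV : Fintype.card (GV n) = 2 * (n * n) := by simp
  have hV2 : 2 * (n * n) ≤ 2 ^ (2 * u + 1) := by
    rw [pow_succ', two_mul u, pow_add]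
    exact Nat.mul_le_mul_left _ (Nat.mul_le_mul hn2 hn2)
  have cc := card_add_card_compl C
  rw [hV] at cc
  have c2 : 100 * n * C.card ≤ 100 * ee Q.N C C + n * C.card := by
    have a1 := Q.ee_split C C
    rw [ee_comm N_symm C Cᶜ] at a1
    have a3 := Nat.mul_le_mul_left n (show Cᶜ.card ≤ C.card by omega)
    linarith
  intro g hg g' hg' hne U hU
  have hC : C.card ≤ 2 * (n * n) := by omega
  have hC2 : 49 * n ≤ 50 * C.card := by nlinarith [Nat.le_mul_self n]
  have hl : 8 * (4 * u ^ 10) * (2 * u + 2) ≤ 128 * u ^ 11 := by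
    have : u ^ 11 = u ^ 10 * u := by ring
    nlinarith [p 10 11 (by norm_num)]
  generalize hl' : 8 * (4 * u ^ 10) * (2 * u + 2) = l at hl
  have D0 : 0 < u ^ 100 := Nat.pow_pos u1
  set β := C.card / u ^ 100 + 1 with hβ
  have b1 : C.card ≤ u ^ 100 * β := (Nat.lt_mul_div_succ _ D0).le
  have b2 : u ^ 100 * β ≤ C.card + u ^ 100 := by
    rw [hβ, mul_add, mul_one]; exact Nat.add_le_add_right (Nat.mul_div_le _ _) _
  have b2' : 40 * β ≤ C.card + 40 := by
    have : 40 * (C.card / u ^ 100) ≤ u ^ 100 * (C.card / u ^ 100) :=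
      Nat.mul_le_mul_right _ (by linarith [p 1 100 (by norm_num)])
    have := Nat.mul_div_le C.card (u ^ 100)
    omega
  set a := 4 * β / n + 1 with ha
  have b3 : 4 * β < n * a := Nat.lt_mul_div_succ _ hn
  have b4 : n * a ≤ 4 * β + n := by
    rw [ha, mul_add, mul_one]; exact Nat.add_le_add_right (Nat.mul_div_le _ _) _
  have b5 : a ≤ 21 * u ^ 100 := by
    have e1 : u ^ 200 = u ^ 100 * u ^ 100 := by ring
    have d1 := Nat.mul_le_mul_left (u ^ 100) b4
    have d2 := Nat.mul_le_mul_left n h2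
    have d3 : u ^ 100 ≤ n * u ^ 100 := Nat.le_mul_of_pos_left _ hn
    have d4 := Nat.mul_le_mul_left n (p 100 200 (by norm_num))
    have d5 : (n * u ^ 100) * a ≤ (n * u ^ 100) * (21 * u ^ 100) := by nlinarith
    exact Nat.le_of_mul_le_mul_left d5 (Nat.mul_pos hn D0)
  have b6 : 100 * u ^ 172 ≤ n := by
    linarith [q 199 200 rfl, p 172 199 (by norm_num), Nat.zero_le (u ^ 199)]
  have b7 : a * u ^ 172 ≤ β + u ^ 172 := by
    have d1 := Nat.mul_le_mul_right (u ^ 172) b4
    have d2 := Nat.mul_le_mul_left β b6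
    have : n * (a * u ^ 172) ≤ n * (β + u ^ 172) := by nlinarith
    exact Nat.le_of_mul_le_mul_left this hn
  obtain ⟨G, g1, g2⟩ := connect (Q := Q) hn (C := C) (H := 4 * u ^ 10) (t := 2 * u + 2)
    (m := u ^ 172) (m0 := u ^ 171) (β := β) (a := a) (by positivity) c3 c2
    (by rw [show 2 * u + 2 = 2 * u + 1 + 1 from rfl, pow_succ]
        have : 0 < 2 ^ (2 * u + 1) := by positivity
        omega)
    (by
      rw [hl']
      have d1 : u ^ 172 + 2 * l ≤ 2 * u ^ 172 := by
        linarith [q 171 172 rfl, p 11 171 (by norm_num), Nat.zero_le (u ^ 171)]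
      have d2 := Nat.mul_le_mul_left (2 * (4 * u ^ 10)) d1
      have d3 : u ^ 10 * u ^ 172 = u ^ 182 := by ring
      linarith [q 199 200 rfl, p 182 199 (by norm_num), Nat.zero_le (u ^ 199)])
    (by
      rw [hl']
      have d1 : 8 * (4 * u ^ 10) * l ≤ u ^ 100 := by
        have := Nat.mul_le_mul_left (8 * (4 * u ^ 10)) hl
        have d3 : u ^ 10 * u ^ 11 = u ^ 21 := by ring
        linarith [q 99 100 rfl, p 21 99 (by norm_num), Nat.zero_le (u ^ 99)]
      have d2 := Nat.mul_le_mul d1 b1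
      have d3 := Nat.mul_le_mul_right β h1
      have e1 : u ^ 200 = u ^ 100 * u ^ 100 := by ring
      rw [e1] at d3
      linarith)
    (by
      rw [hl']
      have d1 : 2 * l + 2 ≤ 258 * u ^ 11 := by linarith [p 0 11 (by norm_num)]
      have d2 := Nat.mul_le_mul b5 d1
      have d3 : u ^ 100 * u ^ 11 = u ^ 111 := by ring
      linarith [q 171 172 rfl, p 111 171 (by norm_num), p 0 171 (by norm_num),
        Nat.zero_le (u ^ 171)])
    (by omega)
    (by have := Nat.mul_le_mul_left a b6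
        nlinarith)
    (by have := p 1 172 (by norm_num)
        rw [pow_one] at this
        omega)
    hg hg' hne hU
  rw [hl'] at g1
  exact ⟨G, by linarith [p 0 11 (by norm_num)], g2⟩

end Cube

end Pool.Agent.Lib.MP_cdd51b_co
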