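import Pool.Agent.Lib.MP_cdd51b_co.NsFin

set_option autoImplicit false

namespace Pool.Agent.Lib.MP_cdd51b_co

open Finset

variable {α : Type*} [Fintype α] [DecidableEq α]

lemma cross_num {n s t e c : ℕ} (hn : 100 ≤ n) (h1 : n ^ 2 ≤ 100 * (s + t)) (h2 : s + t ≤ n ^ 2)
    (h3 : e ^ 2 ≤ t * (s * (n + s))) (h4 : c + 2 * e = n * (s + t)) : n ^ 3 ≤ 1000 * c := by
  have a1 : 27 * (t * s ^ 2) ≤ 4 * (s + t) ^ 3 := by
    zify
    nlinarith [mul_nonneg (sq_nonneg ((s : ℤ) - 2 * t)) (by positivity : (0 : ℤ) ≤ 4 * s + t)]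
  have a2 : 4 * (t * s) ≤ (s + t) ^ 2 := by
    zify
    nlinarith [sq_nonneg ((s : ℤ) - t)]
  have a3 : (s + t) ^ 3 ≤ n ^ 2 * (s + t) ^ 2 := by
    rw [pow_succ' (s + t)]
    exact Nat.mul_le_mul_right _ h2
  have a4 : 100 * (n * (s + t) ^ 2) ≤ n ^ 2 * (s + t) ^ 2 := by
    rw [← mul_assoc, sq n]
    exact Nat.mul_le_mul_right _ (Nat.mul_le_mul_right _ hn)
  have a5 := Nat.mul_le_mul_left n a2
  have a6 : (20 * e) ^ 2 ≤ (9 * (n * (s + t))) ^ 2 := by nlinarith
  have a7 := (Nat.pow_le_pow_iff_left (by norm_num)).1 a6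
  have a8 := Nat.mul_le_mul_left n h1
  nlinarith

/-- Arrays in which two lines agree in at most one place have no sparse cut. -/
lemma cross_plane (P : α → α → α → α) (hy : ∀ x z, Function.Injective fun y => P x y z)
    (hc : ∀ p p' : α × α, p ≠ p' → (univ.filter fun z => P p.1 p.2 z = P p'.1 p'.2 z).card ≤ 1)
    (hn : 100 ≤ Fintype.card α) (S T : Finset (α × α))
    (h1 : Fintype.card α ^ 2 ≤ 100 * (S.card + T.card))
    (h2 : S.card + T.card ≤ Fintype.card α ^ 2) :
    Fintype.card α ^ 3 ≤ 1000 * (univ.filter fun c : α × α × α =>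
      ¬ ((c.1, c.2.1) ∈ S ↔ (c.2.2, P c.1 c.2.1 c.2.2) ∈ T)).card := by
  set d : α × α → ℕ := fun q => ∑ p ∈ S, if P p.1 p.2 q.1 = q.2 then 1 else 0 with hd
  have re : ∀ f : α × α → α → ℕ, ∑ c : α × α × α, f (c.1, c.2.1) c.2.2 = ∑ p, ∑ z, f p z :=
    fun f => by simp only [Fintype.sum_prod_type]
  have one : ∀ (U : Finset (α × α)) (p : α × α),
      (∑ z, if (z, P p.1 p.2 z) ∈ U then 1 else 0) =
        ∑ q ∈ U, if P p.1 p.2 q.1 = q.2 then 1 else 0 := fun U p => by
    rw [← card_filter, ← card_filter]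
    exact card_bij (fun z _ => (z, P p.1 p.2 z))
      (fun z hz => mem_filter.2 ⟨(mem_filter.1 hz).2, rfl⟩) (fun _ _ _ _ e => congrArg Prod.fst e)
      fun q hq => ⟨q.1, mem_filter.2 ⟨mem_univ _, by
        rw [(mem_filter.1 hq).2]; exact (mem_filter.1 hq).1⟩, by rw [(mem_filter.1 hq).2]⟩
  refine cross_num (e := ∑ q ∈ T, d q) hn h1 h2 ?_ ?_
  · refine sq_sum_le_card_mul_sum_sq.trans (Nat.mul_le_mul_left _
      ((sum_le_sum_of_subset (subset_univ T)).trans ?_))
    simp only [hd, sq, sum_mul_sum]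
    rw [sum_comm]
    refine sum_le_card_nsmul _ _ _ fun p hp => ?_
    rw [sum_comm]
    have k : ∀ p' ∈ S, (∑ q : α × α, (if P p.1 p.2 q.1 = q.2 then 1 else 0) *
        if P p'.1 p'.2 q.1 = q.2 then 1 else 0) ≤ (if p = p' then Fintype.card α else 0) + 1 := by
      intro p' _
      have e : (∑ q : α × α, (if P p.1 p.2 q.1 = q.2 then 1 else 0) *
          if P p'.1 p'.2 q.1 = q.2 then 1 else 0) =
          (univ.filter fun z => P p.1 p.2 z = P p'.1 p'.2 z).card := by
        rw [Fintype.sum_prod_type, card_filter]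
        refine sum_congr rfl fun z _ => ?_
        simp [eq_comm]
      rw [e]
      split_ifs with c
      · exact (card_le_univ _).trans (Nat.le_succ _)
      · simpa using hc p p' c
    refine (sum_le_sum k).trans ?_
    simp [sum_add_distrib, hp]
  · have e1 : ∑ q ∈ T, d q = ∑ p, ∑ z, if p ∈ S ∧ (z, P p.1 p.2 z) ∈ T then 1 else 0 := by
      simp only [hd, ite_and, sum_ite_irrel, sum_const_zero, one]
      rw [sum_comm, ← sum_filter, filter_mem_eq_inter, univ_inter]
    have e2 : Fintype.card α * S.card = ∑ p : α × α, ∑ _z : α, if p ∈ S then 1 else 0 := by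
      simp [mul_comm]
    have e3 : Fintype.card α * T.card =
        ∑ p : α × α, ∑ z, if (z, P p.1 p.2 z) ∈ T then 1 else 0 := by
      simp only [one]
      rw [sum_comm, mul_comm]
      refine (sum_const_nat fun q _ => ?_).symm
      rw [Fintype.sum_prod_type]
      refine (sum_const_nat (m := 1) fun x _ => ?_).trans (mul_one _)
      obtain ⟨y, e⟩ := Finite.injective_iff_surjective.1 (hy x q.1) q.2
      rw [← e]
      simp [(hy x q.1).eq_iff]
    rw [mul_add (Fintype.card α), e1, e2, e3, card_filter,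
      re fun p z => if ¬ (p ∈ S ↔ (z, P p.1 p.2 z) ∈ T) then 1 else 0]
    simp only [mul_sum, ← sum_add_distrib]
    refine sum_congr rfl fun p _ => sum_congr rfl fun z _ => ?_
    by_cases a : p ∈ S <;> by_cases b : (z, P p.1 p.2 z) ∈ T <;> simp [a, b]

/-- The prolongation of the multiplication table of a field along the diagonal. -/
def pro {F : Type*} [Field F] [DecidableEq F] (x z : F) : F :=
  if x = 0 then z ^ 2 else x * Equiv.swap 0 x z

lemma pro_comm {F : Type*} [Field F] [DecidableEq F] (x z : F) : pro x z = pro z x := by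
  unfold pro
  by_cases a : x = 0 <;> by_cases b : z = 0
  · simp [a, b]
  · simp [a, b, sq]
  · simp [a, b, sq]
  · by_cases c : x = z
    · rw [c]
    · rw [if_neg a, if_neg b, Equiv.swap_apply_of_ne_of_ne b (Ne.symm c),
        Equiv.swap_apply_of_ne_of_ne a c, mul_comm]

lemma pro_inj {F : Type*} [Field F] [DecidableEq F] [CharP F 2] (x : F) :
    Function.Injective (pro x) := fun a b e => by
  unfold pro at e
  split_ifs at e with c
  · rcases sq_eq_sq_iff_eq_or_eq_neg.1 e with e | e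
    · exact e
    · rw [e, CharTwo.neg_eq]
  · exact (Equiv.swap 0 x).injective (mul_left_cancel₀ c e)

/-- In characteristic two there is a latin cube that agrees with `x * z + y` on all but
`3 * q ^ 2` cells. -/
lemma exists_near (F : Type) [Field F] [Fintype F] [DecidableEq F] [CharP F 2] :
    ∃ L : F → F → F → F, (∀ j k, Function.Injective fun i => L i j k) ∧
      (∀ i k, Function.Injective fun j => L i j k) ∧
      (∀ i j, Function.Injective fun k => L i j k) ∧
      (univ.filter fun c : F × F × F => L c.1 c.2.1 c.2.2 ≠ c.1 * c.2.2 + c.2.1).card ≤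
        3 * Fintype.card F ^ 2 := by
  refine ⟨fun x y z => pro x z + y, fun j k a b e => pro_inj k ?_,
    fun i k a b e => add_left_cancel e, fun i j a b e => pro_inj i (add_right_cancel e), ?_⟩
  · rw [pro_comm k, pro_comm k]
    exact add_right_cancel e
  have k : ∀ f : F × F → F × F × F, (univ.image f).card ≤ Fintype.card F ^ 2 := fun f =>
    card_image_le.trans (by simp [sq])
  have := k fun p => (0, p.1, p.2)
  have := k fun p => (p.1, p.2, 0)
  have := k fun p => (p.1, p.2, p.1)
  refine (card_le_card (t := (univ.image fun p : F × F => ((0 : F), p.1, p.2)) ∪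
    (univ.image fun p : F × F => (p.1, p.2, (0 : F))) ∪
    (univ.image fun p : F × F => (p.1, p.2, p.1))) fun c hc => ?_).trans
    ((card_union_le _ _).trans ((Nat.add_le_add_right (card_union_le _ _) _).trans (by omega)))
  obtain ⟨x, y, z⟩ := c
  have hc := (mem_filter.1 hc).2
  simp only [mem_union, mem_image, mem_univ, true_and]
  by_cases a : x = 0
  · exact Or.inl (Or.inl ⟨(y, z), by rw [a]⟩)
  by_cases b : z = 0
  · exact Or.inl (Or.inr ⟨(x, y), by rw [b]⟩)
  by_cases c : z = x
  · exact Or.inr ⟨(x, y), by rw [c]⟩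
  exact absurd (by simp only [pro, if_neg a, Equiv.swap_apply_of_ne_of_ne b c]) hc

/-- An array over a large finite field that is close to `x * z + y` has no sparse cut. -/
lemma cut_near {F : Type} [Field F] [Fintype F] [DecidableEq F] {n : ℕ} (e : Fin n ≃ F)
    (hb : 2000 ^ 20 ≤ n) (L : F → F → F → F)
    (hd : 2000 * (univ.filter fun c : F × F × F =>
      L c.1 c.2.1 c.2.2 ≠ c.1 * c.2.2 + c.2.1).card ≤ n ^ 3) (S T : Finset (Fin n × Fin n))
    (s1 : n ^ 2 ≤ 100 * (S.card + T.card)) (s2 : S.card + T.card ≤ n ^ 2) :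
    n ^ 59 ≤ (univ.filter fun c : Fin n × Fin n × Fin n => ¬ ((c.1, c.2.1) ∈ S ↔
      (c.2.2, e.symm (L (e c.1) (e c.2.1) (e c.2.2))) ∈ T)).card ^ 20 := by
  have c1 := cross_plane (fun i j k : Fin n => e.symm (e i * e k + e j))
    (fun x z a b r => e.injective (add_left_cancel (e.symm.injective r)))
    (fun p p' hp => card_le_one.2 fun a ha b hb => by
      have ha := e.symm.injective (mem_filter.1 ha).2
      have hb := e.symm.injective (mem_filter.1 hb).2
      by_contra hab
      have r : (e p.1 - e p'.1) * (e a - e b) = 0 := by linear_combination ha - hb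
      have r1 : e p.1 = e p'.1 := sub_eq_zero.1 ((mul_eq_zero.1 r).resolve_right
        (sub_ne_zero.2 fun t => hab (e.injective t)))
      rw [r1] at ha
      exact hp (Prod.ext (e.injective r1) (e.injective (add_left_cancel ha))))
    (by rw [Fintype.card_fin]; exact le_trans (by norm_num) hb) S T
    (by rwa [Fintype.card_fin]) (by rwa [Fintype.card_fin])
  rw [Fintype.card_fin] at c1
  have c2 : (univ.filter fun c : Fin n × Fin n × Fin n =>
      L (e c.1) (e c.2.1) (e c.2.2) ≠ e c.1 * e c.2.2 + e c.2.1).card ≤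
      (univ.filter fun c : F × F × F => L c.1 c.2.1 c.2.2 ≠ c.1 * c.2.2 + c.2.1).card :=
    card_le_card_of_injOn (e.prodCongr (e.prodCongr e))
      (fun c hc => mem_filter.2 ⟨mem_univ _, (mem_filter.1 hc).2⟩) (Equiv.injective _).injOn
  have c3 := (card_le_card (s := univ.filter fun c : Fin n × Fin n × Fin n =>
      ¬ ((c.1, c.2.1) ∈ S ↔ (c.2.2, e.symm (e c.1 * e c.2.2 + e c.2.1)) ∈ T))
    (t := (univ.filter fun c : Fin n × Fin n × Fin n =>
      ¬ ((c.1, c.2.1) ∈ S ↔ (c.2.2, e.symm (L (e c.1) (e c.2.1) (e c.2.2))) ∈ T)) ∪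
      univ.filter fun c : Fin n × Fin n × Fin n =>
        L (e c.1) (e c.2.1) (e c.2.2) ≠ e c.1 * e c.2.2 + e c.2.1) fun c hc => by
      have hc := (mem_filter.1 hc).2
      by_cases r : L (e c.1) (e c.2.1) (e c.2.2) = e c.1 * e c.2.2 + e c.2.1
      · exact mem_union_left _ (mem_filter.2 ⟨mem_univ _, by rwa [r]⟩)
      · exact mem_union_right _ (mem_filter.2 ⟨mem_univ _, r⟩)).trans (card_union_le _ _)
  generalize (univ.filter fun c : Fin n × Fin n × Fin n => ¬ ((c.1, c.2.1) ∈ S ↔
    (c.2.2, e.symm (L (e c.1) (e c.2.1) (e c.2.2))) ∈ T)).card = m at c3 ⊢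
  have c4 : n ^ 3 ≤ 2000 * m := by omega
  have c5 := Nat.pow_le_pow_left c4 20
  rw [mul_pow, ← pow_mul] at c5
  have c6 := c5.trans (Nat.mul_le_mul_right _ hb)
  rw [show 3 * 20 = 59 + 1 from rfl, pow_succ'] at c6
  exact Nat.le_of_mul_le_mul_left c6 (lt_of_lt_of_le (by norm_num) hb)

/-- The cube on `Fin n` obtained from a latin cube on a type with `n` elements. -/
def Cube.ofEquiv {F : Type} {n : ℕ} (e : Fin n ≃ F) (L : F → F → F → F)
    (h1 : ∀ j k, Function.Injective fun i => L i j k)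
    (h2 : ∀ i k, Function.Injective fun j => L i j k)
    (h3 : ∀ i j, Function.Injective fun k => L i j k) : Cube n :=
  ⟨fun i j k => e.symm (L (e i) (e j) (e k)),
    fun _ _ _ _ r => e.injective (h1 _ _ (e.symm.injective r)),
    fun _ _ _ _ r => e.injective (h2 _ _ (e.symm.injective r)),
    fun _ _ _ _ r => e.injective (h3 _ _ (e.symm.injective r))⟩

/-- A latin cube over a large finite field that is close to `x * z + y` has a transversal. -/
theorem near_field : ∃ n0 : ℕ, ∀ (F : Type) [Field F] [Fintype F] [DecidableEq F],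
    n0 ≤ Fintype.card F → ∀ L : F → F → F → F, (∀ j k, Function.Injective fun i => L i j k) →
      (∀ i k, Function.Injective fun j => L i j k) →
      (∀ i j, Function.Injective fun k => L i j k) →
      2000 * (univ.filter fun c : F × F × F =>
        L c.1 c.2.1 c.2.2 ≠ c.1 * c.2.2 + c.2.1).card ≤ Fintype.card F ^ 3 →
      ∃ σ τ : Equiv.Perm F, Function.Injective fun i => L i (σ i) (τ i) := by
  obtain ⟨n0, h⟩ := no_sparse_cut
  refine ⟨n0 + 2000 ^ 20, fun F _ _ _ hn L h1 h2 h3 hd => ?_⟩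
  have e := (Fintype.equivFin F).symm
  obtain ⟨σ, τ, hs⟩ := h _ (le_of_add_le_left hn) (Cube.ofEquiv e L h1 h2 h3)
    fun S T s1 => cut_near e (le_of_add_le_right hn) L hd S T (by omega)
  refine ⟨(e.symm.trans σ).trans e, (e.symm.trans τ).trans e, fun a b r => ?_⟩
  refine e.symm.injective (hs ?_)
  simpa [Cube.ofEquiv] using r

/-- There are latin cubes of arbitrarily large order with no sparse cut. -/
theorem exists_no_cut (N : ℕ) : ∃ n, N ≤ n ∧ ∃ Q : Cube n, ∀ S T : Finset (Fin n × Fin n),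
    n ^ 2 ≤ 100 * (S.card + T.card) → S.card + T.card ≤ n ^ 2 →
    n ^ 59 ≤ (univ.filter fun c : Fin n × Fin n × Fin n =>
      ¬ ((c.1, c.2.1) ∈ S ↔ (c.2.2, Q.L c.1 c.2.1 c.2.2) ∈ T)).card ^ 20 := by
  classical
  have := Fintype.ofFinite (GaloisField 2 (N + 2000 ^ 20))
  have hc : N + 2000 ^ 20 ≤ Fintype.card (GaloisField 2 (N + 2000 ^ 20)) := by
    rw [← Nat.card_eq_fintype_card, GaloisField.card 2 _ (by positivity)]
    exact Nat.lt_two_pow_self.le
  obtain ⟨L, h1, h2, h3, hd⟩ := exists_near (GaloisField 2 (N + 2000 ^ 20))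
  have e := (Fintype.equivFin (GaloisField 2 (N + 2000 ^ 20))).symm
  refine ⟨_, le_of_add_le_left hc, Cube.ofEquiv e L h1 h2 h3,
    cut_near e (le_of_add_le_right hc) L ?_⟩
  generalize Fintype.card (GaloisField 2 (N + 2000 ^ 20)) = q at hc hd ⊢
  have : 6000 ≤ q := le_trans (by norm_num) (le_of_add_le_right hc)
  have := Nat.mul_le_mul_right (q ^ 2) this
  rw [pow_succ' q]
  omega

end Pool.Agent.Lib.MP_cdd51b_co
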