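import Pool.Agent.Lib.MP_cdd51b_co.NsMain

set_option autoImplicit false

namespace Pool.Agent.Lib.MP_cdd51b_co

open Finset

variable {n : ℕ}

namespace Cube

/-- A giant expanding set of pairs gives a transversal. -/
lemma full_of_giant (Q : Cube n) {u : ℕ} (hu : 2 ^ 70 ≤ u) (hu2 : u ^ 201 ≤ 2 ^ u)
    (h1 : u ^ 200 ≤ n) (h2 : n ≤ 2 * u ^ 200) {C : Finset (GV n)}
    (c1 : 3 * Cᶜ.card ≤ 2 * (n * n)) (c0 : 10000 * ee Q.N Cᶜ C ≤ n * Cᶜ.card)
    (c3 : ∀ A ⊆ C, 2 * A.card ≤ C.card → n * A.card ≤ 4 * u ^ 10 * ee Q.N A (C \ A)) :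
    Q.PM univ := by
  classical
  have u1 : 1 ≤ u := by omega
  have p : ∀ a b, a ≤ b → u ^ a ≤ u ^ b := fun a b h => Nat.pow_le_pow_right u1 h
  have q : ∀ a b, b = a + 1 → 2 ^ 70 * u ^ a ≤ u ^ b := fun a b h => by
    rw [h, pow_succ' u]; exact Nat.mul_le_mul_right _ hu
  obtain ⟨R, r1, r2, r3, r4⟩ := Q.exists_R2 hu hu2 h1 h2 c1 c0
  obtain ⟨A, a1, a2, a3, a4⟩ := Q.exists_abs hu hu2 r1 r2 r4
    (Q.conn_giant hu hu2 h1 h2 c1 c0 c3)
  have hW : ∀ j, (pr j (mkU fun _ => R)).card = R.card := fun j =>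
    congrArg card (Finset.ext fun a => mem_pr.trans mem_mkU)
  generalize (mkU fun _ => R) = W at r3 a2 a4 hW
  have hb : ∀ j, (pr j (A ∪ W)).card = (pr 0 A).card + R.card := fun j => by
    rw [card_pr_union j a2, hW, a3.card_pr j 0]
  obtain ⟨M, m1, m2, m3⟩ := Q.near_robust hu hu2 h1 h2 (A ∪ W) ((pr 0 A).card + R.card)
    (fun j => (hb j).le) (by
      linarith [card_pr_le 0 A, q 169 170 rfl, p 151 169 (by norm_num), Nat.zero_le (u ^ 169)])
  set VM := univ.filter (fun x => Q.Cov M x) with hVM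
  have hMd : Disjoint VM (A ∪ W) := disjoint_right.2 (fun x hx h => m2 x hx (mem_filter.1 h).2)
  set D := univ \ (VM ∪ (A ∪ W)) with hD
  have hDc : ∀ j, (pr j D).card + (M.card + ((pr 0 A).card + R.card)) = n := by
    intro j
    have b1 := card_pr_sdiff j (subset_univ (VM ∪ (A ∪ W)))
    rw [card_pr_union j hMd, hb] at b1
    have b2 : (pr j VM).card = M.card := by
      rw [← m1.card_cov j]; congr 1; ext a; simp [hVM]
    have b3 : (pr j (univ : Finset (Vx n))).card = n := by simp [pr]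
    rw [b2, b3] at b1
    exact b1
  have hDd : Disjoint D (VM ∪ (A ∪ W)) := sdiff_disjoint
  have hDW : Disjoint D W := hDd.mono_right (subset_union_right.trans subset_union_right)
  obtain ⟨W', w1, w2, w3⟩ := cover (Q := Q) W u r3 (4 * CC) D
    (card_le_of_pr fun j => by have := hDc j; omega)
    (fun s => by have := hDc (p0 s); have := hDc (p1 s); omega) hDW (by unfold CC; omega)
  have p1 := a4 W' w1 (by omega) fun i j => by
    have k := w3.card_pr i j
    rw [card_pr_union i (hDW.mono_right w1), card_pr_union j (hDW.mono_right w1)] at k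
    have := hDc i
    have := hDc j
    omega
  have s1 : A ∪ W \ W' ⊆ A ∪ W := union_subset_union subset_rfl sdiff_subset
  have p2 := (m1.pm.union p1 (hMd.mono_right s1)).union w3 (disjoint_union_right.2
    ⟨(hDd.mono_right (union_subset_union subset_rfl s1)).symm, disjoint_union_left.2
      ⟨hMd.mono_right (w1.trans subset_union_right), disjoint_union_left.2
        ⟨a2.mono_right w1, sdiff_disjoint⟩⟩⟩)
  refine Eq.mp (congrArg Q.PM (eq_univ_of_forall fun v => ?_)) p2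
  simp only [hD, hVM, mem_union, mem_sdiff, mem_univ, true_and]
  tauto

lemma perm_of_pm (Q : Cube n) (h : Q.PM univ) :
    ∃ σ τ : Equiv.Perm (Fin n), Function.Injective fun i => Q.L i (σ i) (τ i) := by
  obtain ⟨M, m1, m2⟩ := h
  choose f f1 f2 using fun i => (m2 (0, i)).2 (mem_univ _)
  have f3 : ∀ i, (f i).1 = i := f2
  have k : ∀ j, Function.Injective fun i => Q.co (f i) j := fun j a b e => by
    by_contra c
    exact m1 _ (f1 a) _ (f1 b) (fun e' => c (by rw [← f3 a, e', f3])) j e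
  refine ⟨Equiv.ofBijective _ (Finite.injective_iff_bijective.1 (k 1)),
    Equiv.ofBijective _ (Finite.injective_iff_bijective.1 (k 2)), fun a b e => k 3 ?_⟩
  simp only [co3, f3]
  exact e

lemma cross_le (Q : Cube n) (A : Finset (GV n)) :
    (univ.filter fun c : Cell n => ¬ ((false, c.1, c.2.1) ∈ A ↔
      (true, c.2.2, Q.L c.1 c.2.1 c.2.2) ∈ A)).card ≤ ee Q.N A Aᶜ := by
  rw [ee, ← card_sigma]
  refine card_le_card_of_injOn (fun c => if (false, c.1, c.2.1) ∈ A then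
    ⟨(false, c.1, c.2.1), (true, c.2.2, Q.L c.1 c.2.1 c.2.2)⟩
    else ⟨(true, c.2.2, Q.L c.1 c.2.1 c.2.2), (false, c.1, c.2.1)⟩) (fun c hc => ?_)
    fun c _ c' _ e => ?_
  · have k := (mem_filter.1 (mem_coe.1 hc)).2
    refine mem_coe.2 ?_
    dsimp only
    split_ifs with a
    · exact mem_sigma.2 ⟨a, mem_inter.2 ⟨mem_N.2 (adj_ft.2 rfl), mem_compl.2 (by tauto)⟩⟩
    · exact mem_sigma.2 ⟨by tauto, mem_inter.2 ⟨mem_N.2 (adj_tf.2 rfl), mem_compl.2 a⟩⟩
  · obtain ⟨x, y, z⟩ := c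
    obtain ⟨x', y', z'⟩ := c'
    dsimp only at e
    split_ifs at e <;> simp at e ⊢ <;> tauto

end Cube

/-- Large latin cubes without a nearly balanced sparse cut have a transversal. -/
theorem no_sparse_cut : ∃ n0 : ℕ, ∀ n : ℕ, n0 ≤ n → ∀ Q : Cube n,
    (∀ S T : Finset (Fin n × Fin n),
      2 * n ^ 2 ≤ 3 * (S.card + T.card) → S.card + T.card ≤ n ^ 2 →
      n ^ 59 ≤ (univ.filter fun c : Cell n =>
        ¬ ((c.1, c.2.1) ∈ S ↔ (c.2.2, Q.L c.1 c.2.1 c.2.2) ∈ T)).card ^ 20) →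
    ∃ σ τ : Equiv.Perm (Fin n), Function.Injective fun i => Q.L i (σ i) (τ i) := by
  obtain ⟨u0, h0⟩ := exists_u0
  refine ⟨(u0 + 400) ^ 200, fun n hn Q h => ?_⟩
  obtain ⟨u, a1, a2, a3⟩ := exists_u u0 hn
  have hn0 : 0 < n := lt_of_lt_of_le (by positivity) hn
  have hV : Fintype.card (GV n) = 2 * (n * n) := by simp
  obtain ⟨C, c1, c0, c2⟩ := exists_giant Q.N Cube.N_symm (d := n) (H := 4 * u ^ 10) hn0
    (by rw [hV]; positivity) fun A b1 b2 => by
      have e : A.card = (univ.filter fun p => (false, p) ∈ A).card +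
          (univ.filter fun p => (true, p) ∈ A).card := by
        rw [card_filter, card_filter, add_comm, ← Fintype.sum_bool
          fun s => ∑ p, if (s, p) ∈ A then 1 else 0, ← Fintype.sum_prod_type', ← card_filter,
          filter_mem_eq_inter, univ_inter]
      rw [hV] at b1 b2 ⊢
      have k := h _ _ (by rw [← e, sq]; omega) (by rw [← e, sq]; omega)
      simp only [mem_filter, mem_univ, true_and] at k
      have k' := k.trans (Nat.pow_le_pow_left (Q.cross_le A) 20)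
      refine (Nat.pow_le_pow_iff_left (n := 20) (by norm_num)).1 ?_
      calc (n * (2 * (n * n))) ^ 20 = 2 ^ 20 * n * n ^ 59 := by ring
        _ ≤ 2 ^ 20 * (2 * u ^ 200) * ee Q.N A Aᶜ ^ 20 := by gcongr
        _ = 2 ^ 21 * (u ^ 10 * ee Q.N A Aᶜ) ^ 20 := by ring
        _ ≤ 4 ^ 20 * (u ^ 10 * ee Q.N A Aᶜ) ^ 20 := Nat.mul_le_mul_right _ (by norm_num)
        _ = _ := by ring
  have hu := (h0 u a1).1
  have hH : 10000 ≤ 4 * u ^ 10 := by
    have := Nat.le_self_pow (show 10 ≠ 0 by norm_num) u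
    omega
  exact Q.perm_of_pm (Q.full_of_giant hu (h0 u a1).2 a2 a3 (by omega)
    ((Nat.mul_le_mul_right _ hH).trans c0) c2)

end Pool.Agent.Lib.MP_cdd51b_co
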