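import Pool.Agent.Lib.MP_cdd51b_co.NsConn

set_option autoImplicit false

namespace Pool.Agent.Lib.MP_cdd51b_co

open Finset

variable {n : ℕ}

lemma two_pow_le_exp (m : ℕ) : ((2 ^ m : ℕ) : ℝ) ≤ Real.exp m := by
  rw [← mul_one (m : ℝ), Real.exp_nat_mul, Nat.cast_pow]
  exact pow_le_pow_left₀ (by norm_num) (by have := Real.add_one_le_exp 1; push_cast; linarith) _

lemma card_emb (R : Finset (Fin n)) (P : Fin n → Prop) [DecidablePred P] :
    (univ.filter fun k => P (R.orderEmbOfFin rfl k)).card = (R.filter P).card := by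
  rw [← card_image_of_injective _ (R.orderEmbOfFin rfl).injective]
  congr 1
  ext a
  simp only [mem_image, mem_filter, mem_univ, true_and]
  constructor
  · rintro ⟨k, hk, rfl⟩
    exact ⟨orderEmbOfFin_mem _ _ _, hk⟩
  · rintro ⟨ha, hp⟩
    obtain ⟨k, rfl⟩ : a ∈ Set.range (R.orderEmbOfFin rfl) := by rwa [range_orderEmbOfFin]
    exact ⟨k, hp, rfl⟩

namespace Cube

/-- The reservoir. -/
lemma exists_R2 (Q : Cube n) {u : ℕ} (hu : 2 ^ 70 ≤ u) (hu2 : u ^ 201 ≤ 2 ^ u)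
    (h1 : u ^ 200 ≤ n) (h2 : n ≤ 2 * u ^ 200) {C : Finset (GV n)}
    (c1 : 3 * Cᶜ.card ≤ 2 * (n * n)) (c0 : 10000 * ee Q.N Cᶜ C ≤ n * Cᶜ.card) :
    ∃ R : Finset (Fin n), u ≤ R.card ∧ R.card ≤ 3 * u ^ 151 ∧
      (∀ g, u ≤ ((Q.N g).filter fun g' => vs g' ⊆ mkU fun _ => R).card) ∧
      ∀ c, ∀ a ∈ R, 11 * R.card ≤ 20 * (R.filter fun b => pairOf c a b ∈ C).card := by
  have u1 : 1 ≤ u := by omega
  have p : ∀ a b, a ≤ b → u ^ a ≤ u ^ b := fun a b h => Nat.pow_le_pow_right u1 h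
  have q : ∀ a b, b = a + 1 → 2 ^ 70 * u ^ a ≤ u ^ b := fun a b h => by
    rw [h, pow_succ' u]; exact Nat.mul_le_mul_right _ hu
  have hn3 : 3 ≤ n := by linarith [p 1 200 (by norm_num)]
  have hn2 : n ≤ 2 ^ u := by linarith [q 200 201 rfl, Nat.zero_le (u ^ 200)]
  obtain ⟨I, i1, i2⟩ := Q.exists_good_set (by omega) C c1 c0
  have K0 : 0 < u ^ 49 := Nat.pow_pos u1
  have e200 : u ^ 200 = u ^ 49 * u ^ 151 := by ring
  obtain ⟨ν, v1, v2⟩ : ∃ ν, u ^ 49 * ν ≤ n ∧ n < u ^ 49 * (ν + 1) :=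
    ⟨_, Nat.mul_div_le _ _, Nat.lt_mul_div_succ _ K0⟩
  obtain ⟨ρ, r1, r2⟩ : ∃ ρ, 5 * u ^ 49 * ρ ≤ 3 * n ∧ 3 * n < 5 * u ^ 49 * (ρ + 1) :=
    ⟨_, Nat.mul_div_le _ _, Nat.lt_mul_div_succ _ (by omega)⟩
  have v3 : u ^ 151 < ν + 1 := lt_of_mul_lt_mul_left (a := u ^ 49) (by omega) (Nat.zero_le _)
  have v4 : ν ≤ 2 * u ^ 151 := Nat.le_of_mul_le_mul_left (by linarith) K0
  have r3 : 3 * ν < 5 * (ρ + 1) :=
    lt_of_mul_lt_mul_left (a := u ^ 49) (by linarith) (Nat.zero_le _)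
  have d1 : 100 * u ^ 101 ≤ u ^ 151 := by
    linarith [q 150 151 rfl, p 101 150 (by norm_num), Nat.zero_le (u ^ 150)]
  have d2 : u ≤ u ^ 101 := by simpa using p 1 101 (by norm_num)
  obtain ⟨R, s1, s2, s3⟩ := resv_gen (K := u ^ 49) (ι := GV n ⊕ (Bool × Bool) × Fin n)
    (by omega) K0
    (Sum.elim (fun g => I.filter fun a => Q.nb g a ∈ I)
      fun c => if c.2 ∈ I then I.filter fun b => pairOf c.1 c.2 b ∈ C else I)
    (Sum.elim (fun g a => {a, Q.nb g a}) fun _ a => {a}) (Sum.elim (fun _ => 2) fun _ => 1)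
    (Sum.elim (fun _ => u) fun _ => ρ - u ^ 101) I (ν + u ^ 101 + 1) (u ^ 101)
    (by
      rintro (g | c) x
      · refine le_trans (card_le_card (t := {x, (Q.nb g).symm x}) fun a ha => ?_) card_le_two
        have := (mem_filter.1 ha).2
        simp only [Sum.elim_inl, mem_insert, mem_singleton] at this ⊢
        rcases this with rfl | rfl <;> simp
      · refine le_trans (card_le_card (t := {x}) fun a ha => ?_) (by simp)
        exact mem_singleton.2 (mem_singleton.1 (mem_filter.1 ha).2).symm)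
    (by
      rintro (g | c) a
      · exact card_le_two
      · simp)
    (by rintro (g | c) <;> simp only [Sum.elim_inl, Sum.elim_inr] <;> omega)
    (by
      rintro (g | c) a ha
      · exact insert_subset (mem_filter.1 ha).1 (singleton_subset_iff.2 (mem_filter.1 ha).2)
      · simp only [Sum.elim_inr] at ha ⊢
        split_ifs at ha
        · exact singleton_subset_iff.2 (mem_filter.1 ha).1
        · exact singleton_subset_iff.2 ha)
    (by
      rintro (g | c) <;> simp only [Sum.elim_inl, Sum.elim_inr]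
      · have a1 := card_filter_add_card_filter_not (s := I) fun a => Q.nb g a ∈ I
        have a2 : (I.filter fun a => ¬ Q.nb g a ∈ I).card ≤ Iᶜ.card :=
          card_le_card_of_injOn (Q.nb g)
            (fun a ha => mem_coe.2 (mem_compl.2 (mem_filter.1 (mem_coe.1 ha)).2))
            (Q.nb g).injective.injOn
        have a3 := card_add_card_compl I
        rw [Fintype.card_fin] at a3
        have a4 := Nat.mul_le_mul_left ((u ^ 49) ^ 2) (Nat.add_le_add_right d2 (u ^ 101))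
        have a5 : (u ^ 49) ^ 2 * (u ^ 101 + u ^ 101) = 2 * u ^ 199 := by ring
        linarith [q 199 200 rfl, Nat.zero_le (u ^ 199)]
      · rw [pow_one, Nat.sub_add_cancel (by omega)]
        split_ifs with c'
        · linarith [i2 c.1 c.2 c']
        · linarith)
    (by linarith)
    (by
      have hnR : (0 : ℝ) < n := by exact_mod_cast (by omega : 0 < n)
      have a1 : 1 + Fintype.card (GV n ⊕ (Bool × Bool) × Fin n) ≤ 2 ^ (3 * u) := by
        have hV : Fintype.card (GV n ⊕ (Bool × Bool) × Fin n) = 2 * (n * n) + 4 * n := by simp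
        have b1 := Nat.mul_le_mul hn2 hn2
        have b2 : 2 ^ (3 * u) = 2 ^ u * (2 ^ u * 2 ^ u) := by ring
        have b3 : 5 ≤ 2 ^ u := le_trans (by linarith [p 1 200 (by norm_num)]) hn2
        have b4 := Nat.mul_le_mul b3 b1
        rw [hV, b2]
        nlinarith
      have a2 := ((Nat.cast_le (α := ℝ)).2 a1).trans (two_pow_le_exp _)
      rw [Nat.cast_add, Nat.cast_one] at a2
      refine lt_of_le_of_lt (mul_le_mul_of_nonneg_right a2 (Real.exp_pos _).le) ?_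
      rw [← Real.exp_add, Real.exp_lt_one_iff, add_neg_lt_iff_lt_add, zero_add,
        lt_div_iff₀ (by positivity)]
      have : 3 * u * (2 * n * 2 ^ 2) < (u ^ 101) ^ 2 := by
        have b1 := Nat.mul_le_mul_left (24 * u) h2
        have b2 : (u ^ 101) ^ 2 = u ^ 202 := by ring
        have b3 : u * u ^ 200 = u ^ 201 := by ring
        have b4 : 0 < u ^ 201 := by positivity
        linarith [q 201 202 rfl]
      exact_mod_cast this)
  have low : ∀ c a, ρ - u ^ 101 ≤ ((if a ∈ I then I.filter fun b => pairOf c a b ∈ C else I).filter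
    fun b => ({b} : Finset (Fin n)) ⊆ R).card := fun c a => s3 (Sum.inr (c, a))
  refine ⟨R, ?_, by omega, fun g => (s3 (Sum.inl g)).trans (card_le_card_of_injOn
    (fun a => (!g.1, a, Q.nb g a)) (fun a ha => ?_) fun a _ b _ e => congrArg (·.2.1) e),
    fun c a ha => ?_⟩
  · have := (low (false, false) ⟨0, by omega⟩).trans (card_le_card (t := R) fun a ha =>
      singleton_subset_iff.1 (mem_filter.1 ha).2)
    omega
  · have k : ({a, Q.nb g a} : Finset (Fin n)) ⊆ R := (mem_filter.1 (mem_coe.1 ha)).2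
    refine mem_coe.2 (mem_filter.2 ⟨mem_N.2 ⟨rfl, rfl⟩, fun x hx => mem_mkU.2 (k ?_)⟩)
    rcases mem_vs.1 hx with rfl | rfl <;> simp
  · have k := low c a
    rw [if_pos (s1 ha)] at k
    have := k.trans (card_le_card (t := R.filter fun b => pairOf c a b ∈ C) fun b hb =>
      mem_filter.2 ⟨singleton_subset_iff.1 (mem_filter.1 hb).2,
        (mem_filter.1 (mem_filter.1 hb).1).2⟩)
    omega

/-- The absorbing structure for all almost complete balanced parts of the reservoir. -/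
lemma exists_abs (Q : Cube n) {u : ℕ} (hu : 2 ^ 70 ≤ u) (hu2 : u ^ 201 ≤ 2 ^ u)
    {C : Finset (GV n)} {R : Finset (Fin n)} (r1 : u ≤ R.card) (r2 : R.card ≤ 3 * u ^ 151)
    (r3 : ∀ c, ∀ a ∈ R, 11 * R.card ≤ 20 * (R.filter fun b => pairOf c a b ∈ C).card)
    (con : ∀ q ∈ C, ∀ q' ∈ C, q.1 ≠ q'.1 → ∀ U : Finset (Vx n), U.card ≤ u ^ 171 →
      ∃ G : Finset (Vx n), G.card ≤ 600 * u ^ 11 ∧ Disjoint G (U ∪ vs q ∪ vs q') ∧
        Q.PM G ∧ Q.PM (G ∪ vs q ∪ vs q')) :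
    ∃ A : Finset (Vx n), A.card ≤ u ^ 169 ∧ Disjoint A (mkU fun _ => R) ∧ Q.PM A ∧
      ∀ W' ⊆ mkU fun _ => R, W'.card ≤ 8 * CC → (∀ i j, (pr i W').card = (pr j W').card) →
        Q.PM (A ∪ (mkU fun _ => R) \ W') := by
  have u1 : 1 ≤ u := by omega
  have p : ∀ a b, a ≤ b → u ^ a ≤ u ^ b := fun a b h => Nat.pow_le_pow_right u1 h
  have q : ∀ a b, b = a + 1 → 2 ^ 70 * u ^ a ≤ u ^ b := fun a b h => by
    rw [h, pow_succ' u]; exact Nat.mul_le_mul_right _ hu
  have cc : 400 * CC + 200 ≤ u := by unfold CC; omega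
  have hΔ : 4 * (4 * R.card : ℝ) ^ (8 * CC + 2) ≤ Real.exp ((u ^ 2 : ℕ) / 40) := by
    have a1 : 4 * R.card ≤ 2 ^ u := by
      linarith [q 200 201 rfl, p 151 200 (by norm_num), Nat.zero_le (u ^ 200)]
    have a2 : 4 * (4 * R.card) ^ (8 * CC + 2) ≤ 2 ^ (u * (8 * CC + 3)) := by
      rw [pow_mul, pow_succ' (2 ^ u)]
      exact Nat.mul_le_mul (by omega) (Nat.pow_le_pow_left a1 _)
    have a3 := ((Nat.cast_le (α := ℝ)).2 a2).trans (two_pow_le_exp _)
    have a4 : u * (8 * CC + 3) * 40 ≤ u ^ 2 := by nlinarith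
    refine le_trans (by exact_mod_cast a3) (Real.exp_le_exp.2 ?_)
    rw [le_div_iff₀ (by norm_num)]
    exact_mod_cast a4
  set e := R.orderEmbOfFin rfl with he
  have me : ∀ k, e k ∈ R := fun k => orderEmbOfFin_mem _ _ _
  have rob := fun s : Bool => exists_robust (Δ := u ^ 2) (k := 8 * CC)
    (fun x y => (s, e x, e y) ∈ C) (by omega) (by positivity)
    (fun x => (r3 (s, false) _ (me x)).trans_eq (congrArg _ (card_emb R _).symm))
    (fun y => (r3 (s, true) _ (me y)).trans_eq (congrArg _ (card_emb R _).symm)) (by omega) hΔ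
  obtain ⟨ω1, o1⟩ := rob false
  obtain ⟨ω2, o2⟩ := rob true
  obtain ⟨ω3, o3⟩ := exists_robust (r := R.card) (Δ := u ^ 2) (k := 8 * CC) (fun _ _ => True)
    (by omega) (by positivity) (fun _ => by simp; omega) (fun _ => by simp; omega) (by omega) hΔ
  have sub : ∀ s a b, vs (s, e a, e b) ⊆ mkU fun _ => R := fun s a b x hx => by
    rcases mem_vs.1 hx with rfl | rfl <;> exact mem_mkU.2 (me _)
  have bud : Fintype.card (Fin R.card × Fin (u ^ 2) × Fin (u ^ 2) × Fin (u ^ 2)) *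
      (600 * u ^ 11) ≤ u ^ 169 := by
    simp only [Fintype.card_prod, Fintype.card_fin]
    have a1 := Nat.mul_le_mul_right (u ^ 2 * (u ^ 2 * u ^ 2) * (600 * u ^ 11)) r2
    have a2 : 3 * u ^ 151 * (u ^ 2 * (u ^ 2 * u ^ 2) * (600 * u ^ 11)) = 1800 * u ^ 168 := by ring
    linarith [q 168 169 rfl, Nat.zero_le (u ^ 168)]
  obtain ⟨A, a1, a2, a3, a4⟩ := templ_gen (Q := Q) (m := u ^ 171) (g := 600 * u ^ 11)
    (fun i : Fin R.card × Fin (u ^ 2) × Fin (u ^ 2) × Fin (u ^ 2) =>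
      vs (false, e i.1, e (ω1 (i.1, i.2.1))) ∪
        vs (true, e (ω3 (i.1, i.2.2.1)), e (ω2 (ω3 (i.1, i.2.2.1), i.2.2.2))))
    (fun i => (false, e i.1, e (ω1 (i.1, i.2.1))) ∈ C ∧
      (true, e (ω3 (i.1, i.2.2.1)), e (ω2 (ω3 (i.1, i.2.2.1), i.2.2.2))) ∈ C)
    (fun i hi U hU => by
      obtain ⟨G, g1, g2, g3, g4⟩ := con _ hi.1 _ hi.2 (by simp) U hU
      exact ⟨G, g1, g2.mono_right (subset_union_left.trans subset_union_left), g3,
        union_assoc G _ _ ▸ g4⟩)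
    (mkU fun _ => R) (fun i => union_subset (sub _ _ _) (sub _ _ _)) (by
      have := card_mkU (f := fun _ => R) fun _ => r2
      linarith [q 170 171 rfl, p 151 170 (by norm_num), p 169 170 (by norm_num),
        Nat.zero_le (u ^ 170)])
  refine ⟨A, a1.trans bud, a2, a3, fun W' w1 w2 w3 => ?_⟩
  set J : Fin 4 → Finset (Fin R.card) := fun j => univ.filter fun k => (j, e k) ∉ W' with hJ
  have jc : ∀ j, (J j).card + (pr j W').card = R.card := fun j => by
    rw [show (J j).card = _ from card_emb R fun a => (j, a) ∉ W', add_comm,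
      ← card_filter_add_card_filter_not (s := R) fun a => (j, a) ∈ W']
    congr 2
    ext a
    exact ⟨fun k => mem_filter.2 ⟨mem_mkU.1 (w1 (mem_pr.1 k)), mem_pr.1 k⟩,
      fun k => mem_pr.2 (mem_filter.1 k).2⟩
  have je : ∀ i j, (J i).card = (J j).card := fun i j => by
    have := jc i
    have := jc j
    have := w3 i j
    omega
  have jl : ∀ j, R.card ≤ (J j).card + 8 * CC := fun j => by
    have := jc j
    have := card_pr_le j W'
    omega
  obtain ⟨g1, x1, y1, z1⟩ := o1 _ _ (je 0 1) (jl 0)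
  obtain ⟨g2, x2, y2, z2⟩ := o2 _ _ (je 2 3) (jl 2)
  obtain ⟨g3, -, y3, z3⟩ := o3 _ _ (je 0 2) (jl 0)
  have m1 : ∀ x ∈ J 0, ω1 (x, g1 x) ∈ J 1 := fun x hx => z1 ▸ mem_image_of_mem _ hx
  have m2 : ∀ x ∈ J 2, ω2 (x, g2 x) ∈ J 3 := fun x hx => z2 ▸ mem_image_of_mem _ hx
  have m3 : ∀ x ∈ J 0, ω3 (x, g3 x) ∈ J 2 := fun x hx => z3 ▸ mem_image_of_mem _ hx
  have fin := a4 ((J 0).image fun x => (x, g1 x, g3 x, g2 (ω3 (x, g3 x))))
    (forall_mem_image.2 fun x hx => ⟨x1 x hx, x2 _ (m3 x hx)⟩)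
    (forall_mem_image.2 fun x hx => forall_mem_image.2 fun y hy k => by
      have k0 : x ≠ y := fun c => k (c ▸ rfl)
      have k3 : ω3 (x, g3 x) ≠ ω3 (y, g3 y) := fun c => k0 (y3 hx hy c)
      exact disjoint_union_left.2 ⟨disjoint_union_right.2 ⟨disj_vs fun _ =>
        ⟨e.injective.ne k0, e.injective.ne fun c => k0 (y1 hx hy c)⟩, disj_vs (by simp)⟩,
        disjoint_union_right.2 ⟨disj_vs (by simp), disj_vs fun _ =>
          ⟨e.injective.ne k3, e.injective.ne fun c => k3 (y2 (m3 x hx) (m3 y hy) c)⟩⟩⟩)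
  rw [image_biUnion] at fin
  refine Eq.mp (congrArg (fun X => Q.PM (A ∪ X)) (Finset.ext fun v => ?_)) fin
  have back : ∀ j, ∀ k ∈ J j, (j, e k) ∈ (mkU fun _ => R) \ W' := fun j k hk =>
    mem_sdiff.2 ⟨mem_mkU.2 (me k), (mem_filter.1 hk).2⟩
  simp only [mem_biUnion, mem_union, mem_vs]
  constructor
  · rintro ⟨x, hx, (rfl | rfl) | rfl | rfl⟩
    · exact back 0 _ hx
    · exact back 1 _ (m1 x hx)
    · exact back 2 _ (m3 x hx)
    · exact back 3 _ (m2 _ (m3 x hx))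
  · intro hv
    obtain ⟨j, a⟩ := v
    obtain ⟨k, rfl⟩ : a ∈ Set.range e := by
      rw [he, range_orderEmbOfFin]
      exact mem_mkU.1 (mem_sdiff.1 hv).1
    have hk : k ∈ J j := mem_filter.2 ⟨mem_univ _, (mem_sdiff.1 hv).2⟩
    fin_cases j
    · exact ⟨k, hk, Or.inl (Or.inl rfl)⟩
    · obtain ⟨x, hx, rfl⟩ := mem_image.1 (z1.symm ▸ hk :)
      exact ⟨x, hx, Or.inl (Or.inr rfl)⟩
    · obtain ⟨x, hx, rfl⟩ := mem_image.1 (z3.symm ▸ hk :)
      exact ⟨x, hx, Or.inr (Or.inl rfl)⟩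
    · obtain ⟨z, hz, rfl⟩ := mem_image.1 (z2.symm ▸ hk :)
      obtain ⟨x, hx, rfl⟩ := mem_image.1 (z3.symm ▸ hz :)
      exact ⟨x, hx, Or.inr (Or.inr rfl)⟩

end Cube

end Pool.Agent.Lib.MP_cdd51b_co
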