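import Pool.Agent.Lib.MP_cdd51b_co.One

set_option autoImplicit false

namespace Pool.Agent.Lib.MP_cdd51b_co

open Finset

variable {n K : ℕ}

/-- A small random set that contains many members of each of several families of small sets. -/
lemma resv_gen (hn : 0 < n) (hK : 0 < K) {ι : Type*} [Fintype ι] (G : ι → Finset (Fin n))
    (S : ι → Fin n → Finset (Fin n)) (s t : ι → ℕ) (I : Finset (Fin n)) (r d : ℕ)
    (hc : ∀ i x, ((G i).filter fun a => x ∈ S i a).card ≤ 2) (hs : ∀ i a, (S i a).card ≤ s i)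
    (hsn : ∀ i, s i ≤ n) (hI : ∀ i, ∀ a ∈ G i, S i a ⊆ I)
    (h1 : ∀ i, K ^ s i * (t i + d) ≤ (G i).card) (h2 : n + d * K ≤ r * K)
    (h3 : (1 + (Fintype.card ι : ℝ)) * Real.exp (-((d : ℝ) ^ 2 / (2 * n * 2 ^ 2))) < 1) :
    ∃ R ⊆ I, R.card ≤ r ∧ ∀ i, t i ≤ ((G i).filter fun a => S i a ⊆ R).card := by
  classical
  set z : Fin K := ⟨0, hK⟩
  set E := Real.exp (-((d : ℝ) ^ 2 / (2 * n * 2 ^ 2)))
  set B1 := univ.filter (fun ω : Fin n → Fin K => r < (I.filter (fun a => ω a = z)).card)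
  set B2 := univ.biUnion (fun i => univ.filter (fun ω => cnt z (G i) (S i) ω < t i))
  have b1 : (B1.card : ℝ) ≤ E * (K : ℝ) ^ n := by
    simpa using size_upper hn z I 2 (by norm_num) r d h2
  have b2 : (B2.card : ℝ) ≤ (Fintype.card ι : ℝ) * (E * (K : ℝ) ^ n) := by
    have c1 := (Nat.cast_le (α := ℝ)).2 (card_biUnion_le (s := (univ : Finset ι))
      (t := fun i => univ.filter (fun ω => cnt z (G i) (S i) ω < t i)))
    push_cast at c1
    refine c1.trans ((sum_le_card_nsmul _ _ (E * (K : ℝ) ^ n) (fun i _ => ?_)).trans (by simp))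
    simpa using cnt_lower hn z (G i) (S i) 2 (s i) (by norm_num) (hc i) (fun a _ => hs i a) (hsn i)
      (t i) d (h1 i)
  have hP : (0 : ℝ) < (K : ℝ) ^ n := by positivity
  have : (B1 ∪ B2).card < (univ : Finset (Fin n → Fin K)).card := by
    have c1 := (Nat.cast_le (α := ℝ)).2 (card_union_le B1 B2)
    push_cast at c1
    have : ((B1 ∪ B2).card : ℝ) < (univ : Finset (Fin n → Fin K)).card := by
      simp only [card_univ, Fintype.card_pi, Fintype.card_fin, prod_const]
      push_cast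
      nlinarith
    exact_mod_cast this
  obtain ⟨ω, _, hω⟩ := exists_mem_notMem_of_card_lt_card this
  rw [mem_union, not_or] at hω
  refine ⟨I.filter (fun a => ω a = z), filter_subset _ _, ?_, fun i => ?_⟩
  · by_contra h
    exact hω.1 (mem_filter.2 ⟨mem_univ _, by omega⟩)
  · by_contra h
    refine hω.2 (mem_biUnion.2 ⟨i, mem_univ _, mem_filter.2 ⟨mem_univ _, ?_⟩⟩)
    refine lt_of_le_of_lt (card_le_card (fun a ha => ?_)) (not_le.1 h)
    obtain ⟨a1, a2⟩ := mem_filter.1 ha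
    exact mem_filter.2 ⟨a1, fun x hx => mem_filter.2 ⟨hI i a a1 hx, a2 x hx⟩⟩

lemma card_pr_vs (g : GV n) (s : Bool) : (pr (p0 s) (vs g)).card = (if g.1 = s then 1 else 0) ∧
    (pr (p1 s) (vs g)).card = (if g.1 = s then 1 else 0) := by
  obtain ⟨t, a, b⟩ := g
  have e : ∀ j : Fin 4, pr j (vs (t, a, b)) =
      if j = p0 t then {a} else if j = p1 t then {b} else ∅ := fun j => by
    ext c
    cases t <;> fin_cases j <;> simp [mem_vs, p0, p1]
  rw [e, e]
  cases s <;> cases t <;> simp [p0, p1]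

namespace Cube

variable {Q : Cube n}

/-- Covering a small balanced set with the help of the reservoir. -/
lemma cover (W : Finset (Vx n)) (t0 : ℕ)
    (hres : ∀ g, t0 ≤ ((Q.N g).filter fun g' => vs g' ⊆ W).card) :
    ∀ (t : ℕ) (D : Finset (Vx n)), D.card ≤ t →
      (∀ s, (pr (p0 s) D).card = (pr (p1 s) D).card) → Disjoint D W → 2 * t ≤ t0 →
      ∃ W' ⊆ W, W'.card ≤ 2 * t ∧ Q.PM (D ∪ W') := by
  intro t
  induction t with
  | zero =>
    intro D h1 _ _ _
    obtain rfl := card_eq_zero.1 (Nat.le_zero.1 h1)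
    exact ⟨∅, empty_subset _, by simp, by simpa using PM.empty⟩
  | succ t ih =>
    intro D h1 h2 h3 h4
    rcases D.eq_empty_or_nonempty with rfl | ⟨u, hu⟩
    · exact ⟨∅, empty_subset _, by simp, by simpa using PM.empty⟩
    obtain ⟨s, hs⟩ : ∃ s, 0 < (pr (p0 s) D).card := by
      obtain ⟨s, e | e⟩ := card_pr_all u.1
      · exact ⟨s, card_pos.2 ⟨u.2, mem_pr.2 (e ▸ hu)⟩⟩
      · exact ⟨s, h2 s ▸ card_pos.2 ⟨u.2, mem_pr.2 (e ▸ hu)⟩⟩
    obtain ⟨z, hz⟩ := card_pos.1 hs
    obtain ⟨w, hw⟩ := card_pos.1 (h2 s ▸ hs)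
    have sub : vs (s, z, w) ⊆ D := fun x hx => by
      rcases mem_vs.1 hx with rfl | rfl
      · exact mem_pr.1 hz
      · exact mem_pr.1 hw
    have c1 := card_sdiff_add_card_eq_card sub
    have c2 : 0 < (vs (s, z, w)).card := card_pos.2 ⟨_, mem_vs.2 (Or.inl rfl)⟩
    obtain ⟨W1, w1, w2, w3⟩ := ih (D \ vs (s, z, w)) (by omega) (fun s' => by
      have a := card_pr_sdiff (p0 s') sub
      have b := card_pr_sdiff (p1 s') sub
      have c := card_pr_vs (s, z, w) s'
      have := h2 s'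
      omega) (h3.mono_left sdiff_subset) (by omega)
    obtain ⟨g, g1, g2⟩ := exists_mem_notMem_of_card_lt_card
      (((card_N_touch (Q := Q) (s, z, w) W1).trans_lt (by omega)).trans_le (hres (s, z, w)))
    obtain ⟨g3, g4⟩ := mem_filter.1 g1
    have g5 : Disjoint (vs g) W1 := by
      by_contra c
      exact g2 (mem_filter.2 ⟨g3, c⟩)
    refine ⟨W1 ∪ vs g, union_subset w1 g4, ?_, ?_⟩
    · have := card_union_le W1 (vs g)
      have := card_vs_le g
      omega
    · have e : D ∪ (W1 ∪ vs g) = (D \ vs (s, z, w) ∪ W1) ∪ (vs (s, z, w) ∪ vs g) := by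
        conv_lhs => rw [← sdiff_union_of_subset sub]
        ac_rfl
      rw [e]
      exact w3.union (mem_N.1 g3).pm (disjoint_union_left.2 ⟨disjoint_union_right.2
        ⟨sdiff_disjoint, (h3.mono_left sdiff_subset).mono_right g4⟩, disjoint_union_right.2
          ⟨(h3.mono sub w1).symm, g5.symm⟩⟩)

/-- An absorber for all disjoint subfamilies of a family of absorbable sets. -/
lemma templ_gen {ι : Type*} [Fintype ι] [DecidableEq ι] {m g : ℕ} (S : ι → Finset (Vx n))
    (ok : ι → Prop) (h : ∀ i, ok i → ∀ U : Finset (Vx n), U.card ≤ m →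
      ∃ G, G.card ≤ g ∧ Disjoint G U ∧ Q.PM G ∧ Q.PM (G ∪ S i))
    (U0 : Finset (Vx n)) (h1 : ∀ i, S i ⊆ U0) (hm : U0.card + Fintype.card ι * g ≤ m) :
    ∃ A : Finset (Vx n), A.card ≤ Fintype.card ι * g ∧ Disjoint A U0 ∧ Q.PM A ∧
      ∀ J : Finset ι, (∀ i ∈ J, ok i) → (∀ i ∈ J, ∀ j ∈ J, i ≠ j → Disjoint (S i) (S j)) →
        Q.PM (A ∪ J.biUnion S) := by
  obtain ⟨G, g1, g2⟩ := greedy_family (fun (i : ι) G => Q.PM G ∧ (ok i → Q.PM (G ∪ S i))) m g U0
    univ (fun i _ U hU => by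
      by_cases hb : ok i
      · obtain ⟨G, a1, a2, a3, a4⟩ := h i hb U hU
        exact ⟨G, a1, a2, a3, fun _ => a4⟩
      · exact ⟨∅, by simp, by simp, PM.empty, fun b => absurd b hb⟩) hm
  simp only [mem_univ, forall_true_left] at g1 g2
  refine ⟨univ.biUnion G, card_biUnion_le_card_mul univ G g (fun i _ => (g1 i).1), ?_,
    PM.biUnion _ _ (fun i _ => (g1 i).2.2.1) (fun i _ k _ => g2 i k), fun J hJ hd => ?_⟩
  · rw [disjoint_biUnion_left]
    exact fun i _ => (g1 i).2.1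
  have c := fun i a => (g1 i).2.1.mono_right (h1 a)
  have p := PM.biUnion (Q := Q) univ (fun i => if i ∈ J then G i ∪ S i else G i)
    (fun i _ => by
      split_ifs with c
      · exact (g1 i).2.2.2 (hJ i c)
      · exact (g1 i).2.2.1)
    (fun i _ j _ hij => by
      split_ifs with a b b
      · exact disjoint_union_left.2 ⟨disjoint_union_right.2 ⟨g2 i j hij, c i j⟩,
          disjoint_union_right.2 ⟨(c j i).symm, hd i a j b hij⟩⟩
      · exact disjoint_union_left.2 ⟨g2 i j hij, (c j i).symm⟩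
      · exact disjoint_union_right.2 ⟨g2 i j hij, c i j⟩
      · exact g2 i j hij)
  refine Eq.mp (congrArg Q.PM (Finset.ext fun u => ?_)) p
  simp only [mem_union, mem_biUnion, mem_univ, true_and]
  constructor
  · rintro ⟨i, hi⟩
    split_ifs at hi with a
    · exact (mem_union.1 hi).imp (fun k => ⟨i, k⟩) fun k => ⟨i, a, k⟩
    · exact Or.inl ⟨i, hi⟩
  · rintro (⟨i, hi⟩ | ⟨i, a, hi⟩)
    · refine ⟨i, ?_⟩
      split_ifs
      · exact mem_union_left _ hi
      · exact hi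
    · exact ⟨i, by rw [if_pos a]; exact mem_union_right _ hi⟩

end Cube

end Pool.Agent.Lib.MP_cdd51b_co
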