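import Pool.Agent.Lib.MP_cdd51b_co.PM
import Pool.Agent.Lib.MP_cdd51b_co.Clus

set_option autoImplicit false

namespace Pool.Agent.Lib.MP_cdd51b_co

open Finset

variable {n : ℕ}

lemma grow_seq (a : ℕ → ℕ) (K l : ℕ) (hK : 0 < K) (hm : ∀ j, a j ≤ a (j + 1))
    (h : ∀ j < l, (K + 1) * a j ≤ K * a (j + 1)) :
    ∀ t, K * t ≤ l → 2 ^ t * a 0 ≤ a (K * t) := by
  have hmono : Monotone a := monotone_nat_of_le_succ hm
  have key : ∀ j i, j + i ≤ l → (K + i) * a j ≤ K * a (j + i) := by
    intro j i
    induction i with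
    | zero => intro _; simp
    | succ i ih =>
      intro hi
      have h1 := ih (by omega)
      have h2 := h (j + i) (by omega)
      have h3 : a j ≤ a (j + i) := hmono (by omega)
      rw [← add_assoc j]
      nlinarith
  intro t
  induction t with
  | zero => intro _; simp
  | succ t ih =>
    intro ht
    rw [mul_add, mul_one] at ht ⊢
    have h1 := ih (by omega)
    have h2 := key (K * t) K ht
    have h3 : K * (2 * a (K * t)) ≤ K * a (K * t + K) := by linarith
    have h4 := Nat.le_of_mul_le_mul_left h3 hK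
    rw [pow_succ]
    linarith

lemma shrink_seq (z : ℕ → ℕ) (K l : ℕ) (hK : 0 < K) (hm : ∀ j, z (j + 1) ≤ z j)
    (h : ∀ j < l, K * z (j + 1) + z j ≤ K * z j) :
    ∀ t, K * t ≤ l → 2 ^ t * z (K * t) ≤ z 0 := by
  have key : ∀ j i, j + i ≤ l → (K + i) * z (j + i) ≤ K * z j := by
    intro j i
    induction i with
    | zero => intro _; simp
    | succ i ih =>
      intro hi
      have h1 := ih (by omega)
      have h2 := h (j + i) (by omega)
      have h3 := hm (j + i)
      have h4 := Nat.mul_le_mul_left i h3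
      rw [← add_assoc j]
      nlinarith
  intro t
  induction t with
  | zero => intro _; simp
  | succ t ih =>
    intro ht
    rw [mul_add, mul_one] at ht ⊢
    have h1 := ih (by omega)
    have h2 := key (K * t) K ht
    have h3 : K * (2 * z (K * t + K)) ≤ K * z (K * t) := by linarith
    have h4 := Nat.le_of_mul_le_mul_left h3 hK
    have h5 := Nat.mul_le_mul_left (2 ^ t) h4
    rw [pow_succ]
    linarith

namespace Cube

variable (Q : Cube n)

/-- `A` is the inner vertex set of a path from `q` to `v` in the pair graph avoiding `U`. -/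
def Lk (q : GV n) (U : Finset (Vx n)) (v : GV n) (A : Finset (Vx n)) : Prop :=
  Disjoint A U ∧ Disjoint (vs v) U ∧ Disjoint A (vs v) ∧
    Q.PM (A ∪ if v.1 = q.1 then vs q else ∅) ∧
    Q.PM (A ∪ (if v.1 = q.1 then ∅ else vs q) ∪ vs v)

variable {Q}

lemma Lk.start {q v : GV n} {U : Finset (Vx n)} (h : Q.Adj q v) (hU : Disjoint (vs v) U) :
    Q.Lk q U v ∅ := by
  have := h.ne.symm
  refine ⟨disjoint_empty_left _, hU, disjoint_empty_left _, ?_, ?_⟩
  · simpa [this] using PM.empty
  · simpa [this] using h.pm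

lemma Lk.step {q v v' : GV n} {U A : Finset (Vx n)} (hq : vs q ⊆ U) (h : Q.Lk q U v A)
    (ha : Q.Adj v v') (hU : Disjoint (vs v') U) (hA : Disjoint (vs v') A) :
    Q.Lk q U v' (A ∪ vs v) := by
  obtain ⟨h1, h2, h3, h4, h5⟩ := h
  refine ⟨disjoint_union_left.2 ⟨h1, h2⟩, hU, disjoint_union_left.2 ⟨hA.symm, ha.disj⟩, ?_, ?_⟩
  · by_cases e : v.1 = q.1
    · have e' : ¬ v'.1 = q.1 := fun e' => ha.ne (e.trans e'.symm)
      simpa [e, e'] using h5
    · have e' : v'.1 = q.1 := by
        have := ha.1
        revert this e; cases v.1 <;> cases v'.1 <;> cases q.1 <;> simp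
      simp only [e, e', if_true, if_false] at h5 ⊢
      rwa [union_right_comm]
  · have d1 : Disjoint (vs q) (vs v ∪ vs v') :=
      disjoint_union_right.2 ⟨(h2.mono_right hq).symm, (hU.mono_right hq).symm⟩
    have d2 : Disjoint A (vs v ∪ vs v') := disjoint_union_right.2 ⟨h3, hA.symm⟩
    by_cases e : v.1 = q.1
    · have e' : ¬ v'.1 = q.1 := fun e' => ha.ne (e.trans e'.symm)
      simp only [e, e', if_true, if_false] at h4 ⊢
      have := h4.union ha.pm (disjoint_union_left.2 ⟨d2, d1⟩)
      convert this using 1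
      ac_rfl
    · have e' : v'.1 = q.1 := by
        have := ha.1
        revert this e; cases v.1 <;> cases v'.1 <;> cases q.1 <;> simp
      simp only [e, e', if_true, if_false, union_empty] at h4 ⊢
      have := h4.union ha.pm d2
      rwa [← union_assoc] at this

lemma N_symm (a b : GV n) (h : b ∈ Q.N a) : a ∈ Q.N b := mem_N.2 (mem_N.1 h).symm

lemma ee_le_n (A B : Finset (GV n)) : ee Q.N A B ≤ A.card * n :=
  ee_le _ _ _ _ (fun a _ => (card_le_card inter_subset_left).trans (card_N a).le)

lemma ee_touch (A C : Finset (GV n)) (U : Finset (Vx n)) :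
    ee Q.N A (C.filter (fun g => ¬ Disjoint (vs g) U)) ≤ A.card * U.card :=
  ee_le _ _ _ _ (fun a _ => le_trans (card_le_card (fun _ h => mem_filter.2
    ⟨(mem_inter.1 h).1, (mem_filter.1 (mem_inter.1 h).2).2⟩)) (card_N_touch a U))

/-- Almost all of an expanding cluster is reached by short paths avoiding `U`. -/
lemma reach (hn : 0 < n) {C : Finset (GV n)} {H t m β : ℕ} (hH : 0 < H)
    (hexp : ∀ A ⊆ C, 2 * A.card ≤ C.card → n * A.card ≤ H * ee Q.N A (C \ A))
    (hC : C.card < 2 ^ t) (h2 : 2 ≤ C.card) (hp : 2 * H * (m + 2 * (8 * H * t)) ≤ n)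
    (hβ : 8 * H * (8 * H * t) * C.card ≤ n * β) {q : GV n} (hq : q ∈ C) {U : Finset (Vx n)}
    (hqU : vs q ⊆ U) (hU : U.card ≤ m) :
    ∃ R ⊆ C, (∀ v ∈ R, ∃ A : Finset (Vx n), A.card ≤ 2 * (8 * H * t) ∧ Q.Lk q U v A) ∧
      ((C.filter (fun g => Disjoint (vs g) U)) \ R).card ≤ β := by
  classical
  set R : ℕ → Finset (GV n) :=
    fun j => C.filter (fun v => ∃ A : Finset (Vx n), A.card ≤ 2 * j ∧ Q.Lk q U v A) with hR
  set F := C.filter (fun g => Disjoint (vs g) U) with hF
  set T := C.filter (fun g => ¬ Disjoint (vs g) U) with hT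
  have hRF : ∀ j, R j ⊆ F := fun j v hv => by
    obtain ⟨h1, A, _, h3⟩ := mem_filter.1 hv
    exact mem_filter.2 ⟨h1, h3.2.1⟩
  have hRR : ∀ j, R j ⊆ R (j + 1) := fun j v hv => by
    obtain ⟨h1, A, h2, h3⟩ := mem_filter.1 hv
    exact mem_filter.2 ⟨h1, A, by omega, h3⟩
  have hRC : ∀ j, R j ⊆ C := fun j => filter_subset _ _
  have hTe : ∀ A : Finset (GV n), ee Q.N A T ≤ A.card * m := fun A =>
    (ee_touch A C U).trans (Nat.mul_le_mul_left _ hU)
  have step : ∀ j, ee Q.N (R j) (F \ R j) ≤ (R j).card * (2 * j) + (R (j + 1) \ R j).card * n := by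
    intro j
    have h1 : ee Q.N (R j) (F \ R j) ≤ (R j).card * (2 * j) + ee Q.N (R j) (R (j + 1) \ R j) := by
      unfold ee
      rw [← smul_eq_mul, ← sum_const, ← sum_add_distrib]
      refine sum_le_sum (fun v hv => ?_)
      obtain ⟨_, A, a1, a2⟩ := mem_filter.1 hv
      have : Q.N v ∩ (F \ R j) ⊆ (Q.N v).filter (fun g => ¬ Disjoint (vs g) A) ∪
          Q.N v ∩ (R (j + 1) \ R j) := by
        intro g hg
        obtain ⟨b1, b2⟩ := mem_inter.1 hg
        obtain ⟨b3, b4⟩ := mem_sdiff.1 b2
        by_cases hd : Disjoint (vs g) A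
        · refine mem_union_right _ (mem_inter.2 ⟨b1, mem_sdiff.2 ⟨mem_filter.2
            ⟨(mem_filter.1 b3).1, A ∪ vs v, ?_, a2.step hqU (mem_N.1 b1) (mem_filter.1 b3).2 hd⟩,
            b4⟩⟩)
          have := card_union_le A (vs v)
          have := card_vs_le v
          omega
        · exact mem_union_left _ (mem_filter.2 ⟨b1, hd⟩)
      exact (card_le_card this).trans ((card_union_le _ _).trans
        (Nat.add_le_add_right ((card_N_touch v A).trans a1) _))
    rw [ee_comm N_symm (R j) (R (j + 1) \ R j)] at h1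
    exact h1.trans (Nat.add_le_add_left (ee_le_n _ _) _)
  have hnew : ∀ j, (R (j + 1) \ R j).card + (R j).card = (R (j + 1)).card := fun j =>
    card_sdiff_add_card_eq_card (hRR j)
  have hZ : ∀ j, (F \ R j).card + (R j).card = F.card := fun j =>
    card_sdiff_add_card_eq_card (hRF j)
  have hFC : F.card ≤ C.card := card_le_card (filter_subset _ _)
  have hR0 : 1 ≤ (R 0).card := by
    by_contra h0
    have e0 : R 0 = ∅ := card_eq_zero.1 (by omega)
    have a1 := hexp {q} (singleton_subset_iff.2 hq) (by simpa using h2)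
    have a2 : ee Q.N {q} (C \ {q}) ≤ ee Q.N {q} T := by
      simp only [ee, sum_singleton]
      refine card_le_card (fun g hg => ?_)
      obtain ⟨b1, b2⟩ := mem_inter.1 hg
      refine mem_inter.2 ⟨b1, mem_filter.2 ⟨(mem_sdiff.1 b2).1, fun hd => ?_⟩⟩
      have : g ∈ R 0 := mem_filter.2 ⟨(mem_sdiff.1 b2).1, ∅, by simp, Lk.start (mem_N.1 b1) hd⟩
      rw [e0] at this
      exact notMem_empty _ this
    have a3 := a2.trans (hTe {q})
    rw [card_singleton] at a1 a3
    have a4 := Nat.mul_le_mul_left H a3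
    have a5 : 2 * H * m ≤ n := le_trans (Nat.mul_le_mul_left _ (by omega)) hp
    nlinarith
  set l := 4 * H * t with hl
  have ph1 : ∃ j < l, C.card < 2 * (R j).card := by
    by_contra hcon
    push Not at hcon
    have := grow_seq (fun j => (R j).card) (4 * H) l (by omega) (fun j => card_le_card (hRR j))
      (fun j hj => by
        have a1 := hexp (R j) (hRC j) (hcon j hj)
        have a2 : ee Q.N (R j) (C \ R j) ≤ ee Q.N (R j) (F \ R j) + ee Q.N (R j) T := by
          refine le_trans (ee_mono_right _ _ (fun g hg => ?_)) (ee_union_right_le _ _ _ _)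
          simp only [hF, hT, mem_union, mem_sdiff, mem_filter] at hg ⊢
          tauto
        have a3 := step j
        have a4 := hTe (R j)
        have a5 := hnew j
        have a6 : 2 * H * (m + 2 * j) ≤ n :=
          le_trans (Nat.mul_le_mul_left _ (by nlinarith)) hp
        have a7 := Nat.mul_le_mul_left (R j).card a6
        have a8 := Nat.mul_le_mul_left H (a2.trans (Nat.add_le_add a3 a4))
        have a9 : n * (R j).card ≤ n * (2 * H * (R (j + 1) \ R j).card) := by nlinarith
        have b1 := Nat.le_of_mul_le_mul_left a9 hn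
        nlinarith) t le_rfl
    have a1 := card_le_card (hRC (4 * H * t))
    nlinarith
  obtain ⟨j1, hj1, hj2⟩ := ph1
  have hmono : Monotone (fun j => (R j).card) :=
    monotone_nat_of_le_succ (fun j => card_le_card (hRR j))
  refine ⟨R (l + l), hRC _, fun v hv => ?_, ?_⟩
  · obtain ⟨_, A, a1, a2⟩ := mem_filter.1 hv
    exact ⟨A, by rw [hl] at a1; linarith, a2⟩
  · by_contra hcon
    push Not at hcon
    have := shrink_seq (fun i => (F \ R (l + i)).card) (4 * H) l (by omega)
      (fun j => card_le_card (sdiff_subset_sdiff subset_rfl (hRR _)))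
      (fun j hj => by
        have a0 : (R j1).card ≤ (R (l + j)).card := hmono (by omega)
        have a00 : (R (l + j)).card ≤ (R (l + l)).card := hmono (by omega)
        have z1 := hZ (l + j)
        have z2 := hZ (l + l)
        have z3 := hZ (l + j + 1)
        have a1 := hexp (F \ R (l + j)) (sdiff_subset.trans (filter_subset _ _)) (by omega)
        have a2 : ee Q.N (F \ R (l + j)) (C \ (F \ R (l + j)))
            ≤ ee Q.N (F \ R (l + j)) (R (l + j)) + ee Q.N (F \ R (l + j)) T := by
          refine le_trans (ee_mono_right _ _ (fun g hg => ?_)) (ee_union_right_le _ _ _ _)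
          rw [mem_sdiff, mem_sdiff] at hg
          simp only [hF, hT, mem_union, mem_filter] at hg ⊢
          tauto
        rw [ee_comm N_symm (F \ R (l + j)) (R (l + j))] at a2
        have a3 := step (l + j)
        have a4 := hTe (F \ R (l + j))
        have a5 := hnew (l + j)
        have a6 : 2 * H * m ≤ n := le_trans (Nat.mul_le_mul_left _ (by omega)) hp
        have a7 := Nat.mul_le_mul_left (F \ R (l + j)).card a6
        have a8 := Nat.mul_le_mul_left H (a2.trans (Nat.add_le_add a3 a4))
        have b1 : (R (l + j)).card * (l + j) ≤ C.card * (8 * H * t) :=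
          Nat.mul_le_mul (card_le_card (hRC _)) (by rw [hl] at hj ⊢; linarith)
        have b2 := Nat.mul_le_mul_left (8 * H) b1
        have b3 : n * β ≤ n * (F \ R (l + j)).card := Nat.mul_le_mul_left _ (by omega)
        have a9 : n * (F \ R (l + j)).card ≤ n * (4 * H * (R (l + j + 1) \ R (l + j)).card) := by
          nlinarith
        have b4 := Nat.le_of_mul_le_mul_left a9 hn
        rw [← add_assoc]
        have e1 : (F \ R (l + j)).card
            = (F \ R (l + j + 1)).card + (R (l + j + 1) \ R (l + j)).card := by omega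
        nlinarith) t le_rfl
    have a1 : (F \ R (l + 0)).card ≤ C.card := (card_le_card sdiff_subset).trans hFC
    rw [← hl] at this
    nlinarith

/-- Two pairs on opposite sides of an expanding cluster have an absorber avoiding `U`. -/
lemma connect (hn : 0 < n) {C : Finset (GV n)} {H t m m0 β a : ℕ} (hH : 0 < H)
    (hexp : ∀ A ⊆ C, 2 * A.card ≤ C.card → n * A.card ≤ H * ee Q.N A (C \ A))
    (hden : 100 * n * C.card ≤ 100 * ee Q.N C C + n * C.card)
    (hC : C.card < 2 ^ t) (hp : 2 * H * (m + 2 * (8 * H * t)) ≤ n)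
    (hβ : 8 * H * (8 * H * t) * C.card ≤ n * β) (hm : m0 + 4 + a * (2 * (8 * H * t) + 2) ≤ m)
    (hm2 : 10 * m ≤ n) (h1 : 2 * (a * m + β) < a * n) (h2 : 10 * (a * m + β) < C.card)
    {q q' : GV n} (hq : q ∈ C) (hq' : q' ∈ C) (hne : q.1 ≠ q'.1) {U : Finset (Vx n)}
    (hU : U.card ≤ m0) :
    ∃ G : Finset (Vx n), G.card ≤ 4 * (8 * H * t) + 4 ∧ Disjoint G (U ∪ vs q ∪ vs q') ∧
      Q.PM G ∧ Q.PM (G ∪ vs q ∪ vs q') := by
  classical
  set l := 8 * H * t with hl
  set U1 := U ∪ vs q ∪ vs q' with hU1
  have hU1c : U1.card ≤ m0 + 4 := by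
    have := card_union_le (U ∪ vs q) (vs q')
    have := card_union_le U (vs q)
    have := card_vs_le q
    have := card_vs_le q'
    rw [hU1]
    omega
  have ha : 0 < a := by
    rcases Nat.eq_zero_or_pos a with rfl | h
    · simp at h1
    · exact h
  have hC2 : 2 ≤ C.card := by
    have : 1 ≤ a * m := Nat.mul_pos ha (by omega)
    omega
  obtain ⟨R', r1, r2, r3⟩ := reach hn hH hexp hC hC2 hp hβ hq' (U := U1) subset_union_right
    (by omega)
  choose! A' hA' using r2
  have fan : ∀ i, ∃ D ⊆ R', D.card ≤ i ∧ (i * n ≤ 2 * (D.biUnion (fun v => Q.N v ∩ C)).card ∨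
      C.card ≤ 10 * (D.biUnion (fun v => Q.N v ∩ C)).card) := by
    intro i
    induction i with
    | zero => exact ⟨∅, empty_subset _, le_rfl, Or.inl (by simp)⟩
    | succ i ih =>
      obtain ⟨D, d1, d2, d3⟩ := ih
      set Cv := D.biUnion (fun v => Q.N v ∩ C) with hCv
      by_cases hc : C.card ≤ 10 * Cv.card
      · exact ⟨D, d1, by omega, Or.inr hc⟩
      have d4 := d3.resolve_right hc
      have : ∃ v ∈ R', n ≤ 2 * (Q.N v ∩ (C \ Cv)).card := by
        by_contra hcon
        push Not at hcon
        have b1 : 2 * ee Q.N R' (C \ Cv) ≤ R'.card * n := by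
          unfold ee
          rw [mul_sum]
          exact sum_le_card_nsmul _ _ _ (fun v hv => (hcon v hv).le)
        have b2 : ee Q.N C C ≤ ee Q.N C (C \ Cv) + ee Q.N C Cv := by
          refine le_trans (ee_mono_right _ _ (fun g hg => ?_)) (ee_union_right_le _ _ _ _)
          simp only [mem_union, mem_sdiff]; tauto
        have b3 : ee Q.N C Cv ≤ Cv.card * n := by rw [ee_comm N_symm]; exact ee_le_n _ _
        have b4 : ee Q.N (C \ Cv) C ≤ ee Q.N (C \ Cv) R' +
            (ee Q.N (C \ Cv) (C.filter (fun g => Disjoint (vs g) U1) \ R') +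
              ee Q.N (C \ Cv) (C.filter (fun g => ¬ Disjoint (vs g) U1))) := by
          refine le_trans (ee_mono_right _ _ (fun g hg => ?_)) ((ee_union_right_le _ _ _ _).trans
            (Nat.add_le_add_left (ee_union_right_le _ _ _ _) _))
          simp only [mem_union, mem_sdiff, mem_filter]; tauto
        have b5 := ee_touch (Q := Q) (C \ Cv) C U1
        have b6 : ee Q.N (C \ Cv) (C.filter (fun g => Disjoint (vs g) U1) \ R') ≤ β * n := by
          rw [ee_comm N_symm]; exact (ee_le_n _ _).trans (Nat.mul_le_mul_right _ r3)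
        rw [ee_comm N_symm (C \ Cv) C, ee_comm N_symm (C \ Cv) R'] at b4
        have b7 : (C \ Cv).card * U1.card ≤ C.card * m :=
          Nat.mul_le_mul (card_le_card sdiff_subset) (by omega)
        have b8 : R'.card * n ≤ C.card * n := Nat.mul_le_mul_right _ (card_le_card r1)
        have b9 := Nat.mul_le_mul_left C.card hm2
        have c1 : 10 * Cv.card * n ≤ C.card * n := Nat.mul_le_mul_right _ (by omega)
        have c2 : 10 * β * n ≤ C.card * n := Nat.mul_le_mul_right _ (by omega)
        have c3 : 0 < C.card * n := Nat.mul_pos (by omega) hn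
        nlinarith
      obtain ⟨v, v1, v2⟩ := this
      refine ⟨insert v D, insert_subset v1 d1, (card_insert_le _ _).trans (by omega), Or.inl ?_⟩
      have : (Q.N v ∩ (C \ Cv)).card + Cv.card
          ≤ ((insert v D).biUnion (fun v => Q.N v ∩ C)).card := by
        rw [← card_union_of_disjoint]
        · refine card_le_card (fun g hg => ?_)
          rw [biUnion_insert, ← hCv]
          simp only [mem_union, mem_inter, mem_sdiff] at hg ⊢
          tauto
        · exact disjoint_left.2 (fun g h1 h2 => (mem_sdiff.1 (mem_inter.1 h1).2).2 h2)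
      rw [add_mul]
      omega
  obtain ⟨D, d1, d2, d3⟩ := fan a
  set Cv := D.biUnion (fun v => Q.N v ∩ C) with hCv
  set U2 := U1 ∪ D.biUnion (fun v => A' v ∪ vs v) with hU2
  have hU2c : U2.card ≤ m := by
    have b1 : (D.biUnion (fun v => A' v ∪ vs v)).card ≤ D.card * (2 * l + 2) :=
      card_biUnion_le_card_mul _ _ _ (fun v hv => (card_union_le _ _).trans
        (Nat.add_le_add (hA' v (d1 hv)).1 (card_vs_le v)))
    have b2 := Nat.mul_le_mul_right (2 * l + 2) d2
    have b3 := card_union_le U1 (D.biUnion (fun v => A' v ∪ vs v))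
    rw [hU2]
    omega
  obtain ⟨R, s1, s2, s3⟩ := reach hn hH hexp hC hC2 hp hβ hq (U := U2)
    ((subset_union_right.trans subset_union_left).trans subset_union_left) hU2c
  have : ∃ w ∈ Cv, w ∈ R := by
    by_contra hcon
    push Not at hcon
    have b1 : Cv ⊆ D.biUnion (fun v => (Q.N v).filter (fun g => ¬ Disjoint (vs g) U2)) ∪
        (C.filter (fun g => Disjoint (vs g) U2) \ R) := by
      intro w hw
      obtain ⟨v, v1, v2⟩ := mem_biUnion.1 hw
      by_cases hd : Disjoint (vs w) U2
      · exact mem_union_right _ (mem_sdiff.2 ⟨mem_filter.2 ⟨(mem_inter.1 v2).2, hd⟩, hcon w hw⟩)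
      · exact mem_union_left _ (mem_biUnion.2 ⟨v, v1, mem_filter.2 ⟨(mem_inter.1 v2).1, hd⟩⟩)
    have b2 := (card_le_card b1).trans (card_union_le _ _)
    have b3 := card_biUnion_le_card_mul D (fun v => (Q.N v).filter
      (fun g => ¬ Disjoint (vs g) U2)) m (fun v _ => (card_N_touch v U2).trans hU2c)
    have b4 := Nat.mul_le_mul_right m d2
    omega
  obtain ⟨w, w1, w2⟩ := this
  obtain ⟨v, v1, v2⟩ := mem_biUnion.1 w1
  have hadj : Q.Adj v w := mem_N.1 (mem_inter.1 v2).1
  obtain ⟨A, a0, a1, a2, a3, a4, a5⟩ := s2 w w2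
  obtain ⟨b0, b1, b2, b3, b4, b5⟩ := hA' v (d1 v1)
  have hs : A' v ∪ vs v ⊆ U2 :=
    (subset_biUnion_of_mem (fun v => A' v ∪ vs v) v1).trans subset_union_right
  have hs1 : U1 ⊆ U2 := subset_union_left
  have hsq : vs q ⊆ U1 := subset_union_right.trans subset_union_left
  have hsq' : vs q' ⊆ U1 := subset_union_right
  have hqq : Disjoint (vs q) (vs q') := disj_vs (fun e => absurd e hne)
  have hsA : A' v ⊆ U2 := subset_union_left.trans hs
  have hsv : vs v ⊆ U2 := subset_union_right.trans hs
  refine ⟨A ∪ vs w ∪ (A' v ∪ vs v), ?_, ?_, ?_⟩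
  · have := card_union_le (A ∪ vs w) (A' v ∪ vs v)
    have := card_union_le A (vs w)
    have := card_union_le (A' v) (vs v)
    have := card_vs_le w
    have := card_vs_le v
    omega
  · exact disjoint_union_left.2 ⟨disjoint_union_left.2 ⟨a1.mono_right hs1, a2.mono_right hs1⟩,
      disjoint_union_left.2 ⟨b1, b2⟩⟩
  by_cases e : w.1 = q.1
  · have e' : v.1 = q'.1 := by
      have := hadj.1
      revert this e hne; cases v.1 <;> cases w.1 <;> cases q.1 <;> cases q'.1 <;> simp
    simp only [e, e', if_true, union_empty] at a4 a5 b4 b5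
    refine ⟨a5.union b5 (disjoint_union_left.2 ⟨a1.mono_right hs, a2.mono_right hs⟩), ?_⟩
    have := (a4.union b4 (disjoint_union_left.2 ⟨a1.mono_right (union_subset hsA (hsq'.trans hs1)),
      disjoint_union_right.2 ⟨(b1.mono_right hsq).symm, hqq⟩⟩)).union hadj.pm
      (disjoint_union_left.2 ⟨disjoint_union_left.2 ⟨disjoint_union_right.2
        ⟨a1.mono_right hsv, a3⟩, disjoint_union_right.2 ⟨(b2.mono_right hsq).symm,
          (a2.mono_right (hsq.trans hs1)).symm⟩⟩, disjoint_union_left.2 ⟨disjoint_union_right.2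
            ⟨b3, (a2.mono_right hsA).symm⟩, disjoint_union_right.2 ⟨(b2.mono_right hsq').symm,
              (a2.mono_right (hsq'.trans hs1)).symm⟩⟩⟩)
    convert this using 1
    ac_rfl
  · have e' : ¬ v.1 = q'.1 := by
      have := hadj.1
      revert this e hne; cases v.1 <;> cases w.1 <;> cases q.1 <;> cases q'.1 <;> simp
    simp only [e, e', if_false, union_empty] at a4 a5 b4 b5
    constructor
    · have := (a4.union b4 (a1.mono_right hsA)).union hadj.pm
        (disjoint_union_left.2 ⟨disjoint_union_right.2 ⟨a1.mono_right hsv, a3⟩,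
          disjoint_union_right.2 ⟨b3, (a2.mono_right hsA).symm⟩⟩)
      convert this using 1
      ac_rfl
    · have hs2 : A' v ∪ vs q' ∪ vs v ⊆ U2 := union_subset (union_subset hsA (hsq'.trans hs1)) hsv
      have := a5.union b5 (disjoint_union_left.2 ⟨disjoint_union_left.2 ⟨a1.mono_right hs2,
        disjoint_union_right.2 ⟨disjoint_union_right.2 ⟨(b1.mono_right hsq).symm, hqq⟩,
          (b2.mono_right hsq).symm⟩⟩, a2.mono_right hs2⟩)
      convert this using 1
      ac_rfl

end Cube

end Pool.Agent.Lib.MP_cdd51b_co
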