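import Pool.Agent.Lib.MP_cdd51b_co.McD

set_option autoImplicit false

namespace Pool.Agent.Lib.MP_cdd51b_co

open Finset

variable {n K : ℕ}

lemma card_fix (z : Fin K) (S : Finset (Fin n)) :
    (univ.filter (fun ω : Fin n → Fin K => ∀ x ∈ S, ω x = z)).card = K ^ (n - S.card) := by
  have : univ.filter (fun ω : Fin n → Fin K => ∀ x ∈ S, ω x = z)
      = Fintype.piFinset (fun x => if x ∈ S then {z} else univ) := by
    ext ω
    simp only [mem_filter, mem_univ, true_and, Fintype.mem_piFinset]
    refine forall_congr' (fun x => ?_)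
    by_cases h : x ∈ S <;> simp [h]
  rw [this, Fintype.card_piFinset]
  simp only [apply_ite card, card_singleton, card_univ, Fintype.card_fin]
  rw [prod_ite, prod_const_one, one_mul, prod_const]
  congr 1
  rw [filter_not, filter_mem_eq_inter, univ_inter, card_univ_diff, Fintype.card_fin]

/-- The number of members of a family of small sets on which `ω` is constantly `z`. -/
def cnt {α : Type*} (z : Fin K) (G : Finset α) (S : α → Finset (Fin n)) (ω : Fin n → Fin K) : ℕ :=
  (G.filter (fun a => ∀ x ∈ S a, ω x = z)).card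

lemma sum_cnt {α : Type*} (z : Fin K) (G : Finset α) (S : α → Finset (Fin n)) :
    ∑ ω, cnt z G S ω = ∑ a ∈ G, K ^ (n - (S a).card) := by
  simp only [cnt, card_filter]
  rw [sum_comm]
  refine sum_congr rfl (fun a _ => ?_)
  rw [← card_filter, card_fix]

lemma cnt_le {α : Type*} [DecidableEq α] (z : Fin K) (G : Finset α) (S : α → Finset (Fin n))
    (x : Fin n) (ω ω' : Fin n → Fin K) (h : ∀ y, y ≠ x → ω y = ω' y) :
    cnt z G S ω ≤ cnt z G S ω' + (G.filter (fun a => x ∈ S a)).card := by
  refine le_trans (card_le_card (fun a ha => ?_)) (card_union_le _ _)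
  obtain ⟨h1, h2⟩ := mem_filter.1 ha
  by_cases hx : x ∈ S a
  · exact mem_union_right _ (mem_filter.2 ⟨h1, hx⟩)
  · exact mem_union_left _ (mem_filter.2 ⟨h1, fun y hy => by
      rw [← h y (fun e => hx (e ▸ hy))]; exact h2 y hy⟩)

lemma cnt_lip {α : Type*} [DecidableEq α] (z : Fin K) (G : Finset α) (S : α → Finset (Fin n))
    (c : ℕ) (hc : ∀ x, (G.filter (fun a => x ∈ S a)).card ≤ c) (ω : Fin n → Fin K) (x : Fin n)
    (v : Fin K) : |(cnt z G S ω : ℝ) - cnt z G S (Function.update ω x v)| ≤ c := by
  have h1 := cnt_le z G S x ω (Function.update ω x v) (fun y hy => by simp [hy])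
  have h2 := cnt_le z G S x (Function.update ω x v) ω (fun y hy => by simp [hy])
  have h3 := hc x
  have h4 : (cnt z G S ω : ℝ) ≤ cnt z G S (Function.update ω x v) + c := by
    exact_mod_cast h1.trans (Nat.add_le_add_left h3 _)
  have h5 : (cnt z G S (Function.update ω x v) : ℝ) ≤ cnt z G S ω + c := by
    exact_mod_cast h2.trans (Nat.add_le_add_left h3 _)
  rw [abs_le]; constructor <;> linarith

/-- Lower tail for `cnt`. -/
lemma cnt_lower {α : Type*} [DecidableEq α] (hn : 0 < n) (z : Fin K) (G : Finset α)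
    (S : α → Finset (Fin n)) (c s : ℕ) (hc0 : 0 < c)
    (hc : ∀ x, (G.filter (fun a => x ∈ S a)).card ≤ c) (hs : ∀ a ∈ G, (S a).card ≤ s)
    (hsn : s ≤ n) (t d : ℕ) (h : K ^ s * (t + d) ≤ G.card) :
    ((univ.filter (fun ω => cnt z G S ω < t)).card : ℝ)
      ≤ Real.exp (-((d : ℝ) ^ 2 / (2 * n * (c : ℝ) ^ 2))) * (K : ℝ) ^ n := by
  haveI : Nonempty (Fin K) := ⟨z⟩
  have hK : 0 < K := z.pos
  have := mcd (V := Fin K) (c := c) (by exact_mod_cast hc0) hn (fun ω => -(cnt z G S ω : ℝ))
    (fun ω x v => by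
      rw [neg_sub_neg, abs_sub_comm]; exact cnt_lip z G S c hc ω x v)
    (-((t : ℝ) + d)) d (Nat.cast_nonneg _) (by
      rw [sum_neg_distrib, neg_mul, neg_le_neg_iff, Fintype.card_fin]
      have a1 : G.card * K ^ (n - s) ≤ ∑ ω, cnt z G S ω := by
        rw [sum_cnt]
        exact card_nsmul_le_sum _ _ _ (fun a ha => Nat.pow_le_pow_right hK
          (by have := hs a ha; omega))
      have a2 : (t + d) * K ^ n ≤ G.card * K ^ (n - s) := by
        have : K ^ n = K ^ s * K ^ (n - s) := by rw [← pow_add]; congr 1; omega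
        rw [this, ← mul_assoc, mul_comm (t + d)]
        exact Nat.mul_le_mul_right _ h
      exact_mod_cast a2.trans a1)
    (univ.filter (fun ω => cnt z G S ω < t)) (fun ω hω => by
      have : (cnt z G S ω : ℝ) ≤ t := by exact_mod_cast (mem_filter.1 hω).2.le
      linarith)
  simpa using this

/-- Upper tail for the size of a random subset. -/
lemma size_upper (hn : 0 < n) (z : Fin K) (I : Finset (Fin n)) (c : ℕ) (hc0 : 0 < c) (r d : ℕ)
    (h : n + d * K ≤ r * K) :
    ((univ.filter (fun ω : Fin n → Fin K => r < (I.filter (fun a => ω a = z)).card)).card : ℝ)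
      ≤ Real.exp (-((d : ℝ) ^ 2 / (2 * n * (c : ℝ) ^ 2))) * (K : ℝ) ^ n := by
  haveI : Nonempty (Fin K) := ⟨z⟩
  have hK : 0 < K := z.pos
  have := mcd (V := Fin K) (c := c) (by exact_mod_cast hc0) hn
    (fun ω => (cnt z I (fun a => {a}) ω : ℝ))
    (fun ω x v => cnt_lip z I _ c (fun x => le_trans (card_le_one.2 (fun a ha b hb => by
      have a1 := (mem_filter.1 ha).2
      have a2 := (mem_filter.1 hb).2
      rw [mem_singleton] at a1 a2
      rw [← a1, a2])) hc0) ω x v)
    ((r : ℝ) - d) d (Nat.cast_nonneg _) (by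
      rw [Fintype.card_fin]
      have a1 : ∑ ω, cnt z I (fun a => ({a} : Finset (Fin n))) ω ≤ n * K ^ (n - 1) := by
        rw [sum_cnt]
        simp only [card_singleton, sum_const, smul_eq_mul]
        exact Nat.mul_le_mul_right _ ((card_le_univ _).trans (by simp))
      have a2 : n * K ^ (n - 1) + d * K ^ n ≤ r * K ^ n := by
        have : K ^ n = K * K ^ (n - 1) := by rw [← pow_succ']; congr 1; omega
        rw [this, ← mul_assoc, ← mul_assoc, ← add_mul]
        exact Nat.mul_le_mul_right _ h
      have a3 : ((∑ ω, cnt z I (fun a => ({a} : Finset (Fin n))) ω : ℕ) : ℝ) + d * K ^ n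
          ≤ r * K ^ n := by exact_mod_cast (Nat.add_le_add_right a1 _).trans a2
      push_cast at a3
      linarith)
    (univ.filter (fun ω : Fin n → Fin K => r < (I.filter (fun a => ω a = z)).card))
    (fun ω hω => by
      have a1 := (mem_filter.1 hω).2.le
      have : (r : ℝ) ≤ cnt z I (fun a => ({a} : Finset (Fin n))) ω := by
        simp only [cnt, mem_singleton, forall_eq]
        exact_mod_cast a1
      linarith)
  simpa using this

/-- A small reservoir containing many two-step chains of any two permutations of a family. -/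
lemma exists_resv (hn : 3 ≤ n) (hK : 0 < K) {ι : Type*} [Fintype ι] (f : ι → Equiv.Perm (Fin n))
    (I : Finset (Fin n)) (hI : 49 * n ≤ 50 * I.card) (r t d : ℕ)
    (h1 : 10 * (K ^ 3 * (t + d)) ≤ 9 * n) (h2 : n + d * K ≤ r * K)
    (h3 : (1 + (Fintype.card ι : ℝ) ^ 2) * Real.exp (-((d : ℝ) ^ 2 / (2 * n * 3 ^ 2))) < 1) :
    ∃ R ⊆ I, R.card ≤ r ∧ ∀ i j,
      t ≤ (univ.filter (fun a => a ∈ R ∧ f i a ∈ R ∧ f j (f i a) ∈ R)).card := by
  classical
  set z : Fin K := ⟨0, hK⟩
  set E := Real.exp (-((d : ℝ) ^ 2 / (2 * n * 3 ^ 2)))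
  set G : ι × ι → Finset (Fin n) :=
    fun p => univ.filter (fun a => a ∈ I ∧ f p.1 a ∈ I ∧ f p.2 (f p.1 a) ∈ I) with hG
  set S : ι × ι → Fin n → Finset (Fin n) := fun p a => {a, f p.1 a, f p.2 (f p.1 a)} with hS
  have hGc : ∀ p, 9 * n ≤ 10 * (G p).card := by
    intro p
    have a1 : univ ⊆ G p ∪ (Iᶜ ∪ (Iᶜ.image (f p.1).symm ∪
        Iᶜ.image (fun a => (f p.1).symm ((f p.2).symm a)))) := by
      intro a _
      by_contra hcon
      simp only [hG, mem_union, mem_filter, mem_univ, true_and, mem_compl, mem_image, not_or,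
        not_exists, not_and, not_not] at hcon
      obtain ⟨b1, b2, b3, b4⟩ := hcon
      refine b1 b2 ?_ ?_
      · by_contra h; exact b3 _ h (by simp)
      · by_contra h; exact b4 _ h (by simp)
    have a2 := (card_le_card a1).trans ((card_union_le _ _).trans (Nat.add_le_add_left
      ((card_union_le _ _).trans (Nat.add_le_add_left ((card_union_le _ _).trans
        (Nat.add_le_add card_image_le card_image_le)) _)) _))
    have a3 := card_compl I
    have a4 := card_le_univ I
    simp only [card_univ, Fintype.card_fin] at a2 a3 a4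
    omega
  set B1 := univ.filter (fun ω : Fin n → Fin K => r < (I.filter (fun a => ω a = z)).card)
  set B2 := univ.biUnion (fun p => univ.filter (fun ω => cnt z (G p) (S p) ω < t))
  have b1 : (B1.card : ℝ) ≤ E * (K : ℝ) ^ n := by
    simpa using size_upper (by omega) z I 3 (by norm_num) r d h2
  have b2 : (B2.card : ℝ) ≤ (Fintype.card ι : ℝ) ^ 2 * (E * (K : ℝ) ^ n) := by
    have c1 := (Nat.cast_le (α := ℝ)).2 (card_biUnion_le (s := (univ : Finset (ι × ι)))
      (t := fun p => univ.filter (fun ω => cnt z (G p) (S p) ω < t)))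
    push_cast at c1
    refine c1.trans ((sum_le_card_nsmul _ _ (E * (K : ℝ) ^ n) (fun p _ => ?_)).trans ?_)
    · have := cnt_lower (by omega) z (G p) (S p) 3 3 (by norm_num) (fun x => ?_)
        (fun a _ => card_le_three) hn t d (by have := hGc p; omega)
      · simpa using this
      · refine le_trans (card_le_card (t := {x, (f p.1).symm x, (f p.1).symm ((f p.2).symm x)})
          (fun a ha => ?_)) card_le_three
        have := (mem_filter.1 ha).2
        simp only [hS, mem_insert, mem_singleton] at this ⊢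
        rcases this with rfl | rfl | rfl <;> simp
    · simp [sq]
  have hP : (0 : ℝ) < (K : ℝ) ^ n := by positivity
  have : (B1 ∪ B2).card < (univ : Finset (Fin n → Fin K)).card := by
    have c1 := (Nat.cast_le (α := ℝ)).2 (card_union_le B1 B2)
    push_cast at c1
    have : ((B1 ∪ B2).card : ℝ) < (univ : Finset (Fin n → Fin K)).card := by
      simp only [card_univ, Fintype.card_pi, Fintype.card_fin, prod_const]
      push_cast
      nlinarith
    exact_mod_cast this
  obtain ⟨ω, _, hω⟩ := exists_mem_notMem_of_card_lt_card this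
  rw [mem_union, not_or] at hω
  refine ⟨I.filter (fun a => ω a = z), filter_subset _ _, ?_, fun i j => ?_⟩
  · by_contra h
    exact hω.1 (mem_filter.2 ⟨mem_univ _, by omega⟩)
  · by_contra h
    refine hω.2 (mem_biUnion.2 ⟨(i, j), mem_univ _, mem_filter.2 ⟨mem_univ _, ?_⟩⟩)
    refine lt_of_le_of_lt (card_le_card (fun a ha => ?_)) (not_le.1 h)
    simp only [hG, hS, mem_filter, mem_univ, true_and, mem_insert, mem_singleton,
      forall_eq_or_imp, forall_eq] at ha ⊢
    tauto

end Pool.Agent.Lib.MP_cdd51b_co
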