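import Pool.Agent.Lib.MP_cdd51b_co.PM

set_option autoImplicit false

namespace Pool.Agent.Lib.MP_cdd51b_co

open Finset

variable {n : ℕ}

/-- Greedy choice of pairwise disjoint small sets. -/
lemma greedy_family {ι α : Type*} [DecidableEq ι] [DecidableEq α] (P : ι → Finset α → Prop)
    (m g : ℕ) (U0 : Finset α) (I : Finset ι)
    (h : ∀ i ∈ I, ∀ U : Finset α, U.card ≤ m → ∃ G, G.card ≤ g ∧ Disjoint G U ∧ P i G)
    (hm : U0.card + I.card * g ≤ m) :
    ∃ G : ι → Finset α, (∀ i ∈ I, (G i).card ≤ g ∧ Disjoint (G i) U0 ∧ P i (G i)) ∧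
      ∀ i ∈ I, ∀ j ∈ I, i ≠ j → Disjoint (G i) (G j) := by
  induction I using Finset.induction_on with
  | empty => exact ⟨fun _ => ∅, by simp, by simp⟩
  | insert a I ha ih =>
    rw [card_insert_of_notMem ha, add_mul, one_mul] at hm
    obtain ⟨G, g1, g2⟩ := ih (fun i hi => h i (mem_insert_of_mem hi)) (by omega)
    have hc : (U0 ∪ I.biUnion G).card ≤ m := by
      have := card_union_le U0 (I.biUnion G)
      have := card_biUnion_le_card_mul I G g (fun i hi => (g1 i hi).1)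
      omega
    obtain ⟨G0, a1, a2, a3⟩ := h a (mem_insert_self _ _) _ hc
    rw [disjoint_union_right, disjoint_biUnion_right] at a2
    have e1 : ∀ i ∈ I, Function.update G a G0 i = G i := fun i hi =>
      Function.update_of_ne (fun e => ha (by rw [← e]; exact hi)) _ _
    refine ⟨Function.update G a G0, fun i hi => ?_, fun i hi j hj hij => ?_⟩
    · rcases mem_insert.1 hi with rfl | hi
      · rw [Function.update_self]; exact ⟨a1, a2.1, a3⟩
      · rw [e1 i hi]; exact g1 i hi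
    · rcases mem_insert.1 hi with rfl | hi' <;> rcases mem_insert.1 hj with rfl | hj'
      · exact absurd rfl hij
      · rw [Function.update_self, e1 j hj']; exact a2.2 j hj'
      · rw [Function.update_self, e1 i hi']; exact (a2.2 i hi').symm
      · rw [e1 i hi', e1 j hj']; exact g2 i hi' j hj' hij

lemma strictMono_gap {c r : ℕ} {f : Fin c → Fin r} (hf : StrictMono f) (a : Fin c) :
    ∀ (d : ℕ) (h : a.val + d < c), (f a).val + d ≤ (f ⟨a.val + d, h⟩).val := by
  intro d
  induction d with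
  | zero => intro h; simp
  | succ d ih =>
    intro h
    have h1 := ih (by omega)
    have h2 : f ⟨a.val + d, by omega⟩ < f ⟨a.val + (d + 1), h⟩ := hf (by simp [Fin.lt_def])
    rw [Fin.lt_def] at h2
    omega

lemma strictMono_band {c r : ℕ} {f : Fin c → Fin r} (hf : StrictMono f) (a : Fin c) :
    a.val ≤ (f a).val ∧ (f a).val + c ≤ a.val + r := by
  have ha := a.2
  constructor
  · have := strictMono_gap hf ⟨0, by omega⟩ a.val (by simp)
    simp only [zero_add, Fin.eta] at this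
    omega
  · have := strictMono_gap hf a (c - 1 - a.val) (by omega)
    have := (f ⟨a.val + (c - 1 - a.val), by omega⟩).2
    omega

namespace Cube

variable {Q : Cube n}

/-- The band template: an absorber for all large equal subfamilies of two families. -/
lemma templ {r j m g : ℕ} (S S' : Fin r → Finset (Vx n))
    (hS : ∀ a b, a ≠ b → Disjoint (S a) (S b)) (hS' : ∀ a b, a ≠ b → Disjoint (S' a) (S' b))
    (hSS : ∀ a b, Disjoint (S a) (S' b))
    (h : ∀ a b, ∀ U : Finset (Vx n), U.card ≤ m →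
      ∃ G, G.card ≤ g ∧ Disjoint G U ∧ Q.PM G ∧ Q.PM (G ∪ S a ∪ S' b))
    (U0 : Finset (Vx n)) (h1 : ∀ a, S a ⊆ U0) (h2 : ∀ a, S' a ⊆ U0)
    (hm : U0.card + r * (2 * j + 1) * g ≤ m) :
    ∃ A : Finset (Vx n), A.card ≤ r * (2 * j + 1) * g ∧ Disjoint A U0 ∧ Q.PM A ∧
      ∀ J J' : Finset (Fin r), J.card = J'.card → r ≤ J.card + j →
        Q.PM (A ∪ J.biUnion S ∪ J'.biUnion S') := by
  classical
  obtain ⟨G, g1, g2⟩ := greedy_family (fun (i : Fin r × Fin (2 * j + 1)) G => Q.PM G ∧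
    ∀ b : Fin r, b.val + j = i.1.val + i.2.val → Q.PM (G ∪ S i.1 ∪ S' b)) m g U0 univ
    (fun i _ U hU => by
      by_cases hb : ∃ b : Fin r, b.val + j = i.1.val + i.2.val
      · obtain ⟨b, hb⟩ := hb
        obtain ⟨G, a1, a2, a3, a4⟩ := h i.1 b U hU
        refine ⟨G, a1, a2, a3, fun b' hb' => ?_⟩
        rwa [show b' = b from Fin.ext (by omega)]
      · exact ⟨∅, by simp, by simp, PM.empty, fun b hb' => absurd ⟨b, hb'⟩ hb⟩)
    (by simpa using hm)
  simp only [mem_univ, forall_true_left] at g1 g2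
  refine ⟨univ.biUnion G, ?_, ?_, PM.biUnion _ _ (fun i _ => (g1 i).2.2.1)
    (fun i _ k _ => g2 i k), fun J J' hJ hr => ?_⟩
  · simpa using card_biUnion_le_card_mul univ G g (fun i _ => (g1 i).1)
  · rw [disjoint_biUnion_left]; exact fun i _ => (g1 i).2.1
  set e := J.orderEmbOfFin rfl with he
  set e' := J'.orderEmbOfFin hJ.symm with he'
  have b1 := fun k => strictMono_band e.strictMono k
  have b2 := fun k => strictMono_band e'.strictMono k
  set ix : Fin J.card → Fin r × Fin (2 * j + 1) := fun k =>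
    (e k, ⟨(e' k).val + j - (e k).val, by have := b1 k; have := b2 k; omega⟩) with hix
  have hinj : ∀ k k', k ≠ k' → ix k ≠ ix k' := fun k k' hk h =>
    hk (e.injective (congrArg Prod.fst h))
  have p1 := PM.biUnion (Q := Q) (univ \ univ.image ix) G (fun i _ => (g1 i).2.2.1)
    (fun i _ k _ => g2 i k)
  have p2 := PM.biUnion (Q := Q) univ (fun k => G (ix k) ∪ S (e k) ∪ S' (e' k))
    (fun k _ => (g1 (ix k)).2.2.2 (e' k) (by have := b1 k; have := b2 k; simp only [hix]; omega))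
    (fun k _ k' _ hk => by
      have c1 := g2 _ _ (hinj k k' hk)
      have c2 := fun i a => ((g1 i).2.1.mono_right (h1 a))
      have c3 := fun i a => ((g1 i).2.1.mono_right (h2 a))
      have c4 := hS _ _ (e.injective.ne hk)
      have c5 := hS' _ _ (e'.injective.ne hk)
      exact disjoint_union_left.2 ⟨disjoint_union_left.2 ⟨disjoint_union_right.2
        ⟨disjoint_union_right.2 ⟨c1, c2 _ _⟩, c3 _ _⟩, disjoint_union_right.2
        ⟨disjoint_union_right.2 ⟨(c2 _ _).symm, c4⟩, hSS _ _⟩⟩, disjoint_union_right.2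
        ⟨disjoint_union_right.2 ⟨(c3 _ _).symm, (hSS _ _).symm⟩, c5⟩⟩)
  have p3 := p1.union p2 (by
    rw [disjoint_biUnion_left]
    intro i hi
    rw [disjoint_biUnion_right]
    intro k _
    simp only [disjoint_union_right]
    exact ⟨⟨g2 _ _ (fun h => (mem_sdiff.1 hi).2 (mem_image.2 ⟨k, mem_univ _, h.symm⟩)),
      (g1 _).2.1.mono_right (h1 _)⟩, (g1 _).2.1.mono_right (h2 _)⟩)
  convert p3 using 1
  have r1 : ∀ a, a ∈ J ↔ ∃ k, e k = a := fun a => by
    rw [← Set.mem_range, he, range_orderEmbOfFin, mem_coe]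
  have r2 : ∀ a, a ∈ J' ↔ ∃ k, e' k = a := fun a => by
    rw [← Set.mem_range, he', range_orderEmbOfFin, mem_coe]
  ext u
  simp only [mem_union, mem_biUnion, mem_univ, true_and, mem_sdiff, mem_image, r1, r2]
  constructor
  · rintro ((⟨i, hi⟩ | ⟨a, ⟨k, rfl⟩, h⟩) | ⟨a, ⟨k, rfl⟩, h⟩)
    · by_cases hc : ∃ k, ix k = i
      · obtain ⟨k, rfl⟩ := hc
        exact Or.inr ⟨k, Or.inl (Or.inl hi)⟩
      · exact Or.inl ⟨i, hc, hi⟩
    · exact Or.inr ⟨k, Or.inl (Or.inr h)⟩
    · exact Or.inr ⟨k, Or.inr h⟩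
  · rintro (⟨i, _, hi⟩ | ⟨k, (h | h) | h⟩)
    · exact Or.inl (Or.inl ⟨i, hi⟩)
    · exact Or.inl (Or.inl ⟨_, h⟩)
    · exact Or.inl (Or.inr ⟨_, ⟨k, rfl⟩, h⟩)
    · exact Or.inr ⟨_, ⟨k, rfl⟩, h⟩

end Cube

end Pool.Agent.Lib.MP_cdd51b_co
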