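import Pool.Agent.Lib.MP_cdd51b_co.Near
import Pool.Agent.Lib.MP_cdd51b_co.Reach
import Pool.Agent.Lib.MP_cdd51b_co.Resv
import Pool.Agent.Lib.MP_cdd51b_co.Templ
import Pool.Agent.Lib.MP_cdd51b_co.Dyn

set_option autoImplicit false

namespace Pool.Agent.Lib.MP_cdd51b_co

open Finset

variable {n : ℕ}

lemma card_pr_all (j : Fin 4) : ∃ s, j = p0 s ∨ j = p1 s := by
  fin_cases j
  · exact ⟨false, Or.inl rfl⟩
  · exact ⟨false, Or.inr rfl⟩
  · exact ⟨true, Or.inl rfl⟩
  · exact ⟨true, Or.inr rfl⟩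

lemma card_pr_VW {π : Bool → Equiv.Perm (Fin n)} {R : Bool → Finset (Fin n)} {r : ℕ}
    (h : ∀ s, (R s).card = r) (j : Fin 4) : (pr j (VW π R)).card = r := by
  rw [VW, card_pr_union j (disj_VS (by simp))]
  obtain ⟨s, rfl | rfl⟩ := card_pr_all j
  · rw [card_pr0_VS, card_pr0_VS]; cases s <;> simp [h]
  · rw [card_pr1_VS, card_pr1_VS]; cases s <;> simp [h]

namespace Cube

variable {Q : Cube n}

lemma exists_root (hn : 0 < n) {C : Finset (GV n)} (hC : C.Nonempty)
    (hden : 100 * n * C.card ≤ 100 * ee Q.N C C + n * C.card) (s : Bool) :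
    ∃ g : GV n, g.1 = s ∧ 49 * n ≤ 50 * (Q.N g ∩ C).card := by
  by_contra hcon
  push Not at hcon
  set A := C.filter (fun g => g.1 = s)
  set B := C.filter (fun g => ¬ g.1 = s)
  have e : C = A ∪ B := (filter_union_filter_not_eq _ _).symm
  have dj : Disjoint A B := disjoint_filter_filter_not _ _ _
  have hc : A.card + B.card = C.card := card_filter_add_card_filter_not _
  have z1 : ee Q.N A A = 0 := sum_eq_zero (fun g hg => card_eq_zero.2 (eq_empty_of_forall_notMem
    (fun g' h => (mem_N.1 (mem_inter.1 h).1).ne ((mem_filter.1 hg).2.trans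
      (mem_filter.1 (mem_inter.1 h).2).2.symm))))
  have z2 : ee Q.N B B = 0 := sum_eq_zero (fun g hg => card_eq_zero.2 (eq_empty_of_forall_notMem
    (fun g' h => (mem_N.1 (mem_inter.1 h).1).ne (by
      have a1 := (mem_filter.1 hg).2
      have a2 := (mem_filter.1 (mem_inter.1 h).2).2
      revert a1 a2; cases g.1 <;> cases g'.1 <;> cases s <;> simp))))
  have a1 : ee Q.N C C = 2 * ee Q.N A B := by
    conv_lhs => rw [e]
    rw [ee_union_left _ dj, ee_union_right _ _ dj, ee_union_right _ _ dj, z1, z2,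
      ee_comm N_symm B A]
    ring
  have a2 : ee Q.N A B ≤ B.card * n := by rw [ee_comm N_symm]; exact ee_le_n _ _
  have a3 : 50 * ee Q.N A B ≤ A.card * (49 * n) := by
    refine (Nat.mul_le_mul_left _ (ee_mono_right _ _ (filter_subset _ C))).trans ?_
    unfold ee
    rw [mul_sum]
    exact sum_le_card_nsmul _ _ _ (fun g hg => (hcon g (mem_filter.1 hg).2).le)
  have a4 : 0 < n * C.card := Nat.mul_pos hn hC.card_pos
  rw [← hc] at hden a4
  nlinarith

/-- A cluster of the pair graph in which any two opposite pairs have a short robust absorber. -/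
lemma exists_conn (Q : Cube n) {u : ℕ} (hu : 2 ^ 70 ≤ u) (hu2 : u ^ 201 ≤ 2 ^ u)
    (h1 : u ^ 200 ≤ n) (h2 : n ≤ 2 * u ^ 200) :
    ∃ C : Finset (GV n), (∀ s, ∃ g : GV n, g.1 = s ∧ 49 * n ≤ 50 * (Q.N g ∩ C).card) ∧
      ∀ q ∈ C, ∀ q' ∈ C, q.1 ≠ q'.1 → ∀ U : Finset (Vx n), U.card ≤ u ^ 171 →
        ∃ G : Finset (Vx n), G.card ≤ 90000 * u ^ 2 ∧ Disjoint G (U ∪ vs q ∪ vs q') ∧
          Q.PM G ∧ Q.PM (G ∪ vs q ∪ vs q') := by
  have u1 : 1 ≤ u := by omega
  have p : ∀ a b, a ≤ b → u ^ a ≤ u ^ b := fun a b h => Nat.pow_le_pow_right u1 h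
  have q : ∀ a b, b = a + 1 → 2 ^ 70 * u ^ a ≤ u ^ b := fun a b h => by
    rw [h, pow_succ' u]; exact Nat.mul_le_mul_right _ hu
  have hn : 0 < n := lt_of_lt_of_le (Nat.pow_pos u1) h1
  haveI : NeZero n := ⟨hn.ne'⟩
  have hn2 : n ≤ 2 ^ u := by linarith [q 200 201 rfl, Nat.zero_le (u ^ 200)]
  have hV : Fintype.card (GV n) = 2 * (n * n) := by simp
  have hV2 : 2 * (n * n) ≤ 2 ^ (2 * u + 1) := by
    rw [pow_succ', two_mul u, pow_add]
    exact Nat.mul_le_mul_left _ (Nat.mul_le_mul hn2 hn2)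
  obtain ⟨C, c1, c2, c3⟩ := exists_cluster Q.N N_symm n 100 (3 * u) (by norm_num) (by omega)
    card_N (by
      rw [Real.log_le_iff_le_exp (by exact_mod_cast Fintype.card_pos), hV]
      have a1 : ((2 * (n * n) : ℕ) : ℝ) ≤ 2 ^ (3 * u) := by
        exact_mod_cast hV2.trans (Nat.pow_le_pow_right (by norm_num) (by omega))
      refine a1.trans ?_
      rw [← mul_one ((3 * u : ℕ) : ℝ), Real.exp_nat_mul]
      exact pow_le_pow_left₀ (by norm_num) (by have := Real.add_one_le_exp 1; linarith) _)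
  have hr := exists_root hn c1 c2
  refine ⟨C, hr, fun g hg g' hg' hne U hU => ?_⟩
  have hC : C.card ≤ 2 * (n * n) := hV ▸ card_le_univ C
  obtain ⟨g0, _, hg0⟩ := hr true
  have hC2 : 49 * n ≤ 50 * C.card :=
    hg0.trans (Nat.mul_le_mul_left _ (card_le_card inter_subset_right))
  have hl : 8 * (3 * 100 * (3 * u)) * (2 * u + 2) ≤ 21600 * u ^ 2 := by nlinarith
  generalize hl' : 8 * (3 * 100 * (3 * u)) * (2 * u + 2) = l at hl
  have D0 : 0 < u ^ 100 := Nat.pow_pos u1
  set β := C.card / u ^ 100 + 1 with hβ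
  have b1 : C.card ≤ u ^ 100 * β := (Nat.lt_mul_div_succ _ D0).le
  have b2 : u ^ 100 * β ≤ C.card + u ^ 100 := by
    rw [hβ, mul_add, mul_one]; exact Nat.add_le_add_right (Nat.mul_div_le _ _) _
  have b2' : 40 * β ≤ C.card + 40 := by
    have : 40 * (C.card / u ^ 100) ≤ u ^ 100 * (C.card / u ^ 100) :=
      Nat.mul_le_mul_right _ (by linarith [p 1 100 (by norm_num)])
    have := Nat.mul_div_le C.card (u ^ 100)
    omega
  set a := 4 * β / n + 1 with ha
  have b3 : 4 * β < n * a := Nat.lt_mul_div_succ _ hn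
  have b4 : n * a ≤ 4 * β + n := by
    rw [ha, mul_add, mul_one]; exact Nat.add_le_add_right (Nat.mul_div_le _ _) _
  have b5 : a ≤ 21 * u ^ 100 := by
    have e1 : u ^ 200 = u ^ 100 * u ^ 100 := by ring
    have d1 := Nat.mul_le_mul_left (u ^ 100) b4
    have d2 := Nat.mul_le_mul_left n h2
    have d3 : u ^ 100 ≤ n * u ^ 100 := Nat.le_mul_of_pos_left _ hn
    have d4 := Nat.mul_le_mul_left n (p 100 200 (by norm_num))
    have d5 : (n * u ^ 100) * a ≤ (n * u ^ 100) * (21 * u ^ 100) := by nlinarith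
    exact Nat.le_of_mul_le_mul_left d5 (Nat.mul_pos hn D0)
  have b6 : 100 * u ^ 172 ≤ n := by
    linarith [q 199 200 rfl, p 172 199 (by norm_num), Nat.zero_le (u ^ 199)]
  have b7 : a * u ^ 172 ≤ β + u ^ 172 := by
    have d1 := Nat.mul_le_mul_right (u ^ 172) b4
    have d2 := Nat.mul_le_mul_left β b6
    have : n * (a * u ^ 172) ≤ n * (β + u ^ 172) := by nlinarith
    exact Nat.le_of_mul_le_mul_left this hn
  obtain ⟨G, g1, g2⟩ := connect (Q := Q) hn (C := C) (H := 3 * 100 * (3 * u)) (t := 2 * u + 2)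
    (m := u ^ 172) (m0 := u ^ 171) (β := β) (a := a) (by omega) c3 c2
    (by rw [show 2 * u + 2 = 2 * u + 1 + 1 from rfl, pow_succ]
        have : 0 < 2 ^ (2 * u + 1) := by positivity
        omega)
    (by
      rw [hl']
      have d1 : u ^ 172 + 2 * l ≤ 2 * u ^ 172 := by
        linarith [q 171 172 rfl, p 2 171 (by norm_num), Nat.zero_le (u ^ 171)]
      have d2 := Nat.mul_le_mul_left (2 * (3 * 100 * (3 * u))) d1
      have d3 : u * u ^ 172 = u ^ 173 := by ring
      linarith [q 199 200 rfl, p 173 199 (by norm_num), Nat.zero_le (u ^ 199)])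
    (by
      rw [hl']
      have d1 : 8 * (3 * 100 * (3 * u)) * l ≤ u ^ 100 := by
        have := Nat.mul_le_mul_left (8 * (3 * 100 * (3 * u))) hl
        have d3 : u * u ^ 2 = u ^ 3 := by ring
        linarith [q 99 100 rfl, p 3 99 (by norm_num), Nat.zero_le (u ^ 99)]
      have d2 := Nat.mul_le_mul d1 b1
      have d3 := Nat.mul_le_mul_right β h1
      have e1 : u ^ 200 = u ^ 100 * u ^ 100 := by ring
      rw [e1] at d3
      linarith)
    (by
      rw [hl']
      have d1 : 2 * l + 2 ≤ 43202 * u ^ 2 := by linarith [p 0 2 (by norm_num)]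
      have d2 := Nat.mul_le_mul b5 d1
      have d3 : u ^ 100 * u ^ 2 = u ^ 102 := by ring
      linarith [q 171 172 rfl, p 102 171 (by norm_num), p 0 171 (by norm_num),
        Nat.zero_le (u ^ 171)])
    (by omega)
    (by have := Nat.mul_le_mul_left a b6
        nlinarith)
    (by have := p 1 172 (by norm_num)
        rw [pow_one] at this
        omega)
    hg hg' hne hU
  rw [hl'] at g1
  exact ⟨G, by linarith [p 0 2 (by norm_num)], g2⟩

/-- The reservoir of whole pairs. -/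
lemma exists_R (Q : Cube n) {u : ℕ} (hu : 2 ^ 70 ≤ u) (hu2 : u ^ 201 ≤ 2 ^ u)
    (h1 : u ^ 200 ≤ n) (h2 : n ≤ 2 * u ^ 200) (π : Equiv.Perm (Fin n)) (I : Finset (Fin n))
    (hI : 49 * n ≤ 50 * I.card) :
    ∃ R ⊆ I, R.card = 3 * u ^ 167 ∧ ∀ g g' : GV n, u ≤ (univ.filter (fun a => a ∈ R ∧
      π.symm (Q.nb g a) ∈ R ∧ π.symm (Q.nb g' (π.symm (Q.nb g a))) ∈ R)).card := by
  have u1 : 1 ≤ u := by omega
  have p : ∀ a b, a ≤ b → u ^ a ≤ u ^ b := fun a b h => Nat.pow_le_pow_right u1 h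
  have q : ∀ a b, b = a + 1 → 2 ^ 70 * u ^ a ≤ u ^ b := fun a b h => by
    rw [h, pow_succ' u]; exact Nat.mul_le_mul_right _ hu
  have hn3 : 3 ≤ n := by linarith [p 1 200 (by norm_num)]
  have hn2 : n ≤ 2 ^ u := by linarith [q 200 201 rfl, Nat.zero_le (u ^ 200)]
  obtain ⟨v, v1, v2⟩ : ∃ v, 2 * v ≤ u ∧ u ≤ 2 * v + 1 := ⟨u / 2, by omega, by omega⟩
  obtain ⟨R, r1, r2, r3⟩ := exists_resv (K := u ^ 33) hn3 (Nat.pow_pos u1)
    (fun g : GV n => (Q.nb g).trans π.symm) I hI (3 * u ^ 167) u (v * u ^ 100)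
    (by
      have d1 := Nat.mul_le_mul_left (u ^ 199) v1
      have e1 : (u ^ 33) ^ 3 * (u + v * u ^ 100) = u ^ 100 + u ^ 199 * v := by ring
      have e2 : u ^ 199 * u = u ^ 200 := by ring
      rw [e1]
      linarith [q 199 200 rfl, p 100 199 (by norm_num), Nat.zero_le (u ^ 199)])
    (by
      have d1 := Nat.mul_le_mul_left (u ^ 133) v1
      have e1 : v * u ^ 100 * u ^ 33 = u ^ 133 * v := by ring
      have e2 : u ^ 133 * u = u ^ 134 := by ring
      have e3 : 3 * u ^ 167 * u ^ 33 = 3 * u ^ 200 := by ring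
      rw [e1, e3]
      linarith [p 134 200 (by norm_num), Nat.zero_le (u ^ 133 * v)])
    (by
      have hnR : (0 : ℝ) < n := by exact_mod_cast (by omega : 0 < n)
      have a1 : 1 + Fintype.card (GV n) ^ 2 ≤ 2 ^ (5 * u) := by
        have hV : Fintype.card (GV n) = 2 * (n * n) := by simp
        have d1 : n ^ 4 ≤ (2 ^ u) ^ 4 := Nat.pow_le_pow_left hn2 4
        have d2 : 2 ^ (5 * u) = 2 ^ u * (2 ^ u) ^ 4 := by ring
        have d3 : 5 ≤ 2 ^ u := le_trans (by linarith [p 1 200 (by norm_num)]) hn2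
        have d4 := Nat.mul_le_mul d3 d1
        have d5 : 1 ≤ n ^ 4 := Nat.pow_pos (by omega)
        rw [hV, d2]
        nlinarith
      have a2 : 1 + (Fintype.card (GV n) : ℝ) ^ 2 ≤ Real.exp ((5 * u : ℕ) : ℝ) := by
        have : 1 + (Fintype.card (GV n) : ℝ) ^ 2 ≤ 2 ^ (5 * u) := by exact_mod_cast a1
        refine this.trans ?_
        rw [← mul_one ((5 * u : ℕ) : ℝ), Real.exp_nat_mul]
        exact pow_le_pow_left₀ (by norm_num) (by have := Real.add_one_le_exp 1; linarith) _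
      refine lt_of_le_of_lt (mul_le_mul_of_nonneg_right a2 (Real.exp_pos _).le) ?_
      rw [← Real.exp_add, Real.exp_lt_one_iff, add_neg_lt_iff_lt_add, zero_add,
        lt_div_iff₀ (by positivity)]
      have : 5 * u * (2 * n * 3 ^ 2) < (v * u ^ 100) ^ 2 := by
        have d1 := Nat.mul_le_mul_left (5 * u * 18) h2
        have d2 : 181 * u ≤ v ^ 2 := by nlinarith
        have d3 := Nat.mul_le_mul_right (u ^ 200) d2
        have d4 : 0 < u * u ^ 200 := by positivity
        have e1 : (v * u ^ 100) ^ 2 = v ^ 2 * u ^ 200 := by ring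
        rw [e1]
        nlinarith
      exact_mod_cast this)
  obtain ⟨R', s1, s2, s3⟩ := exists_subsuperset_card_eq r1 r2 (by
    linarith [q 199 200 rfl, p 167 199 (by norm_num), Nat.zero_le (u ^ 199)])
  refine ⟨R', s2, s3, fun g g' => (r3 g g').trans (card_le_card (fun a ha => ?_))⟩
  obtain ⟨b1, b2, b3⟩ := (mem_filter.1 ha).2
  exact mem_filter.2 ⟨mem_univ _, s1 b1, s1 b2, s1 b3⟩

/-- Partial transversals missing one cell, for large order. -/
theorem near_one (Q : Cube n) {u : ℕ} (hu : 2 ^ 70 ≤ u) (hu2 : u ^ 201 ≤ 2 ^ u)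
    (h1 : u ^ 200 ≤ n) (h2 : n ≤ 2 * u ^ 200) : ∃ M, Q.IsM M ∧ n ≤ M.card + 1 := by
  classical
  have u1 : 1 ≤ u := by omega
  have p : ∀ a b, a ≤ b → u ^ a ≤ u ^ b := fun a b h => Nat.pow_le_pow_right u1 h
  have q : ∀ a b, b = a + 1 → 2 ^ 70 * u ^ a ≤ u ^ b := fun a b h => by
    rw [h, pow_succ' u]; exact Nat.mul_le_mul_right _ hu
  obtain ⟨C, c1, c2⟩ := Q.exists_conn hu hu2 h1 h2
  choose ρ ρ1 ρ2 using c1
  set π : Bool → Equiv.Perm (Fin n) := fun s => Q.nb (ρ (!s)) with hπ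
  have hR : ∀ s, ∃ R ⊆ univ.filter (fun a => (s, a, π s a) ∈ C), R.card = 3 * u ^ 167 ∧
      ∀ g g' : GV n, u ≤ (univ.filter (fun a => a ∈ R ∧ (π s).symm (Q.nb g a) ∈ R ∧
        (π s).symm (Q.nb g' ((π s).symm (Q.nb g a))) ∈ R)).card := by
    intro s
    refine Q.exists_R hu hu2 h1 h2 (π s) _ ((ρ2 (!s)).trans (Nat.mul_le_mul_left _ ?_))
    refine le_trans (card_le_card (fun g hg => ?_)) (card_image_le (f := fun a => (s, a, π s a)))
    obtain ⟨a1, a2⟩ := mem_inter.1 hg
    obtain ⟨a3, a4⟩ := mem_N.1 a1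
    have e : (s, g.2.1, π s g.2.1) = g :=
      Prod.ext (by rw [a3, ρ1]; simp) (Prod.ext rfl a4)
    exact mem_image.2 ⟨g.2.1, mem_filter.2 ⟨mem_univ _, by rw [e]; exact a2⟩, e⟩
  choose R r1 r2 r3 using hR
  set r := 3 * u ^ 167 with hr
  set e : ∀ s, Fin r ↪o Fin n := fun s => (R s).orderEmbOfFin (r2 s) with he
  have re : ∀ s a, a ∈ R s ↔ ∃ k, e s k = a := fun s a => by
    rw [← Set.mem_range, he, range_orderEmbOfFin, mem_coe]
  have hW : ∀ j, (pr j (VW π R)).card = r := card_pr_VW r2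
  have hsub : ∀ s k, vs (s, e s k, π s (e s k)) ⊆ VW π R := fun s k x hx =>
    mem_VW.2 ⟨s, mem_biUnion.2 ⟨_, (re s _).2 ⟨k, rfl⟩, hx⟩⟩
  have hdj : ∀ s a b, a ≠ b →
      Disjoint (vs (s, e s a, π s (e s a))) (vs (s, e s b, π s (e s b))) := fun s a b h =>
    disj_vs (fun _ => ⟨(e s).injective.ne h, (π s).injective.ne ((e s).injective.ne h)⟩)
  have hbud : 4 * r + r * (2 * (3 * (2 * CC)) + 1) * (90000 * u ^ 2) ≤ u ^ 170 := by
    have : r * (2 * (3 * (2 * CC)) + 1) * (90000 * u ^ 2)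
        = (3 * (2 * (3 * (2 * CC)) + 1) * 90000) * u ^ 169 := by rw [hr]; ring
    rw [this, hr]
    unfold CC
    linarith [q 169 170 rfl, p 167 169 (by norm_num), Nat.zero_le (u ^ 169)]
  obtain ⟨A, a1, a2, a3, a4⟩ := templ (Q := Q) (j := 3 * (2 * CC)) (m := u ^ 171)
    (g := 90000 * u ^ 2) (fun k => vs (false, e false k, π false (e false k)))
    (fun k => vs (true, e true k, π true (e true k))) (hdj false) (hdj true)
    (fun _ _ => disj_vs (by simp))
    (fun a b U hU => by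
      obtain ⟨G, g1, g2, g3⟩ := c2 _ (mem_filter.1 (r1 false ((re _ _).2 ⟨a, rfl⟩))).2 _
        (mem_filter.1 (r1 true ((re _ _).2 ⟨b, rfl⟩))).2 (by simp) U hU
      exact ⟨G, g1, g2.mono_right (subset_union_left.trans subset_union_left), g3⟩)
    (VW π R) (hsub false) (hsub true)
    (by have := card_le_of_pr (fun j => (hW j).le)
        have := p 170 171 (by norm_num)
        omega)
  have hb : ∀ j, (pr j (A ∪ VW π R)).card = (pr 0 A).card + r := fun j => by
    rw [card_pr_union j a2, hW, a3.card_pr j 0]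
  obtain ⟨M, m1, m2, m3⟩ := Q.near_robust hu hu2 h1 h2 (A ∪ VW π R) ((pr 0 A).card + r)
    (fun j => (hb j).le) (by have := card_pr_le 0 A; omega)
  set VM := univ.filter (fun x => Q.Cov M x) with hVM
  have hMd : Disjoint VM (A ∪ VW π R) :=
    disjoint_right.2 (fun x hx h => m2 x hx (mem_filter.1 h).2)
  set D := univ \ (VM ∪ (A ∪ VW π R)) with hD
  have hDc : ∀ j, (pr j D).card + (M.card + ((pr 0 A).card + r)) = n := by
    intro j
    have b1 := card_pr_sdiff j (subset_univ (VM ∪ (A ∪ VW π R)))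
    rw [card_pr_union j hMd, hb] at b1
    have b2 : (pr j VM).card = M.card := by
      rw [← m1.card_cov j]; congr 1; ext a; simp [hVM]
    have b3 : (pr j (univ : Finset (Vx n))).card = n := by simp [pr]
    rw [b2, b3] at b1
    exact b1
  have hDd : Disjoint D (VM ∪ (A ∪ VW π R)) := sdiff_disjoint
  obtain ⟨Av, D', d1, d2, d3, d4⟩ := dyn (Q := Q) (π := π) R u r3 (2 * CC) R D
    (by have := hDc 0; have := hDc 2; omega)
    (fun s => by have := hDc (p0 s); have := hDc (p1 s); omega)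
    (fun s => by rw [sdiff_self]; unfold CC; simp only [bot_eq_empty, card_empty]; omega)
    (hDd.mono_right (subset_union_right.trans subset_union_right))
  obtain ⟨s0, hs0⟩ : ∃ s0, ∀ s, (Av s0).card ≤ (Av s).card := by
    rcases le_total (Av false).card (Av true).card with h | h
    · exact ⟨false, fun s => by cases s <;> simp [h]⟩
    · exact ⟨true, fun s => by cases s <;> simp [h]⟩
  choose J j1 j2 using fun s => exists_subset_card_eq (hs0 s)
  have jc : ∀ s, (univ.filter (fun k => e s k ∈ J s)).card = (Av s0).card := by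
    intro s
    rw [← j2 s, ← card_image_of_injective _ (e s).injective]
    congr 1
    ext a
    simp only [mem_image, mem_filter, mem_univ, true_and]
    constructor
    · rintro ⟨k, hk, rfl⟩; exact hk
    · intro ha
      obtain ⟨k, rfl⟩ := (re s a).1 ((d1 s).1 (j1 s ha))
      exact ⟨k, ha, rfl⟩
  have jb : ∀ s, (univ.filter (fun k => e s k ∈ J s)).biUnion
      (fun k => vs (s, e s k, π s (e s k))) = VS π s (J s) := by
    intro s
    ext x
    simp only [VS, mem_biUnion, mem_filter, mem_univ, true_and]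
    constructor
    · rintro ⟨k, hk, h⟩; exact ⟨_, hk, h⟩
    · rintro ⟨a, ha, h⟩
      obtain ⟨k, rfl⟩ := (re s a).1 ((d1 s).1 (j1 s ha))
      exact ⟨k, ha, h⟩
  have p1 := a4 _ _ ((jc false).trans (jc true).symm) (by
    have := (d1 s0).2
    rw [jc, ← r2 s0]; exact this)
  rw [jb, jb, union_assoc] at p1
  change Q.PM (A ∪ VW π J) at p1
  have w1 : VW π J ⊆ VW π Av := VW_mono j1
  have w2 : VW π Av ⊆ VW π R := VW_mono (fun s => (d1 s).1)
  have p2 := (m1.pm.union p1 (hMd.mono_right (union_subset_union subset_rfl (w1.trans w2)))).union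
    d4 (by
      refine disjoint_union_left.2 ⟨(disjoint_union_right.2 ⟨(hDd.mono_right
        subset_union_left).symm, hMd.mono_right subset_union_right⟩).mono_right sdiff_subset,
        disjoint_union_left.2 ⟨(disjoint_union_right.2 ⟨(hDd.mono_right
          (subset_union_left.trans subset_union_right)).symm, a2⟩).mono_right sdiff_subset, ?_⟩⟩
      exact disjoint_sdiff.mono_left (w1.trans subset_union_right))
  obtain ⟨M', n1, n2⟩ := p2.exists_card
  refine ⟨M', n1, ?_⟩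
  rw [← n2 (p0 s0)]
  have hJ : J s0 = Av s0 := eq_of_subset_of_card_le (j1 s0) (j2 s0).ge
  have : univ ⊆ pr (p0 s0) (VM ∪ (A ∪ VW π J) ∪ (D ∪ VW π R) \ (D' ∪ VW π Av))
      ∪ pr (p0 s0) D' := by
    intro a _
    rw [mem_union, mem_pr, mem_pr]
    by_cases k1 : (p0 s0, a) ∈ D'
    · exact Or.inr k1
    left
    by_cases k2 : (p0 s0, a) ∈ VW π Av
    · obtain ⟨s, hs⟩ := mem_VW.1 k2
      have : s = s0 := by
        rcases mem_VS.1 hs with ⟨h, _⟩ | ⟨h, _⟩
        · exact (p0_inj h).symm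
        · exact absurd h (p0_ne_p1 _ _)
      subst this
      exact mem_union_left _ (mem_union_right _ (mem_union_right _ (mem_VW.2 ⟨s, hJ ▸ hs⟩)))
    by_cases k3 : (p0 s0, a) ∈ D ∪ VW π R
    · exact mem_union_right _ (mem_sdiff.2 ⟨k3, fun h => (mem_union.1 h).elim k1 k2⟩)
    rw [mem_union, not_or, hD, mem_sdiff, not_and, not_not] at k3
    rcases mem_union.1 (k3.1 (mem_univ _)) with h | h
    · exact mem_union_left _ (mem_union_left _ h)
    · exact mem_union_left _ (mem_union_right _ (mem_union_left _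
        ((mem_union.1 h).resolve_right k3.2)))
  have b1 := (card_le_card this).trans (card_union_le _ _)
  rw [card_univ, Fintype.card_fin] at b1
  exact b1.trans (Nat.add_le_add_left (d3 s0) _)

end Cube

/-- Every latin cube of large order has a partial transversal missing at most one cell. -/
theorem near_one : ∃ n0 : ℕ, ∀ n : ℕ, n0 ≤ n → ∀ Q : Cube n, ∃ M, Q.IsM M ∧ n ≤ M.card + 1 := by
  obtain ⟨u0, h0⟩ := exists_u0
  refine ⟨(u0 + 400) ^ 200, fun n hn Q => ?_⟩
  obtain ⟨u, a1, a2, a3⟩ := exists_u u0 hn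
  exact Q.near_one (h0 u a1).1 (h0 u a1).2 a2 a3

end Pool.Agent.Lib.MP_cdd51b_co
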