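import Pool.Agent.Lib.MP_cdd51b_co.Basic

set_option autoImplicit false

namespace Pool.Agent.Lib.MP_cdd51b_co

open Finset

variable {n : ℕ}

lemma pr_union (j : Fin 4) (A B : Finset (Vx n)) : pr j (A ∪ B) = pr j A ∪ pr j B := by
  ext a; simp

lemma pr_sdiff (j : Fin 4) (A B : Finset (Vx n)) : pr j (A \ B) = pr j A \ pr j B := by
  ext a; simp

lemma pr_mono (j : Fin 4) {A B : Finset (Vx n)} (h : A ⊆ B) : pr j A ⊆ pr j B :=
  fun _ ha => mem_pr.2 (h (mem_pr.1 ha))

lemma card_pr_union (j : Fin 4) {A B : Finset (Vx n)} (h : Disjoint A B) :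
    (pr j (A ∪ B)).card = (pr j A).card + (pr j B).card := by
  rw [pr_union, card_union_of_disjoint]
  rw [disjoint_left] at h ⊢
  exact fun a ha hb => h (mem_pr.1 ha) (mem_pr.1 hb)

lemma card_pr_sdiff (j : Fin 4) {A B : Finset (Vx n)} (h : B ⊆ A) :
    (pr j (A \ B)).card + (pr j B).card = (pr j A).card := by
  rw [pr_sdiff, card_sdiff_add_card_eq_card (pr_mono j h)]

/-- Vertices of the pair graph: a side and two coordinates. -/
abbrev GV (n : ℕ) := Bool × Fin n × Fin n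

/-- First part of a side. -/
def p0 (s : Bool) : Fin 4 := if s then 2 else 0
/-- Second part of a side. -/
def p1 (s : Bool) : Fin 4 := if s then 3 else 1

/-- The two vertices of a pair. -/
def vs (g : GV n) : Finset (Vx n) := {(p0 g.1, g.2.1), (p1 g.1, g.2.2)}

lemma mem_vs {g : GV n} {u : Vx n} : u ∈ vs g ↔ u = (p0 g.1, g.2.1) ∨ u = (p1 g.1, g.2.2) := by
  simp [vs]

lemma card_vs_le (g : GV n) : (vs g).card ≤ 2 := card_le_two

lemma p0_ne_p1 (s t : Bool) : p0 s ≠ p1 t := by cases s <;> cases t <;> decide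
lemma p0_inj {s t : Bool} (h : p0 s = p0 t) : s = t := by
  revert h; cases s <;> cases t <;> decide
lemma p1_inj {s t : Bool} (h : p1 s = p1 t) : s = t := by
  revert h; cases s <;> cases t <;> decide

lemma disj_vs {g g' : GV n} (h : g.1 = g'.1 → g.2.1 ≠ g'.2.1 ∧ g.2.2 ≠ g'.2.2) :
    Disjoint (vs g) (vs g') := by
  rw [disjoint_left]
  intro u a b
  rcases mem_vs.1 a with rfl | rfl <;> rcases mem_vs.1 b with b | b <;>
    simp only [Prod.mk.injEq] at b
  · exact (h (p0_inj b.1)).1 b.2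
  · exact p0_ne_p1 _ _ b.1
  · exact p0_ne_p1 _ _ b.1.symm
  · exact (h (p1_inj b.1)).2 b.2

namespace Cube

variable (Q : Cube n)

/-- The vertex set `A` is exactly covered by a matching. -/
def PM (A : Finset (Vx n)) : Prop := ∃ M, Q.IsM M ∧ ∀ u, Q.Cov M u ↔ u ∈ A

variable {Q}

lemma PM.empty : Q.PM ∅ := ⟨∅, fun e he => absurd he (notMem_empty _), fun u => by simp [Cov]⟩

lemma PM.union {A B : Finset (Vx n)} (hA : Q.PM A) (hB : Q.PM B) (h : Disjoint A B) :
    Q.PM (A ∪ B) := by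
  obtain ⟨M, m1, m2⟩ := hA
  obtain ⟨N, n1, n2⟩ := hB
  refine ⟨M ∪ N, fun e he f hf hne i hi => ?_, fun u => by rw [cov_union, m2, n2, mem_union]⟩
  rcases mem_union.1 he with he | he <;> rcases mem_union.1 hf with hf | hf
  · exact m1 e he f hf hne i hi
  · exact disjoint_left.1 h ((m2 (i, Q.co e i)).1 ⟨e, he, rfl⟩) ((n2 _).1 ⟨f, hf, hi.symm⟩)
  · exact disjoint_left.1 h ((m2 (i, Q.co e i)).1 ⟨f, hf, hi.symm⟩) ((n2 _).1 ⟨e, he, rfl⟩)
  · exact n1 e he f hf hne i hi

lemma PM.biUnion {ι : Type*} [DecidableEq ι] (s : Finset ι) (f : ι → Finset (Vx n))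
    (h : ∀ i ∈ s, Q.PM (f i)) (hd : ∀ i ∈ s, ∀ j ∈ s, i ≠ j → Disjoint (f i) (f j)) :
    Q.PM (s.biUnion f) := by
  induction s using Finset.induction_on with
  | empty => simpa using PM.empty
  | insert a s ha ih =>
    rw [biUnion_insert]
    refine (h a (mem_insert_self _ _)).union (ih (fun i hi => h i (mem_insert_of_mem hi))
      (fun i hi j hj => hd i (mem_insert_of_mem hi) j (mem_insert_of_mem hj))) ?_
    rw [disjoint_biUnion_right]
    exact fun i hi => hd a (mem_insert_self _ _) i (mem_insert_of_mem hi)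
      (fun e => ha (e ▸ hi))

lemma PM.cell (e : Cell n) : Q.PM (Q.verts e) :=
  ⟨{e}, fun a ha b hb h => absurd ((mem_singleton.1 ha).trans (mem_singleton.1 hb).symm) h,
    fun u => by simp [Cov, mem_verts]⟩

lemma PM.exists_card {A : Finset (Vx n)} (h : Q.PM A) :
    ∃ M, Q.IsM M ∧ ∀ j, (pr j A).card = M.card := by
  classical
  obtain ⟨M, m1, m2⟩ := h
  refine ⟨M, m1, fun j => ?_⟩
  rw [← m1.card_cov j]
  congr 1
  ext a; simp [m2]

lemma PM.card_pr {A : Finset (Vx n)} (h : Q.PM A) (i j : Fin 4) :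
    (pr i A).card = (pr j A).card := by
  obtain ⟨M, _, m⟩ := h.exists_card
  rw [m, m]

open Classical in
lemma IsM.pm {M : Finset (Cell n)} (h : Q.IsM M) : Q.PM (univ.filter (fun u => Q.Cov M u)) :=
  ⟨M, h, fun u => by simp⟩

variable (Q)

lemma exists_y (x z w : Fin n) : ∃ y, Q.L x y z = w :=
  (Finite.injective_iff_surjective.1 (Q.h2 x z)) w

/-- The unique second coordinate completing `x, z, w`. -/
noncomputable def sy (x z w : Fin n) : Fin n := (Q.exists_y x z w).choose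

@[simp] lemma L_sy (x z w : Fin n) : Q.L x (Q.sy x z w) z = w := (Q.exists_y x z w).choose_spec

lemma sy_eq_iff {x y z w : Fin n} : Q.sy x z w = y ↔ Q.L x y z = w := by
  constructor
  · rintro rfl; simp
  · intro h; exact Q.h2 x z (by simp [h])

/-- The neighbourhood of a pair, as a map from first to second coordinates. -/
noncomputable def nbf (g : GV n) (a : Fin n) : Fin n :=
  if g.1 then Q.sy a g.2.1 g.2.2 else Q.L g.2.1 g.2.2 a

lemma nbf_inj (g : GV n) : Function.Injective (Q.nbf g) := by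
  obtain ⟨s, b, c⟩ := g
  intro a a' h
  cases s
  · exact Q.h3 b c (by simpa [nbf] using h)
  · simp only [nbf, if_true] at h
    have h1 := Q.L_sy a b c
    have h2 := Q.L_sy a' b c
    rw [← h] at h2
    exact Q.h1 _ _ (h1.trans h2.symm)

/-- The neighbourhood of a pair, as a permutation. -/
noncomputable def nb (g : GV n) : Equiv.Perm (Fin n) :=
  Equiv.ofBijective (Q.nbf g) (Finite.injective_iff_bijective.1 (Q.nbf_inj g))

/-- Adjacency in the pair graph. -/
def Adj (g g' : GV n) : Prop := g'.1 = !g.1 ∧ Q.nb g g'.2.1 = g'.2.2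

variable {Q}

lemma adj_ft {x y z w : Fin n} : Q.Adj (false, x, y) (true, z, w) ↔ Q.L x y z = w := by
  simp [Adj, nb, nbf]

lemma adj_tf {x y z w : Fin n} : Q.Adj (true, z, w) (false, x, y) ↔ Q.L x y z = w := by
  simp [Adj, nb, nbf, sy_eq_iff]

lemma Adj.symm {g g' : GV n} (h : Q.Adj g g') : Q.Adj g' g := by
  obtain ⟨s, a, b⟩ := g
  obtain ⟨t, c, d⟩ := g'
  have := h.1
  cases s <;> cases t <;> simp at this
  · exact adj_tf.2 (adj_ft.1 h)
  · exact adj_ft.2 (adj_tf.1 h)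

lemma Adj.ne {g g' : GV n} (h : Q.Adj g g') : g.1 ≠ g'.1 := by
  rw [h.1]; cases g.1 <;> simp

lemma Adj.disj {g g' : GV n} (h : Q.Adj g g') : Disjoint (vs g) (vs g') :=
  disj_vs (fun e => absurd e h.ne)

lemma pm_ft {x y z w : Fin n} (h : Q.L x y z = w) :
    Q.PM (vs (false, x, y) ∪ vs (true, z, w)) := by
  have : vs (false, x, y) ∪ vs (true, z, w) = Q.verts (x, y, z) := by
    ext ⟨j, a⟩
    rw [mem_verts, mem_union, mem_vs, mem_vs]
    fin_cases j <;> simp [p0, p1, h, eq_comm]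
  rw [this]; exact PM.cell _

lemma Adj.pm {g g' : GV n} (h : Q.Adj g g') : Q.PM (vs g ∪ vs g') := by
  obtain ⟨s, a, b⟩ := g
  obtain ⟨t, c, d⟩ := g'
  have := h.1
  cases s <;> cases t <;> simp at this
  · exact pm_ft (adj_ft.1 h)
  · rw [union_comm]; exact pm_ft (adj_tf.1 h)

variable (Q)

/-- The neighbourhood of a pair. -/
noncomputable def N (g : GV n) : Finset (GV n) := univ.image (fun a => (!g.1, a, Q.nb g a))

variable {Q}

lemma mem_N {g g' : GV n} : g' ∈ Q.N g ↔ Q.Adj g g' := by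
  obtain ⟨t, c, d⟩ := g'
  simp only [N, mem_image, mem_univ, true_and, Prod.mk.injEq, Adj]
  constructor
  · rintro ⟨a, rfl, rfl, rfl⟩; exact ⟨rfl, rfl⟩
  · rintro ⟨rfl, rfl⟩; exact ⟨c, rfl, rfl, rfl⟩

lemma card_N (g : GV n) : (Q.N g).card = n := by
  rw [N, card_image_of_injective _ (fun a b h => by simpa using congrArg (fun p => p.2.1) h)]
  simp

lemma card_N_touch (g : GV n) (U : Finset (Vx n)) :
    ((Q.N g).filter (fun g' => ¬ Disjoint (vs g') U)).card ≤ U.card := by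
  have : (Q.N g).filter (fun g' => ¬ Disjoint (vs g') U)
      ⊆ U.biUnion (fun u => (Q.N g).filter (fun g' => u ∈ vs g')) := by
    intro g' h
    obtain ⟨h1, h2⟩ := mem_filter.1 h
    obtain ⟨u, hu, hu'⟩ := not_disjoint_iff.1 h2
    exact mem_biUnion.2 ⟨u, hu', mem_filter.2 ⟨h1, hu⟩⟩
  refine (card_le_card this).trans ((card_biUnion_le_card_mul _ _ 1 (fun u _ => ?_)).trans
    (by simp))
  rw [card_le_one]
  intro a ha b hb
  obtain ⟨a1, a2⟩ := mem_filter.1 ha
  obtain ⟨b1, b2⟩ := mem_filter.1 hb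
  obtain ⟨a3, a4⟩ := mem_N.1 a1
  obtain ⟨b3, b4⟩ := mem_N.1 b1
  have h := not_disjoint_iff.2 ⟨u, a2, b2⟩
  have h1 : a.2.1 = b.2.1 := by
    by_contra hne
    refine h (disj_vs (fun _ => ⟨hne, fun e => hne ((Q.nb g).injective ?_)⟩))
    rw [a4, b4, e]
  exact Prod.ext (a3.trans b3.symm) (Prod.ext h1 (by rw [← a4, ← b4, h1]))

end Cube

end Pool.Agent.Lib.MP_cdd51b_co
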