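import Pool.Agent.Lib.MP_cdd51b_co.Basic
import Pool.Agent.Lib.MP_cdd51b_co.Box

set_option autoImplicit false

namespace Pool.Agent.Lib.MP_cdd51b_co

open Finset

abbrev Val (n : ℕ) := Fin 64 × Fin n × Fin n

variable {n : ℕ}

namespace Cube

variable (Q : Cube n)

/-- The value `v` of the key `x` is active and shares a resource with the cell `e`. -/
def Tch (x : Fin n) (v : Val n) (e : Cell n) : Prop :=
  v.1 = 0 ∧ ∃ i, i ≠ 0 ∧ Q.co (x, v.2) i = Q.co e i

/-- The cell `e` is chosen and isolated. -/
def InK (ω : Fin n → Val n) (e : Cell n) : Prop :=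
  ω e.1 = (0, e.2) ∧ ∀ x, x ≠ e.1 → ¬ Q.Tch x (ω x) e

open Classical in
/-- The core: chosen isolated cells. -/
noncomputable def K (ω : Fin n → Val n) : Finset (Cell n) := univ.filter (Q.InK ω)

lemma mem_K {ω : Fin n → Val n} {e : Cell n} : e ∈ Q.K ω ↔ Q.InK ω e := by
  classical
  simp [K]

lemma K_isM (ω : Fin n → Val n) : Q.IsM (Q.K ω) := by
  intro e he f hf hef i hi
  rw [mem_K] at he hf
  by_cases h1 : e.1 = f.1
  · have := he.1
    rw [h1, hf.1] at this
    apply hef
    exact Prod.ext h1 (Prod.ext_iff.1 this).2.symm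
  · by_cases h0 : i = 0
    · subst h0; exact h1 hi
    · apply hf.2 e.1 h1
      rw [he.1]
      exact ⟨rfl, i, h0, hi⟩

/-- The knowledge invariant. -/
def Inv (S : Fin n → Finset (Val n)) (D : Finset (Vx n)) : Prop :=
  (∀ x, ((0 : Fin 4), x) ∉ D → ∀ v : Val n,
    (v.1 = 0 → ∀ i, i ≠ 0 → (i, Q.co (x, v.2) i) ∉ D) → v ∈ S x) ∧
  (∀ x, (∀ v ∈ S x, v.1 = 0 → ∀ i, i ≠ 0 → (i, Q.co (x, v.2) i) ∈ D) ∨
    (∀ v : Val n, v.1 ≠ 0 → v ∈ S x))

open Classical in
lemma card_tch_le (x : Fin n) (e : Cell n) :
    (univ.filter (fun v : Val n => Q.Tch x v e)).card ≤ 3 * n := by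
  have h1 := card_pairs_le' (fun y _ : Fin n => y) (fun _ => Function.injective_id) {Q.co e 1}
  have h2 := card_pairs_le (fun _ z : Fin n => z) (fun _ => Function.injective_id) {Q.co e 2}
  have h3 := card_pairs_le (fun y z : Fin n => Q.L x y z) (fun y => Q.h3 x y) {Q.co e 3}
  simp only [card_singleton, mul_one] at h1 h2 h3
  have : (univ.filter (fun v : Val n => Q.Tch x v e)).card ≤
      (univ.filter (fun p : Fin n × Fin n => p.1 ∈ ({Q.co e 1} : Finset (Fin n))) ∪
       univ.filter (fun p : Fin n × Fin n => p.2 ∈ ({Q.co e 2} : Finset (Fin n))) ∪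
       univ.filter (fun p : Fin n × Fin n => Q.L x p.1 p.2 ∈ ({Q.co e 3} : Finset (Fin n)))).card := by
    apply card_le_card_of_injOn (fun v => v.2)
    · intro v hv
      simp only [coe_filter, mem_univ, true_and, Set.mem_setOf_eq] at hv
      obtain ⟨_, i, hi, h⟩ := hv
      simp only [coe_union, coe_filter, mem_univ, true_and, Set.mem_union, Set.mem_setOf_eq,
        mem_singleton]
      fin_cases i
      · exact absurd rfl hi
      · exact Or.inl (Or.inl h)
      · exact Or.inl (Or.inr h)
      · exact Or.inr h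
    · intro v hv v' hv' h
      simp only [coe_filter, mem_univ, true_and, Set.mem_setOf_eq] at hv hv'
      exact Prod.ext (hv.1.trans hv'.1.symm) h
  have := this.trans ((card_union_le _ _).trans (Nat.add_le_add_right (card_union_le _ _) _))
  omega

lemma card_inact : (univ.filter (fun v : Val n => v.1 ≠ 0)).card = 63 * (n * n) := by
  have : univ.filter (fun v : Val n => v.1 ≠ 0)
      = (univ.filter (fun a : Fin 64 => a ≠ 0)) ×ˢ (univ : Finset (Fin n × Fin n)) := by
    ext v; simp
  rw [this, card_product]
  have : (univ.filter (fun a : Fin 64 => a ≠ 0)).card = 63 := by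
    rw [filter_ne' , card_erase_of_mem (mem_univ _)]; simp
  simp [this]

variable {Q} {T : (Fin n → Val n) → Prop}

lemma iso (hn : 0 < n) (e : Cell n) (D : Finset (Vx n))
    (hcl : ∀ i, i ≠ 0 → (i, Q.co e i) ∉ D) {a c : ℝ} (hac : a ≤ c) (l : Finset (Fin n)) :
    ∀ S : Fin n → Finset (Val n), e.1 ∉ l → S e.1 = {(0, e.2)} →
    (∀ x, ((0 : Fin 4), x) ∉ D ∪ Q.verts e → ∀ v : Val n,
      (v.1 = 0 → ∀ i, i ≠ 0 → (i, Q.co (x, v.2) i) ∉ D ∪ Q.verts e) → v ∈ S x) →
    (∀ x, x ≠ e.1 → (∀ v ∈ S x, v.1 = 0 → ∀ i, i ≠ 0 → (i, Q.co (x, v.2) i) ∈ D) ∨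
      (∀ v : Val n, v.1 ≠ 0 → v ∈ S x)) →
    (∀ x, x ≠ e.1 → x ∉ l → ∀ v ∈ S x, ¬ Q.Tch x v e) →
    (∀ S' : Fin n → Finset (Val n), (∀ x, S' x ⊆ S x) → Q.Inv S' (D ∪ Q.verts e) →
      (∀ ω : Fin n → Val n, (∀ x, ω x ∈ S' x) → Q.InK ω e) → Bd T S' a) →
    (∀ (f : Cell n) (S' : Fin n → Finset (Val n)), (∀ x, S' x ⊆ S x) →
      Q.Inv S' (D ∪ Q.verts e ∪ Q.verts f) → Bd T S' c) →
    Bd T S (a + (c - a) * l.card / (21 * n)) := by
  classical
  have hself : ∀ S : Fin n → Finset (Val n), S e.1 = {(0, e.2)} → ∀ D' : Finset (Vx n),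
      Q.verts e ⊆ D' → ∀ v ∈ S e.1, v.1 = 0 → ∀ i, i ≠ 0 → (i, Q.co (e.1, v.2) i) ∈ D' := by
    intro S hS D' hD' v hv _ i _
    rw [hS, mem_singleton] at hv
    subst hv
    exact hD' (Q.mem_verts.2 rfl)
  have hnR : (0 : ℝ) < n := by exact_mod_cast hn
  induction l using Finset.induction_on with
  | empty =>
    intro S _ hS h1 h2 h3 hs _
    simp only [card_empty, Nat.cast_zero, mul_zero, zero_div, add_zero]
    refine hs S (fun _ => subset_rfl) ⟨h1, fun x => ?_⟩ (fun ω hω => ⟨?_, fun x hx => ?_⟩)
    · by_cases hx : x = e.1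
      · subst hx; exact Or.inl (hself S hS _ subset_union_right)
      · exact (h2 x hx).imp_left (fun h v hv h0 i hi => mem_union_left _ (h v hv h0 i hi))
    · have := hω e.1
      rwa [hS, mem_singleton] at this
    · exact h3 x hx (notMem_empty _) _ (hω x)
  | insert x l hx ih =>
    intro S hel hS h1 h2 h3 hs ht
    have hxe : x ≠ e.1 := fun h => hel (h ▸ mem_insert_self _ _)
    have hel' : e.1 ∉ l := fun h => hel (mem_insert_of_mem h)
    have hca : 0 ≤ c - a := sub_nonneg.2 hac
    rw [card_insert_of_notMem hx]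
    rcases h2 x hxe with hx2 | hx2
    · refine (ih S hel' hS h1 h2 (fun y hy hyl v hv => ?_) hs ht).mono ?_
      · by_cases hyx : y = x
        · subst hyx
          rintro ⟨h0, i, hi, hh⟩
          exact hcl i hi (hh ▸ hx2 v hv h0 i hi)
        · exact h3 y hy (by simp [hyx, hyl]) v hv
      · push_cast
        gcongr
        linarith
    · set P := (S x).filter (fun v => Q.Tch x v e) with hP
      have hPc : (P.card : ℝ) ≤ 3 * n := by
        have : P.card ≤ 3 * n := (card_le_card (filter_subset_filter _ (subset_univ _))).trans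
          (Q.card_tch_le x e)
        exact_mod_cast this
      have hSc : (63 * (n * n) : ℝ) ≤ (S x).card := by
        have : 63 * (n * n) ≤ (S x).card := by
          rw [← card_inact]
          exact card_le_card (fun v hv => hx2 v (mem_filter.1 hv).2)
        exact_mod_cast this
      have hsub : ∀ (P' : Finset (Val n)), P' ⊆ S x → ∀ y, Function.update S x P' y ⊆ S y := by
        intro P' hP' y
        by_cases hy : y = x
        · subst hy; simpa using hP'
        · rw [Function.update_of_ne hy]
      refine Bd.split (x := x) (P := P) (filter_subset _ _) (a := c)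
        (b := a + (c - a) * l.card / (21 * n)) (fun v hv => ?_) ?_ ?_
      · have hv' := mem_filter.1 hv
        refine ht (x, v.2) _ (hsub _ (singleton_subset_iff.2 hv'.1)) ⟨fun y hy u hu => ?_, fun y => ?_⟩
        · have hyx : y ≠ x := by
            rintro rfl
            exact hy (mem_union_right _ (Q.mem_verts.2 rfl))
          rw [Function.update_of_ne hyx]
          exact h1 y (fun h => hy (mem_union_left _ h)) u
            (fun h0 i hi h => hu h0 i hi (mem_union_left _ h))
        · by_cases hyx : y = x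
          · subst hyx
            left
            intro u hu _ i _
            simp only [Function.update_self, mem_singleton] at hu
            subst hu
            exact mem_union_right _ (Q.mem_verts.2 rfl)
          · rw [Function.update_of_ne hyx]
            by_cases hy : y = e.1
            · subst hy
              exact Or.inl (hself S hS _ (subset_union_right.trans subset_union_left))
            · exact (h2 y hy).imp_left (fun h v hv h0 i hi =>
                mem_union_left _ (mem_union_left _ (h v hv h0 i hi)))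
      · refine ih _ hel' (by rw [Function.update_of_ne hxe.symm, hS]) (fun y hy u hu => ?_)
          (fun y hy => ?_) (fun y hy hyl v hv => ?_)
          (fun S' h => hs S' (fun y => (h y).trans (hsub _ sdiff_subset y)))
          (fun f S' h => ht f S' (fun y => (h y).trans (hsub _ sdiff_subset y)))
        · by_cases hyx : y = x
          · subst hyx
            rw [Function.update_self, mem_sdiff]
            refine ⟨h1 y hy u hu, fun h => ?_⟩
            obtain ⟨h0, i, hi, hh⟩ := (mem_filter.1 h).2
            exact hu h0 i hi (mem_union_right _ (Q.mem_verts.2 hh.symm))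
          · rw [Function.update_of_ne hyx]; exact h1 y hy u hu
        · by_cases hyx : y = x
          · subst hyx
            right
            intro u hu
            rw [Function.update_self, mem_sdiff]
            exact ⟨hx2 u hu, fun h => hu (mem_filter.1 h).2.1⟩
          · rw [Function.update_of_ne hyx]; exact h2 y hy
        · by_cases hyx : y = x
          · subst hyx
            rw [Function.update_self, mem_sdiff] at hv
            exact fun h => hv.2 (mem_filter.2 ⟨hv.1, h⟩)
          · rw [Function.update_of_ne hyx] at hv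
            exact h3 y hy (by simp [hyx, hyl]) v hv
      · push_cast
        have e1 : a + (c - a) * (l.card + 1) / (21 * n)
            = (a + (c - a) * l.card / (21 * n)) + (c - a) / (21 * n) := by ring
        rw [e1]
        set A := a + (c - a) * l.card / (21 * n) with hA
        have hAa : a ≤ A := by rw [hA]; simp only [le_add_iff_nonneg_right]; positivity
        have e2 : (3 * n : ℝ) * (c - a) = 63 * (n * n) * ((c - a) / (21 * n)) := by
          field_simp; ring
        have e3 : (P.card : ℝ) * (c - A) ≤ 3 * n * (c - a) := by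
          have : (P.card : ℝ) * (c - A) ≤ P.card * (c - a) :=
            mul_le_mul_of_nonneg_left (by linarith) (Nat.cast_nonneg _)
          exact this.trans (mul_le_mul_of_nonneg_right hPc hca)
        have e4 : 63 * (n * n) * ((c - a) / (21 * n)) ≤ (S x).card * ((c - a) / (21 * n)) :=
          mul_le_mul_of_nonneg_right hSc (by positivity)
        nlinarith

/-- The primitive query: reveal whether the key `x` takes a value in `G`, and if so whether it
is isolated. -/
lemma query (hn : 0 < n) {S : Fin n → Finset (Val n)} {D : Finset (Vx n)} (hI : Q.Inv S D)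
    {x : Fin n} (hx : ((0 : Fin 4), x) ∉ D) (G : Finset (Fin n × Fin n))
    (hG : ∀ p ∈ G, ∀ i, i ≠ 0 → (i, Q.co (x, p) i) ∉ D) {a b c q : ℝ} (hac : a ≤ c)
    (hb : (20 * a + c) / 21 ≤ b) (hq0 : 0 ≤ q) (hq : q * (64 * (n * n)) ≤ G.card)
    (hs : ∀ p ∈ G, ∀ S' : Fin n → Finset (Val n), (∀ y, S' y ⊆ S y) →
      Q.Inv S' (D ∪ Q.verts (x, p)) →
      (∀ ω : Fin n → Val n, (∀ y, ω y ∈ S' y) → Q.InK ω (x, p)) → Bd T S' a)
    (hm : ∀ S' : Fin n → Finset (Val n), (∀ y, S' y ⊆ S y) → Q.Inv S' (insert (0, x) D) →
      Bd T S' b)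
    (ht : ∀ p ∈ G, ∀ (f : Cell n) (S' : Fin n → Finset (Val n)), (∀ y, S' y ⊆ S y) →
      Q.Inv S' (D ∪ Q.verts (x, p) ∪ Q.verts f) → Bd T S' c) :
    Bd T S (b - q * (b - (20 * a + c) / 21)) := by
  classical
  have hnR : (0 : ℝ) < n := by exact_mod_cast hn
  set P : Finset (Val n) := G.image (fun p => ((0 : Fin 64), p)) with hP
  have hPc : P.card = G.card := card_image_of_injective _ (fun p p' h => (Prod.ext_iff.1 h).2)
  have hPS : P ⊆ S x := by
    intro v hv
    obtain ⟨p, hp, rfl⟩ := mem_image.1 hv
    exact hI.1 x hx _ (fun _ => hG p hp)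
  have hsub : ∀ (P' : Finset (Val n)), P' ⊆ S x → ∀ y, Function.update S x P' y ⊆ S y := by
    intro P' hP' y
    by_cases hy : y = x
    · subst hy; simpa using hP'
    · rw [Function.update_of_ne hy]
  refine Bd.split (x := x) hPS (a := (20 * a + c) / 21) (b := b) (fun v hv => ?_) ?_ ?_
  · have hvS := hPS hv
    obtain ⟨p, hp, rfl⟩ := mem_image.1 hv
    have hle := hsub _ (singleton_subset_iff.2 hvS)
    refine (iso hn (x, p) D (hG p hp) hac (univ.erase x) _ (by simp) (by simp)
      (fun y hy u hu => ?_) (fun y hy => ?_) (fun y hy hyl => absurd (by simpa using hy) hyl)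
      (fun S' h => hs p hp S' (fun y => (h y).trans (hle y)))
      (fun f S' h => ht p hp f S' (fun y => (h y).trans (hle y)))).mono ?_
    · have hyx : y ≠ x := by
        rintro rfl
        exact hy (mem_union_right _ (Q.mem_verts.2 rfl))
      rw [Function.update_of_ne hyx]
      exact hI.1 y (fun h => hy (mem_union_left _ h)) u
        (fun h0 i hi h => hu h0 i hi (mem_union_left _ h))
    · rw [Function.update_of_ne hy]; exact hI.2 y
    · have h1 : ((univ.erase x).card : ℝ) ≤ n := by
        have : (univ.erase x).card ≤ n := (card_le_univ _).trans (by simp)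
        exact_mod_cast this
      have h2 : (c - a) * (univ.erase x).card / (21 * n) ≤ (c - a) * n / (21 * n) := by
        have := sub_nonneg.2 hac
        gcongr
      have h3 : (c - a) * n / (21 * n) = (c - a) / 21 := by field_simp
      linarith
  · refine hm _ (hsub _ sdiff_subset) ⟨fun y hy u hu => ?_, fun y => ?_⟩
    · have hyx : y ≠ x := by
        rintro rfl
        exact hy (mem_insert_self _ _)
      rw [Function.update_of_ne hyx]
      exact hI.1 y (fun h => hy (mem_insert_of_mem h)) u
        (fun h0 i hi h => hu h0 i hi (mem_insert_of_mem h))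
    · by_cases hyx : y = x
      · subst hyx
        right
        intro u hu
        rw [Function.update_self, mem_sdiff]
        refine ⟨hI.1 y hx u (fun h => absurd h hu), fun h => ?_⟩
        obtain ⟨p, _, rfl⟩ := mem_image.1 h
        exact hu rfl
      · rw [Function.update_of_ne hyx]
        exact (hI.2 y).imp_left (fun h v hv h0 i hi => mem_insert_of_mem (h v hv h0 i hi))
  · have h1 : ((S x).card : ℝ) ≤ 64 * (n * n) := by
      have : (S x).card ≤ 64 * (n * n) := (card_le_univ _).trans (by simp)
      exact_mod_cast this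
    rw [hPc]
    have h2 : q * (S x).card ≤ G.card := (mul_le_mul_of_nonneg_left h1 hq0).trans hq
    have h3 := mul_le_mul_of_nonneg_right h2 (sub_nonneg.2 hb)
    nlinarith

end Cube

end Pool.Agent.Lib.MP_cdd51b_co
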