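import Pool.Agent.Lib.MP_cdd51b_co.Fam

set_option autoImplicit false

namespace Pool.Agent.Lib.MP_cdd51b_co

open Finset

/-- The tokens: free vertices used by an augmentation. -/
structure Tok (n t : ℕ) where
  xa : Fin n
  xb : Fin n
  ya : Fin n
  yb : Fin n
  wa : Fin n
  wb : Fin n
  za : Fin n
  zb : Fin n
  zd : Fin 3 → Fin n
  O : Fin 3 → Finset (Fin n)
  hx : xa ≠ xb
  hy : ya ≠ yb
  hw : wa ≠ wb
  hz : za ≠ zb
  hO : ∀ i, (O i).card = t
  hzd : ∀ i, zd i ∉ O i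
  hdis : ∀ i j, i ≠ j → Disjoint (insert (zd i) (O i)) (insert (zd j) (O j))
  hza : ∀ i, za ∉ insert (zd i) (O i)
  hzb : ∀ i, zb ∉ insert (zd i) (O i)

variable {n t : ℕ}

def Tok.J (τ : Tok n t) : Finset (Vx n) := {(0, τ.xa), (0, τ.xb), (2, τ.za), (2, τ.zb)}

def Tok.In (τ : Tok n t) (U : Finset (Vx n)) : Prop :=
  τ.J ⊆ U ∧ ((1 : Fin 4), τ.ya) ∈ U ∧ ((1 : Fin 4), τ.yb) ∈ U ∧ ((3 : Fin 4), τ.wa) ∈ U ∧
    ((3 : Fin 4), τ.wb) ∈ U ∧ ∀ i, ∀ o ∈ insert (τ.zd i) (τ.O i), ((2 : Fin 4), o) ∈ U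

namespace Cube

variable {Q : Cube n} {B : Finset (Fin n)} {U : Finset (Vx n)}

/-- The starting state attached to a root edge. -/
def start (Q : Cube n) (τ : Tok n t) (i : Fin 3) (e : Cell n) : St n :=
  ⟨e.2.1, τ.zd i, Q.L e.1 e.2.1 e.2.2, τ.O i, ∅⟩

lemma root_exch (τ : Tok n t) (hU : τ.In U) (e1 e2 e3 : Cell n)
    (h2 : Q.L e2.1 τ.ya e1.2.2 = τ.wa) (h3 : Q.L e3.1 τ.yb e2.2.2 = τ.wb)
    (c1 : ∀ j, (j, Q.co e1 j) ∉ U) (c2 : ∀ j, (j, Q.co e2 j) ∉ U) (c3 : ∀ j, (j, Q.co e3 j) ∉ U)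
    (d12 : ∀ j, Q.co e1 j ≠ Q.co e2 j) (d13 : ∀ j, Q.co e1 j ≠ Q.co e3 j)
    (d23 : ∀ j, Q.co e2 j ≠ Q.co e3 j) :
    Q.Exch U {e3, e2, e1} (τ.J ∪ ((Q.start τ 0 e1).out ∪ ((Q.start τ 1 e2).out ∪
      (Q.start τ 2 e3).out))) (-1) := by
  obtain ⟨u0, u1, u2, u3, u4, u5⟩ := hU
  have a1 : Q.Exch U {e1} (Q.verts e1 ∪ U) (-1) := by
    have := (Exch.refl (Q := Q) U).step (Exch.remove e1) (empty_subset _) (disjoint_empty_left _)
      (Out := Q.verts e1 ∪ U) (by simp)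
    simpa using this
  have a2 := a1.swap (e := e2) (f := (e2.1, τ.ya, e1.2.2))
    (Out := (Q.verts e2 ∪ (Q.verts e1 ∪ U)) \ Q.verts (e2.1, τ.ya, e1.2.2))
    (fun h => d12 0 (by rw [mem_singleton.1 h])) (by
      intro u hu
      obtain ⟨j, a⟩ := u
      rw [Q.mem_verts] at hu
      simp only at hu
      subst hu
      simp only [mem_union, Q.mem_verts]
      fin_cases j
      · exact Or.inl rfl
      · exact Or.inr (Or.inr u1)
      · exact Or.inr (Or.inl rfl)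
      · refine Or.inr (Or.inr ?_)
        show ((3 : Fin 4), Q.L e2.1 τ.ya e1.2.2) ∈ U
        rw [h2]; exact u3) subset_rfl
  refine a2.swap (e := e3) (f := (e3.1, τ.yb, e2.2.2)) ?_ ?_ ?_
  · simp only [mem_insert, mem_singleton, not_or]
    exact ⟨fun h => d23 0 (by rw [h]), fun h => d13 0 (by rw [h])⟩
  · intro u hu
    obtain ⟨j, a⟩ := u
    rw [Q.mem_verts] at hu
    simp only at hu
    subst hu
    simp only [mem_union, mem_sdiff, Q.mem_verts]
    fin_cases j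
    · exact Or.inl rfl
    · exact Or.inr ⟨Or.inr (Or.inr u2), τ.hy⟩
    · exact Or.inr ⟨Or.inl rfl, d12 2⟩
    · refine Or.inr ⟨Or.inr (Or.inr ?_), ?_⟩
      · show ((3 : Fin 4), Q.L e3.1 τ.yb e2.2.2) ∈ U
        rw [h3]; exact u4
      · show Q.L e2.1 τ.ya e1.2.2 ≠ Q.L e3.1 τ.yb e2.2.2
        rw [h2, h3]; exact τ.hw
  · have key : ∀ u : Vx n, ((u ∈ U ∧ (u.1 = 0 ∨ u.1 = 2)) ∨
        ((u ∈ Q.verts e1 ∨ u ∈ Q.verts e2 ∨ u ∈ Q.verts e3) ∧ (u.1 = 1 ∨ u.1 = 3))) →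
        u ∈ (Q.verts e3 ∪ ((Q.verts e2 ∪ (Q.verts e1 ∪ U)) \ Q.verts (e2.1, τ.ya, e1.2.2))) \
          Q.verts (e3.1, τ.yb, e2.2.2) := by
      rintro ⟨j, a⟩ h
      simp only [mem_union, mem_sdiff]
      rcases h with ⟨hu, hj⟩ | ⟨hu, hj⟩
      · refine ⟨Or.inr ⟨Or.inr (Or.inr hu), fun h => ?_⟩, fun h => ?_⟩
        · rw [Q.mem_verts] at h
          simp only at h hj
          subst h
          rcases hj with rfl | rfl
          · exact c2 0 hu
          · exact c1 2 hu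
        · rw [Q.mem_verts] at h
          simp only at h hj
          subst h
          rcases hj with rfl | rfl
          · exact c3 0 hu
          · exact c2 2 hu
      · have hnU : (j, a) ∉ U := by
          intro hh
          rcases hu with h | h | h <;> rw [Q.mem_verts] at h <;> simp only at h <;> subst h
          · exact c1 j hh
          · exact c2 j hh
          · exact c3 j hh
        have n2 : (j, a) ∉ Q.verts (e2.1, τ.ya, e1.2.2) := by
          intro h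
          rw [Q.mem_verts] at h
          simp only at h hj
          subst h
          rcases hj with rfl | rfl
          · exact hnU u1
          · exact hnU (by show ((3 : Fin 4), Q.L e2.1 τ.ya e1.2.2) ∈ U; rw [h2]; exact u3)
        have n3 : (j, a) ∉ Q.verts (e3.1, τ.yb, e2.2.2) := by
          intro h
          rw [Q.mem_verts] at h
          simp only at h hj
          subst h
          rcases hj with rfl | rfl
          · exact hnU u2
          · exact hnU (by show ((3 : Fin 4), Q.L e3.1 τ.yb e2.2.2) ∈ U; rw [h3]; exact u4)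
        refine ⟨?_, n3⟩
        rcases hu with h | h | h
        · exact Or.inr ⟨Or.inr (Or.inl h), n2⟩
        · exact Or.inr ⟨Or.inl h, n2⟩
        · exact Or.inl h
    have key2 : ∀ (i : Fin 3) (e : Cell n), ∀ u ∈ (Q.start τ i e).out,
        (u ∈ U ∧ (u.1 = 0 ∨ u.1 = 2)) ∨ (u ∈ Q.verts e ∧ (u.1 = 1 ∨ u.1 = 3)) := by
      intro i e u hu
      rcases St.mem_out.1 hu with rfl | rfl | ⟨hu1, hu2⟩
      · exact Or.inr ⟨Q.mem_verts.2 rfl, Or.inl rfl⟩
      · exact Or.inr ⟨Q.mem_verts.2 rfl, Or.inr rfl⟩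
      · obtain ⟨j, a⟩ := u
        simp only at hu1
        subst hu1
        exact Or.inl ⟨u5 i a hu2, Or.inr rfl⟩
    intro u hu
    apply key
    simp only [mem_union] at hu
    rcases hu with hu | hu | hu | hu
    · refine Or.inl ⟨u0 hu, ?_⟩
      simp only [Tok.J, mem_insert, mem_singleton] at hu
      rcases hu with rfl | rfl | rfl | rfl <;> simp
    · exact (key2 _ _ u hu).imp_right (fun h => ⟨Or.inl h.1, h.2⟩)
    · exact (key2 _ _ u hu).imp_right (fun h => ⟨Or.inr (Or.inl h.1), h.2⟩)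
    · exact (key2 _ _ u hu).imp_right (fun h => ⟨Or.inr (Or.inr h.1), h.2⟩)

lemma start_disj (τ : Tok n t) {i j : Fin 3} (hij : i ≠ j) {e f : Cell n}
    (d : ∀ j, Q.co e j ≠ Q.co f j) : Disjoint (Q.start τ i e).out (Q.start τ j f).out := by
  rw [disjoint_left]
  intro u h1 h2
  rcases St.mem_out.1 h1 with rfl | rfl | ⟨hu1, hu2⟩
  · rcases St.mem_out.1 h2 with h | h | ⟨h, _⟩
    · exact d 1 (Prod.ext_iff.1 h).2
    · exact absurd (Prod.ext_iff.1 h).1 (by simp)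
    · exact absurd h (by simp)
  · rcases St.mem_out.1 h2 with h | h | ⟨h, _⟩
    · exact absurd (Prod.ext_iff.1 h).1 (by simp)
    · exact d 3 (Prod.ext_iff.1 h).2
    · exact absurd h (by simp)
  · rcases St.mem_out.1 h2 with rfl | rfl | ⟨_, h⟩
    · exact absurd hu1 (by simp)
    · exact absurd hu1 (by simp)
    · exact disjoint_left.1 (τ.hdis i j hij) hu2 h

lemma J_disj (τ : Tok n t) (i : Fin 3) (e : Cell n) : Disjoint τ.J (Q.start τ i e).out := by
  rw [disjoint_left]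
  intro u h1 h2
  simp only [Tok.J, mem_insert, mem_singleton] at h1
  rcases St.mem_out.1 h2 with rfl | rfl | ⟨hu1, hu2⟩
  · simp at h1
  · simp at h1
  · rcases h1 with rfl | rfl | rfl | rfl
    · exact absurd hu1 (by simp)
    · exact absurd hu1 (by simp)
    · exact τ.hza i hu2
    · exact τ.hzb i hu2

lemma start_WV (τ : Tok n t) (hU : τ.In U) {W : Wd n} (hD : U ⊆ W.D) (i : Fin 3) (k : ℕ)
    {e : Cell n} (he : Q.verts e ⊆ W.D) :
    Q.WV B t W k (Q.start τ i e) (Q.start τ i e) 0 := by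
  refine ⟨Exch.refl _, fun u hu => ?_, τ.hO i, τ.hzd i, le_rfl, fun e he => absurd he (notMem_empty _)⟩
  rcases St.mem_out.1 hu with rfl | rfl | ⟨hu1, hu2⟩
  · exact he (Q.mem_verts.2 rfl)
  · exact he (Q.mem_verts.2 rfl)
  · obtain ⟨j, a⟩ := u
    simp only at hu1
    subst hu1
    exact hD (hU.2.2.2.2.2 i a hu2)

variable {T : (Fin n → Val n) → Prop}

lemma rootTri (hn : 0 < n) (τ : Tok n t) (hU : τ.In U) {W : Wd n} (hI : Q.WInv B W)
    (hD : U ⊆ W.D) (A : Finset (Fin n))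
    (h : 2 * (4 * (W.D.card + 8) + t * (A.card + 2 * t)) ≤ n) {a b : ℝ} (hab : a ≤ b)
    (hs : ∀ (W' : Wd n) (ρ : Rt n), W.Ref W' → Q.WInv B W' →
      W'.D.card ≤ W.D.card + 16 → Q.RV B U τ.J W' ρ →
      (∀ i : Fin 3, Q.WV B t W' i (ρ.st i) (ρ.st i) 0) →
      (∀ i, Disjoint (Q.keys (ρ.st i)) A) →
      (∀ i i', i ≠ i' → Disjoint (Q.keys (ρ.st i)) (Q.keys (ρ.st i'))) → Bd T W'.S a)
    (hf : ∀ W' : Wd n, W.Ref W' → Q.WInv B W' → W'.D.card ≤ W.D.card + 16 → Bd T W'.S b) :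
    Bd T W.S (b - (b - a) / 135 ^ 3) := by
  obtain ⟨r1, hr1⟩ : ∃ r : Fin n, r ∉ pr 0 W.D := by
    by_contra hcon
    push Not at hcon
    have e1 : (univ : Finset (Fin n)).card ≤ (pr 0 W.D).card := card_le_card (fun x _ => hcon x)
    have e2 := card_pr_le 0 W.D
    simp only [card_univ, Fintype.card_fin] at e1
    omega
  rw [mem_pr] at hr1
  have hins : ∀ (r : Fin n) (D : Finset (Vx n)), (insert r (pr 0 D)).card ≤ D.card + 1 :=
    fun r D => (card_insert_le _ _).trans (Nat.add_le_add_right (card_pr_le _ _) _)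
  have hfr : ∀ (r r' : Fin n) (p : Fin n × Fin n) (D : Finset (Vx n)),
      r' ∉ insert r (pr 0 D) → ((0 : Fin 4), r') ∉ D ∪ Q.verts (r, p) := by
    intro r r' p D h1 h2
    rw [mem_union, Q.mem_verts] at h2
    rw [mem_insert, mem_pr, not_or] at h1
    exact h2.elim h1.2 (fun h => h1.1 h.symm)
  have hcl : ∀ (r : Fin n) (p : Fin n × Fin n) (D : Finset (Vx n)), ((0 : Fin 4), r) ∉ D →
      (∀ j, j ≠ 0 → (j, Q.co (r, p) j) ∉ D) → ∀ j, (j, Q.co (r, p) j) ∉ D := by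
    intro r p D h1 h2 j
    by_cases hj : j = 0
    · subst hj; exact h1
    · exact h2 j hj
  have hkd : ∀ (i : Fin 3) (r : Fin n) (p : Fin n × Fin n) (A : Finset (Fin n)),
      (∀ o ∈ τ.O i, Q.sx p.1 o (Q.L r p.1 p.2) ∉ A) → Disjoint (Q.keys (Q.start τ i (r, p))) A := by
    intro i r p A h
    rw [disjoint_left]
    intro k hk hkA
    obtain ⟨o', ho', rfl⟩ := mem_image.1 hk
    exact h o' ho' hkA
  have hkc : ∀ (i : Fin 3) (e : Cell n), (Q.keys (Q.start τ i e)).card = t :=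
    fun i e => by rw [card_keys]; exact τ.hO i
  refine (query2 hn hI 3 hr1 (τ.O 0) A (insert r1 (pr 0 W.D)) (fun z => Q.sx τ.ya z τ.wa)
    (Q.sx_inj_z _ _) (by have := hins r1 W.D; rw [τ.hO]; nlinarith)
    (a := b - (b - a) / 135 ^ 2) (b := b)
    (by linarith) (fun p1 x1 k1 f1 W1 r1' i1 d1 g1 => ?_)
    (fun W' a1 a2 a3 => hf W' a1 a2 (by omega))).mono (le_of_eq (by ring))
  have c1 : W1.D.card ≤ W.D.card + 4 := by
    rw [d1]; exact (card_union_le _ _).trans (Nat.add_le_add_left (Q.card_verts_le _) _)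
  set r2 := Q.sx τ.ya p1.2 τ.wa with hr2def
  have hr2 : ((0 : Fin 4), r2) ∉ W1.D := by rw [d1]; exact hfr _ _ _ _ f1
  have hA1 : (A ∪ Q.keys (Q.start τ 0 (r1, p1))).card ≤ A.card + t :=
    (card_union_le _ _).trans (by rw [hkc])
  refine (query2 hn i1 3 hr2 (τ.O 1) (A ∪ Q.keys (Q.start τ 0 (r1, p1)))
    (insert r2 (pr 0 W1.D)) (fun z => Q.sx τ.yb z τ.wb)
    (Q.sx_inj_z _ _) (by have := hins r2 W1.D; rw [τ.hO]; nlinarith)
    (a := b - (b - a) / 135) (b := b)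
    (by linarith) (fun p2 x2 k2 f2 W2 r2' i2 d2 g2 => ?_)
    (fun W' a1 a2 a3 => hf W' (r1'.trans a1) a2 (by omega))).mono (le_of_eq (by ring))
  have c2 : W2.D.card ≤ W1.D.card + 4 := by
    rw [d2]; exact (card_union_le _ _).trans (Nat.add_le_add_left (Q.card_verts_le _) _)
  set r3 := Q.sx τ.yb p2.2 τ.wb with hr3def
  have hr3 : ((0 : Fin 4), r3) ∉ W2.D := by rw [d2]; exact hfr _ _ _ _ f2
  have hA2 : (A ∪ Q.keys (Q.start τ 0 (r1, p1)) ∪ Q.keys (Q.start τ 1 (r2, p2))).card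
      ≤ A.card + 2 * t := by
    have := card_union_le (A ∪ Q.keys (Q.start τ 0 (r1, p1))) (Q.keys (Q.start τ 1 (r2, p2)))
    rw [hkc] at this
    omega
  refine query2 hn i2 3 hr3 (τ.O 2)
    (A ∪ Q.keys (Q.start τ 0 (r1, p1)) ∪ Q.keys (Q.start τ 1 (r2, p2))) ∅ id
    Function.injective_id (by rw [τ.hO, card_empty]; nlinarith) hab
    (fun p3 x3 k3 _ W3 r3' i3 d3 g3 => ?_)
    (fun W' a1 a2 a3 => hf W' ((r1'.trans r2').trans a1) a2 (by omega))
  have c3 : W3.D.card ≤ W2.D.card + 4 := by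
    rw [d3]; exact (card_union_le _ _).trans (Nat.add_le_add_left (Q.card_verts_le _) _)
  have y1 := hcl _ _ _ hr1 x1
  have y2 := hcl _ _ _ hr2 x2
  have y3 := hcl _ _ _ hr3 x3
  have v1 : Q.verts (r1, p1) ⊆ W1.D := by rw [d1]; exact subset_union_right
  have v2 : Q.verts (r2, p2) ⊆ W2.D := by rw [d2]; exact subset_union_right
  have v3 : Q.verts (r3, p3) ⊆ W3.D := by rw [d3]; exact subset_union_right
  have d12 : ∀ j, Q.co (r1, p1) j ≠ Q.co (r2, p2) j :=
    fun j h => y2 j (v1 (Q.mem_verts.2 h))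
  have d13 : ∀ j, Q.co (r1, p1) j ≠ Q.co (r3, p3) j :=
    fun j h => y3 j (r2'.2.1 (v1 (Q.mem_verts.2 h)))
  have d23 : ∀ j, Q.co (r2, p2) j ≠ Q.co (r3, p3) j :=
    fun j h => y3 j (v2 (Q.mem_verts.2 h))
  have k1' := hkd 0 r1 p1 _ k1
  have k2' := hkd 1 r2 p2 _ k2
  have k3' := hkd 2 r3 p3 _ k3
  rw [disjoint_union_right] at k2'
  rw [disjoint_union_right, disjoint_union_right] at k3'
  have hall := (r1'.trans r2').trans r3'
  refine hs W3 ⟨{(r3, p3), (r2, p2), (r1, p1)},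
    ![Q.start τ 0 (r1, p1), Q.start τ 1 (r2, p2), Q.start τ 2 (r3, p3)]⟩ hall i3 (by omega)
    ⟨?_, fun i => ?_, fun i j hij => ?_, card_le_three, fun e he => ?_⟩ (fun i => ?_)
    (fun i => ?_) (fun i i' hi => ?_)
  · exact root_exch τ hU _ _ _ (Q.L_sx _ _ _) (Q.L_sx _ _ _) (fun j h => y1 j (hD h))
      (fun j h => y2 j (r1'.2.1 (hD h))) (fun j h => y3 j ((r1'.trans r2').2.1 (hD h)))
      d12 d13 d23
  · fin_cases i <;> exact J_disj τ _ _
  · fin_cases i <;> fin_cases j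
    · exact absurd rfl hij
    · exact start_disj τ (by decide) d12
    · exact start_disj τ (by decide) d13
    · exact (start_disj τ (by decide) d12).symm
    · exact absurd rfl hij
    · exact start_disj τ (by decide) d23
    · exact (start_disj τ (by decide) d13).symm
    · exact (start_disj τ (by decide) d23).symm
    · exact absurd rfl hij
  · simp only [mem_insert, mem_singleton] at he
    rcases he with rfl | rfl | rfl
    · exact g3
    · exact g2.mono r3'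
    · exact g1.mono (r2'.trans r3')
  · fin_cases i
    · exact start_WV τ hU (hD.trans hall.2.1) _ _ (v1.trans (r2'.trans r3').2.1)
    · exact start_WV τ hU (hD.trans hall.2.1) _ _ (v2.trans r3'.2.1)
    · exact start_WV τ hU (hD.trans hall.2.1) _ _ v3
  · fin_cases i
    · exact k1'
    · exact k2'.1
    · exact k3'.1.1
  · fin_cases i <;> fin_cases i'
    · exact absurd rfl hi
    · exact k2'.2.symm
    · exact k3'.1.2.symm
    · exact k2'.2
    · exact absurd rfl hi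
    · exact k3'.2.symm
    · exact k3'.1.2
    · exact k3'.2
    · exact absurd rfl hi

/-- The root stage: build the first family. -/
lemma rootStage (hn : 0 < n) (ht : 0 < t) (τ : Tok n t) (hU : τ.In U) {W : Wd n}
    (hI : Q.WInv B W) (hD : U ⊆ W.D) (N0 j0 : ℕ)
    (hsz : 2 * (4 * (W.D.card + 16 * N0 + 8) + t * (W.D.card + j0 * (3 * t) + 2 * t)) ≤ n)
    {a : ℝ} (ha : 0 ≤ a)
    (hc : ∀ (W' : Wd n) (F' : Finset (Tr n)), Q.WInv B W' → Q.Fam B t U τ.J W' W.D F' 0 →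
      W.D ⊆ W'.D → W'.D.card ≤ W.D.card + 16 * N0 → F'.card = j0 → Bd T W'.S a) :
    Bd T W.S (a + 2 ^ j0 * mu ^ N0) := by
  classical
  refine Bd.loop (T := T) (fun s : Wd n × Finset (Tr n) => s.1.S)
    (fun N j s => W.Ref s.1 ∧ Q.WInv B s.1 ∧ s.1.D.card + 16 * N ≤ W.D.card + 16 * N0 ∧
      Q.Fam B t U τ.J s.1 W.D s.2 0 ∧ s.2.card + j = j0)
    a mu ha mu_nonneg ?_ ?_ N0 j0 (W, ∅)
    ⟨Wd.Ref.refl _, hI, le_rfl, Fam.empty _ _ _, by simp⟩
  · rintro N ⟨W', F'⟩ ⟨h1, h2, h3, h4, h5⟩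
    exact hc W' F' h2 h4 h1.2.1 (by simp only at h3; omega) h5
  · rintro N j ⟨W', F'⟩ ⟨h1, h2, h3, h4, h5⟩ A hA g1 g2 _
    simp only at h1 h2 h3 h4 h5 g1 g2 ⊢
    have hAc : (pr 0 W.D ∪ Q.allKeys F').card ≤ W.D.card + j0 * (3 * t) := by
      have a1 := card_union_le (pr 0 W.D) (Q.allKeys F')
      have a2 := card_pr_le 0 W.D
      have a3 := h4.card_allKeys
      have a4 : F'.card * (3 * t) ≤ j0 * (3 * t) := Nat.mul_le_mul_right _ (by omega)
      omega
    refine (rootTri hn τ hU h2 (hD.trans h1.2.1)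
      (pr 0 W.D ∪ Q.allKeys F') ?_ (a := a + A) (b := a + 2 * A) (by linarith)
      (fun W2 ρ r2 i2 c2 v1 v2 k2 k3 => ?_) (fun W2 r2 i2 c2 => ?_)).mono
      (le_of_eq (by unfold mu; ring))
    · have a1 : t * ((pr 0 W.D ∪ Q.allKeys F').card + 2 * t)
          ≤ t * (W.D.card + j0 * (3 * t) + 2 * t) := Nat.mul_le_mul_left _ (by omega)
      omega
    · obtain ⟨n1, n2⟩ := (h4.mono r2 subset_rfl).insert ht (c := (ρ, ρ.st)) v1 v2 k2 k3
      refine g1 (W2, insert (ρ, ρ.st) F') ⟨h1.trans r2, i2, by simp only; omega, n2, ?_⟩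
      simp only; rw [card_insert_of_notMem n1]; omega
    · exact g2 (W2, F') ⟨h1.trans r2, i2, by simp only; omega, h4.mono r2 subset_rfl, h5⟩

end Cube

end Pool.Agent.Lib.MP_cdd51b_co
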