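import Pool.Agent.Lib.MP_cdd51b_co.Query

set_option autoImplicit false

namespace Pool.Agent.Lib.MP_cdd51b_co

open Finset

/-- A state of knowledge: a box, a dirty vertex set, and tags of keys. -/
structure Wd (n : ℕ) where
  S : Fin n → Finset (Val n)
  D : Finset (Vx n)
  τ : Fin n → ℕ

/-- A walk state. -/
structure St (n : ℕ) where
  y : Fin n
  z : Fin n
  w : Fin n
  O : Finset (Fin n)
  E : Finset (Cell n)

variable {n : ℕ}

def Wd.Ref (W W' : Wd n) : Prop :=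
  (∀ x, W'.S x ⊆ W.S x) ∧ W.D ⊆ W'.D ∧ ∀ x, ((0 : Fin 4), x) ∈ W.D → W'.τ x = W.τ x

lemma Wd.Ref.refl (W : Wd n) : W.Ref W := ⟨fun _ => subset_rfl, subset_rfl, fun _ _ => rfl⟩

lemma Wd.Ref.trans {W1 W2 W3 : Wd n} (h1 : W1.Ref W2) (h2 : W2.Ref W3) : W1.Ref W3 :=
  ⟨fun x => (h2.1 x).trans (h1.1 x), h1.2.1.trans h2.2.1,
    fun x hx => (h2.2.2 x (h1.2.1 hx)).trans (h1.2.2 x hx)⟩

/-- The free vertices carried by a walk state. -/
def St.out (s : St n) : Finset (Vx n) :=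
  insert (1, s.y) (insert (3, s.w) ((insert s.z s.O).image (fun o => ((2 : Fin 4), o))))

lemma St.mem_out {s : St n} {u : Vx n} :
    u ∈ s.out ↔ u = (1, s.y) ∨ u = (3, s.w) ∨ (u.1 = 2 ∧ u.2 ∈ insert s.z s.O) := by
  obtain ⟨i, a⟩ := u
  simp only [St.out, mem_insert (a := (i, a)), mem_image, Prod.mk.injEq]
  constructor
  · rintro (h | h | ⟨o, ho, h1, h2⟩)
    · exact Or.inl h
    · exact Or.inr (Or.inl h)
    · exact Or.inr (Or.inr ⟨h1.symm, h2 ▸ ho⟩)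
  · rintro (h | h | ⟨h1, h2⟩)
    · exact Or.inl h
    · exact Or.inr (Or.inl h)
    · exact Or.inr (Or.inr ⟨a, h2, h1.symm, rfl⟩)

namespace Cube

variable (Q : Cube n) (B : Finset (Fin n)) (t : ℕ)

def WInv (W : Wd n) : Prop := Q.Inv W.S W.D ∧ ∀ x ∈ B, ((0 : Fin 4), x) ∈ W.D

def Good (W : Wd n) (i : ℕ) (e : Cell n) : Prop :=
  (∀ ω : Fin n → Val n, (∀ x, ω x ∈ W.S x) → Q.InK ω e) ∧ ((0 : Fin 4), e.1) ∈ W.D ∧
    W.τ e.1 = i ∧ e.1 ∉ B

noncomputable def keys (s : St n) : Finset (Fin n) := s.O.image (fun o => Q.sx s.y o s.w)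

def WV (W : Wd n) (i : ℕ) (s0 s : St n) (l : ℕ) : Prop :=
  Q.Exch s0.out s.E s.out 0 ∧ s.out ⊆ W.D ∧ s.O.card = t ∧ s.z ∉ s.O ∧ s.E.card ≤ l ∧
    ∀ e ∈ s.E, Q.Good B W i e

noncomputable def next (s : St n) (o : Fin n) (p : Fin n × Fin n) : St n :=
  ⟨p.1, p.2, Q.L (Q.sx s.y o s.w) p.1 p.2, insert s.z (s.O.erase o),
    insert (Q.sx s.y o s.w, p) s.E⟩

variable {Q B t}

lemma card_keys (s : St n) : (Q.keys s).card = s.O.card :=
  card_image_of_injective _ (Q.sx_inj_z _ _)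

lemma Good.mono {W W' : Wd n} {i : ℕ} {e : Cell n} (h : Q.Good B W i e) (hr : W.Ref W') :
    Q.Good B W' i e :=
  ⟨fun ω hω => h.1 ω (fun x => hr.1 x (hω x)), hr.2.1 h.2.1,
    (hr.2.2 _ h.2.1).trans h.2.2.1, h.2.2.2⟩

lemma WV.mono {W W' : Wd n} {i : ℕ} {s0 s : St n} {l : ℕ} (h : Q.WV B t W i s0 s l)
    (hr : W.Ref W') : Q.WV B t W' i s0 s l :=
  ⟨h.1, h.2.1.trans hr.2.1, h.2.2.1, h.2.2.2.1, h.2.2.2.2.1,
    fun e he => (h.2.2.2.2.2 e he).mono hr⟩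

lemma WV.next {W W' : Wd n} {i : ℕ} {s0 s : St n} {l : ℕ} (h : Q.WV B t W i s0 s l)
    {o : Fin n} (ho : o ∈ s.O) (hx : ((0 : Fin 4), Q.sx s.y o s.w) ∉ W.D) {p : Fin n × Fin n}
    (hp : ∀ j, j ≠ 0 → (j, Q.co (Q.sx s.y o s.w, p) j) ∉ W.D) (hr : W.Ref W')
    (hD : Q.verts (Q.sx s.y o s.w, p) ⊆ W'.D) (hg : Q.Good B W' i (Q.sx s.y o s.w, p)) :
    Q.WV B t W' i s0 (Q.next s o p) (l + 1) := by
  obtain ⟨h1, h2, h3, h4, h5, h6⟩ := h
  set x := Q.sx s.y o s.w with hxdef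
  have hy : ((1 : Fin 4), s.y) ∈ W.D := h2 (St.mem_out.2 (Or.inl rfl))
  have hw : ((3 : Fin 4), s.w) ∈ W.D := h2 (St.mem_out.2 (Or.inr (Or.inl rfl)))
  have hz : ∀ o' ∈ insert s.z s.O, ((2 : Fin 4), o') ∈ W.D :=
    fun o' h => h2 (St.mem_out.2 (Or.inr (Or.inr ⟨rfl, h⟩)))
  have p1 : ((1 : Fin 4), p.1) ∉ W.D := hp 1 (by decide)
  have p2 : ((2 : Fin 4), p.2) ∉ W.D := hp 2 (by decide)
  have p3 : ((3 : Fin 4), Q.L x p.1 p.2) ∉ W.D := hp 3 (by decide)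
  have hL : Q.L x s.y o = s.w := Q.L_sx _ _ _
  have hsub : insert s.z (s.O.erase o) ⊆ insert s.z s.O :=
    insert_subset_insert _ (erase_subset _ _)
  have hout : (Q.next s o p).out ⊆ (Q.verts (x, p) ∪ s.out) \ Q.verts (x, s.y, o) := by
    intro u hu
    rw [mem_sdiff, mem_union, Q.mem_verts, Q.mem_verts]
    rcases St.mem_out.1 hu with rfl | rfl | ⟨hu1, hu2⟩
    · exact ⟨Or.inl rfl, fun h => p1 (by rw [show p.1 = s.y from h.symm]; exact hy)⟩
    · refine ⟨Or.inl rfl, fun h => p3 ?_⟩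
      have : Q.L x s.y o = Q.L x p.1 p.2 := h
      rw [← this, hL]; exact hw
    · obtain ⟨j, a⟩ := u
      simp only at hu1 hu2
      subst hu1
      rcases mem_insert.1 hu2 with hu2 | hu2
      · have : a = p.2 := hu2
        subst this
        exact ⟨Or.inl rfl, fun h => p2 (by
          rw [show p.2 = o from h.symm]; exact hz o (mem_insert_of_mem ho))⟩
      · refine ⟨Or.inr (St.mem_out.2 (Or.inr (Or.inr ⟨rfl, hsub hu2⟩))), fun h => ?_⟩
        have : o = a := h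
        subst this
        rcases mem_insert.1 hu2 with h | h
        · exact h4 (h ▸ ho)
        · exact (mem_erase.1 h).1 rfl
  refine ⟨?_, ?_, ?_, ?_, ?_, ?_⟩
  · refine h1.swap (e := (x, p)) (f := (x, s.y, o)) (fun he => hx (h6 _ he).2.1) ?_ hout
    intro u hu
    obtain ⟨j, a⟩ := u
    rw [Q.mem_verts] at hu
    simp only at hu
    subst hu
    rw [mem_union]
    fin_cases j
    · exact Or.inl (Q.mem_verts.2 rfl)
    · exact Or.inr (St.mem_out.2 (Or.inl rfl))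
    · exact Or.inr (St.mem_out.2 (Or.inr (Or.inr ⟨rfl, mem_insert_of_mem ho⟩)))
    · exact Or.inr (St.mem_out.2 (Or.inr (Or.inl (Prod.ext rfl hL))))
  · exact hout.trans (sdiff_subset.trans (union_subset hD (h2.trans hr.2.1)))
  · show (insert s.z (s.O.erase o)).card = t
    rw [card_insert_of_notMem (fun h => h4 (mem_of_mem_erase h)), card_erase_add_one ho, h3]
  · exact fun h => p2 (hz _ (hsub h))
  · exact (card_insert_le _ _).trans (Nat.add_le_add_right h5 1)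
  · intro e he
    rcases mem_insert.1 he with rfl | he
    · exact hg
    · exact (h6 e he).mono hr

variable {T : (Fin n → Val n) → Prop}

/-- The primitive query at the level of worlds. -/
lemma wquery (hn : 0 < n) {W : Wd n} (hI : Q.WInv B W) (i : ℕ)
    {x : Fin n} (hx : ((0 : Fin 4), x) ∉ W.D) (G : Finset (Fin n × Fin n))
    (hG : ∀ p ∈ G, ∀ j, j ≠ 0 → (j, Q.co (x, p) j) ∉ W.D) {a b c q : ℝ} (hac : a ≤ c)
    (hb : (20 * a + c) / 21 ≤ b) (hq0 : 0 ≤ q) (hq : q * (64 * (n * n)) ≤ G.card)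
    (hs : ∀ p ∈ G, ∀ W' : Wd n, W.Ref W' → Q.WInv B W' → W'.D = W.D ∪ Q.verts (x, p) →
      Q.Good B W' i (x, p) → Bd T W'.S a)
    (hm : ∀ W' : Wd n, W.Ref W' → Q.WInv B W' → W'.D = insert (0, x) W.D → Bd T W'.S b)
    (ht : ∀ p ∈ G, ∀ (f : Cell n) (W' : Wd n), W.Ref W' → Q.WInv B W' →
      W'.D = W.D ∪ Q.verts (x, p) ∪ Q.verts f → Bd T W'.S c) :
    Bd T W.S (b - q * (b - (20 * a + c) / 21)) := by
  refine query hn hI.1 hx G hG hac hb hq0 hq (fun p hp S' h1 h2 h3 => ?_)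
    (fun S' h1 h2 => ?_) (fun p hp f S' h1 h2 => ?_)
  · refine hs p hp ⟨S', W.D ∪ Q.verts (x, p), Function.update W.τ x i⟩
      ⟨h1, subset_union_left, fun y hy => ?_⟩ ⟨h2, fun y hy => mem_union_left _ (hI.2 y hy)⟩ rfl
      ⟨h3, mem_union_right _ (Q.mem_verts.2 rfl), by simp, fun h => hx (hI.2 _ h)⟩
    exact Function.update_of_ne (fun (h : y = x) => hx (h ▸ hy)) _ _
  · exact hm ⟨S', insert (0, x) W.D, W.τ⟩ ⟨h1, subset_insert _ _, fun _ _ => rfl⟩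
      ⟨h2, fun y hy => mem_insert_of_mem (hI.2 y hy)⟩ rfl
  · exact ht p hp f ⟨S', W.D ∪ Q.verts (x, p) ∪ Q.verts f, W.τ⟩
      ⟨h1, subset_union_left.trans subset_union_left, fun _ _ => rfl⟩
      ⟨h2, fun y hy => mem_union_left _ (mem_union_left _ (hI.2 y hy))⟩ rfl

open Classical in
/-- Many values are clean, have fresh next keys, and satisfy one more avoidance condition. -/
lemma exists_G (Q : Cube n) (x : Fin n) (D : Finset (Vx n)) (O A A2 : Finset (Fin n))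
    (ψ : Fin n → Fin n) (hψ : Function.Injective ψ)
    (h : 2 * (3 * D.card + O.card * A.card + A2.card) ≤ n) :
    ∃ G : Finset (Fin n × Fin n), n * n ≤ 2 * G.card ∧ ∀ p ∈ G,
      (∀ j, j ≠ 0 → (j, Q.co (x, p) j) ∉ D) ∧ (∀ o ∈ O, Q.sx p.1 o (Q.L x p.1 p.2) ∉ A) ∧
        ψ p.2 ∉ A2 := by
  set X1 := univ.filter (fun p : Fin n × Fin n => p.1 ∈ pr 1 D)
  set X2 := univ.filter (fun p : Fin n × Fin n => p.2 ∈ pr 2 D)
  set X3 := univ.filter (fun p : Fin n × Fin n => Q.L x p.1 p.2 ∈ pr 3 D)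
  set X4 := O.biUnion (fun o => univ.filter
    (fun p : Fin n × Fin n => Q.sx p.1 o (Q.L x p.1 p.2) ∈ A))
  set X5 := univ.filter (fun p : Fin n × Fin n => ψ p.2 ∈ A2)
  have h1 : X1.card ≤ n * D.card := (card_pairs_le' (fun y _ : Fin n => y)
    (fun _ => Function.injective_id) _).trans (Nat.mul_le_mul_left _ (card_pr_le _ _))
  have h2 : X2.card ≤ n * D.card := (card_pairs_le (fun _ z : Fin n => z)
    (fun _ => Function.injective_id) _).trans (Nat.mul_le_mul_left _ (card_pr_le _ _))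
  have h3 : X3.card ≤ n * D.card := (card_pairs_le (fun y z : Fin n => Q.L x y z)
    (fun y => Q.h3 x y) _).trans (Nat.mul_le_mul_left _ (card_pr_le _ _))
  have h4 : X4.card ≤ O.card * (n * A.card) := card_biUnion_le_card_mul _ _ _ (fun o _ =>
    card_pairs_le (fun y z : Fin n => Q.sx y o (Q.L x y z))
      (fun y => (Q.sx_inj_w y o).comp (Q.h3 x y)) _)
  have h5 : X5.card ≤ n * A2.card := card_pairs_le (fun _ z : Fin n => ψ z) (fun _ => hψ) _
  refine ⟨univ \ (X1 ∪ X2 ∪ X3 ∪ X4 ∪ X5), ?_, fun p hp => ?_⟩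
  · have e1 := card_sdiff_add_card_eq_card (subset_univ (X1 ∪ X2 ∪ X3 ∪ X4 ∪ X5))
    have e2 : (X1 ∪ X2 ∪ X3 ∪ X4 ∪ X5).card ≤ X1.card + X2.card + X3.card + X4.card + X5.card := by
      have a1 := card_union_le (X1 ∪ X2 ∪ X3 ∪ X4) X5
      have a2 := card_union_le (X1 ∪ X2 ∪ X3) X4
      have a3 := card_union_le (X1 ∪ X2) X3
      have a4 := card_union_le X1 X2
      omega
    simp only [card_univ, Fintype.card_prod, Fintype.card_fin] at e1
    have e3 := Nat.mul_le_mul_left n h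
    nlinarith
  · simp only [mem_sdiff, mem_univ, true_and, mem_union, not_or, X1, X2, X3, X4, X5, mem_filter,
      mem_pr, mem_biUnion, not_exists, not_and] at hp
    obtain ⟨⟨⟨⟨a1, a2⟩, a3⟩, a4⟩, a5⟩ := hp
    refine ⟨fun j hj => ?_, a4, a5⟩
    fin_cases j
    · exact absurd rfl hj
    · exact a1
    · exact a2
    · exact a3

/-- A two-outcome query with fresh next keys. -/
lemma query2 (hn : 0 < n) {W : Wd n} (hI : Q.WInv B W) (i : ℕ)
    {x : Fin n} (hx : ((0 : Fin 4), x) ∉ W.D) (O A A2 : Finset (Fin n))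
    (ψ : Fin n → Fin n) (hψ : Function.Injective ψ)
    (h : 2 * (3 * W.D.card + O.card * A.card + A2.card) ≤ n) {a b : ℝ} (hab : a ≤ b)
    (hs : ∀ p : Fin n × Fin n, (∀ j, j ≠ 0 → (j, Q.co (x, p) j) ∉ W.D) →
      (∀ o ∈ O, Q.sx p.1 o (Q.L x p.1 p.2) ∉ A) → ψ p.2 ∉ A2 →
      ∀ W' : Wd n, W.Ref W' → Q.WInv B W' → W'.D = W.D ∪ Q.verts (x, p) →
      Q.Good B W' i (x, p) → Bd T W'.S a)
    (hf : ∀ W' : Wd n, W.Ref W' → Q.WInv B W' → W'.D.card ≤ W.D.card + 8 → Bd T W'.S b) :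
    Bd T W.S (b - (b - a) / 135) := by
  obtain ⟨G, hG1, hG2⟩ := Q.exists_G x W.D O A A2 ψ hψ h
  have hG1' : ((n : ℝ) * n) ≤ 2 * G.card := by exact_mod_cast hG1
  refine (wquery hn hI i hx G (fun p hp => (hG2 p hp).1) (a := a) (b := b) (c := b)
    (q := 1 / 128) hab (by linarith) (by norm_num) (by linarith)
    (fun p hp => hs p (hG2 p hp).1 (hG2 p hp).2.1 (hG2 p hp).2.2)
    (fun W' h1 h2 h3 => hf W' h1 h2 ?_) (fun p _ f W' h1 h2 h3 => hf W' h1 h2 ?_)).mono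
    (by linarith)
  · rw [h3]; exact (card_insert_le _ _).trans (by omega)
  · rw [h3]
    have a1 := card_union_le (W.D ∪ Q.verts (x, p)) (Q.verts f)
    have a2 := card_union_le W.D (Q.verts (x, p))
    have a3 := Q.card_verts_le (x, p)
    have a4 := Q.card_verts_le f
    omega

/-- One step of a walk, with fresh next keys. -/
lemma step2 (hn : 0 < n) {W : Wd n} (hI : Q.WInv B W) {i : ℕ} {s0 s : St n} {l : ℕ}
    (hV : Q.WV B t W i s0 s l) {o : Fin n} (ho : o ∈ s.O)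
    (hx : ((0 : Fin 4), Q.sx s.y o s.w) ∉ W.D) (A : Finset (Fin n))
    (h : 2 * (3 * W.D.card + t * A.card) ≤ n) {a b : ℝ} (hab : a ≤ b)
    (hs : ∀ (W' : Wd n) (s' : St n), W.Ref W' → Q.WInv B W' → W'.D.card ≤ W.D.card + 4 →
      (∀ x, ((0 : Fin 4), x) ∈ W'.D → ((0 : Fin 4), x) ∈ W.D ∨ x = Q.sx s.y o s.w) →
      Q.WV B t W' i s0 s' (l + 1) → Disjoint (Q.keys s') A → Bd T W'.S a)
    (hf : ∀ W' : Wd n, W.Ref W' → Q.WInv B W' → W'.D.card ≤ W.D.card + 8 → Bd T W'.S b) :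
    Bd T W.S (b - (b - a) / 135) := by
  have hc : (insert s.z (s.O.erase o)).card = t := by
    rw [card_insert_of_notMem (fun h => hV.2.2.2.1 (mem_of_mem_erase h)), card_erase_add_one ho,
      hV.2.2.1]
  refine query2 hn hI i hx (insert s.z (s.O.erase o)) A ∅ id Function.injective_id
    (by rw [hc]; simpa using h) hab (fun p h1 h2 _ W' h3 h4 h5 h6 => ?_) hf
  refine hs W' (Q.next s o p) h3 h4 ?_ (fun x hx' => ?_)
    (hV.next ho hx h1 h3 (by rw [h5]; exact subset_union_right) h6) ?_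
  · rw [h5]
    exact (card_union_le _ _).trans (Nat.add_le_add_left (Q.card_verts_le _) _)
  · rw [h5, mem_union, Q.mem_verts] at hx'
    exact hx'.imp_right (fun h => h.symm)
  · rw [disjoint_left]
    intro k hk hkA
    obtain ⟨o', ho', rfl⟩ := mem_image.1 hk
    exact h2 o' ho' hkA

end Cube

end Pool.Agent.Lib.MP_cdd51b_co
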