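import Pool.Agent.Lib.MP_cdd51b_co.Expect

set_option autoImplicit false

namespace Pool.Agent.Lib.MP_cdd51b_co

open Finset

variable {n : ℕ}

namespace Cube

variable {Q : Cube n}

open Classical in
lemma l2_bound (hn : 0 < n) {M : Finset (Cell n)} (hM : Q.IsM M) {d : ℝ} (hd : 0 ≤ d)
    (h1 : qq n * n - d ≤ M.card) (j : Fin 4) (Z : Finset (Fin n)) (φ : Fin n → Fin n → Fin n)
    (hφ : ∀ z, Function.Injective (φ z))
    (h2 : ∀ z z', z ≠ z' → (Q.Nb M j (φ z) (φ z') : ℝ) ≤ qq n ^ 2 * n + 1 + d) :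
    (∑ x, |((Z.filter (fun z => Q.Cov M (j, φ z x))).card : ℝ) - qq n * Z.card|) ^ 2
      ≤ n * (Z.card * n + Z.card ^ 2 * (1 + 2 * d)) := by
  obtain ⟨q0, q1⟩ := qq_bounds hn
  set q := qq n
  set g : ℝ := (Z.card : ℝ) with hg
  have g0 : 0 ≤ g := Nat.cast_nonneg _
  set ind : Fin n → Fin n → ℝ := fun z x => if Q.Cov M (j, φ z x) then 1 else 0 with hind
  have e1 : ∀ x, ((Z.filter (fun z => Q.Cov M (j, φ z x))).card : ℝ) = ∑ z ∈ Z, ind z x := by
    intro x
    rw [card_filter]; push_cast; rfl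
  have e2 : ∀ z, ∑ x, ind z x = M.card := by
    intro z
    rw [← hM.card_cov j, card_filter]
    push_cast
    exact Fintype.sum_bijective (φ z) (Finite.injective_iff_bijective.1 (hφ z)) _ _ (fun _ => rfl)
  have e3 : ∀ z z', ∑ x, ind z x * ind z' x = Q.Nb M j (φ z) (φ z') := by
    intro z z'
    rw [Nb, card_filter]
    push_cast
    apply sum_congr rfl
    intro x _
    simp only [hind]
    by_cases a : Q.Cov M (j, φ z x) <;> by_cases b : Q.Cov M (j, φ z' x) <;> simp [a, b]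
  have R0 : 0 ≤ q ^ 2 * n + 1 + d := by positivity
  have e4 : ∀ z ∈ Z, ∑ z' ∈ Z, ∑ x, ind z x * ind z' x ≤ n + g * (q ^ 2 * n + 1 + d) := by
    intro z hz
    rw [← add_sum_erase _ _ hz]
    apply add_le_add
    · rw [e3]
      have : Q.Nb M j (φ z) (φ z) ≤ n := (card_le_univ _).trans (by simp)
      exact_mod_cast this
    · refine (sum_le_card_nsmul _ _ (q ^ 2 * n + 1 + d) (fun z' hz' => ?_)).trans ?_
      · rw [e3]; exact h2 z z' (mem_erase.1 hz').1.symm
      · rw [nsmul_eq_mul]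
        apply mul_le_mul_of_nonneg_right _ R0
        rw [hg]; exact_mod_cast card_erase_le
  have e5 : ∑ x, (∑ z ∈ Z, ind z x) ^ 2 ≤ g * (n + g * (q ^ 2 * n + 1 + d)) := by
    have : ∑ x, (∑ z ∈ Z, ind z x) ^ 2 = ∑ z ∈ Z, ∑ z' ∈ Z, ∑ x, ind z x * ind z' x := by
      simp only [sq, sum_mul_sum]
      rw [sum_comm]
      apply sum_congr rfl
      intro z _
      exact sum_comm
    rw [this, hg, ← nsmul_eq_mul]
    exact sum_le_card_nsmul _ _ _ e4
  have e6 : ∑ x, ∑ z ∈ Z, ind z x = g * M.card := by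
    rw [sum_comm, sum_congr rfl (fun z _ => e2 z), sum_const, nsmul_eq_mul]
  have e7 : ∑ x, |(∑ z ∈ Z, ind z x) - q * g| ^ 2 ≤ g * n + g ^ 2 * (1 + 2 * d) := by
    have : ∑ x, |(∑ z ∈ Z, ind z x) - q * g| ^ 2 = ∑ x, (∑ z ∈ Z, ind z x) ^ 2
        - 2 * q * g * (∑ x, ∑ z ∈ Z, ind z x) + n * (q * g) ^ 2 := by
      rw [mul_sum, ← sum_sub_distrib]
      have : (n : ℝ) * (q * g) ^ 2 = ∑ _x : Fin n, (q * g) ^ 2 := by simp
      rw [this, ← sum_add_distrib]
      apply sum_congr rfl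
      intro x _
      rw [sq_abs]; ring
    rw [this, e6]
    have a1 : 2 * q * g * (g * (q * n - d)) ≤ 2 * q * g * (g * M.card) := by gcongr
    have a2 : g ^ 2 * (2 * q * d) ≤ g ^ 2 * d := by
      apply mul_le_mul_of_nonneg_left _ (sq_nonneg _)
      nlinarith
    nlinarith
  simp only [e1]
  refine (sq_sum_le_card_mul_sum_sq (s := univ)).trans ?_
  simp only [card_univ, Fintype.card_fin]
  exact mul_le_mul_of_nonneg_left e7 (Nat.cast_nonneg _)

open Classical in
lemma expand (hn : 0 < n) {M : Finset (Cell n)} (hM : Q.IsM M) {d : ℝ} (hd : 0 ≤ d)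
    (hT : Q.Typ M d) (y : Fin n) (Z : Finset (Fin n)) (hZ : 0 < Z.card) (E0 : ℕ)
    (hE : 16 * (n * (Z.card * n + Z.card ^ 2 * (1 + 2 * d))) ≤ ((E0 : ℝ) * Z.card) ^ 2)
    (A : Finset (Fin n)) (hA : ∀ x ∈ A, ¬ Q.Cov M (0, x)) :
    A.card ≤ (univ.filter (fun w => ¬ Q.Cov M (3, w) ∧ ∃ x ∈ A, ∃ z ∈ Z, Q.L x y z = w)).card
      + E0 := by
  obtain ⟨q0, q1⟩ := qq_bounds hn
  set N := univ.filter (fun w => ¬ Q.Cov M (3, w) ∧ ∃ x ∈ A, ∃ z ∈ Z, Q.L x y z = w)
  have b1 := l2_bound hn hM hd hT.1 3 Z (fun z x => Q.L x y z) (fun z => Q.h1 y z)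
    (fun z z' h => (hT.2 y z z' h).1)
  have b2 := l2_bound hn hM hd hT.1 0 Z (fun z w => Q.sx y z w) (fun z => Q.sx_inj_w y z)
    (fun z z' h => (hT.2 y z z' h).2)
  set q := qq n
  set g : ℝ := (Z.card : ℝ) with hg
  have g0 : 0 < g := by rw [hg]; exact_mod_cast hZ
  set d3 : Fin n → ℝ := fun x => ((Z.filter (fun z => Q.Cov M (3, Q.L x y z))).card : ℝ)
  set d0 : Fin n → ℝ := fun w => ((Z.filter (fun z => Q.Cov M (0, Q.sx y z w))).card : ℝ)
  have c1 : ∑ x, |d3 x - q * g| ≤ E0 * g / 4 := by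
    refine le_of_sq_le_sq ?_ (by positivity)
    nlinarith
  have c2 : ∑ x, |d0 x - q * g| ≤ E0 * g / 4 := by
    refine le_of_sq_le_sq ?_ (by positivity)
    nlinarith
  have k1 : ∑ x ∈ A, (Z.filter (fun z => ¬ Q.Cov M (3, Q.L x y z))).card
      ≤ ∑ w ∈ N, (Z.filter (fun z => ¬ Q.Cov M (0, Q.sx y z w))).card := by
    simp only [card_filter]
    rw [sum_comm, sum_comm (s := N)]
    apply sum_le_sum
    intro z hz
    rw [← card_filter, ← card_filter]
    apply card_le_card_of_injOn (fun x => Q.L x y z)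
    · intro x hx
      have hx' := mem_filter.1 hx
      refine mem_filter.2 ⟨mem_filter.2 ⟨mem_univ _, hx'.2, x, hx'.1, z, hz, rfl⟩, ?_⟩
      rw [Q.sx_L]; exact hA x hx'.1
    · exact (Q.h1 y z).injOn
  have k2 : ∀ x, ((Z.filter (fun z => ¬ Q.Cov M (3, Q.L x y z))).card : ℝ) = g - d3 x := by
    intro x
    have := card_filter_add_card_filter_not (s := Z) (fun z => Q.Cov M (3, Q.L x y z))
    have := (Nat.cast_inj (R := ℝ)).2 this
    push_cast at this
    simp only [d3]; linarith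
  have k3 : ∀ w, ((Z.filter (fun z => ¬ Q.Cov M (0, Q.sx y z w))).card : ℝ) = g - d0 w := by
    intro w
    have := card_filter_add_card_filter_not (s := Z) (fun z => Q.Cov M (0, Q.sx y z w))
    have := (Nat.cast_inj (R := ℝ)).2 this
    push_cast at this
    simp only [d0]; linarith
  have k4 := (Nat.cast_le (α := ℝ)).2 k1
  push_cast at k4
  simp only [k2, k3] at k4
  have k5 : A.card * (g * (1 - q)) - E0 * g / 4 ≤ ∑ x ∈ A, (g - d3 x) := by
    have a1 : ∑ x ∈ A, |d3 x - q * g| ≤ ∑ x, |d3 x - q * g| :=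
      sum_le_sum_of_subset_of_nonneg (subset_univ _) (fun _ _ _ => abs_nonneg _)
    have a2 : ∑ x ∈ A, (g * (1 - q) - |d3 x - q * g|) ≤ ∑ x ∈ A, (g - d3 x) :=
      sum_le_sum (fun x _ => by have := le_abs_self (d3 x - q * g); linarith)
    rw [sum_sub_distrib, sum_const, nsmul_eq_mul] at a2
    linarith
  have k6 : ∑ w ∈ N, (g - d0 w) ≤ N.card * (g * (1 - q)) + E0 * g / 4 := by
    have a1 : ∑ x ∈ N, |d0 x - q * g| ≤ ∑ x, |d0 x - q * g| :=
      sum_le_sum_of_subset_of_nonneg (subset_univ _) (fun _ _ _ => abs_nonneg _)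
    have a2 : ∑ x ∈ N, (g - d0 x) ≤ ∑ x ∈ N, (g * (1 - q) + |d0 x - q * g|) :=
      sum_le_sum (fun x _ => by have := neg_abs_le (d0 x - q * g); linarith)
    rw [sum_add_distrib, sum_const, nsmul_eq_mul] at a2
    linarith
  have k7 : ((A.card : ℝ) - N.card) * (1 - q) ≤ E0 / 2 := by
    have : (((A.card : ℝ) - N.card) * (1 - q)) * g ≤ (E0 / 2) * g := by nlinarith
    exact le_of_mul_le_mul_right this g0
  have k8 : (A.card : ℝ) ≤ N.card + E0 := by
    by_contra hcon
    push Not at hcon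
    have : (0 : ℝ) ≤ E0 := Nat.cast_nonneg _
    nlinarith
  exact_mod_cast k8

open Classical in
/-- Woolbright's argument on the complement of the core. -/
lemma wool {K K' : Finset (Cell n)} (hK : Q.IsM K) (hK' : K' ⊆ K) (Rem : Finset (Vx n))
    (hR : ∀ u ∈ Rem, ¬ Q.Cov K' u) (b g h c E0 k : ℕ) (hb : ∀ j, (pr j Rem).card ≤ b)
    (hexp : ∀ (y : Fin n) (Z : Finset (Fin n)), Z.card = g → ∀ A : Finset (Fin n),
      (∀ x ∈ A, ¬ Q.Cov K (0, x)) → A.card ≤ (univ.filter
        (fun w => ¬ Q.Cov K (3, w) ∧ ∃ x ∈ A, ∃ z ∈ Z, Q.L x y z = w)).card + E0)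
    (h1 : h ≤ k) (h2 : h * g ≤ k) (h3 : c + (K \ K').card + E0 + b ≤ k) (h4 : n < h * c) :
    ∃ M, Q.IsM M ∧ K' ⊆ M ∧ (∀ u ∈ Rem, ¬ Q.Cov M u) ∧ n < M.card + b + k := by
  obtain ⟨M, hM, hmax⟩ := exists_max_image (univ.filter (fun M : Finset (Cell n) =>
    Q.IsM M ∧ K' ⊆ M ∧ ∀ u ∈ Rem, ¬ Q.Cov M u)) card
    ⟨K', mem_filter.2 ⟨mem_univ _, hK.mono hK', subset_rfl, hR⟩⟩
  obtain ⟨_, m1, m2, m3⟩ := mem_filter.1 hM
  refine ⟨M, m1, m2, m3, ?_⟩
  by_contra hcon
  push Not at hcon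
  set Fr : Fin 4 → Finset (Fin n) :=
    fun j => univ.filter (fun a => ¬ Q.Cov M (j, a) ∧ (j, a) ∉ Rem) with hFr
  have hFc : ∀ j, k ≤ (Fr j).card := by
    intro j
    have a1 : univ ⊆ Fr j ∪ (univ.filter (fun a => Q.Cov M (j, a)) ∪ pr j Rem) := by
      intro a _
      simp only [hFr, mem_union, mem_filter, mem_univ, true_and, mem_pr]
      tauto
    have a2 := (card_le_card a1).trans ((card_union_le _ _).trans
      (Nat.add_le_add_left (card_union_le _ _) _))
    rw [m1.card_cov] at a2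
    simp only [card_univ, Fintype.card_fin] at a2
    have := hb j
    omega
  have key : ∀ i, i ≤ h → ∃ A Yr Zr : Finset (Fin n), Yr ⊆ Fr 1 ∧ Zr ⊆ Fr 2 ∧ k ≤ Yr.card + i ∧
      k ≤ Zr.card + i * g ∧ Fr 0 ⊆ A ∧ i * c ≤ A.card ∧ ∀ x ∈ A, ((0 : Fin 4), x) ∉ Rem ∧
        ∃ Mx, Q.IsM Mx ∧ K' ⊆ Mx ∧ (∀ u ∈ Rem, ¬ Q.Cov Mx u) ∧ Mx.card = M.card ∧
          ¬ Q.Cov Mx (0, x) ∧ (∀ y ∈ Yr, ¬ Q.Cov Mx (1, y)) ∧ (∀ z ∈ Zr, ¬ Q.Cov Mx (2, z)) ∧
          (∀ e ∈ M, e.1 ∉ A → e ∈ Mx) ∧ ∀ w, Q.Cov Mx (3, w) → Q.Cov M (3, w) := by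
    intro i
    induction i with
    | zero =>
      intro _
      refine ⟨Fr 0, Fr 1, Fr 2, subset_rfl, subset_rfl, by simpa using hFc 1, by simpa using hFc 2,
        subset_rfl, by simp, fun x hx => ?_⟩
      have := (mem_filter.1 hx).2
      exact ⟨this.2, M, m1, m2, m3, rfl, this.1, fun y hy => (mem_filter.1 hy).2.1,
        fun z hz => (mem_filter.1 hz).2.1, fun e he _ => he, fun _ h => h⟩
    | succ i ih =>
      intro hi
      obtain ⟨A, Yr, Zr, a1, a2, a3, a4, a5, a6, a7⟩ := ih (by omega)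
      obtain ⟨y, hy⟩ : Yr.Nonempty := card_pos.1 (by omega)
      have hg : g ≤ Zr.card := by
        have : (i + 1) * g ≤ h * g := Nat.mul_le_mul_right _ hi
        rw [add_mul, one_mul] at this
        omega
      obtain ⟨Z, hZ1, hZ2⟩ := exists_subset_card_eq hg
      set A0 := A.filter (fun x => ¬ Q.Cov K (0, x))
      have b1 : A.card ≤ A0.card + (K \ K').card := by
        have : A ⊆ A0 ∪ (K \ K').image (fun e => e.1) := by
          intro x hx
          rw [mem_union]
          by_cases hc : Q.Cov K (0, x)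
          · obtain ⟨e, he, hex⟩ := hc
            obtain ⟨_, Mx, _, c2, _, _, c5, _⟩ := a7 x hx
            exact Or.inr (mem_image.2 ⟨e, mem_sdiff.2 ⟨he, fun h => c5 ⟨e, c2 h, hex⟩⟩, hex⟩)
          · exact Or.inl (mem_filter.2 ⟨hx, hc⟩)
        exact (card_le_card this).trans ((card_union_le _ _).trans
          (Nat.add_le_add_left card_image_le _))
      have b2 := hexp y Z hZ2 A0 (fun x hx => (mem_filter.1 hx).2)
      set N0 := univ.filter (fun w => ¬ Q.Cov K (3, w) ∧ ∃ x ∈ A0, ∃ z ∈ Z, Q.L x y z = w)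
      set N := N0 \ pr 3 Rem
      have b3 : N0.card ≤ N.card + b := by
        have : N0.card - (pr 3 Rem).card ≤ N.card := le_card_sdiff (pr 3 Rem) N0
        have := hb 3
        omega
      have hyF := (mem_filter.1 (a1 hy)).2
      have hav : ∀ x ∈ A, ∀ z ∈ Z, Q.L x y z ∈ N → ∀ u ∈ Rem, Q.co (x, y, z) u.1 ≠ u.2 := by
        intro x hx z hz hw u hu he
        obtain ⟨j, a⟩ := u
        simp only at he
        subst he
        fin_cases j
        · exact (a7 x hx).1 hu
        · exact hyF.2 hu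
        · exact (mem_filter.1 (a2 (hZ1 hz))).2.2 hu
        · exact (mem_sdiff.1 hw).2 (mem_pr.2 hu)
      have hN : ∀ w ∈ N, ¬ Q.Cov K (3, w) ∧ ∃ x ∈ A, ∃ z ∈ Z, Q.L x y z = w := by
        intro w hw
        obtain ⟨_, c1, x, hx, z, hz, c2⟩ := mem_filter.1 (mem_sdiff.1 hw).1
        exact ⟨c1, x, (mem_filter.1 hx).1, z, hz, c2⟩
      have b4 : ∀ w ∈ N, Q.Cov M (3, w) := by
        intro w hw
        by_contra hc
        obtain ⟨_, x, hx, z, hz, rfl⟩ := hN w hw
        obtain ⟨_, Mx, c1, c2, c3, c4, c5, c6, c7, _, c9⟩ := a7 x hx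
        obtain ⟨d1, d2⟩ := c1.insert (e := (x, y, z)) (fun j => by
          fin_cases j
          · exact c5
          · exact c6 y hy
          · exact c7 z (hZ1 hz)
          · exact fun h => hc (c9 _ h))
        have := hmax (insert (x, y, z) Mx) (mem_filter.2 ⟨mem_univ _, d1,
          c2.trans (subset_insert _ _), fun u hu h => (cov_insert.1 h).elim
            (hav x hx z hz hw u hu) (c3 u hu)⟩)
        rw [card_insert_of_notMem d2] at this
        omega
      set X := (M.filter (fun e => Q.co e 3 ∈ N)).image (fun e => e.1)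
      have b5 : N.card ≤ X.card := by
        have hX : X.card = (M.filter (fun e => Q.co e 3 ∈ N)).card :=
          card_image_of_injOn (fun e he f hf hef =>
            m1.eq_of (mem_filter.1 he).1 (mem_filter.1 hf).1 (i := 0) hef)
        rw [hX]
        refine le_trans (card_le_card (fun w hw => ?_)) (card_image_le (f := fun e => Q.co e 3))
        obtain ⟨e, he, hew⟩ := b4 w hw
        exact mem_image.2 ⟨e, mem_filter.2 ⟨he, by rw [show Q.co e 3 = w from hew]; exact hw⟩, hew⟩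
      have b6 : (Fr 0).card + X.card ≤ (A ∪ X).card := by
        rw [← card_union_of_disjoint]
        · exact card_le_card (union_subset_union a5 subset_rfl)
        · rw [disjoint_left]
          intro x hx hx'
          obtain ⟨e, he, rfl⟩ := mem_image.1 hx'
          exact (mem_filter.1 hx).2.1 ⟨e, (mem_filter.1 he).1, rfl⟩
      refine ⟨A ∪ X, Yr.erase y, Zr \ Z, (erase_subset _ _).trans a1, sdiff_subset.trans a2, ?_, ?_,
        a5.trans subset_union_left, ?_, fun x' hx' => ?_⟩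
      · have := card_erase_add_one hy
        omega
      · have := card_sdiff_add_card_eq_card hZ1
        rw [add_mul, one_mul]
        omega
      · have := hFc 0
        rw [add_mul, one_mul]
        omega
      · by_cases hxA : x' ∈ A
        · obtain ⟨c0, Mx, c1, c2, c3, c4, c5, c6, c7, c8, c9⟩ := a7 x' hxA
          exact ⟨c0, Mx, c1, c2, c3, c4, c5, fun y' h => c6 y' (mem_of_mem_erase h),
            fun z h => c7 z (mem_sdiff.1 h).1,
            fun e he h => c8 e he (fun h' => h (mem_union_left _ h')), c9⟩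
        · obtain ⟨e, he, rfl⟩ := mem_image.1 ((mem_union.1 hx').resolve_left hxA)
          obtain ⟨heM, heN⟩ := mem_filter.1 he
          obtain ⟨hwK, x, hx, z, hz, hw⟩ := hN _ heN
          obtain ⟨_, Mx, c1, c2, c3, c4, c5, c6, c7, c8, c9⟩ := a7 x hx
          have heX : e ∈ Mx := c8 e heM hxA
          have hsub : Mx.erase e ⊆ Mx := erase_subset _ _
          have hne : ∀ j, ¬ Q.Cov (Mx.erase e) (j, Q.co e j) := by
            rintro j ⟨f, hf, h⟩
            exact (mem_erase.1 hf).1 (c1.eq_of (hsub hf) heX h)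
          obtain ⟨d1, d2⟩ := (c1.mono hsub).insert (e := (x, y, z)) (fun j => by
            fin_cases j
            · exact fun h => c5 (h.mono hsub)
            · exact fun h => c6 y hy (h.mono hsub)
            · exact fun h => c7 z (hZ1 hz) (h.mono hsub)
            · show ¬ Q.Cov (Mx.erase e) (3, Q.L x y z)
              rw [hw]; exact hne 3)
          refine ⟨fun h => m3 _ h ⟨e, heM, rfl⟩, insert (x, y, z) (Mx.erase e), d1, fun f hf => ?_,
            fun u hu h => ?_, ?_, fun h => ?_, fun y' hy' h => ?_, fun z' hz' h => ?_,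
            fun f hf hfA => ?_, fun w h => ?_⟩
          · refine mem_insert_of_mem (mem_erase.2 ⟨?_, c2 hf⟩)
            rintro rfl
            exact hwK ⟨f, hK' hf, rfl⟩
          · exact (cov_insert.1 h).elim (hav x hx z hz (hw ▸ heN) u hu)
              (fun h => c3 u hu (h.mono hsub))
          · rw [card_insert_of_notMem d2, card_erase_add_one heX, c4]
          · exact (cov_insert.1 h).elim (fun h => hxA (by rw [← show x = e.1 from h]; exact hx))
              (hne 0)
          · exact (cov_insert.1 h).elim (fun h => (mem_erase.1 hy').1 h.symm)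
              (fun h => c6 y' (mem_of_mem_erase hy') (h.mono hsub))
          · exact (cov_insert.1 h).elim
              (fun h => (mem_sdiff.1 hz').2 (by rw [← show z = z' from h]; exact hz))
              (fun h => c7 z' (mem_sdiff.1 hz').1 (h.mono hsub))
          · refine mem_insert_of_mem (mem_erase.2 ⟨?_, c8 f hf (fun h => hfA (mem_union_left _ h))⟩)
            rintro rfl
            exact hfA hx'
          · rcases cov_insert.1 h with h | h
            · exact ⟨e, heM, hw.symm.trans h⟩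
            · exact c9 w (h.mono hsub)
  obtain ⟨A, _, _, _, _, _, _, _, a6, _⟩ := key h le_rfl
  have := (card_le_univ A).trans (le_of_eq (Fintype.card_fin n))
  omega

end Cube

end Pool.Agent.Lib.MP_cdd51b_co
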